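import Pool.Agent.MP_6eaae3_al.EV.Basic

section PartLr

/-! The image of a seed when no path passes through the blocks of one colour. -/

namespace Pool.Agent.MP_6eaae3_al.EV

open FreeGroup (of mk invRev IsReduced)
open Set Pool.Agent.MP_6eaae3_al.LT Pool.Agent.MP_6eaae3_al.LT.Path

namespace Lr

variable {M V : Type} {m : V → V → ℕ} {n : ℕ} {Y : Sy m n M} {N : ℕ} {c : ℕ → V × ℕ}
  {z : ℕ → M × Bool} {θ : FG M →* FreeGroup ℕ}

/-- Only the exits of the chosen cells are remembered. -/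
theorem letter (h : Y.Ta N c z θ of (fun _ => 1) fun _ => 1) (a : Lt M) :
    θ (of a) = 1 ∨ ∃ k, 1 ≤ k ∧ k ≤ N ∧ a = (z k, true) ∧ θ (of a) = of k := by
  by_cases h1 : ∃ k, 1 ≤ k ∧ k ≤ N ∧ a = (z k, true)
  · obtain ⟨k, a1, a2, rfl⟩ := h1
    exact Or.inr ⟨k, a1, a2, rfl, h.zz k a1 a2⟩
  left
  by_cases h2 : ∃ k, 1 ≤ k ∧ k < N ∧ a = (Y.up c k, true)
  · obtain ⟨k, a1, a2, rfl⟩ := h2
    exact h.u1 k a1 a2
  by_cases h3 : ∃ k, 1 < k ∧ k ≤ N ∧ a = (Y.dn c k, false)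
  · obtain ⟨k, a1, a2, rfl⟩ := h3
    exact h.d1 k a1 a2
  exact h.rest a fun k a1 a2 => ⟨fun e => h1 ⟨k, a1, a2, e⟩, fun a3 e => h2 ⟨k, a1, a3, e⟩,
    fun a3 e => h3 ⟨k, a3, a2, e⟩⟩

theorem ii_one (h : Y.Ta N c z θ of (fun _ => 1) fun _ => 1) (w : M × Bool) : θ (ii w) = 1 :=
  (letter h (w, false)).resolve_right fun ⟨_, _, _, e, _⟩ => by simp at e

theorem oo_one (h : Y.Ta N c z θ of (fun _ => 1) fun _ => 1) {w : M × Bool}
    (hw : ∀ k, 1 ≤ k → k ≤ N → w ≠ z k) : θ (oo w) = 1 :=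
  (letter h (w, true)).resolve_right fun ⟨k, a, b, e, _⟩ => hw k a b (congrArg Prod.fst e)

theorem word (h : Y.Ta N c z θ of (fun _ => 1) fun _ => 1) {T : Set ℕ} {l : List (Lt M × Bool)}
    (hl : ∀ a ∈ l, ∀ k, 1 ≤ k → k ≤ N → a.1 = (z k, true) → k ∈ T) : θ (mk l) ∈ Fre T :=
  Fre.map_mem θ (S := {a | ∀ k, 1 ≤ k → k ≤ N → a = (z k, true) → k ∈ T}) (fun a ha => by
    rcases letter h a with e | ⟨k, a1, a2, a3, e⟩
    · exact e ▸ one_mem _
    · exact e ▸ of_mem_Fre (ha k a1 a2 a3)) (mk_mem_Fre hl)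

theorem bg (h : Y.Ta N c z θ of (fun _ => 1) fun _ => 1) {i : ℕ} (i1 : 1 ≤ i) (iN : i ≤ N)
    {B : List (M × Bool)} (hB : ∀ w, B = [w, z i] → ∀ k, 1 ≤ k → k ≤ N → w ≠ z k) {μ l}
    (b : Bg B (z i) μ l) : θ (mk l) = 1 ∨ θ (mk l) = of i := by
  rcases b with rfl | ⟨-, rfl⟩ | ⟨w, e, -, rfl⟩
  · exact Or.inl (map_one θ)
  · exact Or.inr (h.zz i i1 iN)
  · right
    change θ (oo w * (ii (z i))⁻¹ * oo (z i)) = _
    rw [map_mul, map_mul, map_inv, oo_one h (hB w e), ii_one h, h.zz i i1 iN]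
    simp

end Lr

theorem lr (h1 : S_LI) (h2 : S_WP) (h3 : S_TA) (h4 : S_CH) : S_LR := by
  intro V M m n Y S s t N p c i x B y y' e e' k γ r D rs rt hB
  obtain ⟨oy, oy', li⟩ := h1 V M m n Y S s t N p c i x B y y' e e' k D
  have ra : ∀ a ∈ ({s, t} : Set V), r ≠ Sum.inl a := by
    rintro a (rfl | rfl)
    exacts [rs, rt]
  have ex : ∀ j, ∃ (B' : List (M × Bool)) (z : M × Bool),
      (1 ≤ j → j ≤ N → (c j).1 = γ → Y.Bl (c j) r B' ∧ Y.Sg (c j) B' z ∧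
        (j = i → r = x → B' = B)) ∧ ((c j).1 ≠ γ → z = (Y.mr (c j) true, false)) := by
    intro j
    by_cases a : 1 ≤ j ∧ j ≤ N ∧ (c j).1 = γ
    · by_cases b : j = i ∧ r = x
      · obtain ⟨rfl, rfl⟩ := b
        obtain ⟨z, hz⟩ := D.bl.1
        exact ⟨B, z, fun _ _ _ => ⟨D.bl, hz, fun _ _ => rfl⟩, fun h => absurd a.2.2 h⟩
      · obtain ⟨B', hb⟩ := hB (c j).2 (D.cn.lt j a.1 a.2.1)
        rw [← a.2.2] at hb
        obtain ⟨z, hz⟩ := hb.1
        exact ⟨B', z, fun _ _ _ => ⟨hb, hz, fun u v => absurd ⟨u, v⟩ b⟩, fun h => absurd a.2.2 h⟩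
    · exact ⟨[], _, fun u v w => absurd ⟨u, v, w⟩ a, fun _ => rfl⟩
  choose B' z hz hz' using ex
  have at' : Y.At {s, t} N c z := fun j j1 j2 => by
    by_cases a : (c j).1 = γ
    · obtain ⟨b1, b2, -⟩ := hz j j1 j2 a
      exact ⟨((b1.2 _).1 b2.last).1, ((b1.2 _).1 b2.last).att ra⟩
    · rw [hz' j a]
      exact ⟨Y.mrf _ _, Sy.not_on_mr _ _ _⟩
  have idx : ∀ {w j j'}, 1 ≤ j → 1 ≤ j' → w ∈ Y.cl (c j) → w ∈ Y.cl (c j') → j = j' :=
    fun a b u v => D.cn.inj _ _ a b (Y.uq _ _ _ u v)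
  obtain ⟨θ, ta⟩ := h3 V M m n Y {s, t} N c z (FreeGroup ℕ) of (fun _ => 1) (fun _ => 1) D.cn at'
    rfl rfl
  have yc : y ∈ Y.cl (c i) := ((D.bl.2 y).1 D.y1).1
  have yc' : y' ∈ Y.cl (c i) := ((D.bl.2 y').1 D.y2).1
  obtain ⟨Q, A, hA, q1, q2⟩ := h4 V M m n Y s t N p c z (FreeGroup ℕ) θ of (fun _ => 1)
    (fun _ => 1) i y D.ne D.cn D.col at' ta D.i1 D.iN yc oy
  have fst : ∀ w w', B = [w, w'] → θ (oo w) = 1 := fun w w' eB => Lr.oo_one ta fun j j1 j2 ew => by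
    obtain ⟨z0, sg⟩ := D.bl.1
    have bk : ∀ v ∈ [w, w'], Y.Bk (c i) x v := fun v hv => (D.bl.2 v).1 (eB ▸ hv)
    have ne : w ≠ w' := Sy.Sg.ne (eB ▸ sg)
    obtain rfl : j = i := idx j1 D.i1 (at' j j1 j2).1 (ew ▸ (bk w (by simp)).1)
    by_cases a : (c j).1 = γ
    · obtain ⟨b1, b2, b3⟩ := hz j j1 j2 a
      have rx : r = x := ((b1.2 _).1 b2.last).uq (ew ▸ bk w (by simp))
      rw [b3 rfl rx, eB] at b2
      rcases b2.2 with b | ⟨_, b⟩
      · simp at b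
      · exact ne (ew.trans (by simpa using (List.cons.inj b).2 : w' = z j).symm)
    · have b : Y.Bk (c j) (Sum.inr true) w := ⟨(bk w (by simp)).1, ew.trans (hz' j a)⟩
      have b' := bk w' (by simp)
      rw [(bk w (by simp)).uq b] at b'
      exact ne ((show w = _ from b.2).trans (show w' = _ from b'.2).symm)
  have rn : θ (Y.Rn (c i) y 0 y') = 1 := by
    obtain ⟨z0, sg⟩ := D.bl.1
    rcases sg.rn D.y1 D.y2 with ⟨a, -⟩ | ⟨a, -, b⟩ | ⟨a, -, b⟩
    · rw [a, map_one]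
    · rw [b, map_mul, map_inv, fst _ _ a, Lr.ii_one ta]; simp
    · rw [b, map_mul, map_inv, fst _ _ a, Lr.ii_one ta]; simp
  let P : Pu (PresentedGroup.of s : Art m) (PresentedGroup.of t) N p :=
    ⟨Q.f, Q.v, Q.W, fun j a b => by simpa using q1 j a b, Q.f0, Q.own, Q.oth, Q.arc⟩
  refine ⟨P, fun g hg np => ?_⟩
  obtain ⟨l, l1, l2, l3, l4, l5⟩ := li g hg
  have el : θ (mk l) = A⁻¹ * Cw P g i e k e' * A := by
    obtain ⟨a, b⟩ := q2 g hg
    have c0 : ∀ w : FreeGroup ℕ, (A⁻¹ * w * A) ^ k = A⁻¹ * w ^ k * A := fun w => by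
      simpa using conj_zpow (i := k) (a := A⁻¹) (b := w)
    rw [l5, map_mul, map_mul, map_mul, rn, map_zpow, b, c0]
    cases e <;> cases e' <;> simp only [Cw, P, if_true, Bool.false_eq_true, if_false, map_inv, a,
      map_one] <;> group
  have wp : ∀ j, 1 ≤ j → j ≤ N → (c j).1 = γ → ∃ l₁ l' l₂, l = l₁ ++ l' ++ invRev l₂ ∧
      (∀ a ∈ l', a.1 ≠ (z j, true)) ∧ Bg (B' j) (z j) y.1 l₁ ∧ Bg (B' j) (z j) y'.1 l₂ :=
    fun j j1 j2 a => by
      obtain ⟨b1, b2, -⟩ := hz j j1 j2 a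
      have ps : ¬ Hs (Y.im g S) (pw (B' j)) := fun h => np ⟨c j, B' j, a, D.cn.lt j j1 j2, b1, h⟩
      exact h2 V M m n Y {s, t} (c j) (B' j) (z j) _ _ l b2 (fun w hw => ((b1.2 w).1 hw).att ra)
        l3 l2 l4 (fun h => ps (l1.inf h)) fun h => ps (invRev_inv (pw (B' j)) ▸ (l1.inf h).rev)
  have no : ∀ a ∈ l, ∀ j, 1 ≤ j → j ≤ N → (c j).1 = γ → a.1 = (z j, true) → j = i := by
    intro a ha j j1 j2 u v
    by_contra ne
    obtain ⟨b1, b2, -⟩ := hz j j1 j2 u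
    have nil : ∀ w l₀, w ∈ Y.cl (c i) → ¬ Y.On {s, t} (opp w) → Bg (B' j) (z j) w.1 l₀ → l₀ = [] := by
      intro w l₀ w1 w2 b
      have key : ∀ v ∈ B' j, w.1 ≠ v.1 := fun v hv ev => by
        have vc := b2.mem hv
        have := cell_eq ev.symm fun h => w2 (h ▸ D.cn.on j1 j2 vc)
        exact ne (idx j1 D.i1 vc (this ▸ w1))
      rcases b with b | ⟨b, -⟩ | ⟨v, b, b', -⟩
      · exact b
      · exact absurd b (key _ b2.last)
      · exact absurd b' (key v (by simp [b]))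
    obtain ⟨l₁, l', l₂, d1, d2, d3, d4⟩ := wp j j1 j2 u
    rw [nil y _ yc oy d3, nil y' _ yc' oy' d4] at d1
    exact d2 a (by simpa [d1] using ha) v
  have par := D.par
  have colS : ∀ j : ℕ, j % 2 ≠ i % 2 → (c j).1 = s := fun j h => by
    rw [D.col, yy, if_pos (by omega)]
  have colT : ∀ j : ℕ, j % 2 = i % 2 → (c j).1 = t := fun j h => by
    rw [D.col, yy, if_neg (by omega)]
  refine ⟨fun eγ => ?_, fun eγ => ?_⟩
  · have a : θ (mk l) ∈ Fre (Tp i) := Lr.word ta fun a ha j j1 j2 v => by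
      by_contra b
      exact b (no a ha j j1 j2 ((colS j b).trans eγ.symm) v ▸ rfl)
    have b : A ∈ Fre (Tp i) := hA.elim (fun h => h ▸ one_mem _) fun h => h ▸ of_mem_Fre rfl
    have : Cw P g i e k e' = A * θ (mk l) * A⁻¹ := by rw [el]; group
    exact this ▸ mul_mem (mul_mem b a) (inv_mem b)
  · have ci : (c i).1 = γ := (colT i rfl).trans eγ.symm
    obtain ⟨l₁, l', l₂, d1, d2, d3, d4⟩ := wp i D.i1 D.iN ci
    have a : θ (mk l') ∈ Fre (Tp i)ᶜ := Lr.word ta fun a ha j j1 j2 v b =>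
      d2 a ha (no a (by simp [d1, ha]) j j1 j2 ((colT j b).trans eγ.symm) v ▸ v)
    have hb : ∀ w, B' i = [w, z i] → ∀ j, 1 ≤ j → j ≤ N → w ≠ z j := fun w eB j j1 j2 ew => by
      have sg := (hz i D.i1 D.iN ci).2.1
      obtain rfl : j = i := idx j1 D.i1 (at' j j1 j2).1 (ew ▸ sg.mem (by simp [eB]))
      exact Sy.Sg.ne (eB ▸ sg) ew
    have bad : Bad (of i) (Fre (Tp i)ᶜ) (θ (mk l)) := by
      rw [d1, ← FreeGroup.mul_mk, ← FreeGroup.mul_mk, ← FreeGroup.inv_mk, map_mul, map_mul, map_inv]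
      refine ⟨_, a, ?_⟩
      rcases Lr.bg ta D.i1 D.iN hb d3 with u | u <;> rcases Lr.bg ta D.i1 D.iN hb d4 with v | v <;>
        simp [u, v]
    rw [el] at bad
    rcases hA with rfl | rfl
    · exact ⟨0, by simpa using bad⟩
    · exact ⟨1, by simpa using bad⟩

end Pool.Agent.MP_6eaae3_al.EV

end PartLr

section PartLs

/-! The image of a seed when no good passage on the two colours of the chain exists. -/

namespace Pool.Agent.MP_6eaae3_al.EV

open FreeGroup (of mk invRev IsReduced)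
open Set Pool.Agent.MP_6eaae3_al.LT Pool.Agent.MP_6eaae3_al.LT.Path

namespace Ls

variable {M V H H' : Type} {m : V → V → ℕ} {n : ℕ} {Y : Sy m n M} {S : Set (FG M)} {s t : V}
  {N : ℕ} {p : ℤ} {c : ℕ → V × ℕ} {i : ℕ} {x : V ⊕ Bool} {B : List (M × Bool)} {y y' : M × Bool}
  {e e' : Bool} {k : ℤ}

/-- The free cells: the second marks of the curves of the chain. -/
def zz (Y : Sy m n M) (c : ℕ → V × ℕ) (k : ℕ) : M × Bool := (Y.mr (c k) true, false)

theorem zz_at (X : Set V) : Y.At X N c (zz Y c) :=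
  fun k _ _ => ⟨Y.mrf (c k) true, Sy.not_on_mr X (c k) true⟩

theorem ta_comp [Group H] [Group H'] {z : ℕ → M × Bool} {θ : FG M →* H} {F u ι : ℕ → H}
    (h : Y.Ta N c z θ F u ι) (ρ : H →* H') :
    Y.Ta N c z (ρ.comp θ) (fun k => ρ (F k)) (fun k => ρ (u k)) (fun k => ρ (ι k)) where
  zz k a b := congrArg ρ (h.zz k a b)
  u1 k a b := congrArg ρ (h.u1 k a b)
  d1 k a b := congrArg ρ (h.d1 k a b)
  uN := by rw [h.uN, map_one]
  i1 := by rw [h.i1, map_one]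
  rest a ha := by rw [MonoidHom.comp_apply, h.rest a ha, map_one]

theorem par_eq (s t : V) : Par m {s, t} =
    Subgroup.closure {(PresentedGroup.of s : Art m), PresentedGroup.of t} := by
  rw [Par, image_pair]

theorem att (D : Sdd Y S s t N p c i x B y y' e e' k) {w} (hw : w ∈ B) : ¬ Y.On {s, t} (opp w) :=
  Sy.Bk.att ((D.bl.2 w).1 hw) (by
    rintro a (rfl | rfl)
    exacts [D.xs, D.xt])

/-- The letters of a block with two cells are killed. -/
theorem kill [Group H] {θ : FG M →* H} {F u ι : ℕ → H} (D : Sdd Y S s t N p c i x B y y' e e' k)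
    (h : Y.Ta N c (zz Y c) θ F u ι) {w w'} (hw : w ∈ B) (hw' : w' ∈ B) (ne : w ≠ w') (b : Bool) :
    θ (of (w, b)) = 1 := by
  refine h.rest _ fun j j1 jN => ⟨fun a => ?_, fun jl a => ?_, fun jl a => ?_⟩
  · have a : w = zz Y c j := congrArg Prod.fst a
    have bw := (D.bl.2 w).1 hw
    have cj : c i = c j := Y.uq _ _ _ bw.1 (a ▸ Y.mrf (c j) true)
    have hx : x = Sum.inr true := bw.uq ⟨bw.1, by rw [cj]; exact a⟩
    have bw' := (D.bl.2 w').1 hw'
    rw [hx] at bw bw'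
    exact ne ((show w = _ from bw.2).trans (show w' = _ from bw'.2).symm)
  · have a : w = Y.up c j := congrArg Prod.fst a
    exact att D hw (a ▸ (D.cn.upo jl).resolve_right (by omega))
  · have a : w = Y.dn c j := congrArg Prod.fst a
    exact att D hw (a ▸ D.cn.dno jl jN)

theorem rn_one [Group H] {θ : FG M →* H} {F u ι : ℕ → H} (D : Sdd Y S s t N p c i x B y y' e e' k)
    (h : Y.Ta N c (zz Y c) θ F u ι) : θ (Y.Rn (c i) y 0 y') = 1 := by
  obtain ⟨z, sg⟩ := D.bl.1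
  rcases sg.rn D.y1 D.y2 with ⟨a, -⟩ | ⟨a, -, b⟩ | ⟨a, -, b⟩
  · rw [a, map_one]
  · have ne : y ≠ y' := Sy.Sg.ne (a ▸ sg)
    rw [b, map_mul, map_inv, oo, ii, kill D h D.y1 D.y2 ne, kill D h D.y2 D.y1 ne.symm, inv_one,
      mul_one]
  · have ne : y' ≠ y := Sy.Sg.ne (a ▸ sg)
    rw [b, map_mul, map_inv, oo, ii, kill D h D.y1 D.y2 ne.symm, kill D h D.y2 D.y1 ne, inv_one,
      mul_one]

theorem exists_pu (h2 : S_TA) (h3 : S_CH) (D : Sdd Y S s t N p c i x B y y' e e' k) :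
    Nonempty (Pu (PresentedGroup.of s : Art m) (PresentedGroup.of t) N p) := by
  obtain ⟨θ, h⟩ := h2 V M m n Y _ N c _ (FreeGroup ℕ) of (fun _ => 1) (fun _ => 1) D.cn (zz_at _) rfl rfl
  obtain ⟨Q, -, -, a, -⟩ := h3 V M m n Y s t N p c _ _ θ _ _ _ i y D.ne D.cn D.col (zz_at _) h D.i1 D.iN
    ((D.bl.2 y).1 D.y1).1 (att D D.y1)
  exact ⟨⟨Q.f, Q.v, Q.W, fun k u v => by simpa using a k u v, Q.f0, Q.own, Q.oth, Q.arc⟩⟩

/-- The value of the image of the seed. -/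
theorem val (h3 : S_CH) (h4 : S_UQ) [Group H] {θ : FG M →* H} {F u ι : ℕ → H}
    (D : Sdd Y S s t N p c i x B y y' e e' k) (h : Y.Ta N c (zz Y c) θ F u ι)
    (P : Pu (PresentedGroup.of s : Art m) (PresentedGroup.of t) N p) (ξ : FreeGroup ℕ →* H)
    (hξ : ∀ k, 1 ≤ k → k ≤ N → u k * F k * (ι k)⁻¹ = ξ (of k)) {g} (hg : g ∈ Par m {s, t}) :
    ∃ A, (A = 1 ∨ A = F i) ∧ θ ((if e then (Y.lam g (rx y))⁻¹ else 1) * Y.ψ g (Y.ell y) ^ k *
      (if e' then Y.lam g (rx y) else 1) * Y.Rn (c i) y 0 y') =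
        A⁻¹ * ((u i)⁻¹ * ξ (Cw P g i e k e') * u i) * A := by
  obtain ⟨Q, A, hA, a, b⟩ := h3 V M m n Y s t N p c _ _ θ _ _ _ i y D.ne D.cn D.col (zz_at _) h D.i1
    D.iN ((D.bl.2 y).1 D.y1).1 (att D D.y1)
  obtain ⟨b1, b2⟩ := b g hg
  obtain ⟨c1, c2, c3⟩ := h4 _ _ _ N p P H Q ξ u
    (fun k u v => ⟨(a k u v).1.trans (hξ k u v), (a k u v).2⟩) g (par_eq s t ▸ hg) i D.i1 D.iN
  rw [c3 D.par] at b1
  rw [c1, c2] at b2
  refine ⟨A, hA, ?_⟩
  have b3 : θ (Y.ψ g (Y.ell y)) =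
      (u i * A)⁻¹ * ξ ((P.v g i)⁻¹ * P.f g i * P.v g i) * (u i * A)⁻¹⁻¹ := by
    rw [b2]; simp only [map_mul, map_inv]; group
  rw [map_mul, rn_one D h, mul_one, map_mul, map_mul, map_zpow, b3, conj_zpow, Cw, map_mul ξ _ (ite _ _ _),
    map_mul ξ (ite _ _ _), map_zpow]
  generalize ξ ((P.v g i)⁻¹ * P.f g i * P.v g i) ^ k = T
  cases e <;> cases e' <;> simp only [Bool.false_eq_true, if_true, if_false, map_one, map_inv, b1] <;>
    group

theorem en_conj [Group H] {o η A w : H} {K K' : Subgroup H} (hK : K ≤ K') (hA : A = 1 ∨ A = o)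
    (h : En o η K (A⁻¹ * w * A)) : En o η K' w := by
  obtain ⟨a, b, κ, δ, δ', h1, h2, h3, h4⟩ := h
  have h5 : w = A * (o ^ a * δ * κ * δ'⁻¹ * o ^ b) * A⁻¹ := by rw [← h4]; group
  rcases hA with rfl | rfl
  · exact ⟨a, b, κ, δ, δ', hK h1, h2, h3, by rw [h5]; group⟩
  · exact ⟨a + 1, b - 1, κ, δ, δ', hK h1, h2, h3, by rw [h5]; group⟩

/-- The products of every second letter. -/
def E : ℕ → FreeGroup ℕ
  | 0 => 1
  | 1 => 1
  | j + 2 => of (j + 1) * E j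

/-- The sides are sent to products of even letters, the side `j` being killed. -/
def rho (j : ℕ) : FH →* FreeGroup ℕ :=
  FreeGroup.lift fun a => if a.2 then E a.1 * (E j)⁻¹ else of a.1

theorem rho_ff (j k : ℕ) : rho j (ff k) = of k := by simp [rho, ff]

theorem rho_et {j k : ℕ} (a : 1 ≤ k) (b : k ≤ N) : rho j (et N k) = E k * (E j)⁻¹ := by
  simp [rho, et, a, b]

theorem rho_id (hN : N % 2 = 1) (j k : ℕ) (a : 1 ≤ k) (b : k ≤ N) :
    rho j (if k % 2 = 1 then 1 else et N (k + 1)) * rho j (if k % 2 = 1 then ff k else 1) *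
      (rho j (if k % 2 = 1 then 1 else et N (k - 1)))⁻¹ = MonoidHom.id _ (of k) := by
  by_cases h : k % 2 = 1
  · simp [h, rho_ff]
  · obtain ⟨k, rfl⟩ : ∃ k', k = k' + 1 := ⟨k - 1, by omega⟩
    simp only [h, if_false, Nat.add_sub_cancel, MonoidHom.id_apply, map_one]
    rw [rho_et (by omega) (by omega), rho_et (by omega) (by omega), show k + 1 + 1 = k + 2 from rfl, E]
    group

theorem xi_eq (k : ℕ) :
    (if k % 2 = 0 then 1 else et N (k + 1)) * (if k % 2 = 0 then ff k else 1) *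
      (if k % 2 = 0 then 1 else et N (k - 1))⁻¹ = xi N 0 (of k) := by
  by_cases h : k % 2 = 0 <;> simp [h, xi]

theorem rho_mem {j : ℕ} {D : Set (ℕ × Bool)} {T : Set ℕ} (h : ∀ a ∈ D, a.2 = false ∧ a.1 ∈ T) {w}
    (hw : w ∈ Fre D) : rho j w ∈ Fre T :=
  Fre.map_mem _ (fun a ha => by
    obtain ⟨a, b⟩ := a
    obtain ⟨rfl, u⟩ : b = false ∧ a ∈ T := h _ ha
    exact (rho_ff j a).symm ▸ of_mem_Fre u) hw

/-- What `S_DE` gives for the image of the seed. -/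
theorem de (h1 : S_LI) (h2 : S_TA) (h5 : S_DE) (D : Sdd Y S s t N p c i x B y y' e e' k) (kk π : ℕ)
    {γ γ' : V} (hX : ({γ, γ'} : Set V) = {s, t}) (ne : γ ≠ γ')
    (col : ∀ k, (c k).1 = if k % 2 = π then γ else γ') {g} (hg : g ∈ Par m {s, t})
    (hn : ¬ Y.Sd kk (Y.im g S) γ (Sum.inl γ')) :
    ∃ θ : FG M →* FH, Y.Ta N c (zz Y c) θ (fun k => if k % 2 = π then ff k else 1)
      (fun k => if k % 2 = π then 1 else et N (k + 1))
      (fun k => if k % 2 = π then 1 else et N (k - 1)) ∧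
      ∀ w, w = (if e then (Y.lam g (rx y))⁻¹ else 1) * Y.ψ g (Y.ell y) ^ k *
        (if e' then Y.lam g (rx y) else 1) * Y.Rn (c i) y 0 y' →
      (i % 2 ≠ π → θ w ∈ Fre {x | x.2 = false ∧ x.1 % 2 = π ∧ ¬ (c x.1).2 < kk}) ∧
      (i % 2 = π → En (ff i) (et N i) (Fre {x | x.2 = false ∧ x.1 % 2 = π ∧ ¬ (c x.1).2 < kk})
        (θ w)) := by
  obtain ⟨θ, h⟩ := h2 V M m n Y _ N c _ FH (fun k => if k % 2 = π then ff k else 1)
    (fun k => if k % 2 = π then 1 else et N (k + 1)) (fun k => if k % 2 = π then 1 else et N (k - 1))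
    D.cn (zz_at _) (by simp [et]) (by simp [et])
  obtain ⟨a1, a2, a3⟩ := h1 V M m n Y S s t N p c i x B y y' e e' k D
  obtain ⟨l, l1, -, l3, l4, l5⟩ := a3 g hg
  refine ⟨θ, h, fun w hw => ?_⟩
  rw [hw, ← l5]
  exact h5 V M m n Y kk _ γ γ' N π i c _ θ y y' l (hX ▸ D.cn) col ne (zz_at _) h D.i1 D.iN
    ((D.bl.2 y).1 D.y1).1 ((D.bl.2 y').1 D.y2).1 (hX ▸ a1) (hX ▸ a2) l3 (hX ▸ l4) l1 hn

theorem sub0 {kk : ℕ} (h : (c 2).2 < kk) :
    Fre {x : ℕ × Bool | x.2 = false ∧ x.1 % 2 = 0 ∧ ¬ (c x.1).2 < kk} ≤ Fre D0 :=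
  Fre.mono fun _ a => ⟨a.1, a.2.1, fun u => a.2.2 (u ▸ h)⟩

end Ls

open Ls in
theorem ls (h1 : S_LI) (h2 : S_TA) (h3 : S_CH) (h4 : S_UQ) (h5 : S_DE) : S_LS := by
  intro V M m n Y S s t N p c i x B y y' e e' k kk D hN hk
  obtain ⟨P⟩ := exists_pu h2 h3 D
  have par := D.par
  have i1 := D.i1
  have iN := D.iN
  have ct : ∀ π, i % 2 = π → ∀ k, (c k).1 = if k % 2 = π then t else s := fun π a k => by
    rw [D.col, yy]; split_ifs <;> first | rfl | omega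
  have cs : ∀ π, (i + 1) % 2 = π → ∀ k, (c k).1 = if k % 2 = π then s else t := fun π a k => by
    rw [D.col, yy]; split_ifs <;> first | rfl | omega
  refine ⟨P, fun g hg => ⟨fun hn => ⟨fun hi => ?_, fun hi => ?_⟩, fun hn => ⟨fun hi => ?_, fun hi => ?_⟩⟩⟩
  · obtain ⟨θ, h, a⟩ := de h1 h2 h5 D kk 1 (pair_comm t s) D.ne.symm (ct 1 hi) hg hn
    obtain ⟨A, hA, b⟩ := val h3 h4 D (ta_comp h (rho i)) P _ (rho_id hN i) hg
    obtain ⟨a, a', κ, δ, δ', d1, d2, d3, d4⟩ := (a _ rfl).2 hi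
    have oi : of i ∈ Fre (Tp i) := of_mem_Fre rfl
    have eh : rho i (et N i) = 1 := by rw [rho_et i1 iN, mul_inv_cancel]
    have hδ : ∀ δ, δ = 1 ∨ δ = et N i → rho i δ = 1 := by
      rintro _ (rfl | rfl)
      exacts [map_one _, eh]
    have hA' : A ∈ Fre (Tp i) := by
      rcases hA with rfl | rfl
      · exact one_mem _
      · simpa only [hi, if_true, rho_ff] using oi
    rw [MonoidHom.comp_apply, d4] at b
    simp only [hi, if_true, map_one, map_mul, map_inv, map_zpow, hδ δ d2, hδ δ' d3, rho_ff,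
      MonoidHom.id_apply] at b
    have : Cw P g i e k e' = A * (of i ^ a * rho i κ * of i ^ a') * A⁻¹ := by
      rw [show of i ^ a * rho i κ * of i ^ a' = of i ^ a * 1 * rho i κ * 1⁻¹ * of i ^ a' by group, b]
      group
    rw [this]
    exact mul_mem (mul_mem hA' (mul_mem (mul_mem (zpow_mem oi _)
      (rho_mem (fun a ha => ⟨ha.1, ha.2.1.trans hi.symm⟩) d1)) (zpow_mem oi _))) (inv_mem hA')
  · obtain ⟨θ, h, a⟩ := de h1 h2 h5 D kk 0 (pair_comm t s) D.ne.symm (ct 0 hi) hg hn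
    obtain ⟨A, hA, b⟩ := val h3 h4 D h P (xi N 0) (fun k _ _ => xi_eq k) hg
    have a := (a _ rfl).2 hi
    rw [b] at a
    simp only [hi, if_true, inv_one, one_mul, mul_one] at a hA
    exact en_conj (sub0 hk) hA a
  · obtain ⟨θ, h, a⟩ := de h1 h2 h5 D kk 1 rfl D.ne (cs 1 (by omega)) hg hn
    obtain ⟨A, hA, b⟩ := val h3 h4 D (ta_comp h (rho (i + 1))) P _ (rho_id hN (i + 1)) hg
    have hi' : ¬ i % 2 = 1 := by omega
    have a := rho_mem (j := i + 1) (T := (Tp i)ᶜ)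
      (fun a ha => ⟨ha.1, fun u => hi' ((show a.1 % 2 = i % 2 from u).symm.trans ha.2.1)⟩)
      ((a _ rfl).1 hi')
    have eh : rho (i + 1) (et N (i + 1)) = 1 := by rw [rho_et (by omega) (by omega), mul_inv_cancel]
    rw [MonoidHom.comp_apply] at b
    rw [b] at a
    simp only [hi', if_false, map_one, or_self] at hA
    simpa only [hA, hi', if_false, eh, inv_one, one_mul, mul_one, MonoidHom.id_apply] using a
  · obtain ⟨θ, h, a⟩ := de h1 h2 h5 D kk 0 rfl D.ne (cs 0 (by omega)) hg hn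
    obtain ⟨A, hA, b⟩ := val h3 h4 D h P (xi N 0) (fun k _ _ => xi_eq k) hg
    have hi' : ¬ i % 2 = 0 := by omega
    have a := sub0 hk ((a _ rfl).1 hi')
    rw [b] at a
    simp only [hi', if_false, or_self] at hA
    simpa only [hA, hi', if_false, inv_one, one_mul, mul_one] using a

end Pool.Agent.MP_6eaae3_al.EV

end PartLs

section PartDe

/-! The image of a path in a chain without good passages. -/

namespace Pool.Agent.MP_6eaae3_al.EV

open FreeGroup (of mk invRev IsReduced)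
open Set Pool.Agent.MP_6eaae3_al.LT Pool.Agent.MP_6eaae3_al.LT.Path

namespace De

variable {V M : Type} {m : V → V → ℕ} {n : ℕ} {Y : Sy m n M}

theorem cell_cases {x y : M × Bool} (h : x.1 = y.1) : x = y ∨ x = opp y := by
  obtain ⟨a, b⟩ := x
  obtain ⟨a', b'⟩ := y
  cases h
  cases b <;> cases b' <;> simp [opp]

theorem mk_two (a b : Lt M) (l : List (Lt M × Bool)) :
    mk ((a, true) :: (b, false) :: l) = of a * (of b)⁻¹ * mk l := rfl

theorem ed_rn {a b : Lt M} {q} (h : Y.Ed a b) (ha : a.1 ∈ Y.cl q) :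
    b.1 ∈ Y.cl q ∧ ∃ k, of a * (of b)⁻¹ = Y.Rn q a.1 k b.1 := by
  obtain ⟨a, a'⟩ := a
  obtain ⟨b, b'⟩ := b
  rcases h with h | ⟨h1, h2, h⟩ | ⟨h1, h2, h⟩
  · cases h
    exact ⟨ha, 0, by rw [Sy.Rn_self, mul_inv_cancel]⟩
  · cases h1
    cases h2
    exact (h.rn (Or.inl ha)).2
  · cases h1
    cases h2
    obtain ⟨u, -, k, e⟩ := h.rn (Or.inr ha)
    exact ⟨u, -k, by rw [← Sy.Rn_inv, ← e, mul_inv_rev, inv_inv]; rfl⟩

/-- A path runs along a curve until it turns. -/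
theorem trip {μ ν l} (h : Y.Pth μ l ν) {q} : ∀ y ∈ Y.cl q, y.1 = μ → ∃ l₁ l₂ y' k, l = l₁ ++ l₂ ∧
    y' ∈ Y.cl q ∧ mk l₁ = Y.Rn q y k y' ∧ ((l₂ = [] ∧ y'.1 = ν) ∨ ∃ b b' l₃,
      l₂ = (b, true) :: (b', false) :: l₃ ∧ b.1 = opp y' ∧ Y.Ed b b' ∧ Y.Pth b'.1.1 l₃ ν) := by
  induction h with
  | nil μ => exact fun y hy e => ⟨[], [], y, 0, rfl, hy, (Sy.Rn_self _ _).symm, Or.inl ⟨rfl, e⟩⟩
  | @cons a b l ν ed p ih =>
    intro y hy e
    rcases cell_cases e.symm with rfl | h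
    · obtain ⟨u, k, hk⟩ := ed_rn ed hy
      obtain ⟨l₁, l₂, y', k', rfl, v, w, x⟩ := ih b.1 u rfl
      exact ⟨(a, true) :: (b, false) :: l₁, l₂, y', k + k', rfl, v,
        by rw [mk_two, hk, w, Sy.Rn_mul], x⟩
    · exact ⟨[], _, y, 0, rfl, hy, (Sy.Rn_self _ _).symm, Or.inr ⟨a, b, l, rfl, h, ed, p⟩⟩

/-- The data of the chain. -/
structure Dat (Y : Sy m n M) (γ γ' : V) (N π : ℕ) (c : ℕ → V × ℕ) (z : ℕ → M × Bool)
    (θ : FG M →* FH) : Prop where
  cn : Y.Cn {γ, γ'} N c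
  col : ∀ k, (c k).1 = if k % 2 = π then γ else γ'
  att : Y.At {γ, γ'} N c z
  ta : Y.Ta N c z θ (fun k => if k % 2 = π then ff k else 1)
    (fun k => if k % 2 = π then 1 else et N (k + 1)) (fun k => if k % 2 = π then 1 else et N (k - 1))

variable {γ γ' : V} {N π : ℕ} {c : ℕ → V × ℕ} {z : ℕ → M × Bool} {θ : FG M →* FH}
  (D : Dat Y γ γ' N π c z θ) {k j : ℕ} {x x' : M × Bool}

include D

theorem Dat.idx (k1 : 1 ≤ k) (j1 : 1 ≤ j) (a : x ∈ Y.cl (c k)) (b : x ∈ Y.cl (c j)) : k = j :=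
  D.cn.inj k j k1 j1 (Y.uq _ _ _ a b)

theorem Dat.rest (k1 : 1 ≤ k) (a : x ∈ Y.cl (c k)) {b : Bool} (h1 : (x, b) ≠ (z k, true))
    (h2 : k < N → (x, b) ≠ (Y.up c k, true)) (h3 : 1 < k → (x, b) ≠ (Y.dn c k, false)) :
    θ (of (x, b)) = 1 := by
  refine D.ta.rest _ fun j j1 jN => ⟨fun e => ?_, fun h e => ?_, fun h e => ?_⟩
  · obtain rfl := D.idx k1 j1 a ((show x = _ from congrArg Prod.fst e) ▸ (D.att j j1 jN).1)
    exact h1 e
  · obtain rfl := D.idx k1 j1 a ((show x = _ from congrArg Prod.fst e) ▸ D.cn.upm j1 h)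
    exact h2 h e
  · obtain rfl := D.idx k1 j1 a ((show x = _ from congrArg Prod.fst e) ▸ D.cn.dnm h jN)
    exact h3 h e

theorem Dat.own (k1 : 1 ≤ k) (kN : k ≤ N) (hk : k % 2 = π) (a : x ∈ Y.cl (c k)) {b : Bool}
    (h1 : (x, b) ≠ (z k, true)) : θ (of (x, b)) = 1 := by
  by_cases h2 : k < N ∧ (x, b) = (Y.up c k, true)
  · rw [h2.2]
    exact (D.ta.u1 k k1 h2.1).trans (if_pos hk)
  by_cases h3 : 1 < k ∧ (x, b) = (Y.dn c k, false)
  · rw [h3.2]
    exact (D.ta.d1 k h3.1 kN).trans (if_pos hk)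
  exact D.rest k1 a h1 (fun h e => h2 ⟨h, e⟩) fun h e => h3 ⟨h, e⟩

theorem Dat.free (k1 : 1 ≤ k) (kN : k ≤ N) (hk : k % 2 ≠ π) (a : x ∈ Y.cl (c k))
    (h : ¬ Y.On {γ, γ'} (opp x)) (b : Bool) : θ (of (x, b)) = 1 := by
  by_cases h1 : (x, b) = (z k, true)
  · rw [h1]
    exact (D.ta.zz k k1 kN).trans (if_neg hk)
  refine D.rest k1 a h1 (fun u e => h ?_) fun u e => h ?_
  · rw [show x = _ from congrArg Prod.fst e]
    exact (D.cn.upo u).resolve_right (by omega)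
  · rw [show x = _ from congrArg Prod.fst e]
    exact D.cn.dno u kN

theorem Dat.pow (k1 : 1 ≤ k) (kN : k ≤ N) (hk : k % 2 = π) {w : FG M}
    (h : w ∈ Fre {a : Lt M | a.1 ∈ Y.cl (c k)}) : ∃ a : ℤ, θ w = ff k ^ a := by
  obtain ⟨a, e⟩ := Fre.map_mem θ (K := Subgroup.zpowers (ff k)) (fun a ha => by
    by_cases h1 : a = (z k, true)
    · rw [h1, show θ (of (z k, true)) = ff k from (D.ta.zz k k1 kN).trans (if_pos hk)]
      exact Subgroup.mem_zpowers _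
    · rw [show θ (of a) = 1 from D.own k1 kN hk ha h1]
      exact one_mem _) h
  exact ⟨a, e.symm⟩

theorem Dat.full (k1 : 1 ≤ k) (kN : k ≤ N) (hk : k % 2 = π) : θ (pp (Y.cl (c k))) = ff k := by
  obtain ⟨l, l', e⟩ := List.append_of_mem (D.att k k1 kN).1
  have nd := Y.nodup (c k)
  rw [e] at nd
  have key : ∀ s : List (M × Bool), (∀ x ∈ s, x ∈ Y.cl (c k) ∧ x ≠ z k) → θ (pp s) = 1 :=
    fun s hs => pp_mem (K := θ.ker) fun x hx => mul_mem
      (inv_mem (D.own k1 kN hk (hs x hx).1 fun u => by simp at u))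
      (D.own k1 kN hk (hs x hx).1 fun u => (hs x hx).2 (congrArg Prod.fst u))
  rw [e, pp_append, pp_cons, map_mul, map_mul, map_mul, map_inv,
    key l fun x hx => ⟨by simp [e, hx], (List.nodup_append.1 nd).2.2 x hx _ (by simp)⟩,
    key l' fun x hx => ⟨by simp [e, hx], fun u =>
      (List.nodup_cons.1 (List.nodup_append.1 nd).2.1).1 (u ▸ hx)⟩,
    show θ (ii (z k)) = 1 from D.own k1 kN hk (D.att k k1 kN).1 fun u => by simp at u,
    show θ (oo (z k)) = ff k from (D.ta.zz k k1 kN).trans (if_pos hk)]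
  simp

theorem Dat.ell (k1 : 1 ≤ k) (kN : k ≤ N) (hk : k % 2 = π) (a : x ∈ Y.cl (c k)) :
    θ (Y.ell x) = ff k := by
  classical
  obtain ⟨i, e⟩ := D.pow k1 kN hk (w := Y.sg (c k) x) (mul_mem (pp_mem fun u hu =>
    have := (List.takeWhile_sublist _).subset hu
    mul_mem (inv_mem (of_mem_Fre this)) (of_mem_Fre this)) (inv_mem (of_mem_Fre a)))
  rw [Sy.ell_Rn a, Sy.Rn, zpow_one, map_mul, map_mul, map_inv, e, D.full k1 kN hk]
  group

theorem Dat.nbr (k1 : 1 ≤ k) (kN : k ≤ N) (a : x ∈ Y.cl (c k)) (h : Y.On {γ, γ'} (opp x)) :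
    ∃ j, 1 ≤ j ∧ j ≤ N ∧ opp x ∈ Y.cl (c j) ∧ (k % 2 = π ↔ j % 2 ≠ π) := by
  obtain ⟨j, j1, jN, b, d⟩ : ∃ j, 1 ≤ j ∧ j ≤ N ∧ opp x ∈ Y.cl (c j) ∧ k % 2 ≠ j % 2 := by
    rcases D.cn.cell k k1 kN x a h with ⟨u, rfl⟩ | ⟨u, rfl⟩
    · exact ⟨k + 1, by omega, u, D.cn.dnm (by omega) u, by omega⟩
    · obtain ⟨k, rfl⟩ : ∃ k', k = k' + 1 := ⟨k - 1, by omega⟩
      exact ⟨k, by omega, by omega, D.cn.upm (by omega) (by omega), by omega⟩
  refine ⟨j, j1, jN, b, fun u v => d (u.trans v.symm), fun u => by_contra fun v => ?_⟩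
  exact Sy.cross_ne a b (by rw [D.col, D.col, if_neg u, if_neg v])

theorem Dat.port (k1 : 1 ≤ k) (kN : k ≤ N) (hk : k % 2 = π) (a : x ∈ Y.cl (c k))
    (h : Y.On {γ, γ'} (opp x)) (e : Bool) : θ (of (pt x e)) = if e then et N k else 1 := by
  rcases D.cn.cell k k1 kN x a h with ⟨u, rfl⟩ | ⟨u, rfl⟩
  · cases e
    · refine D.rest (k := k + 1) (by omega) (D.cn.dnm (by omega) u) (fun v => ?_)
        (fun _ v => by simp [Sy.up, Sy.dn] at v) fun _ v => by simp [Sy.up] at v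
      refine (D.att (k + 1) (by omega) u).2 ?_
      rw [← show Y.dn c (k + 1) = z (k + 1) from congrArg Prod.fst v]
      exact D.cn.on k1 kN a
    · exact (D.ta.d1 (k + 1) (by omega) u).trans (if_neg (by omega))
  · obtain ⟨k, rfl⟩ : ∃ k', k = k' + 1 := ⟨k - 1, by omega⟩
    cases e
    · exact D.rest (k := k) (by omega) (D.cn.upm (by omega) kN)
        (fun v => by simp [Sy.dn] at v) (fun _ v => by simp [Sy.dn] at v)
        fun _ v => by simp [Sy.up, Sy.dn] at v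
    · exact (D.ta.u1 k (by omega) kN).trans (if_neg (by omega))

/-- The image of a passage between two crossings. -/
theorem Dat.pass {kk : ℕ} {S : Set (FG M)} (hS : ¬ Y.Sd kk S γ (Sum.inl γ')) (k1 : 1 ≤ k)
    (kN : k ≤ N) (hk : k % 2 = π) (a : x ∈ Y.cl (c k)) (a' : x' ∈ Y.cl (c k))
    (h : Y.On {γ, γ'} (opp x)) (h' : Y.On {γ, γ'} (opp x')) {e e' : Bool} {w : ℤ}
    (pg : Y.Pg S (c k) x e w x' e') :
    θ ((of (pt x e))⁻¹ * Y.Rn (c k) x w x' * of (pt x' e')) ∈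
      Fre {u : ℕ × Bool | u.2 = false ∧ u.1 % 2 = π ∧ ¬ (c u.1).2 < kk} := by
  have hc : (c k).1 = γ := (D.col k).trans (if_pos hk)
  obtain ⟨B, bl, -⟩ := D.cn.bl (γ := γ) (γ' := γ') (Or.inl rfl) k1 kN hc
  have mem : ∀ u ∈ Y.cl (c k), Y.On {γ, γ'} (opp u) → u ∈ B := fun u hu ⟨p, p1, p2, p3⟩ =>
    (bl.2 u).2 ⟨hu, p, p1.resolve_left fun f => Sy.cross_ne hu p3 (hc.trans f.symm), p2, p3⟩
  have one : ∀ u ∈ Y.cl (c k), Y.On {γ, γ'} (opp u) → ∀ b, θ (of (u, b)) = 1 := fun u hu v b =>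
    D.own k1 kN hk hu fun f => (D.att k k1 kN).2 ((show u = z k from congrArg Prod.fst f) ▸ v)
  have r0 : θ (Y.Rn (c k) x 0 x') = 1 := by
    obtain ⟨t, ht⟩ := bl.1
    rcases ht.rn (mem x a h) (mem x' a' h') with ⟨f, -⟩ | ⟨-, -, f⟩ | ⟨-, -, f⟩
    · rw [f, map_one]
    · rw [f, map_mul, map_inv, oo, ii, one x a h, one x' a' h', inv_one, mul_one]
    · rw [f, map_mul, map_inv, oo, ii, one x a h, one x' a' h', inv_one, mul_one]
  rw [Sy.Rn_split a, map_mul, map_mul, map_mul, map_inv, map_zpow, r0, D.ell k1 kN hk a,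
    D.port k1 kN hk a h, D.port k1 kN hk a' h', mul_one]
  have lt := D.cn.lt k k1 kN
  by_cases w0 : e = e'
  · subst w0
    by_cases w1 : w = 0
    · rw [w1, zpow_zero, mul_one, inv_mul_cancel]
      exact one_mem _
    have : ¬ (e = true ∨ (c k).2 < kk) := fun f =>
      hS (Or.inr ⟨c k, B, x, x', e, w, hc, lt, bl, mem x a h, mem x' a' h', w1, f, pg⟩)
    obtain ⟨f1, f2⟩ := not_or.1 this
    rw [if_neg f1, inv_one, one_mul, mul_one]
    exact zpow_mem (of_mem_Fre (x := (k, false)) (And.intro rfl ⟨hk, f2⟩)) _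
  · cases e <;> cases e'
    · exact (w0 rfl).elim
    · exact (hS (Or.inl ⟨w, c k, B, x, x', hc, lt, bl, mem x a h, mem x' a' h', pg⟩)).elim
    · exact (hS (Or.inl ⟨-w, c k, B, x', x, hc, lt, bl, mem x' a' h', mem x a h, pg.symm⟩)).elim
    · exact (w0 rfl).elim

omit D in
/-- The shape of the image of the end of a path. -/
def Rr (K : Subgroup FH) (N π i : ℕ) (w : FH) : Prop :=
  ∃ κ ∈ K, w = κ ∨ (i % 2 = π ∧ ∃ (δ : FH) (b : ℤ), (δ = 1 ∨ δ = et N i) ∧ w = κ * δ⁻¹ * ff i ^ b)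

omit D in
theorem Rr.mul {K : Subgroup FH} {i : ℕ} {κ w : FH} (a : κ ∈ K) (h : Rr K N π i w) :
    Rr K N π i (κ * w) := by
  obtain ⟨κ', b, rfl | ⟨d, δ, s, e, rfl⟩⟩ := h
  · exact ⟨_, mul_mem a b, Or.inl rfl⟩
  · exact ⟨_, mul_mem a b, Or.inr ⟨d, δ, s, e, by simp only [mul_assoc]⟩⟩

variable {kk i : ℕ} {S : Set (FG M)} {y' : M × Bool}

/-- The statement for the part of the path after a letter of the other colour. -/
def Qz (Y : Sy m n M) (γ γ' : V) (N π : ℕ) (c : ℕ → V × ℕ) (θ : FG M →* FH) (kk i : ℕ)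
    (S : Set (FG M)) (y' : M × Bool) (l : List (Lt M × Bool)) : Prop :=
  ∀ (a : Lt M) (j : ℕ), 1 ≤ j → j ≤ N → j % 2 ≠ π → a.1 ∈ Y.cl (c j) → Hs S ((a, false) :: l) →
    Y.Pth a.1.1 l y'.1 → (∀ b ∈ l, b.1 ∈ Y.C {γ, γ'}) →
      Rr (Fre {u : ℕ × Bool | u.2 = false ∧ u.1 % 2 = π ∧ ¬ (c u.1).2 < kk}) N π i
        (θ ((of a)⁻¹ * mk l))

theorem Dat.start {l : List (Lt M × Bool)} {μ ν : M} (p : Y.Pth μ l ν) (e : μ = x.1) (e' : ν = y'.1)
    (ih : ∀ l', l'.length < l.length → Qz Y γ γ' N π c θ kk i S y' l') (j1 : 1 ≤ j) (jN : j ≤ N)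
    (hj : j % 2 ≠ π) (a : x ∈ Y.cl (c j)) (h : ¬ Y.On {γ, γ'} (opp x)) (hs : Hs S l)
    (hC : ∀ b ∈ l, b.1 ∈ Y.C {γ, γ'}) :
    Rr (Fre {u : ℕ × Bool | u.2 = false ∧ u.1 % 2 = π ∧ ¬ (c u.1).2 < kk}) N π i (θ (FreeGroup.mk l)) := by
  cases p with
  | nil => exact ⟨1, one_mem _, Or.inl (map_one θ)⟩
  | @cons b b' l _ ed p =>
    obtain rfl : b.1 = x := (cell_cases e).resolve_right fun f =>
      h (f ▸ hC (b, true) List.mem_cons_self)
    rw [mk_two, mul_assoc, map_mul, show θ (of b) = 1 from D.free j1 jN hj a h b.2, one_mul]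
    exact ih l (by simp) b' j j1 jN hj (ed_rn ed a).1 (hs.inf (List.infix_cons_iff.2
      (Or.inr List.infix_rfl))) (e' ▸ p) fun u hu => hC u (by simp [hu])

theorem Dat.main (hS : ¬ Y.Sd kk S γ (Sum.inl γ')) (i1 : 1 ≤ i) (a' : y' ∈ Y.cl (c i))
    (h' : ¬ Y.On {γ, γ'} (opp y')) (l : List (Lt M × Bool)) : Qz Y γ γ' N π c θ kk i S y' l := by
  induction hn : l.length using Nat.strong_induction_on generalizing l with | h s ih
  subst hn
  intro a j j1 jN hj ha hs p hC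
  by_cases h : Y.On {γ, γ'} (opp a.1)
  swap
  · rw [map_mul, map_inv, show θ (of a) = 1 from D.free j1 jN hj ha h a.2, inv_one, one_mul]
    exact D.start p rfl rfl (fun l' u => ih _ u l' rfl) j1 jN hj ha h
      (hs.inf (List.infix_cons_iff.2 (Or.inr List.infix_rfl))) hC
  obtain ⟨k, k1, kN, hx, hk⟩ := D.nbr j1 jN ha h
  have hk : k % 2 = π := by_contra fun u => hj (hk.2 u)
  have on : Y.On {γ, γ'} (opp (opp a.1)) := (opp_opp a.1).symm ▸ D.cn.on j1 jN ha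
  obtain ⟨e, he⟩ := exists_pt (y := opp a.1) (a := a) (opp_opp _).symm
  obtain ⟨l₁, l₂, x', w, rfl, hx', r, ⟨rfl, f⟩ | ⟨b, b', l₃, rfl, f, ed, p'⟩⟩ :=
    trip p (opp a.1) hx rfl
  · obtain rfl : x' = y' := (cell_cases f).resolve_right fun u => h' (u ▸ D.cn.on k1 kN hx')
    obtain rfl := D.idx k1 i1 hx' a'
    obtain ⟨t, ht⟩ := D.pow k1 kN hk (Sy.Rn_mem hx hx' w)
    refine ⟨1, one_mem _, Or.inr ⟨hk, θ (of a), t, ?_, ?_⟩⟩
    · rw [he, D.port k1 kN hk hx on]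
      cases e <;> simp
    · rw [List.append_nil, r, map_mul, map_inv, ht, one_mul]
  · have on' : Y.On {γ, γ'} (opp x') := f ▸ hC (b, true) (by simp)
    obtain ⟨e', he'⟩ := exists_pt f
    obtain ⟨j', j1', jN', hb, hj'⟩ := D.nbr k1 kN hx' on'
    have pg : Y.Pg S (c k) (opp a.1) e w x' e' := by
      rw [Sy.Pg, ← r, wd_mk (red_inf hs.red ⟨[(a, false)], _, rfl⟩), ← he, ← he']
      exact hs.inf ⟨[], (b', false) :: l₃, by simp⟩
    have := D.pass hS k1 kN hk hx hx' on on' pg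
    rw [← he, ← he', ← r] at this
    have key : (of a)⁻¹ * FreeGroup.mk (l₁ ++ (b, true) :: (b', false) :: l₃) =
        (of a)⁻¹ * FreeGroup.mk l₁ * of b * ((of b')⁻¹ * FreeGroup.mk l₃) := by
      rw [← FreeGroup.mul_mk, mk_two]
      simp only [mul_assoc]
    rw [key, map_mul]
    exact Rr.mul this (ih _ (by simp; omega) l₃ rfl b' j' j1' jN' (hj'.1 hk)
      (ed_rn ed (f ▸ hb)).1 (hs.inf ⟨(a, false) :: l₁ ++ [(b, true)], [], by simp⟩) p'
      fun u hu => hC u (by simp [hu]))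

end De

open De in
theorem de : S_DE := by
  intro V M m n Y kk S γ γ' N π i c z θ y y' l cn col _ att ta i1 iN a a' h h' p hC hs hS
  have D : Dat Y γ γ' N π c z θ := ⟨cn, col, att, ta⟩
  refine ⟨fun hi => ?_, fun hi => ?_⟩
  · obtain ⟨κ, u, e | ⟨e, -⟩⟩ := D.start p rfl rfl (fun l' _ => D.main hS i1 a' h' l') i1 iN hi a h
      hs hC
    · exact e ▸ u
    · exact (hi e).elim
  · obtain ⟨l₁, l₂, x', w, rfl, hx', r, ⟨rfl, -⟩ | ⟨b, b', l₃, rfl, f, ed, p'⟩⟩ := trip p y a rfl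
    · obtain ⟨t, ht⟩ := D.pow i1 iN hi (Sy.Rn_mem a hx' w)
      exact ⟨t, 0, 1, 1, 1, one_mem _, Or.inl rfl, Or.inl rfl, by simp [r, ht]⟩
    · obtain ⟨t, ht⟩ := D.pow i1 iN hi (Sy.Rn_mem a hx' w)
      have on' : Y.On {γ, γ'} (opp x') := f ▸ hC (b, true) (by simp)
      obtain ⟨e', he'⟩ := exists_pt f
      obtain ⟨j', j1', jN', hb, hj'⟩ := D.nbr i1 iN hx' on'
      have hδ : θ (of b) = 1 ∨ θ (of b) = et N i := by
        rw [he', D.port i1 iN hi hx' on']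
        cases e' <;> simp
      have key : mk (l₁ ++ (b, true) :: (b', false) :: l₃) =
          mk l₁ * of b * ((of b')⁻¹ * mk l₃) := by
        rw [← FreeGroup.mul_mk, mk_two]
        simp only [mul_assoc]
      rw [key, map_mul, map_mul, r, ht]
      obtain ⟨κ, u, e | ⟨-, δ, s, v, e⟩⟩ := D.main hS i1 a' h' l₃ b' j' j1' jN' (hj'.1 hi)
        (ed_rn ed (f ▸ hb)).1 (hs.inf ⟨l₁ ++ [(b, true)], [], by simp⟩) p'
        fun u hu => hC u (by simp [hu])
      · exact ⟨t, 0, κ, _, 1, u, hδ, Or.inl rfl, by rw [e]; simp⟩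
      · exact ⟨t, s, κ, _, δ, u, hδ, v, by rw [e]; simp only [mul_assoc]⟩

end Pool.Agent.MP_6eaae3_al.EV

end PartDe

section PartLl

/-! The dihedral step. -/

namespace Pool.Agent.MP_6eaae3_al.EV

open FreeGroup (of)
open Set Pool.Agent.MP_6eaae3_al.LT Pool.Agent.MP_6eaae3_al.LT.Path

theorem sd_own (m0 : S_M0) {V M : Type} {m : V → V → ℕ} {n : ℕ} {Y : Sy m n M} {kk : ℕ}
    {S : Set (FG M)} {h : V} {r} (j : ℤ) (w : Y.Sd kk S h r) :
    Y.Sd kk (Y.im (PresentedGroup.of h ^ j) S) h r := by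
  rcases w with ⟨k, q, B, y, y', rfl, a, b, c, d, e⟩ | ⟨q, B, y, y', e, k, rfl, a, b, c, d, u, v, w⟩
  · obtain ⟨z, f⟩ := b.1
    exact Or.inl ⟨_, q, B, y, y', rfl, a, b, c, d,
      m0 V M m n Y _ q y y' false true k j a (f.mem c) (f.mem d) e⟩
  · obtain ⟨z, f⟩ := b.1
    refine Or.inr ⟨q, B, y, y', e, k, rfl, a, b, c, d, u, v, ?_⟩
    simpa using m0 V M m n Y _ q y y' e e k j a (f.mem c) (f.mem d) w

theorem ll (lr : S_LR) (ls : S_LS) (al : S_AL) (m1 : S_M1) (m0 : S_M0) : S_LL := by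
  intro V M m n Y kk Λ S s t x g ev cs ht ok xs xt sd hg
  obtain ⟨hs, ne, m2⟩ := ok s rfl
  have ne' := ne.symm
  have m2' : m s t ≠ 2 := ev.1 t s ▸ m2
  have o := ev.odd hs ht ne' m2'
  obtain ⟨q, B, y, y', e, e', k, rfl, hq, bl, y1, y2, pg, ty⟩ : ∃ (q : V × ℕ) (B : List (M × Bool))
      (y y' : M × Bool) (e e' : Bool) (k : ℤ), q.1 = t ∧ q.2 < n ∧ Y.Bl q x B ∧ y ∈ B ∧ y' ∈ B ∧
      Y.Pg S q y e k y' e' ∧
        ((e = false ∧ e' = true) ∨ (e = e' ∧ k ≠ 0 ∧ (e = true ∨ q.2 < kk))) := by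
    rcases sd with ⟨k, q, B, y, y', a, b, c, d, e, f⟩ | ⟨q, B, y, y', e, k, a, b, c, d, u, v, w, f⟩
    · exact ⟨q, B, y, y', _, _, k, a, b, c, d, e, f, Or.inl ⟨rfl, rfl⟩⟩
    · exact ⟨q, B, y, y', _, _, k, a, b, c, d, u, f, Or.inr ⟨rfl, v, w⟩⟩
  obtain ⟨c, p, i, cn, col, i1, iN, ci, ke, k2⟩ := cs s hs q.1 ht ne' m2' q.2 hq
  have ci' : c i = q := ci
  have par : (i + p) % 2 = 1 := by
    have := col i
    rw [ci, yy] at this
    split_ifs at this
    exacts [(ne this).elim, by omega]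
  have D : Sdd Y S s q.1 _ p c i x B y y' e e' k :=
    ⟨ne', cn, col, i1, iN, par, xs, xt, ci' ▸ bl, y1, y2, ci' ▸ pg⟩
  have ty' : (e = false ∧ e' = true) ∨ (e = e' ∧ k ≠ 0 ∧ (e = true ∨ i % 2 = 0)) :=
    ty.imp_right fun a => ⟨a.1, a.2.1, a.2.2.imp_right fun b => ke i i1 iN (ci' ▸ b)⟩
  have rel : ∀ i, aa (PresentedGroup.of s : Art m) (PresentedGroup.of q.1) i (m s q.1 - 1 + 1) =
      alG (PresentedGroup.of s) (PresentedGroup.of q.1) (m s q.1) := fun i => by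
    rw [Nat.sub_add_cancel (by omega)]
    have := artin_rel m ne'
    rw [lift_alG, lift_alG] at this
    exact aa_eq this i
  have back : ∀ (a : Art m) (j : ℤ) (g : Art m), Y.im (a ^ (-j)) (Y.im (a ^ j * g) S) = Y.im g S :=
    fun a j g => by rw [← Y.im_mul, zpow_neg, inv_mul_cancel_left]
  have AL := fun P Q => al _ _ _ _ _ p P i e e' k Q g o.1 o.2 rel i1 iN par ty' (par_pair s q.1 ▸ hg)
  refine ⟨fun r a b => or_iff_not_imp_left.2 fun u => ?_, fun r a b => or_iff_not_imp_left.2 fun u => ?_,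
    or_iff_not_imp_left.2 fun u => ?_, or_iff_not_imp_left.2 fun u => ?_⟩
  · obtain ⟨P, H⟩ := lr V M m n Y S s q.1 _ p c i x B y y' e e' k s r D
      (fun f => (a s f).2.1 rfl) b fun j hj => Sy.exists_bl ev cs hs a hj
    exact (AL P (fun g => ¬ Y.Ps (Y.im g S) s r) u).1
      (fun g j v w => v (back _ j g ▸ (m1 V M m n Y kk _ s q.1 r _ ne).1 b w))
      (Or.inl fun g v w => (H g (par_pair s q.1 ▸ v) w).1 rfl)
  · obtain ⟨P, H⟩ := lr V M m n Y S s q.1 _ p c i x B y y' e e' k q.1 r D b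
      (fun f => (a q.1 f).2.1 rfl) fun j hj => Sy.exists_bl ev cs ht a hj
    exact ((AL P (fun g => ¬ Y.Ps (Y.im g S) q.1 r) u).2
      fun g j v w => v (back _ j g ▸ (m1 V M m n Y kk _ q.1 s r _ ne').1 b w)).1
      fun g v w => (H g (par_pair s q.1 ▸ v) w).2 rfl
  · obtain ⟨P, H⟩ := ls V M m n Y S s q.1 _ p c i x B y y' e e' k kk D o.2 k2
    exact (AL P (fun g => ¬ Y.Sd kk (Y.im g S) q.1 (Sum.inl s)) u).1
      (fun g j v w => v (back _ j g ▸ sd_own m0 _ w))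
      (Or.inr fun g v w => (H g (par_pair s q.1 ▸ v)).1 w)
  · obtain ⟨P, H⟩ := ls V M m n Y S s q.1 _ p c i x B y y' e e' k kk D o.2 k2
    exact ((AL P (fun g => ¬ Y.Sd kk (Y.im g S) s (Sum.inl q.1)) u).2
      fun g j v w => v (back _ j g ▸ sd_own m0 _ w)).2
      fun g v w => (H g (par_pair s q.1 ▸ v)).2 w

end Pool.Agent.MP_6eaae3_al.EV

end PartLl

section PartAx

/-! The plumbing satisfies the rules of the induction. -/

namespace Pool.Agent.MP_6eaae3_al.EV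

open FreeGroup (of)
open Set Pool.Agent.MP_6eaae3_al.LT Pool.Agent.MP_6eaae3_al.LT.Path

namespace AxA

variable {V M : Type} {m : V → V → ℕ} {n : ℕ}

/-- The degree. -/
def deg (m : V → V → ℕ) : Art m →* Multiplicative ℤ :=
  PresentedGroup.toGroup (f := fun _ => Multiplicative.ofAdd 1) (by
    rintro _ ⟨s, t, -, rfl⟩
    rw [map_mul, map_inv, lift_alG, lift_alG, mul_inv_cancel])

theorem deg_of (v : V) : deg m (PresentedGroup.of v) = Multiplicative.ofAdd 1 :=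
  PresentedGroup.toGroup.of _

theorem comm {s t : V} (ne : s ≠ t) (h : m s t = 2) :
    Commute (PresentedGroup.of s : Art m) (PresentedGroup.of t) := by
  have := artin_rel m ne
  rw [lift_alG, lift_alG, h] at this
  simpa [alG, Commute, SemiconjBy] using this

theorem exists_pu (h1 : S_TA) (h2 : S_CH) {Y : Sy m n M} {s t : V} {N : ℕ} {p : ℤ} {c : ℕ → V × ℕ}
    (ne : s ≠ t) (cn : Y.Cn {s, t} N c) (col : ∀ k : ℕ, (c k).1 = yy s t (k + p)) :
    Nonempty (Pu (PresentedGroup.of s : Art m) (PresentedGroup.of t) N p) := by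
  have at' : Y.At {s, t} N c fun k => (Y.mr (c k) true, false) :=
    fun k _ _ => ⟨Y.mrf _ _, Sy.not_on_mr _ _ _⟩
  obtain ⟨θ, ta⟩ := h1 V M m n Y _ N c _ (FreeGroup ℕ) of (fun _ => 1) (fun _ => 1) cn at' rfl rfl
  have two := cn.two
  obtain ⟨Q, -, -, a, -⟩ := h2 V M m n Y s t N p c _ _ θ _ _ _ 1 _ ne cn col at' ta le_rfl (by omega)
    (Y.mrf _ true) (Sy.not_on_mr _ _ _)
  exact ⟨⟨Q.f, Q.v, Q.W, fun k u v => by simpa using a k u v, Q.f0, Q.own, Q.oth, Q.arc⟩⟩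

end AxA

open AxA in
theorem ax (m1 : S_M1) (m0 : S_M0) (m2 : S_M2) (sh : S_SH) (ll : S_LL) (ta : S_TA) (ch : S_CH)
    (hf : S_HF) (d6 : S_D6) : S_AX := by
  intro V M m n Y kk Λ t₀ ev cs hn
  have ok : ∀ {h d}, d ∈ Λ → h ≠ d ∧ m h d ≠ 2 → Ok m Λ h (Sum.inl d) := fun a b x e => by
    cases e; exact ⟨a, b⟩
  have two : ∀ {a h}, a ≠ h → ¬ (a ≠ h ∧ m a h ≠ 2) → m a h = 2 ∧ m h a = 2 := fun {a h} u v => by
    have : m a h = 2 := by_contra fun e => v ⟨u, e⟩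
    exact ⟨this, ev.1 a h ▸ this⟩
  refine ⟨{ cr := fun a b => a ≠ b ∧ m a b ≠ 2
            Cx := fun g h r k => Y.Cx (Y.im g (Y.S0 t₀)) h r k
            Hh := fun g h r => Y.Hh kk (Y.im g (Y.S0 t₀)) h r
            Ps := fun g h r => Y.Ps (Y.im g (Y.S0 t₀)) h r
            sy := fun a b h => ⟨h.1.symm, ev.1 a b ▸ h.2⟩
            ne := fun a b h => h.1
            cm := fun a _ b _ h => ?_
            base := ?_
            ps1 := fun g h ρ a j u v w => Y.im_mul _ _ _ ▸ (m1 V M m n Y kk _ h a ρ j u).1 v w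
            cx1 := fun g h ρ a j u v w => Y.im_mul _ _ _ ▸ (m1 V M m n Y kk _ h a ρ j u).2.1 v w
            cx2 := fun g h _ ρ a _ j k u v w => Y.im_mul _ _ _ ▸
              ((m1 V M m n Y kk _ h a ρ j u).2.2 (two u v).1 (two u v).2).1 k w
            hh2 := fun g h _ ρ a _ j u v w => Y.im_mul _ _ _ ▸
              ((m1 V M m n Y kk _ h a ρ j u).2.2 (two u v).1 (two u v).2).2 w
            cx0 := fun g h ρ j k w => ?_
            hp := fun g h hh x ρ u v w => (m2 V M m n Y kk Λ _ h ev cs hh).1 x ρ u v w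
            sh := fun g h hh d hd j u v w => Y.im_mul _ _ _ ▸
              sh V M m n Y kk Λ _ h d j ev cs hh (ok hd u) v w
            pi := fun g h hh d hd u w => (m2 V M m n Y kk Λ _ h ev cs hh).2 d (ok hd u) w
            loc := fun g s hs t ht x e he u v w z => ?_
            df6 := fun h hh d hd u => ?_ }, fun _ _ _ h => h⟩
  · by_cases e : a = b
    exacts [e ▸ Commute.refl _, comm e (two e h).1]
  · refine ⟨(t₀, 0), _, _, _, rfl, hn, Sy.bl_mr _ false, List.mem_singleton_self _,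
      List.mem_singleton_self _, _, Or.inl (by rw [Y.im_one]; exact ⟨0, hn, rfl⟩), ?_⟩
    rw [Sy.Rn_self, wd_one, Has]
    refine (wd_mk (l := [_, _]) ?_).symm ▸ List.infix_rfl
    simp [FreeGroup.isReduced_cons_cons]
  · obtain ⟨q, B, y, y', rfl, a, b, c, d, e⟩ := w
    obtain ⟨z, f⟩ := b.1
    refine ⟨q, B, y, y', rfl, a, b, c, d, ?_⟩
    have := m0 V M m n Y _ q y y' false true k j a (f.mem c) (f.mem d) e
    rw [Y.im_mul]
    simpa using this
  · have := ll V M m n Y kk Λ _ s t x e ev cs ht (ok hs ⟨u.1.symm, ev.1 s t ▸ u.2⟩) v w z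
      (par_pair s t ▸ he)
    rw [← Y.im_mul] at this
    exact this
  · obtain ⟨c, p, j, cn, col, j1, jN, e, -⟩ := cs h hh d hd u.1 u.2 0 hn
    obtain ⟨P⟩ := exists_pu ta ch u.1 cn col
    have o := ev.odd hh hd u.1 u.2
    obtain ⟨U, hU⟩ := exists_cheb cn.two
    have par : (j + p) % 2 = 1 := by
      have := col j
      rw [e, yy] at this
      split_ifs at this
      exacts [(u.1 this.symm).elim, by omega]
    obtain ⟨-, -, f0, f1, f0', f1', a, b, -⟩ := hf _ _ _ _ p P U j hU cn.two j1 jN par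
    refine d6 _ _ _ (U 2) f0 f1 f0' f1' (deg m) ?_ a b (deg_of _) (deg_of _)
    have h3 := hU.ge (j := 2) (by omega)
    have h4 := hU.rc 1
    rw [hU.o] at h4
    norm_num at h3 h4
    linarith

end Pool.Agent.MP_6eaae3_al.EV

end PartAx

section PartDc

/-! Detection of double cosets in a clique with even labels. -/

namespace Pool.Agent.MP_6eaae3_al.EV

open FreeGroup (of)
open Set Pool.Agent.MP_6eaae3_al.LT Pool.Agent.MP_6eaae3_al.LT.Path

theorem dc (h1 : S_LV) (h2 : S_TS) (h3 : S_CS) (h4 : S_AX) (h5 : S_GL) : S_DC := by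
  classical
  intro V _ m Λ n1 ev s hs t ht lo
  obtain ⟨n₀, n3, hn₀⟩ := Cl.exists_mult' n1
  obtain ⟨n, hn3⟩ : ∃ n, n = 3 * n₀ := ⟨_, rfl⟩
  have hn : ∀ s t, s ≠ t → m s t ≠ 0 → m s t - 1 ∣ n := fun s t a b => hn3 ▸ (hn₀ s t a b).mul_left _
  have ex : ∀ s t : V, ∃ π : Equiv.Perm ℕ, (∀ i, π i < n ↔ i < n) ∧
      (s ∈ Λ → t ∈ Λ → s ≠ t → m s t ≠ 2 → (∀ i < n / 3, π i % (m s t - 1) % 2 = 1) ∧
        ∀ r, r * (m s t - 1) + (m s t - 1) ≤ n → π.symm (r * (m s t - 1) + 1) < n / 3) := by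
    intro s t
    by_cases c : s ∈ Λ ∧ t ∈ Λ ∧ s ≠ t ∧ m s t ≠ 2
    · obtain ⟨a, b, d, e⟩ := c
      have o := ev.odd a b d e
      obtain ⟨π, u, v⟩ := h1 _ n o.1 o.2 (hn s t d (ev.2 s a t b d).1) ⟨_, hn3⟩
      exact ⟨π, u, fun _ _ _ _ => v⟩
    · exact ⟨1, fun _ => Iff.rfl, fun a b d e => (c ⟨a, b, d, e⟩).elim⟩
  choose lv hl hk using ex
  obtain ⟨R, Y, ad, mk, ne, H⟩ := h2 V m n lo lv ev.1 hn hl
  have ch := h3 V _ m n Y Λ lv ev ad hl fun s a t b d e =>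
    ⟨hn s t d (ev.2 s a t b d).1, hk s t a b d e⟩
  obtain ⟨A, hA⟩ := h4 V _ m n Y _ Λ t ev ch (by omega)
  refine ⟨_, R, ((Finset.range n).image fun i => Y.mr (s, i) true) ∪
      ((Finset.range n).image fun i => Y.mr (t, i) false),
    fun ν => decide (∀ p, ν ≠ Y.mr p true), fun ν hν => ?_, ?_⟩
  · rcases Finset.mem_union.1 hν with hν | hν <;> obtain ⟨i, -, rfl⟩ := Finset.mem_image.1 hν
    · refine mk _ _ _ ?_
      beta_reduce
      rw [decide_eq_false (p := ∀ p, Y.mr (s, i) true ≠ Y.mr p true) fun a => a _ rfl]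
      simp [hs]
    · refine mk _ _ _ ?_
      beta_reduce
      rw [decide_eq_true (p := ∀ p, Y.mr (t, i) false ≠ Y.mr p true) fun p => (ne p _).symm]
      simp [ht]
  rintro g _ _ ⟨rfl, rfl, hg, ng⟩
  obtain ⟨⟨s', j⟩, B, rfl, hj, bl, w, hw, h⟩ := hA _ _ _ (h5 V _ _ Λ t A s hs g hg ng)
  have hB : (Y.mr (s', j) true, false) ∈ B := (bl.2 _).2 ⟨Y.mrf _ _, rfl⟩
  have nm : w ∉ Fre {((Y.mr (s', j) true, false), true)}ᶜ := fun e =>
    wd_mem.1 e (((Y.mr (s', j) true, false), true), true)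
      (h.subset (List.mem_flatMap.2 ⟨_, hB, by simp⟩)) rfl
  obtain ⟨_, ⟨i, hi, rfl⟩, e⟩ : ∃ w₀ ∈ Y.S0 t,
      Y.ψ g w₀ ∉ Fre {((Y.mr (s', j) true, false), true)}ᶜ := by
    rcases hw with ⟨w₀, a, b⟩ | ⟨w₀, a, b⟩
    · exact ⟨w₀, a, b ▸ nm⟩
    · exact ⟨w₀, a, fun e => nm (inv_mem_iff.1 (b ▸ e))⟩
  exact ⟨_, Finset.mem_union_right _ (Finset.mem_image.2 ⟨i, Finset.mem_range.2 hi, rfl⟩), _,
    Finset.mem_union_left _ (Finset.mem_image.2 ⟨j, Finset.mem_range.2 hj, rfl⟩),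
    decide_eq_true fun p => (ne p _).symm, decide_eq_false fun a => a _ rfl, fun u => e (H g _ _ u)⟩

end Pool.Agent.MP_6eaae3_al.EV

end PartDc

section PartTs

/-! The system of curves of the plumbing with permuted levels. -/

namespace Pool.Agent.MP_6eaae3_al.EV

open FreeGroup (of)
open Set Pool.Agent.MP_6eaae3_al.LT Pool.Agent.MP_6eaae3_al.LT.Ts

namespace Tz

variable {V : Type} (m : V → V → ℕ) (n lo : ℕ) (lv : V → V → Equiv.Perm ℕ)

def lw (p : V × ℕ) (b : V) : V × ℕ := (b, (lv b p.1).symm (lv p.1 b p.2 - 1))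

def hg (p : V × ℕ) (b : V) : V × ℕ := (b, (lv b p.1).symm (lv p.1 b p.2 + 1))

open Classical in
noncomputable def cols [Finite V] (p : V × ℕ) : List V :=
  (toFinite {b | Cl.Aj m n lv (lw lv p b) p ∧ Cl.Aj m n lv p (hg lv p b)}).toFinset.toList

noncomputable def beg [Finite V] (p : V × ℕ) : List (Nm V × Bool) :=
  (cols m n lv p).flatMap fun b => [(cr lo (lw lv p b) p, true), (cr lo p (hg lv p b), false)]

variable {m n lo lv}

theorem mem_cols [Finite V] {p : V × ℕ} {b} :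
    b ∈ cols m n lv p ↔ Cl.Aj m n lv (lw lv p b) p ∧ Cl.Aj m n lv p (hg lv p b) := by simp [cols]

theorem ini_nd [Finite V] (p : V × ℕ) : (beg m n lo lv p).Nodup :=
  List.nodup_flatMap.2 ⟨fun b _ => by simp, (Finset.nodup_toList _).imp fun {a b} h => by
    simp [Function.onFun, List.disjoint_left, cr, lw, hg, h]⟩

theorem ini_mem [Finite V] (p : V × ℕ) : ∀ c ∈ beg m n lo lv p, c ∈ Cl.Ce m n lo lv p := by
  intro c hc
  obtain ⟨b, hb, hc⟩ := List.mem_flatMap.1 hc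
  rw [mem_cols] at hb
  simp only [List.mem_cons, List.not_mem_nil, or_false] at hc
  rcases hc with rfl | rfl
  exacts [Or.inr (Or.inl ⟨_, hb.1, rfl⟩), Or.inl ⟨_, Or.inl hb.2, rfl⟩]

theorem ini_adj [Finite V] {o p q : V × ℕ} (a : Cl.Aj m n lv o p) (b : Cl.Aj m n lv p q)
    (e : o.1 = q.1) : ∃ l l', beg m n lo lv p = l ++ (cr lo o p, true) :: (cr lo p q, false) :: l' := by
  obtain ⟨c, i⟩ := o
  obtain ⟨c', j⟩ := q
  obtain rfl : c = c' := e
  have e1 : (c, j) = hg lv p c := Prod.ext rfl (by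
    have := b.2.1
    simp only at this
    simp [hg, ← this])
  have e2 : (c, i) = lw lv p c := Prod.ext rfl (by
    have := a.2.1
    simp only at this
    simp [lw, this])
  rw [e1] at b ⊢
  rw [e2] at a ⊢
  obtain ⟨l, l', e⟩ := List.append_of_mem (mem_cols.2 ⟨a, b⟩)
  exact ⟨_, _, by rw [beg, e, List.flatMap_append, List.flatMap_cons]; rfl⟩

variable (B : Cl.Bs m n lo lv)

theorem uq {p q x} (a : x ∈ (B.A p).cells) (b : x ∈ (B.A q).cells) : p = q := by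
  rcases (B.mem _ _).1 a with ⟨o, u, rfl⟩ | ⟨o, u, rfl⟩ | rfl
  exacts [(B.f_cr.1 b).1.symm, (B.t_cr.1 b).1.symm, (B.f_mq.1 b).symm]

open Classical in
noncomputable def el (o : Nm V × Bool) : FG (Nm V) :=
  if h : ∃ p, o ∈ (B.A p).cells then
    ii (o.1, false) * jj ((B.A h.choose).ell true o) * (ii (o.1, false))⁻¹ else 1

theorem el_eq {p o} (h : o ∈ (B.A p).cells) :
    el B o = ii (o.1, false) * jj ((B.A p).ell true o) * (ii (o.1, false))⁻¹ := by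
  have a : ∃ p, o ∈ (B.A p).cells := ⟨p, h⟩
  rw [el, dif_pos a, uq B a.choose_spec h]

end Tz

theorem ts : S_TS := by
  intro V _ m n lo lv sym hn hl
  obtain ⟨B, ord⟩ := Cl.exists_bs (m := m) (n := n) (lo := lo) (lv := lv) (Tz.beg m n lo lv)
    Tz.ini_nd Tz.ini_mem
  let R := B.rep sym hn hl
  have rψ : ∀ v, R.ψ (PresentedGroup.of v) = B.tw v := B.rep_ψ
  let Y : Sy m n (Nm V) :=
    { ad := Cl.Aj m n lv
      cl := fun p => (B.A p).cells
      ell := Tz.el B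
      ψ := Ts.psi R
      cr := cr lo
      mr := fun p k => cr lo p (p.1, if k then 0 else 1)
      adn := fun p q a => ⟨a.1, fun e => a.2.2.2 (by rw [e]; exact one_dvd _)⟩
      nd := fun p => (B.A p).nd
      uq := fun p q x => Tz.uq B
      el := fun p l o l' e => by
        rw [Tz.el_eq B (p := p) (by simp [e]), Rec.ell_eq true e]
        simp only [map_mul, jj_out, jj_inl, jj_pth]; group
      mv := fun p o a h => by
        have : B.tw p.1 (old (rx o)) = (B.A p).ell true o * old (rx o) := by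
          obtain ⟨μ, _ | _⟩ := o
          exacts [B.tw_lb a h, B.tw_ld a h]
        show ps R _ _ = _
        rw [ps_of, rψ, this, Tz.el_eq B h, ← of_eq (rx o), map_mul]
        show ii (o.1, false) * _ = _ * (ii (o.1, false) * _)
        group
      fx := fun v z h => by
        have : B.tw v (old z) = old z := by
          obtain ⟨⟨μ, _ | _⟩, _ | _⟩ := z
          · exact map_one _
          · exact pr_fix fun i a => Rec.tau_ld' _ fun e => h (v, i) _ rfl a e rfl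
          · exact pr_fix fun i a => Rec.tau_lb' _ fun e => h (v, i) _ rfl a e rfl
          · exact B.tw_lt _ _
        show ps R _ _ = _
        rw [ps_of, rψ, this, of_eq]
      crf := fun p q a => B.f_cr.2 ⟨rfl, Or.inl a⟩
      crt := fun p q a => B.t_cr.2 ⟨rfl, a⟩
      bo := fun μ q a => by
        rcases (B.mem _ _).1 a with ⟨o, u, e⟩ | ⟨o, u, e⟩ | e <;> cases e
        exact ⟨o, u, rfl⟩
      adj := fun o p q a b e => by
        obtain ⟨r, h⟩ := ord p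
        obtain ⟨l, l', h'⟩ := Tz.ini_adj (lo := lo) a b e
        exact ⟨l, l' ++ r, by rw [h, h']; simp⟩
      mrf := fun p k => B.f_cr.2 ⟨rfl, Or.inr ⟨rfl, by cases k <;> simp⟩⟩
      mrt := fun p k q a => (B.t_cr.1 a).2.1 rfl
      mrn := fun p => by simp [cr] }
  refine ⟨R, Y, rfl, fun p k X h => B.mark p _ h, fun p q => by simp [Y, cr], fun g ν μ h => ?_⟩
  have e : (oo (ν, true))⁻¹ * ii (ν, true) = jj ((lt ν)⁻¹ * lb ν) := by
    simp only [map_mul, map_inv, jj_lt, jj_lb]; group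
  show ps R g _ ∈ _
  rw [e, ps_jj, map_mul, map_inv, psi_lt]
  exact jj_mem (mul_mem (inv_mem (of_mem_Fre (by simp))) h)

end Pool.Agent.MP_6eaae3_al.EV

end PartTs

section PartCs

/-! Every curve of the plumbing lies in a chain. -/

namespace Pool.Agent.MP_6eaae3_al.EV

open FreeGroup (of mk invRev IsReduced)
open Set Pool.Agent.MP_6eaae3_al.LT Pool.Agent.MP_6eaae3_al.LT.Path

namespace Cs

variable {V M : Type} {m : V → V → ℕ} {n : ℕ}

/-- The chain of the block `r` with the colours `b`. -/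
theorem chain (Y : Sy m n M) {lv : V → V → Equiv.Perm ℕ} (ha : Y.ad = Cl.Aj m n lv)
    (hl : ∀ s t i, lv s t i < n ↔ i < n) {X : Set V} {N r : ℕ} {b : ℕ → V} (two : 2 ≤ N)
    (hr : r * N + N ≤ n) (mem : ∀ k, b k ∈ X) (alt : ∀ k, b (k + 2) = b k)
    (ne : ∀ k, b k ≠ b (k + 1)) (oth : ∀ k, ∀ x ∈ X, b k ≠ x → x = b (k + 1))
    (hm : ∀ x ∈ X, ∀ y ∈ X, x ≠ y → m x y - 1 = N) :
    Y.Cn X N fun k => (b k, (lv (b k) (b (k + 1))).symm (r * N + k - 1)) := by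
  have hd : ∀ k, N ∣ r * N + k ↔ N ∣ k := fun k => Nat.dvd_add_right (dvd_mul_left N r)
  have lt : ∀ x y k, 1 ≤ k → k ≤ N → (lv x y).symm (r * N + k - 1) < n := fun x y k u v => by
    rw [← hl x y, Equiv.apply_symm_apply]; omega
  refine ⟨two, mem, fun k u v => lt _ _ k u v, fun k k' u v e => ?_, fun k u v => ?_,
    fun k => (alt k).symm, fun k u v x hx ho => ?_⟩
  · obtain ⟨e1, e2⟩ := Prod.ext_iff.1 e
    simp only at e1 e2
    rw [oth k' _ (mem (k + 1)) (e1 ▸ ne k), e1, Equiv.apply_eq_iff_eq] at e2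
    omega
  · rw [ha]
    refine ⟨ne k, ?_, lt _ _ _ (by omega) v, ?_⟩
    · simp only [alt, Equiv.apply_symm_apply]
      omega
    · simp only [alt, Equiv.apply_symm_apply]
      rw [hm _ (mem _) _ (mem _) (ne k), show r * N + (k + 1) - 1 = r * N + k by omega, hd]
      exact fun d => absurd (Nat.le_of_dvd u d) (by omega)
  · obtain ⟨⟨b', i⟩, w, -, w'⟩ := ho
    rcases Sy.cross hx w' with ⟨d, rfl⟩ | ⟨d, rfl⟩
    · rw [ha] at d
      obtain ⟨d1, d2, -, d4⟩ := d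
      simp only at d1 d2 d4 w
      obtain rfl := oth k b' w d1
      rw [Equiv.apply_symm_apply, show r * N + k - 1 + 1 = r * N + k by omega] at d2
      rw [hm _ (mem _) _ w d1, d2, hd] at d4
      refine Or.inl ⟨lt_of_le_of_ne v fun e => d4 (e ▸ dvd_rfl), ?_⟩
      simp only [Sy.up, alt]
      rw [show r * N + (k + 1) - 1 = r * N + k by omega, ← d2, Equiv.symm_apply_apply]
    · rw [ha] at d
      obtain ⟨d1, d2, -, d4⟩ := d
      simp only at d1 d2 d4 w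
      obtain rfl := oth k b' w d1.symm
      rw [Equiv.apply_symm_apply] at d2 d4
      rw [hm _ w _ (mem _) d1, show r * N + k - 1 = r * N + (k - 1) by omega, hd] at d4
      have k1 : 1 < k := lt_of_le_of_ne u fun e => d4 (by rw [← e]; simp)
      obtain ⟨k, rfl⟩ : ∃ k', k = k' + 1 := ⟨k - 1, by omega⟩
      refine Or.inr ⟨k1, ?_⟩
      simp only [Sy.dn, Nat.add_sub_cancel, alt] at d2 ⊢
      rw [show r * N + k - 1 = lv (b k) (b (k + 1)) i by omega, Equiv.symm_apply_apply]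

end Cs

theorem cs : S_CS := by
  intro V M m n Y Λ lv ev ha hl H s hs t ht ne h2 i hi
  obtain ⟨h3, -⟩ := ev.odd hs ht ne h2
  have hm : ∀ x ∈ ({s, t} : Set V), ∀ y ∈ ({s, t} : Set V), x ≠ y → m x y = m s t := by
    rintro x (rfl | rfl) y (rfl | rfl) e
    exacts [(e rfl).elim, rfl, ev.1 _ _, (e rfl).elim]
  have hΛ : ∀ x ∈ ({s, t} : Set V), x ∈ Λ := by
    rintro x (rfl | rfl)
    exacts [hs, ht]
  have hn := (H s hs t ht ne h2).1
  have hi' := (hl t s i).2 hi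
  have H' := fun x a y c e => H x (hΛ x a) y (hΛ y c) e (by rw [hm x a y c e]; exact h2)
  obtain ⟨N, hN⟩ : ∃ N, m s t - 1 = N := ⟨_, rfl⟩
  rw [hN] at h3 hn ⊢
  obtain ⟨r, hr'⟩ : ∃ r, r = lv t s i / N := ⟨_, rfl⟩
  obtain ⟨j, hj⟩ : ∃ j, j = lv t s i % N + 1 := ⟨_, rfl⟩
  have j2 : j ≤ N := hj ▸ Nat.mod_lt _ (by omega)
  have hrj : r * N + j - 1 = lv t s i := by
    have := Nat.div_add_mod' (lv t s i) N
    rw [hr']; omega
  have hr : r * N + N ≤ n := by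
    obtain ⟨q, rfl⟩ := hn
    have := Nat.mul_le_mul_right N (Nat.succ_le_of_lt (Nat.div_lt_of_lt_mul hi'))
    rwa [Nat.succ_mul, mul_comm q, ← hr'] at this
  obtain ⟨b, hb⟩ : ∃ b : ℕ → V, ∀ k : ℕ, b k = yy s t (k + (1 - j)) := ⟨_, fun _ => rfl⟩
  have mem : ∀ k, b k ∈ ({s, t} : Set V) := fun k => by
    rw [hb]; unfold yy; split_ifs <;> simp
  have ne' : ∀ k, b k ≠ b (k + 1) := fun k => by
    rw [hb, hb]; exact Bas.yy_ne ne (by push_cast; omega)
  refine ⟨fun k => (b k, (lv (b k) (b (k + 1))).symm (r * N + k - 1)), 1 - j, j,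
    Cs.chain Y ha hl (by omega) hr mem (fun k => ?_) ne' (fun k x a e => ?_)
      fun x a y c e => by rw [hm x a y c e, hN], hb, by omega, j2, ?_, fun k u v w => ?_, ?_⟩
  · rw [hb, hb]; exact yy_congr _ _ (by push_cast; omega)
  · rw [hb] at e ⊢
    rcases a with rfl | rfl <;> unfold yy at e ⊢ <;> push_cast at e ⊢ <;> split_ifs at e ⊢ <;>
      first | rfl | omega | exact (e rfl).elim
  · have e1 : b j = t := by rw [hb, yy, if_neg (by omega)]
    have e2 : b (j + 1) = s := by rw [hb, yy, if_pos (by push_cast; omega)]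
    simp only [e1, e2, hrj, Equiv.symm_apply_apply]
  · have := (H' _ (mem k) _ (mem (k + 1)) (ne' k)).2.1 _ w
    rw [Equiv.apply_symm_apply, hm _ (mem _) _ (mem _) (ne' k), hN,
      show r * N + k - 1 = r * N + (k - 1) by omega, Nat.mul_add_mod_self_right,
      Nat.mod_eq_of_lt (show k - 1 < N by omega)] at this
    omega
  · have := (H' _ (mem 2) _ (mem (2 + 1)) (ne' 2)).2.2 r
    rw [hm _ (mem _) _ (mem _) (ne' 2), hN] at this
    exact this hr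

end Pool.Agent.MP_6eaae3_al.EV

end PartCs

section PartLv

/-! A numbering of the levels. -/

namespace Pool.Agent.MP_6eaae3_al.EV

namespace Lv

theorem perm {n k : ℕ} (hk : k ≤ n) (T : Finset ℕ) (hT : T.card = k) (hn : ∀ x ∈ T, x < n) :
    ∃ π : Equiv.Perm ℕ, (∀ i, π i < n ↔ i < n) ∧ (∀ i < k, π i ∈ T) ∧
      ∀ x ∈ T, π.symm x < k := by
  let e := T.orderEmbOfFin hT
  have he : ∀ j, e j ∈ T := T.orderEmbOfFin_mem hT
  obtain ⟨σ, hσ⟩ := Equiv.Perm.exists_extending_pair (f := Fin.castLE hk)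
    (g := fun j => (⟨e j, hn _ (he j)⟩ : Fin n)) (Fin.castLE_injective hk)
    fun a b h => e.injective (congrArg Fin.val h)
  obtain ⟨π, hπ⟩ := Equiv.Perm.exists_extending_pair (f := (Fin.val : Fin n → ℕ))
    (g := fun j => (σ j).val) Fin.val_injective (Fin.val_injective.comp σ.injective)
  have h2 : ∀ j : Fin k, π j = e j := fun j => (hπ (Fin.castLE hk j)).trans (by rw [hσ])
  refine ⟨π, fun i => ⟨fun h => ?_, fun h => ?_⟩, fun i hi => ?_, fun x hx => ?_⟩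
  · have h1 := hπ (σ.symm ⟨π i, h⟩)
    rw [σ.apply_symm_apply] at h1
    rw [← π.injective h1]
    exact Fin.is_lt _
  · rw [show π i = _ from hπ ⟨i, h⟩]
    exact Fin.is_lt _
  · rw [show π i = _ from h2 ⟨i, hi⟩]
    exact he _
  · obtain ⟨j, hj⟩ : x ∈ Set.range e := by rw [T.range_orderEmbOfFin hT]; exact hx
    rw [← hj, ← h2, π.symm_apply_apply]
    exact j.is_lt

theorem md {N j : ℕ} (r : ℕ) (h : j < N) : (r * N + j) % N = j := by
  rw [Nat.mul_add_mod_self_right, Nat.mod_eq_of_lt h]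

theorem dv {N j : ℕ} (r : ℕ) (h : j < N) : (r * N + j) / N = r := by
  rw [add_comm, Nat.add_mul_div_right _ _ (by omega), Nat.div_eq_of_lt h, zero_add]

end Lv

theorem lv : S_LV := by
  rintro N n h3 hN ⟨q, rfl⟩ -
  obtain ⟨k, rfl⟩ : ∃ k, N = 2 * k + 1 := ⟨N / 2, by omega⟩
  have hk : 1 ≤ k := by omega
  let O := (Finset.range ((2 * k + 1) * q)).filter fun x => x % (2 * k + 1) % 2 = 1
  let A := (Finset.range q).image fun r => r * (2 * k + 1) + 1
  have mO : ∀ r < q, ∀ j < k, r * (2 * k + 1) + (2 * j + 1) ∈ O := fun r hr j hj => by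
    refine Finset.mem_filter.2 ⟨Finset.mem_range.2 ?_, ?_⟩
    · have := Nat.mul_le_mul_right (2 * k + 1) (Nat.succ_le_of_lt hr)
      rw [Nat.succ_mul, mul_comm q] at this
      omega
    · rw [Lv.md r (by omega)]; omega
  have hAO : A ⊆ O := fun x hx => by
    obtain ⟨r, hr, rfl⟩ := Finset.mem_image.1 hx
    exact mO r (Finset.mem_range.1 hr) 0 hk
  have cA : A.card ≤ (2 * k + 1) * q / 3 := by
    refine Finset.card_image_le.trans ?_
    rw [Finset.card_range, Nat.le_div_iff_mul_le (by norm_num), mul_comm]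
    exact Nat.mul_le_mul_right q h3
  have cO : (2 * k + 1) * q / 3 ≤ O.card := by
    have h1 : (Finset.range q ×ˢ Finset.range k).card ≤ O.card := by
      refine Finset.card_le_card_of_injOn (fun p => p.1 * (2 * k + 1) + (2 * p.2 + 1))
        (fun p hp => ?_) fun p hp p' hp' e => ?_
      · have := Finset.mem_product.1 hp
        exact mO _ (Finset.mem_range.1 this.1) _ (Finset.mem_range.1 this.2)
      · have a1 := Finset.mem_range.1 (Finset.mem_product.1 hp).2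
        have a2 := Finset.mem_range.1 (Finset.mem_product.1 hp').2
        have e1 := congrArg (· % (2 * k + 1)) e
        have e2 := congrArg (· / (2 * k + 1)) e
        simp only [Lv.md _ (show 2 * p.2 + 1 < 2 * k + 1 by omega),
          Lv.md _ (show 2 * p'.2 + 1 < 2 * k + 1 by omega),
          Lv.dv _ (show 2 * p.2 + 1 < 2 * k + 1 by omega),
          Lv.dv _ (show 2 * p'.2 + 1 < 2 * k + 1 by omega)] at e1 e2
        exact Prod.ext e2 (by omega)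
    rw [Finset.card_product, Finset.card_range, Finset.card_range] at h1
    refine le_trans (Nat.div_le_of_le_mul ?_) h1
    nlinarith [Nat.mul_le_mul_right q hk]
  obtain ⟨T, t1, t2, t3⟩ := Finset.exists_subsuperset_card_eq hAO cA cO
  obtain ⟨π, p1, p2, p3⟩ := Lv.perm (Nat.div_le_self _ 3) T t3
    fun x hx => Finset.mem_range.1 (Finset.mem_filter.1 (t2 hx)).1
  refine ⟨π, p1, fun i hi => (Finset.mem_filter.1 (t2 (p2 i hi))).2, fun r hr => p3 _ (t1 ?_)⟩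
  refine Finset.mem_image.2 ⟨r, Finset.mem_range.2 ?_, rfl⟩
  by_contra hc
  have := Nat.mul_le_mul_right (2 * k + 1) (Nat.le_of_not_lt hc)
  rw [mul_comm q] at this
  omega

end Pool.Agent.MP_6eaae3_al.EV

end PartLv
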