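import Pool.Agent.MP_6eaae3_al.EV.Basic

section PartH3

/-! The first Hecke coordinate for odd chain length. -/

namespace Pool.Agent.MP_6eaae3_al.EV

open FreeGroup (of mk invRev IsReduced)
open Set Pool.Agent.MP_6eaae3_al.LT Pool.Agent.MP_6eaae3_al.LT.Path

namespace H3

variable {G : Type} [Group G] {w x Δ : G} {M : ℕ}

theorem core {s : ℕ → ℝ} (hs : Cheb M s) (hM : 0 < M) (od : M % 2 = 1) (rel : ∀ i, aa w x i (M + 1) = Δ)
    {f0 f1 : G → ℝ} {K : Subgroup G} (hw : w ∈ K) (hx : x ∈ K)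
    (mw : ∀ g ∈ K, f0 (g * w) = f0 g ∧ f1 (g * w) = f1 g + s 2 * f0 g)
    (mx : ∀ g ∈ K, f1 (g * x) = f1 g ∧ f0 (g * x) = f0 g - s 2 * f1 g) (i0 : f0 1 = 1) (i1 : f1 1 = 0)
    {g : G} (hg : g ∈ Subgroup.closure {w, x}) :
    1 ≤ |f0 g| ∧ (|f0 g| = 1 → ∃ a k b : ℤ, g = x ^ a * Δ ^ k * w ^ b) := by
  have ha : ∀ i j, aa w x i j ∈ K := fun i j => alG_mem _ (yy_mem hw hx _) (yy_mem hw hx _)
  have hΔ : Δ ∈ K := rel 0 ▸ ha 0 _
  let F : G → ℤ → ℝ := fun g i =>
    if i % 4 = 0 then f0 g else if i % 4 = 1 then f1 g else if i % 4 = 2 then -f0 g else -f1 g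
  have an : ∀ g i, F g (i + 1 + 1) = -F g i := fun g i => by
    simp only [F]; split_ifs <;> first | omega | simp
  have mv : ∀ g ∈ K, ∀ i, F (g * yy w x i) i = F g i ∧
      F (g * yy w x i) (i + 1) = F g (i + 1) + s 2 * F g i := fun g hg i => by
    simp only [F, yy]
    split_ifs <;> first | omega | (simp only [mw g hg, mx g hg, true_and]; try ring)
  have Fa : ∀ g ∈ K, ∀ i, ∀ j : ℕ,
      F (g * aa w x i (j + 1)) (i + j) = s (j + 1) * F g i + s j * F g (i + 1) ∧
      F (g * aa w x i (j + 1)) (i + j + 1) = s (j + 2) * F g i + s (j + 1) * F g (i + 1) := by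
    intro g hg i j
    induction j with
    | zero => simp [aa, alG, mv g hg, hs.z, hs.o, add_comm]
    | succ j ih =>
      have := mv _ (mul_mem hg (ha i (j + 1))) (i + (j + 1 : ℕ))
      rw [aa_succ', ← mul_assoc, this.1, this.2, Nat.cast_succ, ← add_assoc, an, ih.1, ih.2,
        hs.rc (j + 1), hs.rc j]
      exact ⟨rfl, by ring⟩
  have Fd : ∀ g ∈ K, ∀ i, F (g * Δ) (i + (M - 1)) = F g i := fun g hg i => by
    have := (Fa g hg (i - 1) M).1
    rw [rel, hs.e, hs.l, show i - 1 + M = i + (M - 1) by ring] at this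
    simpa using this
  have Fk : ∀ g ∈ K, ∀ k i : ℤ, F (g * Δ ^ k) (i + k * (M - 1)) = F g i := fun g hg k i => by
    induction k using Int.induction_on with
    | zero => simp
    | succ k ih =>
      rw [zpow_add_one, add_mul, one_mul, ← add_assoc, ← mul_assoc, Fd _ (mul_mem hg (zpow_mem hΔ _)), ih]
    | pred k ih =>
      rw [← ih, ← Fd _ (mul_mem hg (zpow_mem hΔ _)), zpow_sub_one]
      congr 1
      exacts [by group, by ring]
  have Fx : ∀ a : ℤ, f0 (x ^ a) = 1 ∧ f1 (x ^ a) = 0 := fun a => by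
    induction a using Int.induction_on with
    | zero => simp [i0, i1]
    | succ k ih => rw [zpow_add_one, (mx _ (zpow_mem hx _)).1, (mx _ (zpow_mem hx _)).2, ih.1, ih.2]; simp
    | pred k ih =>
      have := mx _ (zpow_mem hx (-k - 1))
      rw [← zpow_add_one, sub_add_cancel, ih.1, ih.2] at this
      simpa [← this.1, eq_comm] using this.2
  let Z : G → ℤ → Prop := fun h i => ∃ a k b : ℤ, h = x ^ a * Δ ^ k * yy w x i ^ b
  have Zd : ∀ h i k, Z h i → Z (h * Δ ^ k) (i + k * (M - 1)) := by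
    rintro _ i k ⟨a, l, b, rfl⟩
    refine ⟨a, l + k, b, ?_⟩
    rw [mul_assoc, ← (SemiconjBy.zpow_right (del_yy rel k i) b).eq, zpow_add]; group
  have sp : ∀ i, aa w x i M = (yy w x (i + 1))⁻¹ * Δ ^ (1 : ℤ) := fun i => by
    rw [zpow_one, eq_inv_mul_iff_mul_eq, ← rel (i + 1), aa_succ, aa, aa,
      yy_congr w x (i := i + 1 + 1) (j := i) (by omega),
      yy_congr w x (i := i + 1 + 1 + 1) (j := i + 1) (by omega)]
  have key : ∀ h i, NF w x Δ M h i → h ∈ K ∧ 1 ≤ F h i ∧ (F h (i + 1) = 0 ∨ 1 ≤ F h (i + 1)) ∧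
      (F h (i + 1) = 0 → ∃ a k : ℤ, h = x ^ a * Δ ^ k ∧ (i + k * (M - 1)) % 2 = 0) ∧
      (F h i = 1 → Z h i) ∧ (F h (i + 1) = 1 → Z h (i + 1)) := fun h i n => by
    induction n with
    | base a =>
      exact ⟨zpow_mem hx a, by simp [F, Fx], by simp [F, Fx], fun _ => ⟨a, 0, by simp⟩,
        fun _ => ⟨a, 0, 0, by simp⟩, fun _ => ⟨a, 0, 0, by simp⟩⟩
    | @del h i k _ ih =>
      obtain ⟨a, b, c, d, e, f⟩ := ih
      rw [add_right_comm, Fk h a, Fk h a]
      refine ⟨mul_mem a (zpow_mem hΔ k), b, c, fun q => ?_, fun q => Zd _ _ _ (e q),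
        fun q => Zd _ _ _ (f q)⟩
      obtain ⟨a', l, rfl, u⟩ := d q
      exact ⟨a', l + k, by rw [zpow_add, mul_assoc], by rw [add_mul]; omega⟩
    | @step h i j _ hj ih =>
      obtain ⟨a, b, c, d, e, f⟩ := ih
      have g1 := hs.ge hj
      have g0 : 0 ≤ s j ∧ (j ≠ 0 → 1 ≤ s j) := by
        cases j with
        | zero => simp [hs.z]
        | succ j => have := hs.ge (show j < M by omega); exact ⟨by linarith, fun _ => this⟩
      have c0 : 0 ≤ F h (i + 1) := c.elim (fun e => e.ge) fun e => by linarith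
      have tp : F h (i + 1) = 0 → ∃ a k : ℤ, h * aa w x i M = x ^ a * Δ ^ k ∧
          (i + (M - 1) + k * (M - 1)) % 2 = 0 := fun q => by
        obtain ⟨a', l, rfl, u⟩ := d q
        have := del_yy rel l 1
        rw [yy_congr w x (j := i + 1) (by omega), show yy w x 1 = x from rfl] at this
        refine ⟨a' - 1, l + 1, ?_, by rw [add_mul]; omega⟩
        rw [sp, ← mul_assoc, mul_assoc _ (Δ ^ l), (SemiconjBy.inv_right this).eq]; group
      rw [(Fa h a i j).1, (Fa h a i j).2]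
      refine ⟨mul_mem a (ha _ _), by nlinarith [g0.1], ?_⟩
      by_cases q : j + 1 = M
      · have q' : (j : ℤ) = 1 * (M - 1) := by omega
        rw [show j + 2 = M + 1 by omega, q, hs.e, hs.l, zero_mul, zero_add, one_mul, one_mul]
        refine ⟨c, fun u => by simpa only [q', one_mul] using tp u, fun u => ?_, fun u => ?_⟩
        · by_cases r : j = 0
          · obtain ⟨a', k, b', rfl⟩ := e (by simpa [r, hs.z] using u)
            exact ⟨a', k, b' + 1, by simp [← q, r, aa, alG, zpow_add_one, mul_assoc]⟩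
          · obtain ⟨a', k, v, -⟩ := tp (by nlinarith [g0.2 r])
            exact ⟨a', k, 0, by simpa using v⟩
        · obtain ⟨a', k, b', rfl⟩ := f u
          rw [sp, ← mul_assoc, q', add_right_comm]
          exact Zd _ _ _ ⟨a', k, b' - 1, by rw [zpow_sub_one, mul_assoc]⟩
      · have g2 := hs.ge (show j + 1 < M by omega)
        refine ⟨Or.inr (by nlinarith), fun u => by nlinarith, fun u => ?_, fun u => ?_⟩
        · by_cases r : j = 0
          · obtain ⟨a', k, b', rfl⟩ := e (by simpa [r, hs.z, hs.o] using u)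
            exact ⟨a', k, b' + 1, by simp [r, aa, alG, zpow_add_one, mul_assoc]⟩
          · have := hs.gt (j + 1) (by omega) (by omega)
            nlinarith [g0.1]
        · have r : j + 2 = M := by_contra fun r => by
            have := hs.gt (j + 2) (by omega) (by omega)
            nlinarith
          obtain ⟨a', k, v, -⟩ := tp (c.resolve_right fun _ => by nlinarith)
          refine ⟨a', k, -1, ?_⟩
          rw [← v, ← r, aa_succ' (j + 1)]; simp [add_assoc, ← mul_assoc]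
  obtain ⟨i, n⟩ := NF.all rel hM hg
  obtain ⟨-, b, c, d, e, f⟩ := key g i n
  have ab : ∀ j : ℤ, j % 2 = 0 → 1 ≤ F g j → |f0 g| = F g j := fun j r u => by
    simp only [F] at u ⊢
    split_ifs at u ⊢
    · exact abs_of_nonneg (by linarith)
    · omega
    · exact abs_of_nonpos (by linarith)
    · omega
  by_cases r : i % 2 = 0
  · rw [ab i r b]
    exact ⟨b, fun q => by simpa only [Z, yy, if_pos r] using e q⟩
  · have r' : (i + 1) % 2 = 0 := by omega
    have c' : 1 ≤ F g (i + 1) := c.resolve_left fun q => by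
      obtain ⟨a, k, -, u⟩ := d q
      obtain ⟨l, hl⟩ : ∃ l : ℤ, (M : ℤ) - 1 = 2 * l := ⟨((M : ℤ) - 1) / 2, by omega⟩
      rw [hl, mul_left_comm] at u
      omega
    rw [ab _ r' c']
    exact ⟨c', fun q => by simpa only [Z, yy, if_pos r'] using f q⟩

end H3

theorem h3 : S_H3 := fun _ _ _ _ _ _ _ _ _ hs od rel hk _ hg =>
  H3.core hs (by omega) od rel (K := Subgroup.closure _) (Subgroup.subset_closure (by simp))
    (Subgroup.subset_closure (by simp)) hk.1 hk.2.1 hk.2.2.1 hk.2.2.2 hg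

end Pool.Agent.MP_6eaae3_al.EV

end PartH3

section PartD6

/-! Two words of three syllables with different first letters are different. -/

namespace Pool.Agent.MP_6eaae3_al.EV

open FreeGroup (of mk invRev IsReduced)
open Set Pool.Agent.MP_6eaae3_al.LT Pool.Agent.MP_6eaae3_al.LT.Path

namespace D6

variable {G : Type} [Group G]

theorem shear {K : Subgroup G} {w : G} (hw : w ∈ K) {u v : G → ℝ} {ν : ℝ}
    (h : ∀ g ∈ K, u (g * w) = u g ∧ v (g * w) = v g + ν * u g) {g} (hg : g ∈ K) (a : ℤ) :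
    u (g * w ^ a) = u g ∧ v (g * w ^ a) = v g + a * ν * u g := by
  induction a using Int.induction_on with
  | zero => simp
  | succ i ih =>
    obtain ⟨e, f⟩ := h (g * w ^ (i : ℤ)) (mul_mem hg (zpow_mem hw _))
    rw [zpow_add_one, ← mul_assoc, e, f, ih.1, ih.2]
    exact ⟨rfl, by push_cast; ring⟩
  | pred i ih =>
    obtain ⟨e, f⟩ := h (g * w ^ (-(i : ℤ) - 1)) (mul_mem hg (zpow_mem hw _))
    rw [mul_assoc, ← zpow_add_one, sub_add_cancel] at e f
    rw [ih.1] at e
    rw [ih.2, ← e] at f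
    refine ⟨e.symm, ?_⟩
    push_cast at f ⊢
    linarith

variable {w x : G} {μ : ℝ} {f0 f1 : G → ℝ}

theorem mw : w ∈ Subgroup.closure ({w, x} : Set G) := Subgroup.subset_closure (by simp)

theorem mx : x ∈ Subgroup.closure ({w, x} : Set G) := Subgroup.subset_closure (by simp)

theorem pw' (H : Hk w x μ f0 f1) {g} (hg : g ∈ Subgroup.closure ({w, x} : Set G)) (a : ℤ) :
    f0 (g * w ^ a) = f0 g ∧ f1 (g * w ^ a) = f1 g + a * μ * f0 g := shear mw H.1 hg a

theorem px (H : Hk w x μ f0 f1) {g} (hg : g ∈ Subgroup.closure ({w, x} : Set G)) (a : ℤ) :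
    f1 (g * x ^ a) = f1 g ∧ f0 (g * x ^ a) = f0 g + a * (-μ) * f1 g :=
  shear mx (fun g hg => ⟨(H.2.1 g hg).1, by rw [(H.2.1 g hg).2]; ring⟩) hg a

/-- The row of `w ^ p * x ^ j * w ^ q`. -/
theorem wxw (H : Hk w x μ f0 f1) (p j q : ℤ) :
    f0 (w ^ p * x ^ j * w ^ q) = 1 - p * j * (μ * μ) ∧
      f1 (w ^ p * x ^ j * w ^ q) = μ * (p + q * (1 - p * j * (μ * μ))) := by
  have a := pw' H (one_mem _) p
  rw [one_mul, H.2.2.1, H.2.2.2] at a
  have b := px H (zpow_mem mw p) j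
  have c := pw' H (mul_mem (zpow_mem mw p) (zpow_mem mx j)) q
  rw [c.1, c.2, b.1, b.2, a.1, a.2]
  constructor <;> ring

/-- The row of `x ^ a * w ^ b * x ^ c`. -/
theorem xwx (H : Hk w x μ f0 f1) (p j q : ℤ) :
    f0 (x ^ p * w ^ j * x ^ q) = 1 - j * q * (μ * μ) ∧ f1 (x ^ p * w ^ j * x ^ q) = μ * j := by
  have a := px H (one_mem _) p
  rw [one_mul, H.2.2.1, H.2.2.2] at a
  have b := pw' H (zpow_mem mx p) j
  have c := px H (mul_mem (zpow_mem mx p) (zpow_mem mw j)) q
  rw [c.1, c.2, b.1, b.2, a.1, a.2]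
  constructor <;> ring

theorem sq1 {a : ℤ} (h : a ≠ 0) : (1 : ℝ) ≤ a * a := by
  have : (1 : ℤ) ≤ a * a := mul_self_pos.2 h
  exact_mod_cast this

theorem arith {L : ℝ} (hL : 2 ≤ L) {j a p : ℤ} (hj : j ≠ 0) (ha : a ≠ 0) (hp : p ≠ 0)
    (e : (j : ℝ) = p + a * (1 - p * j * L)) : False := by
  have j1 := sq1 hj
  have a1 := sq1 ha
  have p1 := sq1 hp
  have e1 : (j : ℝ) * (1 + a * p * L) = p + a := by linarith
  have e2 : (1 + (a : ℝ) * p * L) ^ 2 ≤ (p + a) ^ 2 := by
    rw [← e1]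
    nlinarith [mul_nonneg (sub_nonneg.2 j1) (sq_nonneg (1 + (a : ℝ) * p * L))]
  have e3 : ((p : ℝ) + a) ^ 2 ≤ (1 + a * p) ^ 2 := by
    nlinarith [mul_nonneg (sub_nonneg.2 a1) (sub_nonneg.2 p1)]
  obtain ⟨t, ht⟩ : ∃ t : ℤ, t = a * p := ⟨_, rfl⟩
  have t0 : t ≠ 0 := ht ▸ mul_ne_zero ha hp
  have ht' : (a : ℝ) * p = t := by rw [ht]; push_cast; ring
  rw [ht'] at e2 e3
  have e4 : (t : ℝ) * (L - 1) * (2 + t * (L + 1)) ≤ 0 := by nlinarith
  rcases lt_or_gt_of_ne t0 with u | u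
  · have u' : (t : ℝ) ≤ -1 := by exact_mod_cast Int.le_sub_one_of_lt u
    have : 0 < (t : ℝ) * (L - 1) * (2 + t * (L + 1)) :=
      mul_pos_of_neg_of_neg (by nlinarith) (by nlinarith)
    linarith
  · have u' : (1 : ℝ) ≤ t := by exact_mod_cast u
    have : 0 < (t : ℝ) * (L - 1) * (2 + t * (L + 1)) := mul_pos (by nlinarith) (by nlinarith)
    linarith

end D6

theorem d6 : S_D6 := by
  intro G _ d h μ f0 f1 f0' f1' deg hL H H' dd dh p j q a b c hp hj ha hb e
  have hμ : μ ≠ 0 := by rintro rfl; norm_num at hL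
  have L0 : μ * μ ≠ 0 := mul_ne_zero hμ hμ
  obtain ⟨u1, u2⟩ := D6.wxw H p j q
  obtain ⟨v1, v2⟩ := D6.xwx H a b c
  obtain ⟨u3, u4⟩ := D6.xwx H' p j q
  obtain ⟨v3, v4⟩ := D6.wxw H' a b c
  rw [e] at u1 u2 u3 u4
  have k1 : p * j = b * c := by
    have : ((p : ℝ) * j - b * c) * (μ * μ) = 0 := by linarith
    have := (mul_eq_zero.1 this).resolve_right L0
    exact_mod_cast sub_eq_zero.1 this
  have k2 : (b : ℝ) = p + q * (1 - p * j * (μ * μ)) := mul_left_cancel₀ hμ (v2.symm.trans u2)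
  have k3 : j * q = a * b := by
    have : ((j : ℝ) * q - a * b) * (μ * μ) = 0 := by linarith
    have := (mul_eq_zero.1 this).resolve_right L0
    exact_mod_cast sub_eq_zero.1 this
  have k4 : (j : ℝ) = a + c * (1 - a * b * (μ * μ)) := mul_left_cancel₀ hμ (u4.symm.trans v4)
  have k5 : p + j + q = a + b + c := by
    have := congrArg (fun g => Multiplicative.toAdd (deg g)) e
    simpa [dd, dh] using this
  have k5' : (p : ℝ) + j + q = a + b + c := by exact_mod_cast k5
  have k6 : q * p * j = c * a * b := by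
    have : ((q : ℝ) * p * j - c * a * b) * (μ * μ) = 0 := by linarith
    have := (mul_eq_zero.1 this).resolve_right L0
    exact_mod_cast sub_eq_zero.1 this
  obtain rfl : p = c := mul_right_cancel₀ (mul_ne_zero ha hb) (by linear_combination k6 - p * k3)
  obtain rfl : j = b := mul_left_cancel₀ hp (by linear_combination k1)
  obtain rfl : q = a := mul_left_cancel₀ hj (by linear_combination k3)
  exact D6.arith hL hj ha hp k2

end Pool.Agent.MP_6eaae3_al.EV

end PartD6

section PartHf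

/-! Weighted exponent sums of the loops of a chain give rows of the Hecke representation. -/

namespace Pool.Agent.MP_6eaae3_al.EV

open FreeGroup (of mk invRev IsReduced)
open Set Pool.Agent.MP_6eaae3_al.LT Pool.Agent.MP_6eaae3_al.LT.Path

namespace Hf

theorem ws_one {L : Type} (w : L → ℝ) : ws w 1 = 0 := by simp [ws]

theorem ws_mul {L : Type} (w : L → ℝ) (x y : FreeGroup L) : ws w (x * y) = ws w x + ws w y := by
  simp [ws]

theorem ws_inv {L : Type} (w : L → ℝ) (x : FreeGroup L) : ws w x⁻¹ = -ws w x := by simp [ws]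

theorem ws_of {L : Type} (w : L → ℝ) (a : L) : ws w (of a) = w a := by simp [ws]

/-- One twist acts on the plane spanned by the two weight vectors. -/
theorem seq {N : ℕ} {P : ℕ → Prop} {a a' u w : ℕ → ℝ} {μ α β : ℝ} (hP : ∀ k, P (k + 1) ↔ ¬ P k)
    (wz : ∀ k, P k → w k = 0) (_uz : ∀ k, ¬ P k → u k = 0)
    (ur : ∀ k, u (k + 2) - u k = μ * w (k + 1))
    (e : ∀ k, k = 0 ∨ k = N + 1 → u k = 0 ∧ w k = 0 ∧ a k = 0 ∧ a' k = 0)
    (own : ∀ k, 1 ≤ k → k ≤ N → P k → a' k = a k)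
    (oth : ∀ k, 1 ≤ k → k ≤ N → ¬ P k → a' k = a (k + 1) + a k - a (k - 1)) :
    (∀ k ≤ N + 1, a' k = w k * (α + μ * β) + u k * β) ↔ ∀ k ≤ N + 1, a k = w k * α + u k * β := by
  have same : ∀ k ≤ N + 1, P k → a' k = a k := fun k hk h => by
    by_cases c : k = 0 ∨ k = N + 1
    · rw [(e k c).2.2.1, (e k c).2.2.2]
    · exact own k (by omega) (by omega) h
  have main : (∀ k ≤ N + 1, P k → a k = u k * β) → ∀ k ≤ N + 1, a' k = a k + w k * (μ * β) := by
    intro h k hk
    by_cases c : k = 0 ∨ k = N + 1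
    · rw [(e k c).2.2.1, (e k c).2.2.2, (e k c).2.1]; ring
    by_cases d : P k
    · rw [same k hk d, wz k d]; ring
    obtain ⟨k, rfl⟩ : ∃ j, k = j + 1 := ⟨k - 1, by omega⟩
    rw [oth _ (by omega) (by omega) d, Nat.add_sub_cancel, h _ (by omega) ((hP _).2 d),
      h k (by omega) (not_not.1 fun x => d ((hP k).2 x))]
    linear_combination β * ur k
  refine ⟨fun h k hk => ?_, fun h k hk => ?_⟩
  · have := main (fun j hj d => by rw [← same j hj d, h j hj, wz j d]; ring) k hk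
    linear_combination h k hk - this
  · have := main (fun j hj d => by rw [h j hj, wz j d]; ring) k hk
    linear_combination h k hk + this

variable {G : Type} [Group G] {s t : G} {N : ℕ} {p : ℤ}

theorem rep (P : Pu s t N p) {u w x : ℕ → ℝ} {μ α0 β0 : ℝ} {i : ℕ} (hN : 2 ≤ N) (i1 : 1 ≤ i)
    (iN : i ≤ N) (ip : (i + p) % 2 = 1) (e : ∀ k, k = 0 ∨ k = N + 1 → u k = 0 ∧ w k = 0)
    (uz : ∀ k : ℕ, (k + p) % 2 = 1 → u k = 0) (wz : ∀ k : ℕ, (k + p) % 2 = 0 → w k = 0)
    (wr : ∀ k, w k - w (k + 2) = μ * u (k + 1)) (ur : ∀ k, u k - u (k + 2) = -μ * w (k + 1))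
    (nz : ∀ k : ℕ, 1 ≤ k → k ≤ N → ((k + p) % 2 = 0 → u k ≠ 0) ∧ ((k + p) % 2 = 1 → w k ≠ 0))
    (hx : ∀ k, 1 ≤ k → k ≤ N → x k = w k * α0 + u k * β0) :
    ∃ α β : G → ℝ, α 1 = α0 ∧ β 1 = β0 ∧ ∀ g ∈ Subgroup.closure {s, t},
      (α (g * s) = α g + μ * β g ∧ β (g * s) = β g) ∧
      (α (g * t) = α g ∧ β (g * t) = β g - μ * α g) ∧
      ws x (P.f g i) = w i * α g ∧ μ * ws x (P.W g i) = w i * (β0 - β g) := by
  let I : G → ℝ → ℝ → Prop := fun g α β => ∀ k ≤ N + 1, ws x (P.f g k) = w k * α + u k * β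
  have ys : ∀ i : ℤ, i % 2 = 0 → yy s t i = s := fun i a => if_pos a
  have yt : ∀ i : ℤ, i % 2 = 1 → yy s t i = t := fun i a => if_neg (by omega)
  have z : ∀ g k, k = 0 ∨ k = N + 1 → ws x (P.f g k) = 0 := by
    rintro g k (rfl | rfl)
    · rw [(P.f0 g).1, ws_one]
    · rw [(P.f0 g).2, ws_one]
  have Is : ∀ g ∈ Subgroup.closure {s, t}, ∀ α β, I (g * s) (α + μ * β) β ↔ I g α β :=
    fun g hg α β => seq (P := fun k : ℕ => (k + p) % 2 = 0) (fun k => by push_cast; omega) wz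
      (fun k h => uz k (by omega)) (fun k => by linear_combination -ur k)
      (fun k h => ⟨(e k h).1, (e k h).2, z _ k h, z _ k h⟩)
      (fun k a b c => by
        have := (P.own g hg k a b).1
        rw [ys _ c] at this
        rw [this])
      fun k a b c => by
        have := (P.oth g hg k a b).1
        rw [ys _ (by omega)] at this
        rw [this, ws_mul, ws_mul, ws_inv, sub_eq_add_neg]
  have It : ∀ g ∈ Subgroup.closure {s, t}, ∀ α β, I (g * t) α (β - μ * α) ↔ I g α β :=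
    fun g hg α β => by
      have := seq (N := N) (P := fun k : ℕ => (k + p) % 2 = 1) (a := fun k => ws x (P.f g k))
        (a' := fun k => ws x (P.f (g * t) k)) (u := w) (w := u) (μ := -μ) (α := β) (β := α)
        (fun k => by push_cast; omega) uz
        (fun k h => wz k (by omega)) (fun k => by linear_combination -wr k)
        (fun k h => ⟨(e k h).2, (e k h).1, z _ k h, z _ k h⟩)
        (fun k a b c => by
          have := (P.own g hg k a b).1
          rw [yt _ c] at this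
          rw [this])
        fun k a b c => by
          have := (P.oth g hg k a b).1
          rw [yt _ (by omega)] at this
          rw [this, ws_mul, ws_mul, ws_inv, sub_eq_add_neg]
      refine ⟨fun h k hk => ?_, fun h k hk => ?_⟩
      · linear_combination this.1 (fun j hj => by linear_combination h j hj) k hk
      · linear_combination this.2 (fun j hj => by linear_combination h j hj) k hk
  have I1 : I 1 α0 β0 := fun k hk => by
    by_cases c : k = 0 ∨ k = N + 1
    · rw [z _ k c, (e k c).1, (e k c).2]; ring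
    · rw [(P.f1 k (by omega) (by omega)).1, ws_of, hx k (by omega) (by omega)]
  have ex : ∀ g ∈ Subgroup.closure {s, t}, ∃ α β, I g α β := fun g hg => by
    induction hg using Subgroup.closure_induction_right with
    | one => exact ⟨_, _, I1⟩
    | mul_right g hg y hy ih =>
      obtain ⟨α, β, h⟩ := ih
      rcases hy with rfl | rfl
      exacts [⟨_, _, (Is g hg α β).2 h⟩, ⟨_, _, (It g hg α β).2 h⟩]
    | mul_inv_cancel g hg y hy ih =>
      obtain ⟨α, β, h⟩ := ih
      have hg' := mul_mem hg (inv_mem (Subgroup.subset_closure hy))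
      rcases hy with rfl | rfl
      · exact ⟨α - μ * β, β, (Is _ hg' _ _).1 (by rwa [inv_mul_cancel_right, sub_add_cancel])⟩
      · exact ⟨α, β + μ * α, (It _ hg' _ _).1 (by rwa [inv_mul_cancel_right, add_sub_cancel_right])⟩
  obtain ⟨j, j1, jN, jp⟩ : ∃ j : ℕ, 1 ≤ j ∧ j ≤ N ∧ (j + p) % 2 = 0 := by
    by_cases c : (1 + p) % 2 = 0
    · exact ⟨1, le_rfl, by omega, by simpa using c⟩
    · exact ⟨2, by omega, hN, by push_cast; omega⟩
  have wi := (nz i i1 iN).2 ip
  have uj := (nz j j1 jN).1 jp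
  let α : G → ℝ := fun g => ws x (P.f g i) / w i
  let β : G → ℝ := fun g => ws x (P.f g j) / u j
  have uq : ∀ g a b, I g a b → α g = a ∧ β g = b := fun g a b h => by
    constructor
    · show _ / _ = _
      rw [h i (by omega), uz i ip, div_eq_iff wi]; ring
    · show _ / _ = _
      rw [h j (by omega), wz j jp, div_eq_iff uj]; ring
  have all : ∀ g ∈ Subgroup.closure {s, t}, I g (α g) (β g) := fun g hg => by
    obtain ⟨a, b, h⟩ := ex g hg
    rwa [(uq g a b h).1, (uq g a b h).2]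
  have fi : ∀ g, ws x (P.f g i) = w i * α g := fun g => by
    show _ = _ * (_ / _)
    field_simp
  have st : ∀ g ∈ Subgroup.closure {s, t}, ∀ y ∈ ({s, t} : Set G),
      μ * ws x (P.W (g * y) i) + w i * β (g * y) = μ * ws x (P.W g i) + w i * β g := by
    rintro g hg y (rfl | rfl)
    · rw [(P.arc g hg i i1 iN ip).2, (uq _ _ _ ((Is g hg _ _).2 (all g hg))).2]
    · rw [(P.arc g hg i i1 iN ip).1, (uq _ _ _ ((It g hg _ _).2 (all g hg))).2, ws_mul, ws_mul,
        ws_mul, ws_inv, fi]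
      ring
  refine ⟨α, β, (uq _ _ _ I1).1, (uq _ _ _ I1).2, fun g hg => ⟨uq _ _ _ ((Is g hg _ _).2 (all g hg)),
    uq _ _ _ ((It g hg _ _).2 (all g hg)), fi g, ?_⟩⟩
  induction hg using Subgroup.closure_induction_right with
  | one => rw [(P.f1 i i1 iN).2.2, ws_one, (uq _ _ _ I1).2]; ring
  | mul_right g hg y hy ih => linear_combination st g hg y hy + ih
  | mul_inv_cancel g hg y hy ih =>
    have := st _ (mul_mem hg (inv_mem (Subgroup.subset_closure hy))) y hy
    rw [inv_mul_cancel_right] at this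
    linear_combination ih - this

end Hf

theorem hf : S_HF := by
  intro G _ s t N p P U i hU hN i1 iN ip
  obtain ⟨u, w, u0, u1, w0, w1, uz, wz, wr, ur, nz⟩ := Pc.weights hU p
  have e : ∀ k, k = 0 ∨ k = N + 1 → u k = 0 ∧ w k = 0 := by
    rintro k (rfl | rfl)
    exacts [⟨u0, w0⟩, ⟨u1, w1⟩]
  let ω : ℕ → ℝ := fun k => if k ≤ N then u k else 0
  let τ : ℕ → ℝ := fun k => if k ≤ N then w k else 0
  have c : ∀ k ≤ N + 1, ω k = u k ∧ τ k = w k := fun k hk => by
    by_cases a : k ≤ N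
    · exact ⟨if_pos a, if_pos a⟩
    · rw [(e k (by omega)).1, (e k (by omega)).2]
      exact ⟨if_neg a, if_neg a⟩
  obtain ⟨α, β, a1, b1, h⟩ := Hf.rep P (x := ω) (α0 := 0) (β0 := 1) hN i1 iN ip e uz wz wr ur nz
    fun k _ b => by rw [(c k (by omega)).1]; ring
  obtain ⟨α', β', a1', b1', h'⟩ := Hf.rep P (x := τ) (α0 := 1) (β0 := 0) hN i1 iN ip e uz wz wr ur
    nz fun k _ b => by rw [(c k (by omega)).2]; ring
  have ti := (c i (by omega)).2
  refine ⟨ω, τ, β, α, α', fun g => -β' g, ⟨fun g hg => (h g hg).1.symm, fun g hg => (h g hg).2.1,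
    b1, a1⟩, ⟨fun g hg => ?_, fun g hg => ?_, a1', neg_eq_zero.2 b1'⟩, fun k hk => ?_,
    fun k hk => ?_, ti ▸ (nz i i1 iN).2 ip, (c 0 (by omega)).2.trans w0,
    (c 0 (by omega)).1.trans u0, fun k hk => ⟨if_neg (by omega), if_neg (by omega)⟩,
    fun k k1 k2 => ?_, fun g hg => ?_⟩
  · obtain ⟨-, ⟨a, b⟩, -⟩ := h' g (by rwa [pair_comm])
    exact ⟨a, by beta_reduce; rw [b]; ring⟩
  · obtain ⟨⟨a, b⟩, -⟩ := h' g (by rwa [pair_comm])
    exact ⟨congrArg Neg.neg b, by beta_reduce; rw [a]; ring⟩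
  · have : k % 2 = i % 2 := hk
    simp only [ω, uz k (by omega), ite_self]
  · have : ¬ k % 2 = i % 2 := hk
    simp only [τ, wz k (by omega), ite_self]
  · obtain ⟨k, rfl⟩ := Nat.exists_eq_add_of_le' k1
    rw [Nat.add_sub_cancel, (c k (by omega)).1, (c k (by omega)).2, (c (k + 1) (by omega)).1,
      (c (k + 1) (by omega)).2, (c (k + 1 + 1) (by omega)).1, (c (k + 1 + 1) (by omega)).2]
    exact ⟨(wr k).symm, by linear_combination ur k⟩
  · rw [ti]
    exact ⟨(h g hg).2.2.1, (h g hg).2.2.2, (h' g hg).2.2.1, by beta_reduce; rw [(h' g hg).2.2.2]; ring⟩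

end Pool.Agent.MP_6eaae3_al.EV

end PartHf

section PartC1

/-! Counting with weights: the first group of normal forms. -/

namespace Pool.Agent.MP_6eaae3_al.EV

open FreeGroup (of mk invRev IsReduced)
open Set Pool.Agent.MP_6eaae3_al.LT Pool.Agent.MP_6eaae3_al.LT.Path

namespace C1

variable {L : Type} (w : L → ℝ)

theorem ws_mul (x y : FreeGroup L) : ws w (x * y) = ws w x + ws w y := by
  simp only [ws, map_mul, toAdd_mul]

theorem ws_inv (x : FreeGroup L) : ws w x⁻¹ = -ws w x := by simp only [ws, map_inv, toAdd_inv]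

theorem ws_one : ws w 1 = 0 := by simp only [ws, map_one, toAdd_one]

theorem ws_zpow (x : FreeGroup L) (k : ℤ) : ws w (x ^ k) = k * ws w x := by
  simp only [ws, map_zpow, toAdd_zpow, zsmul_eq_mul]

theorem ws_of (a : L) : ws w (of a) = w a := by simp only [ws, FreeGroup.lift_apply_of, toAdd_ofAdd]

variable {w}

theorem ws_fre {D : Set L} (h : ∀ a ∈ D, w a = 0) {x : FreeGroup L} (hx : x ∈ Fre D) :
    ws w x = 0 := by
  induction hx using Subgroup.closure_induction with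
  | mem x hx => obtain ⟨a, ha, rfl⟩ := hx; rw [ws_of, h a ha]
  | one => exact ws_one w
  | mul x y _ _ a b => rw [ws_mul, a, b, add_zero]
  | inv x _ a => rw [ws_inv, a, neg_zero]

theorem ws_bd {D : Set L} (h : ∀ a ∈ D, w a = 0) {o : L} {x : FreeGroup L}
    (hx : Bd (of o) (Fre D) x) : ws w x = 0 ∨ ws w x = w o ∨ ws w x = -w o := by
  obtain ⟨a, κ, h1, h2⟩ := hx
  have e := ws_fre h h1
  have f : ws w (of o ^ (-a) * x * of o ^ a) = ws w x := by
    simp only [ws_mul, ws_zpow]; push_cast; ring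
  rw [← f]
  rcases h2 with h2 | h2 | h2 | h2 <;> rw [h2] <;> simp [ws_mul, ws_inv, ws_of, e]

theorem ws_cw {G : Type} [Group G] {s t : G} {N : ℕ} {p : ℤ} (P : Pu s t N p) (u : ℕ → ℝ) (g : G)
    (i : ℕ) (e : Bool) (k : ℤ) : ws u (Cw P g i e k e) = k * ws u (P.f g i) := by
  cases e <;> simp [Cw, ws_mul, ws_inv, ws_zpow]

theorem rel_sw {G : Type} [Group G] {s t Δ : G} {N : ℕ} (h : ∀ i, aa s t i N = Δ) (i : ℤ) :
    aa t s i N = Δ := by
  have a : ∀ j : ℤ, yy t s j = yy s t (j + 1) := fun j => by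
    unfold yy; split_ifs <;> first | omega | rfl
  rw [← h (i + 1), aa, aa, a, a]

end C1

open C1 in
theorem c1 (h1 : S_HF) (h2 : S_H3) : S_C1 := by
  intro G _ s t Δ N p P i g hN od rel i1 iN par hg
  obtain ⟨U, hU⟩ := exists_cheb (show 2 ≤ N by omega)
  obtain ⟨ω, τ, f0, f1, f0', f1', k1, k2, z1, z2, nz, -, -, -, -, key⟩ :=
    h1 G s t N p P U i hU (by omega) i1 iN par
  obtain ⟨e1, e2, e3, e4⟩ := key g hg
  have hg' : g ∈ Subgroup.closure {t, s} := pair_comm s t ▸ hg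
  have he := hecke hU (by omega) rel (Subgroup.subset_closure (Or.inl rfl))
    (Subgroup.subset_closure (Or.inr rfl)) k1.1 k1.2.1 k1.2.2.1 k1.2.2.2 hg
  refine ⟨fun h => he.2 ?_, fun h => ?_, fun e k k0 => ⟨fun h => he.1 ?_, fun h => ?_⟩⟩
  · rw [ws_fre z1 h, mul_zero] at e2
    exact (sub_eq_zero.1 ((mul_eq_zero.1 e2.symm).resolve_left nz)).symm
  · obtain ⟨a, k, h, b, -, h3⟩ := hk G t s Δ N U hU (by omega) (rel_sw rel) f0' f1' _
      (Subgroup.subset_closure (Or.inl rfl)) (Subgroup.subset_closure (Or.inr rfl))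
      k2.1 k2.2.1 k2.2.2.1 k2.2.2.2 g hg' (by
        rcases ws_bd z2 h with h | h | h <;> rw [h] at e4
        · exact Or.inl (mul_left_cancel₀ nz (by linarith))
        · exact Or.inr (Or.inl (mul_left_cancel₀ nz (by linarith)))
        · exact Or.inr (Or.inr (mul_left_cancel₀ nz (by linarith))))
    exact ⟨a, k, h, b, h3⟩
  · have := ws_fre z1 h
    rw [ws_cw, e1] at this
    exact (mul_eq_zero.1 ((mul_eq_zero.1 this).resolve_left (Int.cast_ne_zero.2 k0))).resolve_left nz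
  · obtain ⟨a, b⟩ := h2 G t s Δ N U f0' f1' hU od (rel_sw rel) k2 g hg'
    have c : |(k : ℝ) * f0' g| ≤ 1 := by
      have := ws_bd z2 h
      rw [ws_cw, e3] at this
      rcases this with h | h | h
      · rw [show k * f0' g = 0 from mul_left_cancel₀ nz (by linarith)]; simp
      · rw [show k * f0' g = 1 from mul_left_cancel₀ nz (by linarith)]; simp
      · rw [show k * f0' g = -1 from mul_left_cancel₀ nz (by linarith)]; simp
    have d : (1 : ℝ) ≤ |(k : ℝ)| := by exact_mod_cast Int.one_le_abs k0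
    rw [abs_mul] at c
    exact b (le_antisymm (by nlinarith) a)

end Pool.Agent.MP_6eaae3_al.EV

end PartC1

section PartC2

/-! Counts for the good passages. -/

namespace Pool.Agent.MP_6eaae3_al.EV

open FreeGroup (of mk invRev IsReduced)
open Set Pool.Agent.MP_6eaae3_al.LT Pool.Agent.MP_6eaae3_al.LT.Path

namespace C2

section hm

variable {L L' A : Type} [AddCommGroup A]

/-- The weighted exponent sum with values in an abelian group. -/
def hm (w : L → A) (x : FreeGroup L) : A :=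
  Multiplicative.toAdd (FreeGroup.lift (fun a => Multiplicative.ofAdd (w a)) x)

theorem hm_mul (w : L → A) (a b) : hm w (a * b) = hm w a + hm w b := by simp [hm]
theorem hm_inv (w : L → A) (a) : hm w a⁻¹ = -hm w a := by simp [hm]
theorem hm_one (w : L → A) : hm w 1 = 0 := by simp [hm]
theorem hm_of (w : L → A) (a) : hm w (of a) = w a := by simp [hm]
theorem hm_zpow (w : L → A) (a) (k : ℤ) : hm w (a ^ k) = k • hm w a := by simp [hm]

theorem hm_fre {w : L → A} {D : Set L} (h : ∀ a ∈ D, w a = 0) {x} (hx : x ∈ Fre D) : hm w x = 0 := by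
  induction hx using Subgroup.closure_induction with
  | mem x hx => obtain ⟨a, ha, rfl⟩ := hx; rw [hm_of, h a ha]
  | one => exact hm_one w
  | mul x y _ _ a b => rw [hm_mul, a, b, add_zero]
  | inv x _ a => rw [hm_inv, a, neg_zero]

theorem hm_comp (φ : FreeGroup L →* FreeGroup L') (w : L' → A) (x) :
    hm w (φ x) = hm (fun a => hm w (φ (of a))) x := by
  induction x using FreeGroup.induction_on with
  | C1 => rw [map_one, hm_one, hm_one]
  | of a => rw [hm_of]
  | inv_of a ih => rw [map_inv, hm_inv, hm_inv, ih]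
  | mul a b u v => rw [map_mul, hm_mul, hm_mul, u, v]

theorem hm_smul (μ : ℝ) (w : L → ℝ) (x) : hm (fun a => μ * w a) x = μ * hm w x := by
  induction x using FreeGroup.induction_on with
  | C1 => rw [hm_one, hm_one, mul_zero]
  | of a => rw [hm_of, hm_of]
  | inv_of a ih => rw [hm_inv, hm_inv, ih, mul_neg]
  | mul a b u v => rw [hm_mul, hm_mul, u, v, mul_add]

/-- The weight that sees only the sides. -/
def sd (w : ℕ → A) (a : ℕ × Bool) : A := if a.2 then w a.1 else 0

theorem sd_ff (w : ℕ → A) (k) : hm (sd w) (ff k) = 0 := by rw [ff, hm_of]; rfl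

theorem sd_et (w : ℕ → A) (N k) : hm (sd w) (et N k) = if 1 ≤ k ∧ k ≤ N then w k else 0 := by
  rw [et]; split_ifs
  exacts [hm_of _ _, hm_one _]

theorem sd_D0 (w : ℕ → A) {x} (h : x ∈ Fre D0) : hm (sd w) x = 0 :=
  hm_fre (fun a ha => by rw [sd, show a.2 = false from ha.1]; rfl) h

theorem sd_xi (w : ℕ → A) (N k) : hm (sd w) (xi N 0 (of k)) = if k % 2 = 0 then 0 else
    (if 1 ≤ k + 1 ∧ k + 1 ≤ N then w (k + 1) else 0) - if 1 ≤ k - 1 ∧ k - 1 ≤ N then w (k - 1) else 0 := by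
  rw [xi, FreeGroup.lift_apply_of]
  by_cases h : k % 2 = 0
  · rw [if_pos h, if_pos h, sd_ff]
  · rw [if_neg h, if_neg h, hm_mul, hm_inv, sd_et, sd_et, sub_eq_add_neg]

theorem sd_xi' {w : ℕ → A} {N : ℕ} (h0 : w 0 = 0) (h1 : ∀ k, N < k → w k = 0) (k) :
    hm (sd w) (xi N 0 (of k)) = if k % 2 = 0 then 0 else w (k + 1) - w (k - 1) := by
  have : ∀ j, (if 1 ≤ j ∧ j ≤ N then w j else 0) = w j := fun j => by
    split_ifs with a
    · rfl
    by_cases b : j = 0
    exacts [by rw [b, h0], (h1 j (by omega)).symm]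
  rw [sd_xi, this, this]

theorem sd_en {N i : ℕ} {x} (h : En (ff i) (et N i) (Fre D0) x) :
    ∃ a b : ℤ, (a = b ∨ a - b = 1 ∨ a - b = -1) ∧ ∀ {B : Type} [AddCommGroup B] (w : ℕ → B),
      hm (sd w) x = (a - b) • hm (sd w) (et N i) := by
  obtain ⟨a, b, κ, δ, δ', h1, h2, h3, rfl⟩ := h
  rcases h2 with rfl | rfl <;> rcases h3 with rfl | rfl
  exacts [⟨0, 0, by simp, fun w => by simp [hm_mul, hm_zpow, sd_ff, sd_D0 w h1]⟩,
    ⟨0, 1, by simp, fun w => by simp [hm_mul, hm_inv, hm_zpow, sd_ff, sd_D0 w h1]⟩,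
    ⟨1, 0, by simp, fun w => by simp [hm_mul, hm_zpow, sd_ff, sd_D0 w h1]⟩,
    ⟨0, 0, by simp, fun w => by simp [hm_mul, hm_inv, hm_zpow, sd_ff, sd_D0 w h1]⟩]

variable {G : Type} [Group G] {s t : G} {N : ℕ} {p : ℤ} (P : Pu s t N p)

theorem hm_cw (w : ℕ → A) (g i e k) : hm w (Cw P g i e k e) = k • hm w (P.f g i) := by
  cases e <;> simp [Cw, hm_mul, hm_inv, hm_zpow]

omit [Group G] in
theorem gen_col {y : G} (hy : y ∈ ({s, t} : Set G)) :
    ∃ r : ℤ, ∀ k : ℕ, ((k + r) % 2 = 0 → y = yy s t (k + p)) ∧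
      ((k + r) % 2 = 1 → y = yy s t (k + p + 1)) := by
  rcases hy with rfl | rfl
  · exact ⟨p, fun k => ⟨fun a => by rw [yy, if_pos a], fun a => by rw [yy, if_pos (by omega)]⟩⟩
  · exact ⟨p + 1, fun k => ⟨fun a => by rw [yy, if_neg (by omega)],
      fun a => by rw [yy, if_neg (by omega)]⟩⟩

/-- A count that is one on the odd loops and zero on the even loops. -/
theorem cnt_f (hN : N % 2 = 1) {w : ℕ → A} {u : A}
    (h : ∀ k, 1 ≤ k → k ≤ N → w k = if k % 2 = 1 then u else 0) {g} (hg : g ∈ Subgroup.closure {s, t}) :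
    ∀ k, k ≤ N + 1 → hm w (P.f g k) = if k % 2 = 1 then u else 0 := by
  have ends : ∀ g, (∀ k, 1 ≤ k → k ≤ N → hm w (P.f g k) = if k % 2 = 1 then u else 0) →
      ∀ k, k ≤ N + 1 → hm w (P.f g k) = if k % 2 = 1 then u else 0 := fun g a k b => by
    by_cases c : k = 0
    · rw [c, (P.f0 g).1, hm_one, if_neg (by omega)]
    by_cases d : k = N + 1
    · rw [d, (P.f0 g).2, hm_one, if_neg (by omega)]
    exact a k (by omega) (by omega)
  have par : ∀ k, 1 ≤ k → (if (k + 1) % 2 = 1 then u else 0) = if (k - 1) % 2 = 1 then u else 0 :=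
    fun k a => by split_ifs <;> first | rfl | omega
  induction hg using Subgroup.closure_induction_right with
  | one => exact ends _ fun k a b => by rw [(P.f1 k a b).1, hm_of, h k a b]
  | mul_right g hg y hy ih =>
    obtain ⟨r, hr⟩ := gen_col (p := p) hy
    refine ends _ fun k a b => ?_
    rcases Int.emod_two_eq_zero_or_one (k + r) with c | c
    · rw [(hr k).1 c, (P.own g hg k a b).1, ih k (by omega)]
    · rw [(hr k).2 c, (P.oth g hg k a b).1, hm_mul, hm_mul, hm_inv, ih k (by omega),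
        ih (k + 1) (by omega), ih (k - 1) (by omega), par k a]
      abel
  | mul_inv_cancel g hg y hy ih =>
    obtain ⟨r, hr⟩ := gen_col (p := p) hy
    have hg' := mul_mem hg (inv_mem (Subgroup.subset_closure hy))
    have own : ∀ k : ℕ, k ≤ N + 1 → (k + r) % 2 = 0 →
        hm w (P.f (g * y⁻¹) k) = if k % 2 = 1 then u else 0 := fun k b c => by
      by_cases c : k = 0
      · rw [c, (P.f0 _).1, hm_one, if_neg (by omega)]
      by_cases d : k = N + 1
      · rw [d, (P.f0 _).2, hm_one, if_neg (by omega)]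
      have := (P.own _ hg' k (by omega) (by omega)).1
      rw [← (hr k).1 (by assumption), inv_mul_cancel_right] at this
      rw [← this, ih k b]
    refine ends _ fun k a b => ?_
    rcases Int.emod_two_eq_zero_or_one (k + r) with c | c
    · exact own k (by omega) c
    · have := congrArg (hm w) (P.oth _ hg' k a b).1
      rw [← (hr k).2 c, inv_mul_cancel_right, ih k (by omega), hm_mul, hm_mul, hm_inv,
        own (k + 1) (by omega) (by omega), own (k - 1) (by omega) (by omega), par k a] at this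
      rw [this]
      abel

theorem cnt_W {i : ℕ} (i1 : 1 ≤ i) (iN : i ≤ N) (par : (i + p) % 2 = 1) {w : ℕ → A}
    (h : ∀ g ∈ Subgroup.closure {s, t}, hm w (P.f g i) = 0) {g} (hg : g ∈ Subgroup.closure {s, t}) :
    hm w (P.W g i) = 0 := by
  have step : ∀ g ∈ Subgroup.closure {s, t}, ∀ y ∈ ({s, t} : Set G),
      hm w (P.W (g * y) i) = hm w (P.W g i) := by
    rintro g hg y (rfl | rfl)
    · rw [(P.arc g hg i i1 iN par).2]
    · rw [(P.arc g hg i i1 iN par).1, hm_mul, hm_mul, hm_mul, hm_inv, h g hg]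
      abel
  induction hg using Subgroup.closure_induction_right with
  | one => rw [(P.f1 i i1 iN).2.2, hm_one]
  | mul_right g hg y hy ih => rw [step g hg y hy, ih]
  | mul_inv_cancel g hg y hy ih =>
    have := step _ (mul_mem hg (inv_mem (Subgroup.subset_closure hy))) y hy
    rw [inv_mul_cancel_right] at this
    rw [← this, ih]

end hm

/-- The count of the odd letters modulo the number of odd curves. -/
def cq (N k : ℕ) : ZMod ((N + 1) / 2) :=
  hm (sd fun j => ((j / 2 : ℕ) : ZMod ((N + 1) / 2))) (xi N 0 (of k))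

theorem cq_eq {N : ℕ} (hN : N % 2 = 1) (k : ℕ) (a : 1 ≤ k) (b : k ≤ N) :
    cq N k = if k % 2 = 1 then 1 else 0 := by
  rw [cq, sd_xi]
  by_cases h : k % 2 = 0
  · rw [if_pos h, if_neg (by omega)]
  rw [if_neg h, if_pos (show k % 2 = 1 by omega)]
  have e1 : (if 1 ≤ k + 1 ∧ k + 1 ≤ N then (((k + 1) / 2 : ℕ) : ZMod ((N + 1) / 2)) else 0) =
      ((k + 1) / 2 : ℕ) := by
    split_ifs with c
    · rfl
    · rw [show k = N by omega, ZMod.natCast_self]
  have e2 : (if 1 ≤ k - 1 ∧ k - 1 ≤ N then (((k - 1) / 2 : ℕ) : ZMod ((N + 1) / 2)) else 0) =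
      ((k - 1) / 2 : ℕ) := by
    split_ifs with c
    · rfl
    · rw [show k - 1 = 0 by omega]; simp
  rw [e1, e2, show (k + 1) / 2 = (k - 1) / 2 + 1 by omega]
  push_cast
  ring

/-- The two end terms cancel. -/
theorem en_zero {N i : ℕ} (hN : N % 2 = 1) (i1 : 1 ≤ i) (iN : i ≤ N) (hi : i % 2 = 0) {x}
    (hc : hm (cq N) x = 0) (h : En (ff i) (et N i) (Fre D0) (xi N 0 x)) (w : ℕ → ℝ) :
    hm (sd w) (xi N 0 x) = 0 := by
  obtain ⟨a, b, h1, h2⟩ := sd_en h
  have e := h2 fun j => ((j / 2 : ℕ) : ZMod ((N + 1) / 2))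
  rw [hm_comp, show (fun k => hm _ (xi N 0 (of k))) = cq N from rfl, hc, sd_et, if_pos ⟨i1, iN⟩] at e
  have ne : ((i / 2 : ℕ) : ZMod ((N + 1) / 2)) ≠ 0 := fun u => by
    have := Nat.le_of_dvd (by omega) ((ZMod.natCast_eq_zero_iff _ _).1 u)
    omega
  rcases h1 with rfl | h1 | h1
  · rw [h2, sub_self, zero_smul]
  · rw [h1, one_smul] at e
    exact (ne e.symm).elim
  · rw [h1, neg_smul, one_smul] at e
    exact (ne (neg_eq_zero.1 e.symm)).elim

end C2

open C2 in
theorem c2 (h1 : S_HF) (h2 : S_H3) : S_C2 := by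
  intro G _ s t Δ N p P i g h3 hN rel i1 iN par hg
  obtain ⟨U, hU⟩ := exists_cheb (show 2 ≤ N by omega)
  obtain ⟨ω, τ, f0, f1, f0', f1', k1, k2, ωz, τz, τi, τ0, ω0, big, rc, val⟩ :=
    h1 G s t N p P U i hU (by omega) i1 iN par
  obtain ⟨v1, v2, v3, v4⟩ := val g hg
  have wh : ∀ (w : ℕ → ℝ) x, ws w x = hm w x := fun _ _ => rfl
  rw [wh] at v1 v2 v3 v4
  have μ0 : U 2 ≠ 0 := by have := hU.ge (j := 1) (by omega); linarith
  have sw : ∀ i, yy t s i = yy s t (i + 1) := fun i => by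
    simp only [yy]; split_ifs <;> first | omega | rfl
  have rel' : ∀ i, aa t s i (N + 1) = Δ := fun i => by rw [← rel (i + 1), aa, aa, sw, sw]
  have hg' : g ∈ Subgroup.closure {t, s} := by rwa [pair_comm]
  have m1 : ∀ a b : G, a ∈ Subgroup.closure {a, b} := fun a b => Subgroup.subset_closure (Or.inl rfl)
  have m2 : ∀ a b : G, b ∈ Subgroup.closure {a, b} := fun a b => Subgroup.subset_closure (Or.inr rfl)
  have e1 := hecke hU (by omega) rel (m1 s t) (m2 s t) k1.1 k1.2.1 k1.2.2.1 k1.2.2.2 hg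
  have e2 := hecke hU (by omega) rel' (m1 t s) (m2 t s) k2.1 k2.2.1 k2.2.2.1 k2.2.2.2 hg'
  have e3 := (h2 G t s Δ N U f0' f1' hU hN rel' k2 g hg').1
  have own : ∀ x, (i % 2 = 0 → hm (cq N) x = 0) → Hown N i x → hm ω x = 0 := fun x hc h => by
    rcases Nat.mod_two_eq_zero_or_one i with hi | hi
    · have a := en_zero hN i1 iN hi (hc hi) (h.2 hi) fun j => -τ j
      have b : (fun k => hm (sd fun j => -τ j) (xi N 0 (of k))) = fun k => U 2 * ω k := funext fun k => by
        rw [sd_xi' (by rw [τ0, neg_zero]) fun k a => by rw [(big k a).1, neg_zero]]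
        split_ifs with c
        · rw [ωz k (c.trans hi.symm), mul_zero]
        by_cases d : k ≤ N
        · rw [(rc k (by omega) d).1]; ring
        · rw [(big k (by omega)).2, (big (k + 1) (by omega)).1, (big (k - 1) (by omega)).1]; ring
      rw [hm_comp, b, hm_smul] at a
      exact (mul_eq_zero.1 a).resolve_left μ0
    · exact hm_fre ωz (h.1 hi)
  have oth : ∀ x, Hoth N i x → hm τ x = 0 := fun x h => by
    rcases Nat.mod_two_eq_zero_or_one i with hi | hi
    · exact hm_fre τz (h.1 hi)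
    · have a := sd_D0 ω (h.2 hi)
      have b : (fun k => hm (sd ω) (xi N 0 (of k))) = fun k => U 2 * τ k := funext fun k => by
        rw [sd_xi' ω0 fun k a => (big k a).2]
        split_ifs with c
        · rw [τz k fun u => by have : k % 2 = i % 2 := u; omega, mul_zero]
        by_cases d : k ≤ N
        · rw [(rc k (by omega) d).2]
        · rw [(big k (by omega)).1, (big (k + 1) (by omega)).2, (big (k - 1) (by omega)).2]; ring
      rw [hm_mul, hm_mul, hm_inv, hm_comp, b, hm_smul] at a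
      exact (mul_eq_zero.1 (show U 2 * hm τ x = 0 by linarith)).resolve_left μ0
  have cf : i % 2 = 0 → ∀ g ∈ Subgroup.closure {s, t}, hm (cq N) (P.f g i) = 0 := fun hi g hg => by
    rw [cnt_f P hN (cq_eq hN) hg i (by omega), if_neg (by omega)]
  refine ⟨fun h => e1.2 ?_, fun h => e2.1 ?_, fun e k hk => ⟨fun h => e1.1 ?_, fun h => ?_⟩⟩
  · rw [own _ (fun hi => cnt_W P i1 iN par (cf hi) hg) h, mul_zero] at v2
    have := (mul_eq_zero.1 v2.symm).resolve_left τi
    linarith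
  · rw [oth _ h, mul_zero] at v4
    exact (mul_eq_zero.1 v4.symm).resolve_left τi
  · have a := own _ (fun hi => by rw [hm_cw, cf hi g hg, smul_zero]) h
    rw [hm_cw, v1, zsmul_eq_mul] at a
    exact (mul_eq_zero.1 ((mul_eq_zero.1 a).resolve_left (Int.cast_ne_zero.2 hk))).resolve_left τi
  · have a := oth _ h
    rw [hm_cw, v3, zsmul_eq_mul] at a
    rw [(mul_eq_zero.1 ((mul_eq_zero.1 a).resolve_left (Int.cast_ne_zero.2 hk))).resolve_left τi,
      abs_zero] at e3
    linarith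

end Pool.Agent.MP_6eaae3_al.EV

end PartC2

section PartDf

/-! The transverse arcs under powers of the Garside element as explicit words. -/

namespace Pool.Agent.MP_6eaae3_al.EV

open FreeGroup (of mk invRev IsReduced)
open Set Pool.Agent.MP_6eaae3_al.LT Pool.Agent.MP_6eaae3_al.LT.Path

namespace Df

section alg

variable {H : Type} [Group H] {X : ℕ → H}

/-- The homomorphism of `LT.lk`. -/
def ch (X : ℕ → H) : FreeGroup ℕ →* H := FreeGroup.lift fun a => X (a + 1) * X a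

theorem ch_of (a : ℕ) : ch X (of a) = X (a + 1) * X a := FreeGroup.lift_apply_of

theorem dds (i : ℕ) : dd X (i + 1) = dd X i * X (i + 1) := rfl

variable (hX : ∀ a, X a * X a = 1)
include hX

theorem iX (a : ℕ) : (X a)⁻¹ = X a := inv_eq_of_mul_eq_one_right (hX a)

theorem i2 (a : ℕ) (y : H) : X a * (X a * y) = y := by rw [← mul_assoc, hX, one_mul]

theorem ch_A (a : ℕ) : ch X (wA (a + 1)) = X (a + 1) * X 1 := by
  induction a with
  | zero => rw [wA, if_pos rfl, map_one, zero_add, hX]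
  | succ a ih => rw [wA, if_neg (by omega), map_mul, ih, ch_of, mul_assoc, i2 hX]

theorem ch_O (r : ℕ) : ch X (wO r) = dd X (2 * r) := by
  induction r with
  | zero => exact map_one _
  | succ r ih =>
    have : wO (r + 1) = wO r * (of (2 * r + 1))⁻¹ := rfl
    rw [this, map_mul, map_inv, ih, ch_of, mul_inv_rev, iX hX, iX hX,
      show 2 * (r + 1) = 2 * r + 1 + 1 by ring, dds, dds, mul_assoc]

theorem ch_E (r : ℕ) : ch X (wE r) = X 1 * dd X (2 * r + 1) := by
  induction r with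
  | zero =>
    have : dd X (2 * 0 + 1) = X 1 := one_mul _
    rw [this, hX]; exact map_one _
  | succ r ih =>
    have : wE (r + 1) = wE r * (of (2 * r + 2))⁻¹ := rfl
    rw [this, map_mul, map_inv, ih, ch_of, mul_inv_rev, iX hX, iX hX,
      show 2 * (r + 1) + 1 = 2 * r + 1 + 1 + 1 by ring, dds (2 * r + 1 + 1), dds (2 * r + 1)]
    simp only [mul_assoc]

theorem ch_Y {N : ℕ} (o : N % 2 = 1) (n : ℤ) : ch X (wY N ^ n) = X 1 * dd X (N + 1) ^ n * X 1 := by
  have : ch X (wY N) = X 1 * dd X (N + 1) * (X 1)⁻¹ := by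
    rw [wY, map_mul, ch_E hX, ch_A hX, show 2 * (N / 2) + 1 = N by omega, dds, iX hX]
    simp only [mul_assoc]
  rw [map_zpow, this, conj_zpow, iX hX]

theorem ch_R {N i : ℕ} (o : N % 2 = 1) (k : ℤ) : ch X (uR N k i) =
    if k % 2 = 0 then X (i + 1) * dd X (N + 1) ^ (k / 2) * X (i + 1)
    else (dd X (2 * ((N + 1 - i) / 2) + 1))⁻¹ * dd X (N + 1) ^ (k / 2 + 1) * X (i + 1) := by
  rw [uR]
  split_ifs <;>
    simp only [map_mul, map_inv, ch_A hX, ch_E hX, ch_Y hX o, mul_inv_rev, iX hX, mul_assoc, i2 hX]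

theorem ch_L {N i : ℕ} (o : N % 2 = 1) (k : ℤ) : ch X (uL N k i) =
    (if k % 2 = 0 then (dd X (i + 1))⁻¹ else if i % 2 = 1 then 1 else X (N + 1 - i + 1)) *
      dd X (N + 1) ^ (k / 2) * dd X (i + 1) := by
  rw [uL]
  by_cases c : i % 2 = 1
  · rw [if_pos c, if_pos c]
    split_ifs <;>
      simp only [map_mul, map_inv, map_zpow, map_one, ch_O hX,
        show 2 * ((i + 1) / 2) = i + 1 by omega, show 2 * ((N + 1) / 2) = N + 1 by omega]
  · rw [if_neg c, if_neg c]
    split_ifs <;>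
      simp only [map_mul, map_inv, ch_A hX, ch_E hX, ch_Y hX o, mul_inv_rev, iX hX, mul_assoc, i2 hX,
        show 2 * (i / 2) = i by omega]

theorem w0 {N i : ℕ} (o : N % 2 = 1) (u : i ≤ N) (k : ℤ) :
    WW X (N + 1) k 0 i = ch X ((uL N k i)⁻¹ * uR N k i) := by
  rw [map_mul, map_inv, ch_R hX o, ch_L hX o, WW, DE, if_pos rfl, DD]
  generalize dd X (N + 1) = δ
  by_cases c : k % 2 = 0
  · simp only [if_pos c, dds i, mul_inv_rev, inv_inv, iX hX, mul_assoc, i2 hX, zpow_neg]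
  · simp only [if_neg c]
    by_cases d : i % 2 = 1
    · rw [if_pos d, show 2 * ((N + 1 - i) / 2) + 1 = N + 1 - i by omega]
      group
    · rw [if_neg d, show 2 * ((N + 1 - i) / 2) = N + 1 - i by omega]
      simp only [dds (N + 1 - i), mul_inv_rev, iX hX, mul_assoc, i2 hX, zpow_neg]

theorem w1 {N i : ℕ} (o : N % 2 = 1) (v : 1 ≤ i) (u : i ≤ N) (k : ℤ) :
    WW X (N + 1) k 1 i * (WW X (N + 1) k 0 i)⁻¹ =
      ch X ((uL N k i)⁻¹ * of (ix N k i) ^ sn k i * uL N k i) := by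
  rw [map_mul, map_mul, map_inv, map_zpow, ch_of, ch_L hX o, WW, WW, DE, DE, if_pos rfl,
    if_neg one_ne_zero, if_pos rfl, DD, DD, DD, ix, sn]
  generalize dd X (N + 1) = δ
  obtain ⟨i, rfl⟩ : ∃ j, i = j + 1 := ⟨i - 1, by omega⟩
  by_cases c : k % 2 = 0
  · simp only [if_pos c, Nat.add_sub_cancel]
    rw [if_neg (by omega), zpow_one]
    simp only [dds (i + 1), dds i, mul_inv_rev, inv_inv, iX hX, mul_assoc, i2 hX, zpow_neg,
      mul_inv_cancel_left, inv_mul_cancel_left]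
  · simp only [if_neg c, Nat.add_sub_cancel]
    obtain ⟨a, ha⟩ : ∃ a, N = i + 1 + a := ⟨N - (i + 1), by omega⟩
    rw [show N + 1 - i = a + 1 + 1 by omega, show N + 1 - (i + 1) = a + 1 by omega,
      show N + 1 - (i + 1 + 1) = a by omega]
    generalize dd X (i + 1 + 1) = ε
    by_cases d : (i + 1) % 2 = 1
    · rw [if_pos d, if_neg (by omega), zpow_one]
      simp only [dds (a + 1), dds a, mul_inv_rev, inv_inv, iX hX, mul_assoc, i2 hX, zpow_neg,
        mul_inv_cancel_left, inv_mul_cancel_left, one_mul]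
    · rw [if_neg d, if_pos (by omega), zpow_neg_one]
      simp only [dds (a + 1), dds a, mul_inv_rev, inv_inv, iX hX, mul_assoc, i2 hX, zpow_neg,
        mul_inv_cancel_left, inv_mul_cancel_left]

end alg

/-- The descending products of all generators. -/
def wB : ℕ → FreeGroup ℕ
  | 0 => 1
  | k + 1 => of k * wB k

def fl (a : ℕ) (x : Bool × FreeGroup ℕ) : Bool × FreeGroup ℕ :=
  (!x.1, if x.1 then wB a * x.2 else (wB a)⁻¹ * x.2)

theorem fl_inv (a : ℕ) : Function.Involutive (fl a) := by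
  rintro ⟨_ | _, w⟩ <;> simp [fl]

def XX (a : ℕ) : Equiv.Perm (Bool × FreeGroup ℕ) := (fl_inv a).toPerm

theorem XX_sq (a : ℕ) : XX a * XX a = 1 := Equiv.ext fun x => fl_inv a x

theorem ch_app (u w : FreeGroup ℕ) : ch XX u (false, w) = (false, u * w) := by
  induction u using FreeGroup.induction_on generalizing w with
  | C1 => rw [map_one, one_mul]; rfl
  | of a =>
    rw [ch_of]
    show fl (a + 1) (fl a (false, w)) = _
    simp [fl, wB, mul_assoc]
  | inv_of a ih =>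
    rw [map_inv, Equiv.Perm.inv_eq_iff_eq, ih, mul_inv_cancel_left]
  | mul a b iha ihb => rw [map_mul, Equiv.Perm.mul_apply, ihb, iha, mul_assoc]

theorem ch_inj {u v : FreeGroup ℕ} (h : ch XX u = ch XX v) : u = v := by
  have := ch_app u 1
  rw [h, ch_app, mul_one, mul_one] at this
  exact (Prod.mk.inj this).2.symm

end Df

open Df in
theorem df : S_DF := by
  intro G _ s t Δ N p P i k _ o rel u v par
  have hs : s ∈ Subgroup.closure {s, t} := Subgroup.subset_closure (by simp)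
  have ht : t ∈ Subgroup.closure {s, t} := Subgroup.subset_closure (by simp)
  have hΔ : Δ ∈ Subgroup.closure {s, t} := rel 0 ▸ alG_mem _ (yy_mem hs ht _) (yy_mem hs ht _)
  have a0 := lk G s t Δ N p P rel _ XX XX_sq k 0 i u v par (Or.inr (Or.inl rfl))
  have a1 := lk G s t Δ N p P rel _ XX XX_sq k 1 i u v par (Or.inr (Or.inr rfl))
  rw [zpow_zero, mul_one] at a0
  rw [zpow_one, (P.arc _ (zpow_mem hΔ k) i u v par).1, map_mul, a0] at a1
  refine ⟨ch_inj (a0.trans (w0 XX_sq o v k)), ch_inj ?_⟩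
  rw [← w1 XX_sq o u v k, ← a1, mul_inv_cancel_right]
  rfl

end Pool.Agent.MP_6eaae3_al.EV

end PartDf

section PartAl

/-! The dihedral step in the abstract. -/

namespace Pool.Agent.MP_6eaae3_al.EV

open FreeGroup (of mk invRev IsReduced)
open Set Pool.Agent.MP_6eaae3_al.LT Pool.Agent.MP_6eaae3_al.LT.Path

namespace Al

variable {G : Type} [Group G] {s t : G} {N : ℕ} {p : ℤ} (P : Pu s t N p) {i : ℕ}

theorem ms : s ∈ Subgroup.closure {s, t} := Subgroup.subset_closure (Or.inl rfl)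

theorem mt : t ∈ Subgroup.closure {s, t} := Subgroup.subset_closure (Or.inr rfl)

theorem W_s (i1 : 1 ≤ i) (iN : i ≤ N) (par : (i + p) % 2 = 1) {g : G}
    (hg : g ∈ Subgroup.closure {s, t}) (b : ℤ) : P.W (g * s ^ b) i = P.W g i := by
  have a := fun g hg => (P.arc g hg i i1 iN par).2
  induction b using Int.induction_on with
  | zero => rw [zpow_zero, mul_one]
  | succ b ih => rw [zpow_add_one, ← mul_assoc, a _ (mul_mem hg (zpow_mem ms _)), ih]
  | pred b ih =>
    rw [← ih, ← a _ (mul_mem hg (zpow_mem ms _)), mul_assoc, ← zpow_add_one, sub_add_cancel]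

theorem W_t (i1 : 1 ≤ i) (iN : i ≤ N) (par : (i + p) % 2 = 1) {g : G}
    (hg : g ∈ Subgroup.closure {s, t}) (b : ℤ) :
    P.f (g * t ^ b) i = P.f g i ∧ P.v (g * t ^ b) i = P.v g i ∧
      P.W (g * t ^ b) i = ((P.v g i)⁻¹ * P.f g i * P.v g i) ^ b * P.W g i := by
  have a := fun g hg => (P.arc g hg i i1 iN par).1
  have c := fun g hg => P.own g hg i i1 iN
  rw [yy, if_neg (by omega)] at c
  induction b using Int.induction_on with
  | zero => simp
  | succ b ih =>
    have m := mul_mem hg (zpow_mem mt (b : ℤ))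
    rw [zpow_add_one, ← mul_assoc, a _ m, (c _ m).1, (c _ m).2, ih.1, ih.2.1, ih.2.2, add_comm,
      zpow_one_add, mul_assoc _ _ (P.W g i)]
    exact ⟨rfl, rfl, rfl⟩
  | pred b ih =>
    have m := mul_mem hg (zpow_mem mt (-(b : ℤ) - 1))
    have e : g * t ^ (-(b : ℤ) - 1) * t = g * t ^ (-(b : ℤ)) := by
      rw [mul_assoc, ← zpow_add_one, sub_add_cancel]
    have u := a _ m
    have w := c _ m
    rw [e] at u w
    rw [← w.1, ← w.2, ih.1, ih.2.1, ih.2.2] at u
    refine ⟨w.1.symm.trans ih.1, w.2.symm.trans ih.2.1, ?_⟩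
    rw [← inv_mul_eq_iff_eq_mul] at u
    rw [← u]
    generalize (P.v g i)⁻¹ * P.f g i * P.v g i = φ
    group

theorem cw_cross (i1 : 1 ≤ i) (iN : i ≤ N) (par : (i + p) % 2 = 1) {g : G}
    (hg : g ∈ Subgroup.closure {s, t}) (k : ℤ) : Cw P g i false k true = P.W (g * t ^ k) i := by
  rw [(W_t P i1 iN par hg k).2.2, Cw]; simp

theorem cw_t (i1 : 1 ≤ i) (iN : i ≤ N) (par : (i + p) % 2 = 1) {g : G}
    (hg : g ∈ Subgroup.closure {s, t}) (b k : ℤ) (e : Bool) :
    Cw P (g * t ^ b) i e k e = Cw P g i e k e := by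
  obtain ⟨a, c, d⟩ := W_t P i1 iN par hg b
  rw [Cw, Cw, a, c, d]
  generalize (P.v g i)⁻¹ * P.f g i * P.v g i = φ
  cases e
  · rfl
  · simp only [if_true]; group

end Al

open Al in
theorem al (h1 : S_C1) (h2 : S_C2) (h3 : S_PD) : S_AL := by
  intro G _ s t Δ N p P i e e' k Q g hN od rel i1 iN par ee hg q
  have hΔ : ∀ j : ℤ, Δ ^ j ∈ Subgroup.closure {s, t} := fun j =>
    zpow_mem (rel 0 ▸ alG_mem _ (yy_mem ms mt _) (yy_mem ms mt _)) j
  have C1 := fun g hg => h1 G s t Δ N p P i g hN od rel i1 iN par hg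
  have C2 := fun g hg => h2 G s t Δ N p P i g hN od rel i1 iN par hg
  have PD := fun k => h3 G s t Δ N p P i k hN od rel i1 iN par
  have hk := mul_mem hg (zpow_mem mt k)
  have cr : ∀ (x w : G) (a : ℤ), x ∈ Subgroup.closure {s, t} → g * t ^ k = x ^ a * w →
      Cw P (x ^ (-a) * g) i false k true = P.W w i := fun x w a hx u => by
    rw [cw_cross P i1 iN par (mul_mem (zpow_mem hx _) hg), mul_assoc, u]; congr 1; group
  rcases ee with ⟨rfl, rfl⟩ | ⟨rfl, k0, ee⟩
  · refine ⟨fun ps H => ?_, fun ps => ⟨fun H => ?_, fun H => ?_⟩⟩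
    · obtain ⟨a, j, b, u⟩ : ∃ a j b : ℤ, g * t ^ k = t ^ a * Δ ^ j * s ^ b :=
        H.elim (fun H => (C1 _ hk).1 (cw_cross P i1 iN par hg k ▸ H g hg q))
          fun H => (C2 _ hk).1 (cw_cross P i1 iN par hg k ▸ H g hg q)
      have c := cr t _ a mt (u.trans (mul_assoc _ _ _))
      rw [W_s P i1 iN par (hΔ j)] at c
      have m := mul_mem (zpow_mem mt (-a)) hg
      obtain rfl := (PD j).1 (H.imp (fun H => c ▸ H _ m (ps g _ q))
        fun H => Or.inl (c ▸ H _ m (ps g _ q)))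
      exact ⟨a, b, -k, by rw [eq_mul_inv_of_mul_eq u]; group⟩
    · obtain ⟨a, j, h, b, v, u⟩ := (C1 _ hk).2.1 (cw_cross P i1 iN par hg k ▸ H g hg q)
      have c := cr s (Δ ^ j * t ^ h * s ^ b) a ms (by rw [u]; group)
      rw [W_s P i1 iN par (mul_mem (hΔ j) (zpow_mem mt h))] at c
      obtain ⟨a', b', c', w⟩ := (PD j).2.1 h v (c ▸ H _ (mul_mem (zpow_mem ms _) hg) (ps g _ q))
      exact ⟨a + a', b', c' + b, -k, by rw [eq_mul_inv_of_mul_eq u, mul_assoc _ (Δ ^ j), w]; group⟩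
    · obtain ⟨a, j, u⟩ := (C2 _ hk).2.1 (cw_cross P i1 iN par hg k ▸ H g hg q)
      have c := cr s _ a ms u
      obtain rfl := (PD j).1 (Or.inr (Or.inr (c ▸ H _ (mul_mem (zpow_mem ms _) hg) (ps g _ q))))
      exact ⟨a, -k, by rw [eq_mul_inv_of_mul_eq u]; group⟩
  · refine ⟨fun ps H => ?_, fun ps => ⟨fun H => ?_, fun H => (((C2 g hg).2.2 e k k0).2 (H g hg q)).elim⟩⟩
    · obtain ⟨a, j, u⟩ : ∃ a j : ℤ, g = t ^ a * Δ ^ j :=
        H.elim (fun H => ((C1 g hg).2.2 e k k0).1 (H g hg q)) fun H => ((C2 g hg).2.2 e k k0).1 (H g hg q)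
      have c : Q (Δ ^ j) := by simpa [u] using ps g (-a) q
      obtain rfl := (PD j).2.2 e k k0 ee (H.imp (fun H => H _ (hΔ j) c)
        fun H => Or.inr (H _ (hΔ j) c))
      exact ⟨a, 0, 0, by simpa using u⟩
    · obtain ⟨a, j, b, u⟩ := ((C1 g hg).2.2 e k k0).2 (H g hg q)
      have c : Q (Δ ^ j * t ^ b) := by simpa [u, mul_assoc] using ps g (-a) q
      obtain rfl := (PD j).2.2 e k k0 ee (Or.inr (Or.inl
        (cw_t P i1 iN par (hΔ j) b k e ▸ H _ (mul_mem (hΔ j) (zpow_mem mt b)) c)))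
      exact ⟨a, b, 0, 0, by simpa using u⟩

end Pool.Agent.MP_6eaae3_al.EV

end PartAl

section PartPd

/-! Powers of the Garside element. -/

namespace Pool.Agent.MP_6eaae3_al.EV

open FreeGroup (of mk invRev IsReduced)
open Set Pool.Agent.MP_6eaae3_al.LT Pool.Agent.MP_6eaae3_al.LT.Path

theorem Bd.en {H : Type} [Group H] {o η w : H} {K : Subgroup H} (h : Bd o K w) : En o η K w := by
  obtain ⟨a, κ, u, v⟩ := h
  have e : w = o ^ a * (o ^ (-a) * w * o ^ a) * o ^ (-a) := by group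
  rcases v with v | v | v | v <;> rw [v] at e
  · exact ⟨a, -a, κ, 1, 1, u, Or.inl rfl, Or.inl rfl, by rw [e]; group⟩
  · exact ⟨a + 1, -a, κ, 1, 1, u, Or.inl rfl, Or.inl rfl, by rw [e]; group⟩
  · exact ⟨a, -1 - a, κ, 1, 1, u, Or.inl rfl, Or.inl rfl, by rw [e]; group⟩
  · exact ⟨a + 1, -1 - a, κ, 1, 1, u, Or.inl rfl, Or.inl rfl, by rw [e]; group⟩

theorem of_zpow_ne {L : Type} (a : L) {k : ℤ} (h : k ≠ 0) : (of a : FreeGroup L) ^ k ≠ 1 := fun e => by
  have := congrArg (FreeGroup.lift fun _ => Multiplicative.ofAdd (1 : ℤ)) e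
  rw [map_zpow, FreeGroup.lift_apply_of, ← ofAdd_zsmul] at this
  exact h (by simpa using this)

open Al in
theorem pd (h0 : S_DF) (h1 : S_Z1) (h2 : S_Z2) (h3 : S_Z3) (h4 : S_Z4) (h5 : S_MN) (h6 : S_CJ) :
    S_PD := by
  intro G _ s t Δ N p P i k hN od rel i1 iN par
  have hΔ : Δ ^ k ∈ Subgroup.closure {s, t} :=
    zpow_mem (rel 0 ▸ alG_mem _ (yy_mem ms mt _) (yy_mem ms mt _)) k
  obtain ⟨dw, dφ⟩ := h0 G s t Δ N p P i k hN od rel i1 iN par
  have Z1 := h1 N i k hN od i1 iN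
  have Z3 := h3 N i k hN od i1 iN
  have cj : ∀ (u : FreeGroup ℕ) (j : ℤ), (u⁻¹ * of (ix N k i) ^ sn k i * u) ^ j =
      u⁻¹ * of (ix N k i) ^ (sn k i * j) * u := fun u j => by
    have := conj_zpow (i := j) (a := u⁻¹) (b := of (ix N k i) ^ sn k i)
    rwa [inv_inv, ← zpow_mul] at this
  refine ⟨fun H => ?_, fun h v H => ?_, fun e j j0 ee H => ?_⟩
  · rw [dw] at H
    rcases H with H | H | H
    · exact Z1.1 H
    · rcases Nat.mod_two_eq_zero_or_one i with q | q
      exacts [Z3.2 q (H.2 q), Z1.1 (H.1 q)]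
    · rcases Nat.mod_two_eq_zero_or_one i with q | q
      · have := h2 N i k 0 hN od i1 iN (Or.inr (Or.inl rfl)) ⟨0, _, H.1 q, Or.inl (by simp)⟩
        omega
      · exact Z3.1 q (H.2 q)
  · rw [(W_t P i1 iN par hΔ h).2.2, dw, dφ, cj, mul_assoc, mul_inv_cancel_left] at H
    have x4 : N = 3 → t⁻¹ * Δ = s * t * s ∧ Δ * t⁻¹ = s * t * s := by
      rintro rfl
      have r0 := rel 0
      have r1 := rel 1
      simp only [aa, alG, yy, mul_one] at r0 r1
      norm_num at r0 r1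
      exact ⟨by rw [← r1]; group, by rw [← r0]; group⟩
    rcases h2 N i k h hN od i1 iN v H with rfl | ⟨q, rfl, rfl⟩ | ⟨q, rfl, rfl⟩
    · exact ⟨0, h, 0, by simp⟩
    · exact ⟨1, 1, 1, by simpa using (x4 q).2⟩
    · refine ⟨-1, -1, -1, ?_⟩
      rw [← inv_inj, mul_inv_rev, ← zpow_neg Δ, neg_neg, zpow_one, zpow_one, (x4 q).1]; group
  · obtain ⟨w, hw, fr, e1⟩ : ∃ w, (w = uL N k i ∨ w = uR N k i) ∧ (w ∈ Fre (Tp i) → k = 0) ∧
        Cw P (Δ ^ k) i e j e = w⁻¹ * of (ix N k i) ^ (sn k i * j) * w := by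
      rw [Cw, dw, dφ, cj]
      cases e
      · exact ⟨_, Or.inl rfl, Z1.2.2 (by simpa using ee), by simp⟩
      · exact ⟨_, Or.inr rfl, Z1.2.1, by simp only [if_true]; group⟩
    have n0 : sn k i * j ≠ 0 := mul_ne_zero (by unfold sn; split_ifs <;> simp) j0
    have ixp : ix N k i % 2 = i % 2 ∧ ix N k i ≤ N := by unfold ix; split_ifs <;> omega
    have a1 : w⁻¹ * of (ix N k i) ^ (sn k i * j) * w ∈ Fre (Tp i) → k = 0 := fun H =>
      fr (h5 ℕ _ w _ (zpow_mem (of_mem_Fre (S := Tp i) ixp.1) _) (of_zpow_ne _ n0) H)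
    rw [e1] at H
    rcases H with H | H | H
    · exact a1 H
    · rcases h6 ℕ (Tp i)ᶜ i (i + 2 * (N + 1)) (ix N k i) _ w (fun q => q (show _ = _ by omega))
        (by omega) (by omega) n0 H.en with ⟨q, -⟩ | ⟨-, b, q⟩
      exacts [(q ixp.1).elim, fr (q ▸ zpow_mem (of_mem_Fre (S := Tp i) (x := i) rfl) b)]
    rcases Nat.mod_two_eq_zero_or_one i with q | q
    swap
    · exact a1 (H.1 q)
    have H := H.2 q
    have e2 : et N i = of (i, true) := if_pos ⟨i1, iN⟩
    have e3 : xi N 0 (of (ix N k i)) = of (ix N k i, false) := by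
      rw [xi, FreeGroup.lift_apply_of, if_pos (ixp.1.trans q), ff]
    rw [map_mul, map_mul, map_inv, map_zpow, e2, e3] at H
    refine h4 N i k w hN od i1 iN q hw ?_
    rw [e2]
    exact (h6 _ D0 (i, false) (i, true) (ix N k i, false) _ _ (fun u => by simpa using u.1) (by simp)
      (by simp) n0 H).imp (fun u => ⟨u.1.2.2, u.2⟩) fun u => ⟨congrArg Prod.fst u.1, u.2⟩

end Pool.Agent.MP_6eaae3_al.EV

end PartPd

section PartCj

/-! Malnormality of free factors and conjugates of powers of a letter. -/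

namespace Pool.Agent.MP_6eaae3_al.EV

open FreeGroup (of mk invRev IsReduced)
open Set Pool.Agent.MP_6eaae3_al.LT Pool.Agent.MP_6eaae3_al.LT.Path

namespace Cj

variable {L : Type} [DecidableEq L]

omit [DecidableEq L] in
theorem split_list (D : Set L) (l : List (L × Bool)) :
    ∃ l₁ l₂, l = l₁ ++ l₂ ∧ (∀ a ∈ l₁, a.1 ∈ D) ∧ ∀ b ∈ l₂.head?, b.1 ∉ D := by
  induction l with
  | nil => exact ⟨[], [], rfl, by simp, by simp⟩
  | cons x l ih =>
    by_cases h : x.1 ∈ D
    · obtain ⟨l₁, l₂, e, h1, h2⟩ := ih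
      refine ⟨x :: l₁, l₂, by rw [e]; rfl, fun a ha => ?_, h2⟩
      rcases List.mem_cons.1 ha with rfl | ha
      exacts [h, h1 a ha]
    · exact ⟨[], x :: l, rfl, by simp, by simpa using h⟩

theorem toWord_red {l : List (L × Bool)} (h : IsReduced l) : (mk l).toWord = l := by
  rw [FreeGroup.toWord_mk, h.reduce_eq]

theorem split (D : Set L) (u : FreeGroup L) :
    ∃ κ ∈ Fre D, ∃ v : FreeGroup L, u = κ * v ∧ ∀ b ∈ v.toWord.head?, b.1 ∉ D := by
  obtain ⟨l₁, l₂, e, h1, h2⟩ := split_list D u.toWord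
  have r : IsReduced (l₁ ++ l₂) := e ▸ FreeGroup.isReduced_toWord
  have r1 : IsReduced l₁ := Fg.sub r ⟨[], l₂, by simp⟩
  have r2 : IsReduced l₂ := Fg.sub r ⟨l₁, [], by simp⟩
  refine ⟨mk l₁, mem_Fre_word.2 (by rwa [toWord_red r1]), mk l₂, ?_, by rwa [toWord_red r2]⟩
  rw [FreeGroup.mul_mk, ← e, FreeGroup.mk_toWord]

/-- The reduced word of a conjugate by an element outside the free factor. -/
theorem conj_word {D : Set L} {u a : FreeGroup L} (ha : a ∈ Fre D) (h1 : a ≠ 1) (hu : u ∉ Fre D) :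
    ∃ (g : L × Bool) (t m : List (L × Bool)), g.1 ∉ D ∧
      (u⁻¹ * a * u).toWord = invRev (g :: t) ++ m ++ g :: t := by
  obtain ⟨κ, hκ, v, rfl, hv⟩ := split D u
  rcases e : v.toWord with _ | ⟨g, t⟩
  · rw [FreeGroup.toWord_eq_nil_iff.1 e, mul_one] at hu
    exact (hu hκ).elim
  have hg : g.1 ∉ D := hv g (by simp [e])
  have m : κ⁻¹ * a * κ ∈ Fre D := mul_mem (mul_mem (inv_mem hκ) ha) hκ
  have n : κ⁻¹ * a * κ ≠ 1 := fun x => h1 (by
    have : a = κ * (κ⁻¹ * a * κ) * κ⁻¹ := by group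
    rw [this, x]; group)
  refine ⟨g, t, (κ⁻¹ * a * κ).toWord, hg, ?_⟩
  have : (κ * v)⁻¹ * a * (κ * v) = v⁻¹ * (κ⁻¹ * a * κ) * v := by group
  rw [this, Fg.glue3 (C := D) ?_ m hv fun x => (n x).elim, FreeGroup.toWord_inv, e]
  intro b hb
  rw [FreeGroup.toWord_inv, e] at hb
  have : b = (g.1, !g.2) := by simpa [invRev, eq_comm] using hb
  rw [this]; exact hg

theorem mn' {D : Set L} {u a : FreeGroup L} (ha : a ∈ Fre D) (h1 : a ≠ 1)
    (h : u⁻¹ * a * u ∈ Fre D) : u ∈ Fre D := by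
  by_contra hu
  obtain ⟨g, t, m, hg, e⟩ := conj_word ha h1 hu
  exact hg (mem_Fre_word.1 h g (by simp [e]))

/-- The first and the last letter agree up to sign. -/
def Cr (x : FreeGroup L) : Prop := ∃ a ∈ x.toWord.head?, ∃ b ∈ x.toWord.getLast?, a.1 = b.1

theorem cr {D : Set L} {u a : FreeGroup L} (ha : a ∈ Fre D) (h1 : a ≠ 1) (hu : u ∉ Fre D) :
    Cr (u⁻¹ * a * u) := by
  obtain ⟨g, t, m, -, e⟩ := conj_word ha h1 hu
  obtain ⟨s, z, f⟩ : ∃ s z, g :: t = s ++ [z] :=
    ⟨_, _, (List.dropLast_append_getLast (List.cons_ne_nil g t)).symm⟩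
  refine ⟨(z.1, !z.2), ?_, z, ?_, rfl⟩
  · rw [e, f]; simp [invRev]
  · rw [e, f, ← List.append_assoc]; simp

theorem not_cr {o : L} {u v : FreeGroup L} (hu : u ∈ Fre {o}) (u1 : u ≠ 1) (v1 : v ≠ 1)
    (h1 : ∀ b ∈ v.toWord.head?, b.1 ≠ o) (h2 : ∀ b ∈ v.toWord.getLast?, b.1 ≠ o) : ¬ Cr (u * v) := by
  rintro ⟨a, ha, b, hb, e⟩
  have m : ∀ a ∈ u.toWord, a.1 = o := mem_Fre_word.1 hu
  have w : (u * v).toWord = u.toWord ++ v.toWord :=
    toWord_mul_of fun a ha b hb e => (h1 b hb (e ▸ m a (List.mem_of_mem_getLast? ha))).elim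
  have nu : u.toWord ≠ [] := fun x => u1 (FreeGroup.toWord_eq_nil_iff.1 x)
  have nv : v.toWord ≠ [] := fun x => v1 (FreeGroup.toWord_eq_nil_iff.1 x)
  rw [w, List.head?_append_of_ne_nil _ nu] at ha
  rw [w, List.getLast?_append_of_ne_nil _ nv] at hb
  exact h2 b hb (e ▸ m a (List.mem_of_mem_head? ha))

/-- The exponent sum of a letter. -/
def ex (x : L) : FreeGroup L →* Multiplicative ℤ :=
  FreeGroup.lift fun y => if y = x then Multiplicative.ofAdd 1 else 1

theorem ex_self (x : L) : ex x (of x) = Multiplicative.ofAdd 1 := by simp [ex]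

theorem ex_ne {x y : L} (h : y ≠ x) : ex x (of y) = 1 := by simp [ex, h]

theorem ex_fre {x : L} {D : Set L} (h : x ∉ D) {κ : FreeGroup L} (hκ : κ ∈ Fre D) : ex x κ = 1 := by
  have : Fre D ≤ (ex x).ker := by
    refine (Subgroup.closure_le _).2 ?_
    rintro _ ⟨y, hy, rfl⟩
    exact ex_ne fun e => h (e ▸ hy)
  exact this hκ

theorem ex_conj (x : L) (k : ℤ) (w : FreeGroup L) :
    ex x (w⁻¹ * of x ^ k * w) = Multiplicative.ofAdd k := by
  rw [map_mul, map_mul, map_inv, inv_mul_cancel_comm, map_zpow, ex_self, ← ofAdd_zsmul]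
  simp

theorem pow_ne (x : L) {k : ℤ} (hk : k ≠ 0) : (of x : FreeGroup L) ^ k ≠ 1 := fun e => by
  have := ex_conj x k 1
  rw [e] at this
  simp only [inv_one, mul_one, map_one] at this
  exact hk (by simpa using this.symm)

omit [DecidableEq L] in
theorem fre_one {x : L} {w : FreeGroup L} (h : w ∈ Fre {x}) : ∃ j : ℤ, w = of x ^ j := by
  rw [Fre, image_singleton] at h
  obtain ⟨j, e⟩ := Subgroup.mem_closure_singleton.1 h
  exact ⟨j, e.symm⟩

omit [DecidableEq L] in
theorem pow_fre {D : Set L} {x : L} (h : x ∈ D) (k : ℤ) : (of x : FreeGroup L) ^ k ∈ Fre D :=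
  zpow_mem (of_mem_Fre h) k

theorem eta_word {D : Set L} {η : L} {κ : FreeGroup L} (hη : η ∉ D) (hκ : κ ∈ Fre D) (κ1 : κ ≠ 1) :
    (of η * κ * (of η)⁻¹).toWord = [(η, true)] ++ κ.toWord ++ [(η, false)] := by
  have a : (of η : FreeGroup L).toWord = [(η, true)] := FreeGroup.toWord_of η
  have b : (of η : FreeGroup L)⁻¹.toWord = [(η, false)] := by
    rw [FreeGroup.toWord_inv, a]; rfl
  have h := Fg.glue3 (C := D) (u := of η) (c := κ) (v := (of η)⁻¹)
    (by rw [a]; simpa using hη) hκ (by rw [b]; simpa using hη) fun f => (κ1 f).elim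
  rw [h, a, b]

theorem ex_eq {o F : L} {k c : ℤ} {w κ δ : FreeGroup L}
    (e : w⁻¹ * of F ^ k * w = of o ^ c * (δ * κ * δ⁻¹)) :
    Multiplicative.ofAdd k = ex F (of o) ^ c * ex F κ := by
  have a : ex F (δ * κ * δ⁻¹) = ex F κ := by
    rw [map_mul, map_mul, map_inv, mul_inv_cancel_comm]
  have b := congrArg (ex F) e
  rw [ex_conj, map_mul, a, map_zpow] at b
  exact b

theorem core {D : Set L} {o η F : L} {k c : ℤ} {w κ δ : FreeGroup L} (hη : η ∉ D) (ho : η ≠ o)
    (hk : k ≠ 0) (hκ : κ ∈ Fre D) (hδ : δ = 1 ∨ δ = of η)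
    (e : w⁻¹ * of F ^ k * w = of o ^ c * (δ * κ * δ⁻¹)) :
    (F ∈ D ∧ (w ∈ Fre D ∨ w * of η ∈ Fre D)) ∨ (F = o ∧ w ∈ Fre {o}) := by
  have x := ex_eq e
  have k1 : Multiplicative.ofAdd k ≠ 1 := fun f => hk (ofAdd_eq_one.1 f)
  have p := pow_ne F hk
  have m : (of F : FreeGroup L) ^ k ∈ Fre {F} := pow_fre (mem_singleton F) k
  by_cases c0 : c = 0
  · rw [c0, zpow_zero, one_mul] at e x
    have hD : F ∈ D := by
      by_contra f
      exact k1 (x.trans (ex_fre f hκ))
    refine Or.inl ⟨hD, ?_⟩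
    have z : w * δ ∈ Fre D := by
      refine mn' (pow_fre hD k) p ?_
      have y : (w * δ)⁻¹ * of F ^ k * (w * δ) = δ⁻¹ * (w⁻¹ * of F ^ k * w) * δ := by group
      have y' : δ⁻¹ * (δ * κ * δ⁻¹) * δ = κ := by group
      rw [y, e, y']
      exact hκ
    rcases hδ with f | f
    · rw [f, mul_one] at z; exact Or.inl z
    · rw [f] at z; exact Or.inr z
  by_cases κ1 : κ = 1
  · rw [κ1, map_one, mul_one] at x
    have f : o = F := by
      by_contra f
      exact k1 (by rw [x, ex_ne f, one_zpow])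
    refine Or.inr ⟨f.symm, mn' (by rw [f]; exact m) p ?_⟩
    rw [e, κ1, mul_one, mul_inv_cancel, mul_one]
    exact pow_fre (mem_singleton o) c
  have hD : F ∈ D ∨ F = o := by
    by_contra f
    rw [not_or] at f
    exact k1 (by rw [x, ex_ne (Ne.symm f.2), ex_fre f.1 hκ, one_zpow, one_mul])
  by_cases hw : w ∈ Fre {F}
  · rcases hD with hD | hD
    · exact Or.inl ⟨hD, Or.inl (Fre.mono (singleton_subset_iff.2 hD) hw)⟩
    · exact Or.inr ⟨hD, by rw [← hD]; exact hw⟩
  have r := cr m p hw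
  rw [e] at r
  have po : (of o : FreeGroup L) ^ c ∈ Fre {o} := pow_fre (mem_singleton o) c
  rcases hδ with rfl | rfl
  · rw [inv_one, mul_one, one_mul] at e r
    by_cases oD : o ∈ D
    · have hD' : F ∈ D := hD.elim id fun f => by rw [f]; exact oD
      refine Or.inl ⟨hD', Or.inl (mn' (pow_fre hD' k) p ?_)⟩
      rw [e]
      exact mul_mem (pow_fre oD c) hκ
    · have a : ∀ b ∈ κ.toWord, b.1 ≠ o := fun b hb f => oD (by
        rw [← f]; exact mem_Fre_word.1 hκ b hb)
      exact (not_cr po (pow_ne o c0) κ1 (fun b hb => a b (List.mem_of_mem_head? hb))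
        (fun b hb => a b (List.mem_of_mem_getLast? hb)) r).elim
  · have t := eta_word hη hκ κ1
    refine (not_cr po (pow_ne o c0) (fun f => ?_) ?_ ?_ r).elim
    · rw [f] at t; simp at t
    · rw [t]; simpa using ho
    · rw [t, List.getLast?_append_of_ne_nil _ (List.cons_ne_nil _ _)]; simpa using ho

end Cj

theorem mn : S_MN := fun _ _ _ _ ha h1 h => by
  classical
  exact Cj.mn' ha h1 h

theorem cj (_h : S_MN) : S_CJ := by
  classical
  intro L D o η F k w hη ho hF hk ⟨a, b, κ, δ, δ', hκ, h1, h2, e⟩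
  have x : Cj.ex η δ * (Cj.ex η δ')⁻¹ = 1 := by
    have := congrArg (Cj.ex η) e
    simp only [map_mul, map_inv, map_zpow, Cj.ex_ne ho.symm, Cj.ex_ne hF.symm, Cj.ex_fre hη hκ,
      one_zpow, mul_one, one_mul, inv_mul_cancel] at this
    exact this.symm
  obtain rfl : δ = δ' := by
    rcases h1 with rfl | rfl <;> rcases h2 with rfl | rfl
    · rfl
    · simp [Cj.ex_self] at x
    · simp [Cj.ex_self] at x
    · rfl
  have e' : (w * of o ^ (-b))⁻¹ * of F ^ k * (w * of o ^ (-b)) = of o ^ (b + a) * (δ * κ * δ⁻¹) := by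
    have : (w * of o ^ (-b))⁻¹ * of F ^ k * (w * of o ^ (-b)) =
      of o ^ b * (w⁻¹ * of F ^ k * w) * of o ^ (-b) := by group
    rw [this, e]; group
  rcases Cj.core hη ho hk hκ h1 e' with ⟨hD, h | h⟩ | ⟨hD, h⟩
  · exact Or.inl ⟨hD, _, h, b, Or.inl (by group)⟩
  · exact Or.inl ⟨hD, _, h, b, Or.inr (by group)⟩
  · obtain ⟨j, f⟩ := Cj.fre_one h
    exact Or.inr ⟨hD, j + b, by rw [zpow_add, ← f]; group⟩

end Pool.Agent.MP_6eaae3_al.EV

end PartCj
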