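import Pool.Agent.MP_6eaae3_al.EV.Basic

section PartZ1

/-! Powers of the Garside element do not lie in the free factor of one colour. -/

namespace Pool.Agent.MP_6eaae3_al.EV

open FreeGroup (of mk invRev IsReduced)
open Set Pool.Agent.MP_6eaae3_al.LT Pool.Agent.MP_6eaae3_al.LT.Path

namespace Z1

abbrev DD := DihedralGroup 0

def R (n : ℤ) : DD := DihedralGroup.r (show ZMod 0 from n)

def S (n : ℤ) : DD := DihedralGroup.sr (show ZMod 0 from n)

theorem RR (a b : ℤ) : R a * R b = R (a + b) := rfl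

theorem RS (a b : ℤ) : R a * S b = S (b - a) := rfl

theorem SR (a b : ℤ) : S a * R b = S (a + b) := rfl

theorem SS (a b : ℤ) : S a * S b = R (b - a) := rfl

theorem Ri (a : ℤ) : (R a)⁻¹ = R (-a) := rfl

theorem Si (a : ℤ) : (S a)⁻¹ = S a := rfl

theorem R0 : (1 : DD) = R 0 := rfl

theorem Rinj {a b : ℤ} (h : R a = R b) : a = b := DihedralGroup.r.inj h

theorem Sinj {a b : ℤ} (h : S a = S b) : a = b := DihedralGroup.sr.inj h

theorem RnS {a b : ℤ} : R a ≠ S b := fun h => by cases h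

theorem Rz (a k : ℤ) : R a ^ k = R (a * k) := by
  induction k using Int.induction_on with
  | zero => rw [zpow_zero, mul_zero, R0]
  | succ k ih => rw [zpow_add_one, ih, RR, mul_add, mul_one]
  | pred k ih => rw [zpow_sub_one, ih, Ri, RR, mul_sub, mul_one, sub_eq_add_neg]

/-- The map used for an even curve. -/
def φ (N : ℕ) : FreeGroup ℕ →* DD :=
  FreeGroup.lift fun x => if x = 1 then S 0 else if x = N then S 1 else 1

/-- The map used for an odd curve. -/
def χ (N : ℕ) : FreeGroup ℕ →* DD :=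
  FreeGroup.lift fun x => if x = 1 ∨ x = N then S 0 else if x % 2 = 0 then R 1 else 1

variable {N : ℕ}

theorem φ_of (x : ℕ) : φ N (of x) = if x = 1 then S 0 else if x = N then S 1 else 1 :=
  FreeGroup.lift_apply_of

theorem χ_of (x : ℕ) :
    χ N (of x) = if x = 1 ∨ x = N then S 0 else if x % 2 = 0 then R 1 else 1 :=
  FreeGroup.lift_apply_of

theorem wA_succ {k : ℕ} (h : 1 ≤ k) : wA (k + 1) = of k * wA k := by
  rw [wA, if_neg (by omega)]

theorem φ_wA (a : ℕ) (h : 2 ≤ a) (h' : a ≤ N) : φ N (wA a) = S 0 := by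
  induction a, h using Nat.le_induction with
  | base => rw [wA_succ le_rfl, map_mul, φ_of, if_pos rfl, show wA 1 = 1 from rfl, map_one, mul_one]
  | succ a h ih =>
    rw [wA_succ (by omega), map_mul, ih (by omega), φ_of, if_neg (by omega), if_neg (by omega), one_mul]

theorem φ_even (hN : N % 2 = 1) {x : ℕ} (h : x % 2 = 0) : φ N (of x) = 1 := by
  rw [φ_of, if_neg (by omega), if_neg (by omega)]

theorem φ_wE (hN : N % 2 = 1) (r : ℕ) : φ N (wE r) = 1 := by
  induction r with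
  | zero => exact map_one _
  | succ r ih =>
    rw [show wE (r + 1) = wE r * (of (2 * r + 2))⁻¹ from rfl, map_mul, ih, map_inv,
      φ_even hN (by omega), inv_one, mul_one]

theorem φ_wY (h3 : 3 ≤ N) (hN : N % 2 = 1) : φ N (wY N) = R (-1) := by
  rw [wY, map_mul, φ_wE hN, one_mul, wA_succ (by omega), map_mul, φ_wA N (by omega) le_rfl, φ_of,
    if_neg (by omega), if_pos rfl, SS]
  rfl

theorem φ_Fre (hN : N % 2 = 1) {i : ℕ} (hi : i % 2 = 0) {w} (hw : w ∈ Fre (Tp i)) : φ N w = R 0 :=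
  Subgroup.mem_bot.1 (Fre.map_mem (φ N) (K := ⊥)
    (fun _ hx => Subgroup.mem_bot.2 (φ_even hN (hi ▸ hx))) hw)

theorem χ_wA (hN : N % 2 = 1) (a : ℕ) (h : 2 ≤ a) (h' : a ≤ N) :
    χ N (wA a) = S (-(((a - 1) / 2 : ℕ) : ℤ)) := by
  induction a, h using Nat.le_induction with
  | base =>
    rw [wA_succ le_rfl, map_mul, χ_of, if_pos (Or.inl rfl), show wA 1 = 1 from rfl, map_one, mul_one]
    rfl
  | succ a h ih =>
    rw [wA_succ (by omega), map_mul, ih (by omega), χ_of, if_neg (by omega)]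
    split_ifs with e
    · rw [RS]; congr 1; omega
    · rw [one_mul]; congr 1; omega

theorem χ_wA' (h3 : 3 ≤ N) (hN : N % 2 = 1) : χ N (wA (N + 1)) = R (-((N / 2 : ℕ) : ℤ)) := by
  rw [wA_succ (by omega), map_mul, χ_wA hN N (by omega) le_rfl, χ_of, if_pos (Or.inr rfl), SS]
  congr 1; omega

theorem χ_wE (hN : N % 2 = 1) (r : ℕ) : χ N (wE r) = R (-(r : ℤ)) := by
  induction r with
  | zero => exact map_one _
  | succ r ih =>
    rw [show wE (r + 1) = wE r * (of (2 * r + 2))⁻¹ from rfl, map_mul, ih, map_inv, χ_of,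
      if_neg (by omega), if_pos (by omega), Ri, RR]
    congr 1; omega

theorem χ_wY (h3 : 3 ≤ N) (hN : N % 2 = 1) : χ N (wY N) = R (-(2 * ((N / 2 : ℕ) : ℤ))) := by
  rw [wY, map_mul, χ_wE hN, χ_wA' h3 hN, RR]
  congr 1; omega

/-- The subgroup of order two. -/
def K : Subgroup DD where
  carrier := {x | x = R 0 ∨ x = S 0}
  one_mem' := Or.inl rfl
  mul_mem' := by
    rintro _ _ (rfl | rfl) (rfl | rfl)
    exacts [Or.inl rfl, Or.inr rfl, Or.inr rfl, Or.inl rfl]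
  inv_mem' := by
    rintro _ (rfl | rfl)
    exacts [Or.inl rfl, Or.inr rfl]

theorem χ_Fre {i : ℕ} (hi : i % 2 = 1) {w} (hw : w ∈ Fre (Tp i)) : χ N w = R 0 ∨ χ N w = S 0 :=
  Fre.map_mem (χ N) (K := K) (fun x hx => by
    have hx : x % 2 = 1 := hi ▸ hx
    rw [χ_of]
    split_ifs with a b
    · exact Or.inr rfl
    · omega
    · exact Or.inl rfl) hw

theorem wO_mem {i : ℕ} (hi : i % 2 = 1) (r : ℕ) : wO r ∈ Fre (Tp i) :=
  pr_mem fun j _ => inv_mem (of_mem_Fre (show (2 * j + 1) % 2 = i % 2 by omega))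

theorem uL_mem {i : ℕ} (hi : i % 2 = 1) (k : ℤ) : uL N k i ∈ Fre (Tp i) := by
  rw [uL, if_pos hi]
  refine mul_mem (mul_mem ?_ (zpow_mem (wO_mem hi _) _)) (wO_mem hi _)
  split_ifs
  exacts [inv_mem (wO_mem hi _), one_mem _]

theorem odd {i : ℕ} {k : ℤ} (h3 : 3 ≤ N) (hN : N % 2 = 1) (hi : i % 2 = 1) (h2 : i ≤ N)
    (h : uR N k i ∈ Fre (Tp i)) : k = 0 := by
  have h := χ_Fre (N := N) hi h
  obtain ⟨m, hm⟩ : ∃ m : ℤ, m = ((N / 2 : ℕ) : ℤ) := ⟨_, rfl⟩
  have m0 : m ≠ 0 := by omega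
  have key : m * k = 0 → k = 0 := fun e => (mul_eq_zero.1 e).resolve_left m0
  obtain ⟨j, hj⟩ : ∃ j, j = k / 2 := ⟨_, rfl⟩
  rw [uR] at h
  rcases h2.eq_or_lt with rfl | h2
  · split_ifs at h with e
    · simp only [map_mul, map_inv, map_zpow, χ_wY h3 hN, χ_wA' h3 hN, Rz, Ri, RR, ← hm, ← hj] at h
      have := Rinj (h.resolve_right RnS)
      refine key ?_
      rw [show k = 2 * j by omega]; linarith
    · simp only [map_mul, map_inv, map_zpow, χ_wY h3 hN, χ_wA' h3 hN, χ_wE hN, Rz, Ri, RR, ← hm,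
        ← hj, show (i + 1 - i) / 2 = 0 by omega] at h
      have := Rinj (h.resolve_right RnS)
      refine key ?_
      rw [show k = 2 * j + 1 by omega]; push_cast at this; linarith
  · have a := χ_wA hN (i + 1) (by omega) h2
    split_ifs at h with e
    · simp only [map_mul, map_inv, map_zpow, χ_wY h3 hN, a, Rz, Si, SR, SS, ← hm, ← hj] at h
      have := Rinj (h.resolve_right RnS)
      refine key ?_
      rw [show k = 2 * j by omega]; linarith
    · simp only [map_mul, map_inv, map_zpow, χ_wY h3 hN, a, χ_wE hN, Rz, Ri, Si, RR, RS, ← hm,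
        ← hj] at h
      have := Sinj (h.resolve_left RnS.symm)
      have b : (((i + 1 - 1) / 2 : ℕ) : ℤ) + (((N + 1 - i) / 2 : ℕ) : ℤ) = m := by omega
      refine key ?_
      rw [show k = 2 * j + 1 by omega]; linarith

end Z1

open Z1 in
theorem z1 : S_Z1 := by
  intro N i k h3 hN h1 h2
  rcases Nat.mod_two_eq_zero_or_one i with hi | hi
  · have a := φ_wA (N := N) (i + 1) (by omega) (by omega)
    have b := φ_wA (N := N) (N + 1 - i + 1) (by omega) (by omega)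
    refine ⟨fun h => ?_, fun h => ?_, fun _ h => ?_⟩ <;> have h := φ_Fre hN hi h
    · rw [uL, uR, if_neg (show ¬ i % 2 = 1 by omega)] at h
      split_ifs at h with e <;>
      · simp only [map_mul, map_inv, map_zpow, φ_wY h3 hN, φ_wE hN, a, b, Rz, Ri, Si, R0, RR, RS, SR,
          SS] at h
        have := Rinj h
        omega
    · rw [uR] at h
      split_ifs at h with e <;>
        simp only [map_mul, map_inv, map_zpow, φ_wY h3 hN, φ_wE hN, a, Rz, Ri, Si, R0, RR, RS, SR,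
          SS] at h
      · have := Rinj h
        omega
      · exact (RnS h.symm).elim
    · rw [uL, if_neg (show ¬ i % 2 = 1 by omega)] at h
      split_ifs at h with e <;>
        simp only [map_mul, map_inv, map_zpow, φ_wY h3 hN, φ_wE hN, b, Rz, Ri, R0, RR, SR] at h
      · have := Rinj h
        omega
      · exact (RnS h.symm).elim
  · refine ⟨fun h => odd h3 hN hi h2 ?_, odd h3 hN hi h2, fun e => by omega⟩
    simpa using mul_mem (uL_mem (N := N) hi k) h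

end Pool.Agent.MP_6eaae3_al.EV

end PartZ1

section PartZ2

/-! The exponent of the central element is small when the seed word is bad for the other colour. -/

namespace Pool.Agent.MP_6eaae3_al.EV

open FreeGroup (of mk invRev IsReduced)
open Set Pool.Agent.MP_6eaae3_al.LT Pool.Agent.MP_6eaae3_al.LT.Path

namespace Z2

/-- The exponent sum of the letter `j`. -/
def ch (j : ℕ) : FreeGroup ℕ →* Multiplicative ℤ :=
  FreeGroup.lift fun x => Multiplicative.ofAdd (if x = j then 1 else 0)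

def ex (j : ℕ) (w : FreeGroup ℕ) : ℤ := Multiplicative.toAdd (ch j w)

theorem ex_one (j : ℕ) : ex j 1 = 0 := by simp [ex]

theorem ex_mul (j : ℕ) (u v : FreeGroup ℕ) : ex j (u * v) = ex j u + ex j v := by simp [ex]

theorem ex_inv (j : ℕ) (u : FreeGroup ℕ) : ex j u⁻¹ = -ex j u := by simp [ex]

theorem ex_zpow (j : ℕ) (u : FreeGroup ℕ) (a : ℤ) : ex j (u ^ a) = a * ex j u := by simp [ex]

theorem ex_of (j x : ℕ) : ex j (of x) = if x = j then 1 else 0 := by simp [ex, ch]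

theorem ex_wA {j : ℕ} (hj : 1 ≤ j) (a : ℕ) : ex j (wA a) = if j < a then 1 else 0 := by
  induction a with
  | zero => simp [wA, ex_one]
  | succ a ih =>
    rw [wA]
    by_cases h : a = 0
    · rw [if_pos h, ex_one, if_neg (by omega)]
    · rw [if_neg h, ex_mul, ex_of, ih]
      split_ifs <;> omega

theorem ex_wE {j : ℕ} (hj : j % 2 = 1) (r : ℕ) : ex j (wE r) = 0 := by
  induction r with
  | zero => exact ex_one j
  | succ r ih =>
    have : wE (r + 1) = wE r * (of (2 * r + 2))⁻¹ := rfl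
    rw [this, ex_mul, ex_inv, ex_of, ih, if_neg (by omega)]
    rfl

theorem ex_wO {j : ℕ} (hj : j % 2 = 1) (r : ℕ) : ex j (wO r) = if j < 2 * r then -1 else 0 := by
  induction r with
  | zero => exact ex_one j
  | succ r ih =>
    have : wO (r + 1) = wO r * (of (2 * r + 1))⁻¹ := rfl
    rw [this, ex_mul, ex_inv, ex_of, ih]
    split_ifs <;> omega

theorem ex_wY {j N : ℕ} (hj : j % 2 = 1) (hN : j ≤ N) : ex j (wY N) = 1 := by
  rw [wY, ex_mul, ex_wE hj, ex_wA (by omega), if_pos (by omega)]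
  rfl

theorem ex_Fre {i j : ℕ} (hi : i % 2 = 1) (hj : j % 2 = 1) {w : FreeGroup ℕ}
    (hw : w ∈ Fre (Tp i)ᶜ) : ex j w = 0 := by
  have : ch j w ∈ (⊥ : Subgroup (Multiplicative ℤ)) := by
    refine Fre.map_mem _ (fun x hx => ?_) hw
    have hx' : ¬ x % 2 = i % 2 := hx
    have : x ≠ j := by omega
    simp [ch, this]
  rw [ex, Subgroup.mem_bot.1 this]
  rfl

theorem ex_Bd {i j : ℕ} (hi : i % 2 = 1) (hj : j % 2 = 1) (hij : i ≠ j) {w : FreeGroup ℕ}
    (hw : Bd (of i) (Fre (Tp i)ᶜ) w) : ex j w = 0 := by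
  obtain ⟨a, κ, hκ, h⟩ := hw
  have e0 : ex j (of i) = 0 := by rw [ex_of, if_neg hij]
  have e1 := ex_Fre hi hj hκ
  have e2 : ex j (of i ^ (-a) * w * of i ^ a) = ex j w := by
    simp only [ex_mul, ex_zpow, e0]; ring
  rw [← e2]
  rcases h with h | h | h | h <;> rw [h] <;> simp only [ex_mul, ex_inv, e0, e1] <;> rfl

theorem ex_word {N i j : ℕ} (k h : ℤ) (hN : N % 2 = 1) (hi : i % 2 = 1) (hj : j % 2 = 1)
    (hjN : j ≤ N) (hij : i ≠ j) :
    ex j ((uL N k i)⁻¹ * of (ix N k i) ^ (sn k i * h) * uR N k i) =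
      k + if k % 2 = 1 ∧ N + 1 - i = j then h else 0 := by
  have hs : sn k i = 1 := if_neg (by omega)
  have hO : ex j (wO ((N + 1) / 2)) = -1 := by rw [ex_wO hj, if_pos (by omega)]
  have hO' : ex j (wO ((i + 1) / 2)) = -ex j (wA (i + 1)) := by
    rw [ex_wO hj, ex_wA (by omega)]
    split_ifs <;> omega
  rw [hs, one_mul, uL, if_pos hi, uR, ix]
  by_cases hk : k % 2 = 0
  · simp only [if_pos hk, ex_mul, ex_inv, ex_zpow, hO, hO', ex_wY hj hjN, ex_of, if_neg hij]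
    rw [if_neg (by omega)]
    omega
  · simp only [if_neg hk, ex_mul, ex_inv, ex_zpow, hO, hO', ex_wY hj hjN, ex_of, ex_one, ex_wE hj]
    by_cases e : N + 1 - i = j
    · rw [if_pos e, if_pos ⟨by omega, e⟩]
      omega
    · rw [if_neg e, if_neg (fun c => e c.2)]
      omega

/-- Rotations and reflections of the infinite dihedral group. -/
def R (a : ℤ) : DihedralGroup 0 := DihedralGroup.r a

def T (a : ℤ) : DihedralGroup 0 := DihedralGroup.sr a

theorem RR (a b : ℤ) : R a * R b = R (a + b) := rfl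

theorem RT (a b : ℤ) : R a * T b = T (b - a) := rfl

theorem TR (a b : ℤ) : T a * R b = T (a + b) := rfl

theorem TT (a b : ℤ) : T a * T b = R (b - a) := rfl

theorem R0 : R 0 = 1 := rfl

theorem Ri (a : ℤ) : (R a)⁻¹ = R (-a) := rfl

theorem Ti (a : ℤ) : (T a)⁻¹ = T a := rfl

theorem R_inj {a b : ℤ} (h : R a = R b) : a = b := DihedralGroup.r.inj h

theorem R_ne_T (a b : ℤ) : R a ≠ T b := fun h => by cases h

theorem Rz (a n : ℤ) : R a ^ n = R (a * n) := by
  induction n using Int.induction_on with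
  | zero => simp [R0]
  | succ n ih => rw [zpow_add_one, ih, RR, mul_add, mul_one]
  | pred n ih => rw [zpow_sub_one, ih, Ri, RR, mul_sub, mul_one, sub_eq_add_neg]

/-- End letters are reflections, even letters are shifts, other letters die. -/
def ph (N : ℕ) : FreeGroup ℕ →* DihedralGroup 0 :=
  FreeGroup.lift fun x => if x % 2 = 0 then R 1 else if x = 1 ∨ x = N then T 0 else 1

theorem ph_of (N x : ℕ) :
    ph N (of x) = if x % 2 = 0 then R 1 else if x = 1 ∨ x = N then T 0 else 1 := by simp [ph]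

theorem ph_ev (N : ℕ) {x : ℕ} (h : x % 2 = 0) : ph N (of x) = R 1 := by rw [ph_of, if_pos h]

theorem ph_wA {N : ℕ} (a : ℕ) (h1 : 1 ≤ a) (h2 : a < N) :
    ph N (wA (a + 1)) = T (-((a / 2 : ℕ) : ℤ)) := by
  induction a, h1 using Nat.le_induction with
  | base => simp [wA, ph_of]
  | succ a h1 ih =>
    rw [wA, if_neg (by omega), map_mul, ih (by omega), ph_of]
    by_cases e : (a + 1) % 2 = 0
    · rw [if_pos e, RT]
      congr 1
      omega
    · rw [if_neg e, if_neg (by omega), one_mul]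
      congr 1
      omega

theorem ph_wE (N r : ℕ) : ph N (wE r) = R (-(r : ℤ)) := by
  induction r with
  | zero => exact map_one _
  | succ r ih =>
    have : wE (r + 1) = wE r * (of (2 * r + 2))⁻¹ := rfl
    rw [this, map_mul, map_inv, ih, ph_ev N (by omega), Ri, RR]
    congr 1
    omega

theorem ph_wY {N : ℕ} (h3 : 3 ≤ N) (hN : N % 2 = 1) : ph N (wY N) = R (1 - (N : ℤ)) := by
  obtain ⟨M, rfl⟩ : ∃ M, N = M + 1 := ⟨N - 1, by omega⟩
  rw [wY, wA, if_neg (by omega), map_mul, map_mul, ph_wE, ph_wA M (by omega) (by omega), ph_of,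
    if_neg (by omega), if_pos (Or.inr rfl), TT, RR]
  congr 1
  omega

theorem ph_Fre {N i : ℕ} (hi : i % 2 = 0) {w : FreeGroup ℕ} (hw : w ∈ Fre (Tp i)ᶜ) :
    ph N w = R 0 ∨ ph N w = T 0 := by
  let K : Subgroup (DihedralGroup 0) :=
    { carrier := {g | g = R 0 ∨ g = T 0}
      one_mem' := Or.inl rfl
      mul_mem' := by
        rintro _ _ (rfl | rfl) (rfl | rfl)
        exacts [Or.inl rfl, Or.inr rfl, Or.inr rfl, Or.inl rfl]
      inv_mem' := by
        rintro _ (rfl | rfl)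
        exacts [Or.inl rfl, Or.inr rfl] }
  refine Fre.map_mem (K := K) _ (fun x hx => ?_) hw
  have hx' : ¬ x % 2 = i % 2 := hx
  rw [ph_of, if_neg (by omega)]
  split_ifs
  exacts [Or.inr rfl, Or.inl rfl]

theorem ph_Bd {N i : ℕ} (hi : i % 2 = 0) {w : FreeGroup ℕ} {e : ℤ} (he : ph N w = R e)
    (hw : Bd (of i) (Fre (Tp i)ᶜ) w) : -1 ≤ e ∧ e ≤ 1 := by
  obtain ⟨a, κ, hκ, h⟩ := hw
  have e2 : ph N (of i ^ (-a) * w * of i ^ a) = R e := by
    simp only [map_mul, map_zpow, ph_ev N hi, he, Rz, RR]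
    congr 1
    ring
  rcases ph_Fre (N := N) hi hκ with e1 | e1 <;> rcases h with h | h | h | h <;> rw [h] at e2 <;>
    simp only [map_mul, map_inv, ph_ev N hi, e1, Ri, RR, RT, TR] at e2 <;>
    first
      | exact (R_ne_T _ _ e2.symm).elim
      | (have := R_inj e2; omega)

theorem ph_word {N i : ℕ} (k h : ℤ) (h3 : 3 ≤ N) (hN : N % 2 = 1) (hi : i % 2 = 0) (h1 : 1 ≤ i)
    (hiN : i ≤ N) :
    ph N ((uL N k i)⁻¹ * of (ix N k i) ^ (sn k i * h) * uR N k i) = R (((N : ℤ) - 1) * k + h) := by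
  have hA := ph_wA (N := N) i h1 (by omega)
  have hB := ph_wA (N := N) (N + 1 - i) (by omega) (by omega)
  rw [uL, if_neg (by omega), uR, ix, sn]
  by_cases hk : k % 2 = 0
  · obtain ⟨m, rfl⟩ : ∃ m, k = 2 * m := ⟨k / 2, by omega⟩
    have e : 2 * m / 2 = m := by omega
    rw [if_neg (show ¬ (2 * m % 2 = 1 ∧ i % 2 = 0) by omega)]
    simp only [if_pos hk, e, map_mul, map_inv, map_zpow, hA, ph_wE, ph_wY h3 hN, ph_ev N hi, Rz, Ri,
      Ti, RR, TR, TT]
    congr 1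
    ring
  · obtain ⟨m, rfl⟩ : ∃ m, k = 2 * m + 1 := ⟨k / 2, by omega⟩
    have e : (2 * m + 1) / 2 = m := by omega
    rw [if_pos (show (2 * m + 1) % 2 = 1 ∧ i % 2 = 0 by omega)]
    simp only [if_neg hk, e, map_mul, map_inv, map_zpow, hA, hB, ph_wE, ph_wY h3 hN,
      ph_ev N (show (N + 1 - i) % 2 = 0 by omega), Rz, Ri, Ti, RR, TR, RT, TT]
    congr 1
    ring

end Z2

open Z2 in
theorem z2 : S_Z2 := by
  intro N i k h h3 hN h1 hiN hh hw
  rcases Nat.mod_two_eq_zero_or_one i with hi | hi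
  · obtain ⟨a, b⟩ := ph_Bd hi (ph_word k h h3 hN hi h1 hiN) hw
    have hh' : -1 ≤ h ∧ h ≤ 1 := by rcases hh with e | e | e <;> omega
    by_cases e3 : N = 3
    · subst e3
      simp only [true_and]
      omega
    · have h5 : (4 : ℤ) ≤ (N : ℤ) - 1 := by omega
      left
      by_contra c
      rcases lt_or_gt_of_ne c with c | c <;> nlinarith [hh'.1, hh'.2]
  · have key : ∀ j, j % 2 = 1 → j ≤ N → i ≠ j →
        k + (if k % 2 = 1 ∧ N + 1 - i = j then h else 0) = 0 := fun j hj hjN hij =>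
      (ex_word k h hN hi hj hjN hij).symm.trans (ex_Bd hi hj hij hw)
    by_cases e3 : N = 3
    · subst e3
      have := key (4 - i) (by omega) (by omega) (by omega)
      simp only [true_and]
      rcases hh with e | e | e <;> split_ifs at this <;> omega
    · obtain ⟨j, a, b, c, d⟩ : ∃ j, j % 2 = 1 ∧ j ≤ N ∧ i ≠ j ∧ N + 1 - i ≠ j := by
        by_cases p1 : i ≠ 1 ∧ N + 1 - i ≠ 1
        · exact ⟨1, rfl, by omega, p1⟩
        · by_cases p3 : i ≠ 3 ∧ N + 1 - i ≠ 3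
          · exact ⟨3, rfl, by omega, p3⟩
          · exact ⟨5, rfl, by omega, by omega, by omega⟩
      have := key j a b c
      rw [if_neg (fun q => d q.2)] at this
      left
      omega

end Pool.Agent.MP_6eaae3_al.EV

end PartZ2

section PartZ3

/-! Powers of the Garside element are detected on two copies of the integers. -/

namespace Pool.Agent.MP_6eaae3_al.EV

open FreeGroup (of mk invRev IsReduced)
open Set Pool.Agent.MP_6eaae3_al.LT Pool.Agent.MP_6eaae3_al.LT.Path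

set_option linter.unusedSimpArgs false

namespace Z3

abbrev PP := Equiv.Perm (Bool × ℤ)

/-- Translation by `a` on the first copy and by `b` on the second. -/
def T (a b : ℤ) : PP where
  toFun x := (x.1, x.2 + if x.1 then b else a)
  invFun x := (x.1, x.2 - if x.1 then b else a)
  left_inv x := by simp
  right_inv x := by simp

/-- The flip of the two copies. -/
def ta : PP where
  toFun x := (!x.1, x.2)
  invFun x := (!x.1, x.2)
  left_inv x := by simp
  right_inv x := by simp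

theorem T_ap (a b : ℤ) (x) : T a b x = (x.1, x.2 + if x.1 then b else a) := rfl

theorem ta_ap (x) : ta x = (!x.1, x.2) := rfl

theorem T_mul (a b c d : ℤ) : T a b * T c d = T (a + c) (b + d) := by
  ext ⟨_ | _, x⟩ <;> simp [T_ap] <;> ring

theorem T_mul' (a b c d : ℤ) (x : PP) : T a b * (T c d * x) = T (a + c) (b + d) * x := by
  rw [← mul_assoc, T_mul]

theorem T_zero : T 0 0 = 1 := by ext ⟨_ | _, x⟩ <;> simp [T_ap]

theorem T_inv (a b : ℤ) : (T a b)⁻¹ = T (-a) (-b) :=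
  inv_eq_of_mul_eq_one_right (by rw [T_mul, add_neg_cancel, add_neg_cancel, T_zero])

theorem T_zpow (a b n : ℤ) : T a b ^ n = T (n * a) (n * b) := by
  induction n using Int.induction_on with
  | zero => simp [T_zero]
  | succ i ih => rw [zpow_add_one, ih, T_mul]; congr 1 <;> ring
  | pred i ih => rw [zpow_sub_one, ih, T_inv, T_mul]; congr 1 <;> ring

theorem ta_T (a b : ℤ) : ta * T a b = T b a * ta := by
  ext ⟨_ | _, x⟩ <;> simp [T_ap, ta_ap]

theorem ta_T' (a b : ℤ) (x : PP) : ta * (T a b * x) = T b a * (ta * x) := by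
  rw [← mul_assoc, ta_T, mul_assoc]

theorem ta_ta : ta * ta = 1 := by ext ⟨_ | _, x⟩ <;> simp [ta_ap]

theorem ta_ta' (x : PP) : ta * (ta * x) = x := by rw [← mul_assoc, ta_ta, one_mul]

theorem ta_inv : ta⁻¹ = ta := inv_eq_of_mul_eq_one_right ta_ta

def th (g : ℕ → PP) : FH →* PP := FreeGroup.lift fun x => if x.2 then ta else g x.1

def ze (N : ℕ) (g : ℕ → PP) : FreeGroup ℕ →* PP := (th g).comp (xi N 0)

def E (g : ℕ → PP) : ℕ → PP
  | 0 => 1
  | r + 1 => g (2 * r + 2) * E g r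

variable {N : ℕ} {g : ℕ → PP}

theorem th_ff (j : ℕ) : th g (ff j) = g j := by simp [th, ff]

theorem th_et (j : ℕ) : th g (et N j) = if 1 ≤ j ∧ j ≤ N then ta else 1 := by
  unfold et; split_ifs <;> simp [th]

theorem ze_ev {j : ℕ} (h : j % 2 = 0) : ze N g (of j) = g j := by simp [ze, xi, h, th_ff]

theorem ze_od {j : ℕ} (h : j % 2 = 1) : ze N g (of j) =
    (if j + 1 ≤ N then ta else 1) * (if 1 ≤ j - 1 ∧ j - 1 ≤ N then ta else 1)⁻¹ := by
  simp [ze, xi, h, th_et]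

theorem ze_wE (r : ℕ) : ze N g (wE r) = (E g r)⁻¹ := by
  induction r with
  | zero => simp [wE, pr, E]
  | succ r ih =>
    rw [wE] at ih
    rw [wE, pr, map_mul, ih, map_inv, ze_ev (by omega), E, mul_inv_rev]

theorem ze_wA {a : ℕ} (h1 : 1 ≤ a) (h2 : a < N) : ze N g (wA (a + 1)) = E g (a / 2) * ta := by
  induction a, h1 using Nat.le_induction with
  | base =>
    rw [wA, if_neg one_ne_zero, map_mul, ze_od rfl, if_pos (by omega), if_neg (by omega)]
    simp [wA, E]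
  | succ a h1 ih =>
    rw [wA, if_neg (by omega), map_mul, ih (by omega)]
    rcases Nat.mod_two_eq_zero_or_one a with h | h
    · rw [ze_od (by omega), if_pos (by omega), if_pos (by omega), mul_inv_cancel, one_mul,
        show (a + 1) / 2 = a / 2 by omega]
    · rw [ze_ev (by omega), show (a + 1) / 2 = a / 2 + 1 by omega, E, mul_assoc,
        show 2 * (a / 2) + 2 = a + 1 by omega]

theorem ze_top (h1 : 3 ≤ N) (h2 : N % 2 = 1) : ze N g (wA (N + 1)) = ta * (E g (N / 2) * ta) := by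
  obtain ⟨a, rfl⟩ : ∃ a, N = a + 1 := ⟨N - 1, by omega⟩
  rw [wA, if_neg (by omega), map_mul, ze_wA (by omega) (by omega), ze_od h2, if_neg (by omega),
    if_pos (by omega), one_mul, ta_inv, show (a + 1) / 2 = a / 2 by omega]

theorem ze_wO {r : ℕ} (h1 : 1 ≤ r) (h2 : 2 * r ≤ N) : ze N g (wO r) = ta := by
  induction r, h1 using Nat.le_induction with
  | base =>
    rw [wO, pr, map_mul, map_inv, ze_od rfl, if_pos (by omega), if_neg (by omega)]
    simp [pr, ta_inv]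
  | succ r h1 ih =>
    rw [wO] at ih
    rw [wO, pr, map_mul, ih (by omega), map_inv, ze_od (by omega), if_pos (by omega),
      if_pos (by omega), mul_inv_cancel, inv_one, mul_one]

theorem ze_wOq (h1 : 3 ≤ N) (h2 : N % 2 = 1) : ze N g (wO ((N + 1) / 2)) = 1 := by
  have := ze_wO (N := N) (g := g) (r := N / 2) (by omega) (by omega)
  rw [wO] at this
  rw [show (N + 1) / 2 = N / 2 + 1 by omega, wO, pr, map_mul, this, map_inv, ze_od (by omega),
    if_neg (by omega), if_pos (by omega), one_mul, inv_inv, ta_ta]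

theorem ze_wY (h1 : 3 ≤ N) (h2 : N % 2 = 1) :
    ze N g (wY N) = (E g (N / 2))⁻¹ * (ta * (E g (N / 2) * ta)) := by
  rw [wY, map_mul, ze_wE, ze_top h1 h2]

theorem fix (h : ∀ j, j % 2 = 0 → j ≠ 2 → g j (false, 0) = (false, 0)) {w : FH}
    (hw : w ∈ Fre D0) : th g w (false, 0) = (false, 0) :=
  Fre.map_mem (K := MulAction.stabilizer PP ((false, 0) : Bool × ℤ)) (th g) (by
    rintro ⟨j, b⟩ ⟨rfl, h1, h2⟩
    have := h j h1 h2
    rwa [← th_ff (g := g)] at this) hw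

/-- The weights: the curve `i` has none. -/
def gw (i j : ℕ) : PP := T (if j = 2 then -1 else 0) (if j = i then 0 else 1)

theorem E_gw (i r : ℕ) : E (gw i) r =
    T (if r = 0 then 0 else -1) (if i % 2 = 0 ∧ 1 ≤ i ∧ i ≤ 2 * r then r - 1 else r) := by
  induction r with
  | zero => rw [if_pos rfl, if_neg (by omega)]; exact T_zero.symm
  | succ r ih =>
    rw [E, ih, gw, T_mul]
    congr 1 <;> split_ifs <;> first | omega | contradiction

theorem fix_gw (i : ℕ) {w : FH} (hw : w ∈ Fre D0) : th (gw i) w (false, 0) = (false, 0) :=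
  fix (fun j _ h => by simp [gw, h, T_ap]) hw

theorem nodiv {n q c : ℤ} (h1 : 0 < c) (h2 : c < q) : n * q ≠ c := fun e => by
  rcases le_or_gt n 0 with h | h <;> nlinarith

theorem odd {i : ℕ} {k : ℤ} (h1 : 3 ≤ N) (h2 : N % 2 = 1) (h4 : i ≤ N) (h5 : i % 2 = 1)
    (h : (et N (i + 1))⁻¹ * xi N 0 ((uL N k i)⁻¹ * uR N k i) * et N (i + 1) ∈ Fre D0) :
    k = 0 := by
  have e := fix_gw 1 h
  have hE : ∀ r, E (gw 1) r = T (if r = 0 then 0 else -1) r := fun r => by
    rw [E_gw, if_neg (c := 1 % 2 = 0 ∧ _) (by omega)]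
  rw [map_mul, map_mul, map_inv, th_et] at e
  change (_ * ze N (gw 1) _ * _ : PP) _ = _ at e
  obtain ⟨q, hq⟩ : ∃ q : ℤ, q = (N / 2 : ℕ) + 1 := ⟨_, rfl⟩
  have hY : ze N (gw 1) (wY N) = T q (-q) := by
    rw [ze_wY h1 h2, hE, if_neg (by omega), T_inv, ta_T', ta_ta, mul_one, T_mul]
    congr 1 <;> omega
  simp only [uL, uR, h5, if_true, map_mul, map_inv, map_zpow, apply_ite (ze N (gw 1)), map_one,
    ze_wOq h1 h2, hY, ze_wE, hE, one_zpow, mul_one] at e
  rcases h4.eq_or_lt with rfl | h4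
  · rw [ze_top h1 h2, hE, ze_wOq h1 h2] at e
    simp only [if_neg (show ¬ (1 ≤ i + 1 ∧ i + 1 ≤ i) by omega),
      if_neg (show ¬ i / 2 = 0 by omega), show (i + 1 - i) / 2 = 0 by omega] at e
    rcases Int.emod_two_eq_zero_or_one k with a | a <;>
      simp [a, T_zpow, T_inv, ta_inv, mul_assoc, ta_T', ta_T, ta_ta', ta_ta, T_mul, T_mul',
        T_ap] at e
    · omega
    · exact absurd (add_neg_eq_zero.1 e) (nodiv (by omega) (by omega))
  · rw [ze_wA (by omega) h4, hE, ze_wO (by omega) (by omega)] at e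
    simp only [if_pos (show 1 ≤ i + 1 ∧ i + 1 ≤ N by omega),
      if_neg (show ¬ (N + 1 - i) / 2 = 0 by omega)] at e
    rcases Int.emod_two_eq_zero_or_one k with a | a <;>
      simp [a, T_zpow, T_inv, ta_inv, mul_assoc, ta_T', ta_T, ta_ta', ta_ta, T_mul, T_mul',
        T_ap] at e
    · omega
    · exact absurd (by linarith) (nodiv (n := k / 2 + 1) (q := q) (c := i / 2 + 1)
        (by omega) (by omega))

/-- The word of an even curve in terms of the partial products. -/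
theorem ev_word {i : ℕ} (k : ℤ) (h2 : N % 2 = 1) (h3 : 1 ≤ i) (h4 : i ≤ N)
    (h5 : i % 2 = 0) : ze N g ((uL N k i)⁻¹ * uR N k i) =
      if k % 2 = 0 then (E g (i / 2) * ze N g (wY N) ^ (k / 2) * (E g (i / 2))⁻¹)⁻¹ *
        (E g (i / 2) * ta * ze N g (wY N) ^ (k / 2) * (E g (i / 2) * ta)⁻¹)
      else (E g ((N + 1 - i) / 2) * ta * ze N g (wY N) ^ (k / 2) * (E g (i / 2))⁻¹)⁻¹ *
        (E g ((N + 1 - i) / 2) * ze N g (wY N) ^ (k / 2 + 1) * (E g (i / 2) * ta)⁻¹) := by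
  simp only [uL, uR, if_neg (show ¬ i % 2 = 1 by omega), map_mul, map_inv, map_zpow,
    apply_ite (ze N g), ze_wE, inv_inv, ze_wA h3 (show i < N by omega),
    ze_wA (show 1 ≤ N + 1 - i by omega) (show N + 1 - i < N by omega)]
  split_ifs <;> rfl

theorem th_de {i : ℕ} (h3 : 1 ≤ i) (h4 : i ≤ N) {δ : FH} (h : δ = 1 ∨ δ = et N i) :
    th g δ = 1 ∨ th g δ = ta :=
  h.imp (fun e => by rw [e, map_one]) fun e => by rw [e, th_et, if_pos ⟨h3, h4⟩]

theorem even {i : ℕ} {k : ℤ} (h1 : 3 ≤ N) (h2 : N % 2 = 1) (h3 : 1 ≤ i) (h4 : i ≤ N)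
    (h5 : i % 2 = 0) (h6 : i ≠ 2)
    (h : En (ff i) (et N i) (Fre D0) (xi N 0 ((uL N k i)⁻¹ * uR N k i))) : k = 0 := by
  obtain ⟨a, b, κ, δ, δ', c1, c2, c3, c4⟩ := h
  obtain ⟨y, hy⟩ : ∃ y : ℤ, y = (N / 2 : ℕ) := ⟨_, rfl⟩
  have hY : ze N (gw i) (wY N) = T y (-y) := by
    rw [ze_wY h1 h2, E_gw, if_neg (by omega), if_pos (by omega), T_inv, ta_T', ta_ta, mul_one,
      T_mul]
    congr 1 <;> omega
  have hW : ze N (gw i) ((uL N k i)⁻¹ * uR N k i) = T (-(k * y)) (k * y) := by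
    have hk := Int.emod_add_mul_ediv k 2
    rw [ev_word k h2 h3 h4 h5, hY, E_gw, E_gw]
    generalize k / 2 = n at hk ⊢
    rcases Int.emod_two_eq_zero_or_one k with a | a <;> rw [a] at hk <;>
      simp only [a, if_true, one_ne_zero, if_false, T_zpow, T_inv, ta_inv, mul_inv_rev, mul_assoc,
        ta_T', ta_T, ta_ta', ta_ta, T_mul, T_mul', mul_one] <;> rw [← hk] <;> congr 1 <;> ring
  have e : ze N (gw i) _ = _ := congrArg (th (gw i)) c4
  have e0 : gw i i = 1 := by rw [gw, if_neg h6, if_pos rfl, T_zero]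
  rw [hW] at e
  simp only [map_mul, map_zpow, map_inv, th_ff, e0, one_zpow, one_mul, mul_one] at e
  have f := fix_gw i c1
  rw [show th (gw i) κ = (th (gw i) δ)⁻¹ * T (-(k * y)) (k * y) * th (gw i) δ' by
    rw [e]; group] at f
  rcases th_de (g := gw i) h3 h4 c2 with u | u <;> rcases th_de (g := gw i) h3 h4 c3 with v | v <;>
    rw [u, v] at f <;> simp [ta_inv, T_ap, ta_ap] at f <;> omega

/-- The second reflection. -/
def r1 : PP := T 1 (-1) * ta

theorem r1_r1 : r1 * r1 = 1 := by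
  simp [r1, mul_assoc, ta_T', ta_ta, T_mul, T_zero]

theorem r1_zpow (a : ℤ) : r1 ^ a = 1 ∨ r1 ^ a = r1 := by
  have h : ∀ n : ℤ, r1 ^ (2 * n) = 1 := fun n => by rw [zpow_mul, zpow_two, r1_r1, one_zpow]
  rcases Int.even_or_odd' a with ⟨n, rfl | rfl⟩
  exacts [.inl (h n), .inr (by rw [zpow_add_one, h, one_mul])]

def gr (j : ℕ) : PP := if j = 2 then r1 else 1

theorem E_gr {r : ℕ} (h : 1 ≤ r) : E gr r = r1 := by
  induction r, h using Nat.le_induction with
  | base => simp [E, gr]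
  | succ r h ih => rw [E, ih, gr, if_neg (by omega), one_mul]

theorem two {k : ℤ} (h1 : 3 ≤ N) (h2 : N % 2 = 1)
    (h : En (ff 2) (et N 2) (Fre D0) (xi N 0 ((uL N k 2)⁻¹ * uR N k 2))) : k = 0 := by
  obtain ⟨a, b, κ, δ, δ', c1, c2, c3, c4⟩ := h
  have hY : ze N gr (wY N) = T 2 (-2) := by
    rw [ze_wY h1 h2, E_gr (by omega)]
    simp [r1, T_inv, ta_inv, mul_assoc, ta_T', ta_T, ta_ta', ta_ta, T_mul, T_mul']
  have hW : ze N gr ((uL N k 2)⁻¹ * uR N k 2) = T (2 * k) (-(2 * k)) := by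
    have hk := Int.emod_add_mul_ediv k 2
    rw [ev_word k h2 (by omega) (by omega) rfl, hY, E_gr (by omega), E_gr (by omega), r1]
    generalize k / 2 = n at hk ⊢
    rcases Int.emod_two_eq_zero_or_one k with a | a <;> rw [a] at hk <;>
      simp only [a, if_true, one_ne_zero, if_false, T_zpow, T_inv, ta_inv, mul_inv_rev, mul_assoc,
        ta_T', ta_T, ta_ta', ta_ta, T_mul, T_mul', mul_one] <;> rw [← hk] <;> congr 1 <;> ring
  have e : ze N gr _ = _ := congrArg (th gr) c4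
  have e0 : th gr κ = 1 := Fre.map_mem (K := ⊥) (th gr) (by
    rintro ⟨j, b⟩ ⟨rfl, -, h2⟩
    exact (th_ff j).trans (if_neg h2)) c1
  rw [hW] at e
  simp only [map_mul, map_zpow, map_inv, th_ff, e0, mul_one, show gr 2 = r1 from if_pos rfl] at e
  have f := congrArg (fun x : PP => x (false, 0)) e
  rcases th_de (g := gr) (by omega) (show 2 ≤ N by omega) c2 with u | u <;>
    rcases th_de (g := gr) (by omega) (show 2 ≤ N by omega) c3 with v | v <;>
    rcases r1_zpow a with w | w <;> rcases r1_zpow b with x | x <;>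
    rw [u, v, w, x] at f <;> simp [r1, ta_inv, T_ap, ta_ap] at f <;> omega

end Z3

theorem z3 : S_Z3 := fun _ i _ h1 h2 h3 h4 => ⟨Z3.odd h1 h2 h4, fun h5 h => by
  by_cases h6 : i = 2
  · subst h6
    exact Z3.two h1 h2 h
  · exact Z3.even h1 h2 h3 h4 h5 h6 h⟩

end Pool.Agent.MP_6eaae3_al.EV

end PartZ3

section PartZ4

/-! Detection of the powers of the Garside element on conjugators, even positions. -/

namespace Pool.Agent.MP_6eaae3_al.EV

open FreeGroup (of mk invRev IsReduced)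
open Set Pool.Agent.MP_6eaae3_al.LT Pool.Agent.MP_6eaae3_al.LT.Path

namespace Z4

/-- The wreath product of the integers with the group of order two. -/
@[ext] structure Wr where
  a : ℤ
  b : ℤ
  s : Bool

instance : Mul Wr := ⟨fun x y =>
  ⟨x.a + cond x.s y.b y.a, x.b + cond x.s y.a y.b, cond x.s (!y.s) y.s⟩⟩

instance : One Wr := ⟨⟨0, 0, false⟩⟩

instance : _root_.Inv Wr := ⟨fun x => ⟨-cond x.s x.b x.a, -cond x.s x.a x.b, x.s⟩⟩

theorem mul_def (a b a' b' : ℤ) (s s' : Bool) : (⟨a, b, s⟩ * ⟨a', b', s'⟩ : Wr) =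
    ⟨a + cond s b' a', b + cond s a' b', cond s (!s') s'⟩ := rfl

theorem one_def : (1 : Wr) = ⟨0, 0, false⟩ := rfl

theorem inv_def (a b : ℤ) (s : Bool) :
    (⟨a, b, s⟩ : Wr)⁻¹ = ⟨-cond s b a, -cond s a b, s⟩ := rfl

instance : Group Wr := Group.ofLeftAxioms
  (by
    rintro ⟨a, b, _ | _⟩ ⟨a', b', _ | _⟩ ⟨a'', b'', _ | _⟩ <;> simp [mul_def, add_assoc])
  (by rintro ⟨a, b, _ | _⟩ <;> simp [mul_def, one_def])
  (by rintro ⟨a, b, _ | _⟩ <;> simp [mul_def, one_def, inv_def])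

theorem zpow_def (a b n : ℤ) : (⟨a, b, false⟩ : Wr) ^ n = ⟨n * a, n * b, false⟩ := by
  induction n using Int.induction_on with
  | zero => simp [one_def]
  | succ i ih => rw [zpow_add_one, ih, mul_def]; simp [add_mul]
  | pred i ih => rw [zpow_sub_one, ih, inv_def, mul_def]; simp [sub_eq_add_neg, add_mul]

/-- The flip. -/
def tau : Wr := ⟨0, 0, true⟩

/-- The second reflection. -/
def rho : Wr := ⟨1, -1, true⟩

theorem rho_pow (b : ℤ) : rho ^ b = 1 ∨ rho ^ b = rho := by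
  have e : rho ^ (2 : ℤ) = 1 := by rw [zpow_two]; rfl
  obtain ⟨c, rfl | rfl⟩ := Int.even_or_odd' b
  · exact .inl (by rw [zpow_mul, e, one_zpow])
  · exact .inr (by rw [zpow_add_one, zpow_mul, e, one_zpow, one_mul])

/-- The machine with the values `F` on the curves. -/
def th (F : ℕ → Wr) : FH →* Wr := FreeGroup.lift fun x => cond x.2 tau (F x.1)

theorem th_ff (F : ℕ → Wr) (k : ℕ) : th F (ff k) = F k := by simp [th, ff]

theorem th_et (F : ℕ → Wr) (N k : ℕ) :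
    th F (et N k) = if 1 ≤ k ∧ k ≤ N then tau else 1 := by
  unfold et
  split_ifs <;> simp [th]

/-- The value of the inverse of `wE r`. -/
def EE (F : ℕ → Wr) : ℕ → Wr
  | 0 => 1
  | r + 1 => F (2 * r + 2) * EE F r

variable (F : ℕ → Wr) (N : ℕ)

theorem x_even (r : ℕ) : th F (xi N 0 (of (2 * r + 2))) = F (2 * r + 2) := by
  rw [xi, FreeGroup.lift_apply_of, if_pos (by omega), th_ff]

theorem x_odd (r : ℕ) : th F (xi N 0 (of (2 * r + 1))) =
    (if 2 * r + 2 ≤ N then tau else 1) * (if 1 ≤ r ∧ 2 * r ≤ N then tau else 1)⁻¹ := by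
  rw [xi, FreeGroup.lift_apply_of, if_neg (by omega), map_mul, map_inv, th_et, th_et]
  rw [if_congr (show 1 ≤ 2 * r + 1 + 1 ∧ 2 * r + 1 + 1 ≤ N ↔ 2 * r + 2 ≤ N by omega) rfl rfl,
    if_congr (show 1 ≤ 2 * r + 1 - 1 ∧ 2 * r + 1 - 1 ≤ N ↔ 1 ≤ r ∧ 2 * r ≤ N by omega) rfl rfl]

theorem x_wE (r : ℕ) : th F (xi N 0 (wE r)) = (EE F r)⁻¹ := by
  induction r with
  | zero => simp [wE, pr, EE]
  | succ r ih =>
    rw [wE, pr, map_mul, map_mul, ← wE, ih, map_inv, map_inv, x_even, EE, mul_inv_rev]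

theorem x_wA (r : ℕ) (h : 2 * r + 2 ≤ N) : th F (xi N 0 (wA (2 * r + 2))) = EE F r * tau := by
  induction r with
  | zero =>
    rw [wA, if_neg (by omega), map_mul, map_mul, x_odd F N 0, if_pos h, if_neg (by omega)]
    simp [wA, EE]
  | succ r ih =>
    rw [wA, if_neg (by omega), map_mul, map_mul, x_odd, if_pos h, if_pos (by omega),
      show 2 * (r + 1) + 1 = 2 * r + 2 + 1 by ring, wA, if_neg (by omega), map_mul, map_mul,
      x_even, ih (by omega), EE]
    group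

theorem x_wA' (r : ℕ) (h : 2 * r + 2 ≤ N) :
    th F (xi N 0 (wA (2 * r + 2 + 1))) = EE F (r + 1) * tau := by
  rw [wA, if_neg (by omega), map_mul, map_mul, x_even, x_wA F N r h, EE, mul_assoc]

theorem x_wY (r : ℕ) : th F (xi (2 * r + 3) 0 (wY (2 * r + 3))) =
    (EE F (r + 1))⁻¹ * (tau⁻¹ * (EE F (r + 1) * tau)) := by
  rw [wY, map_mul, map_mul, x_wE, wA, if_neg (by omega), map_mul, map_mul,
    show (2 * r + 3) / 2 = r + 1 by omega, x_wA' F _ r (by omega)]
  have := x_odd F (2 * r + 3) (r + 1)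
  rw [if_neg (by omega), if_pos (by omega), one_mul] at this
  rw [← this]
  rfl

theorem x_uR (u v : ℕ) (k : ℤ) {Y : Wr}
    (hY : (EE F (u + v + 1))⁻¹ * (tau⁻¹ * (EE F (u + v + 1) * tau)) = Y) :
    th F (xi (2 * (u + v) + 3) 0 (uR (2 * (u + v) + 3) k (2 * u + 2))) =
      if k % 2 = 0 then EE F (u + 1) * tau * Y ^ (k / 2) * (EE F (u + 1) * tau)⁻¹
      else EE F (v + 1) * Y ^ (k / 2 + 1) * (EE F (u + 1) * tau)⁻¹ := by
  unfold uR
  rw [show (2 * (u + v) + 3 + 1 - (2 * u + 2)) / 2 = v + 1 by omega]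
  split_ifs <;> simp only [map_mul, map_inv, map_zpow, x_wY, hY, x_wE, inv_inv,
    x_wA' F (2 * (u + v) + 3) u (by omega)]

theorem x_uL (u v : ℕ) (k : ℤ) {Y : Wr}
    (hY : (EE F (u + v + 1))⁻¹ * (tau⁻¹ * (EE F (u + v + 1) * tau)) = Y) :
    th F (xi (2 * (u + v) + 3) 0 (uL (2 * (u + v) + 3) k (2 * u + 2))) =
      (if k % 2 = 0 then EE F (u + 1) else EE F (v + 1) * tau) * Y ^ (k / 2) *
        (EE F (u + 1))⁻¹ := by
  unfold uL
  rw [if_neg (by omega), show 2 * (u + v) + 3 + 1 - (2 * u + 2) = 2 * v + 2 by omega,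
    show (2 * u + 2) / 2 = u + 1 by omega]
  split_ifs <;> simp only [map_mul, map_inv, map_zpow, x_wY, hY, x_wE, inv_inv,
    x_wA' F (2 * (u + v) + 3) v (by omega)]

/-- The counting machine. -/
def F3 (u j : ℕ) : Wr :=
  if j = 2 * u + 2 then 1 else if j = 2 then ⟨-1, 1, false⟩ else ⟨0, 1, false⟩

/-- The dihedral machine. -/
def F4 (j : ℕ) : Wr := if j = 2 then rho else 1

theorem EE3 (u r : ℕ) : EE (F3 u) (r + 1) =
    ⟨if u = 0 then 0 else -1, if u ≤ r then r else r + 1, false⟩ := by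
  induction r with
  | zero =>
    rcases Nat.eq_zero_or_pos u with rfl | h
    · simp [EE, F3, one_def]
    · simp [EE, F3, h.ne']
  | succ r ih =>
    rw [EE, ih, F3]
    by_cases h : u = r + 1
    · subst h
      simp
    · rw [if_neg (by omega), if_neg (by omega), mul_def]
      by_cases h' : u ≤ r
      · simp [h', h'.trans r.le_succ, add_comm]
      · simp [h', show ¬ u ≤ r + 1 by omega, add_comm]

theorem EE4 (r : ℕ) : EE F4 (r + 1) = rho := by
  induction r with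
  | zero => simp [EE, F4]
  | succ r ih => rw [EE, ih, F4, if_neg (by omega), one_mul]

/-- The elements without flip whose first coordinate vanishes. -/
def K0 : Subgroup Wr where
  carrier := {x | x.a = 0 ∧ x.s = false}
  mul_mem' := by
    rintro ⟨a, b, s⟩ ⟨a', b', s'⟩ ⟨h1, h2⟩ ⟨h3, h4⟩
    simp only at h1 h2 h3 h4
    subst h1 h2 h3 h4
    simp [mul_def]
  one_mem' := ⟨rfl, rfl⟩
  inv_mem' := by
    rintro ⟨a, b, s⟩ ⟨h1, h2⟩
    simp only at h1 h2
    subst h1 h2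
    simp [inv_def]

theorem k3 (u : ℕ) {κ : FH} (h : κ ∈ Fre D0) : ∃ b, th (F3 u) κ = ⟨0, b, false⟩ := by
  have : th (F3 u) κ ∈ K0 := Fre.map_mem _ (fun ⟨j, s⟩ ⟨h1, _, h3⟩ => by
    obtain rfl : s = false := h1
    rw [← ff, th_ff, F3]
    split_ifs
    exacts [one_mem _, ⟨rfl, rfl⟩]) h
  exact ⟨_, Wr.ext this.1 rfl this.2⟩

theorem k4 {κ : FH} (h : κ ∈ Fre D0) : th F4 κ = 1 :=
  Subgroup.mem_bot.1 (Fre.map_mem _ (fun ⟨j, s⟩ ⟨h1, _, h3⟩ => by
    obtain rfl : s = false := h1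
    rw [← ff, th_ff, F4, if_neg h3]
    exact one_mem _) h)

end Z4

open Z4 in
theorem z4 : S_Z4 := by
  intro N i k w h3 hN i1 iN i2 hw H
  obtain ⟨u, rfl⟩ : ∃ u, i = 2 * u + 2 := ⟨i / 2 - 1, by omega⟩
  obtain ⟨v, rfl⟩ : ∃ v, N = 2 * (u + v) + 3 := ⟨N / 2 - 1 - u, by omega⟩
  have et1 : ∀ F, th F (et (2 * (u + v) + 3) (2 * u + 2)) = tau := fun F => by
    rw [th_et, if_pos (by omega)]
  have a3 : (th (F3 u) (xi (2 * (u + v) + 3) 0 w)).a = 0 := by
    have f1 : th (F3 u) (ff (2 * u + 2)) = 1 := by rw [th_ff, F3, if_pos rfl]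
    rcases H with ⟨-, κ, hκ, b, e | e⟩ | ⟨-, b, e⟩
    · obtain ⟨c, hc⟩ := k3 u hκ
      simp [e, hc, f1]
    · obtain ⟨c, hc⟩ := k3 u hκ
      simp [e, hc, f1, et1, tau, inv_def, mul_def]
    · rw [e, map_zpow, f1, one_zpow]; rfl
  have hx : k % 2 ≠ 0 → v ≠ 0 ∨ u = v := fun h => by
    rw [ix, if_neg h] at H
    exact H.imp (fun h => by have := h.1; omega) fun h => by have := h.1; omega
  have Y3 : (EE (F3 u) (u + v + 1))⁻¹ * (tau⁻¹ * (EE (F3 u) (u + v + 1) * tau)) =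
      ⟨(if u = 0 then 0 else 1) + (u + v), -((if u = 0 then 0 else 1) + (u + v)), false⟩ := by
    rw [EE3, if_pos (Nat.le_add_right u v)]
    by_cases h : u = 0 <;> simp [h, tau, inv_def, mul_def]
  have R3 := x_uR (F3 u) u v k Y3
  have L3 := x_uL (F3 u) u v k Y3
  obtain ⟨n, hn⟩ : ∃ n, n = k / 2 := ⟨_, rfl⟩
  rw [← hn, EE3, EE3, zpow_def] at R3 L3
  rw [zpow_def] at R3
  by_cases hu : u = 0
  · subst hu
    have a4 : ∀ x, x = th F4 (xi (2 * (0 + v) + 3) 0 w) → x = 1 ∨ x = rho ∨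
        (ix (2 * (0 + v) + 3) k (2 * 0 + 2) ≠ 2 ∧ (x = tau⁻¹ ∨ x = tau⁻¹ * rho)) := by
      have f1 : th F4 (ff (2 * 0 + 2)) = rho := by rw [th_ff, F4, if_pos rfl]
      rintro _ rfl
      rcases H with ⟨h, κ, hκ, b, e | e⟩ | ⟨-, b, e⟩
      · rw [e, map_mul, map_zpow, f1, k4 hκ, one_mul]
        exact (rho_pow b).imp_right .inl
      · rw [e, map_mul, map_mul, map_zpow, map_inv, f1, et1, k4 hκ, one_mul]
        exact .inr (.inr ⟨h, (rho_pow b).imp (fun e' => by rw [e', mul_one]) fun e' => by rw [e']⟩)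
      · rw [e, map_zpow, f1]
        exact (rho_pow b).imp_right .inl
    have Y4 : (EE F4 (0 + v + 1))⁻¹ * (tau⁻¹ * (EE F4 (0 + v + 1) * tau)) = ⟨2, -2, false⟩ := by
      rw [EE4]; rfl
    have R4 := x_uR F4 0 v k Y4
    have L4 := x_uL F4 0 v k Y4
    rw [← hn, EE4, EE4, zpow_def] at R4 L4
    rw [zpow_def] at R4
    by_cases hk : k % 2 = 0
    · rcases hw with rfl | rfl
      · have := a4 _ L4.symm
        simp [hk, ix, tau, rho, inv_def, mul_def, one_def] at this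
        omega
      · have := a4 _ R4.symm
        simp [hk, ix, tau, rho, inv_def, mul_def, one_def] at this
        omega
    · exfalso
      rcases hw with rfl | rfl
      · have := a4 _ L4.symm
        rw [L3] at a3
        simp [hk, ix, tau, rho, inv_def, mul_def, one_def] at this a3
        omega
      · have := a4 _ R4.symm
        rw [R3] at a3
        simp [hk, ix, tau, rho, inv_def, mul_def, one_def] at this a3
        omega
  · by_cases hk : k % 2 = 0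
    · rcases hw with rfl | rfl
      · rw [L3] at a3
        simp [hk, hu, inv_def, mul_def] at a3
        omega
      · rw [R3] at a3
        simp [hk, hu, tau, inv_def, mul_def] at a3
        omega
    · exfalso
      have hv : (0 : ℤ) < v := by have := hx hk; omega
      have hu' : (0 : ℤ) ≤ u := by omega
      rcases hw with rfl | rfl
      · rw [L3] at a3
        simp [hk, hu, tau, inv_def, mul_def] at a3
        rcases le_or_gt 0 n with h | h <;> nlinarith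
      · rw [R3] at a3
        simp [hk, hu, tau, inv_def, mul_def] at a3
        rcases le_or_gt 0 n with h | h <;> nlinarith

end Pool.Agent.MP_6eaae3_al.EV

end PartZ4

section PartLn

/-! The least number of syllables in a coset. -/

namespace Pool.Agent.MP_6eaae3_al.EV

open FreeGroup (of mk invRev IsReduced)
open Set Pool.Agent.MP_6eaae3_al.LT Pool.Agent.MP_6eaae3_al.LT.Path

namespace Ln

variable {V G : Type} [Group G] {r : V → G} {Λ : Set V} {t₀ : V} {g q : G} {l : List (V × ℤ)}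

theorem word_mem (h : ∀ y ∈ l, y.1 ∈ Λ) : ev r l ∈ Subgroup.closure (r '' Λ) := by
  induction l with
  | nil => exact one_mem _
  | cons y l ih =>
    rw [OpA.ev_cons]
    exact mul_mem (zpow_mem (Subgroup.subset_closure (mem_image_of_mem r (h y (by simp)))) _)
      (ih fun z hz => h z (by simp [hz]))

theorem ln_le (h : ∀ y ∈ l, y.1 ∈ Λ) (hq : q ∈ Subgroup.closure (r '' (Λ \ {t₀}))) :
    ln r Λ t₀ (ev r l * q) ≤ l.length := Nat.sInf_le ⟨l, h, q, hq, rfl, rfl⟩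

theorem ln_spec (t₀ : V) (hg : g ∈ Subgroup.closure (r '' Λ)) : ∃ l : List (V × ℤ),
    (∀ y ∈ l, y.1 ∈ Λ) ∧ ∃ q ∈ Subgroup.closure (r '' (Λ \ {t₀})),
      g = ev r l * q ∧ l.length = ln r Λ t₀ g := by
  obtain ⟨l, h1, h2⟩ := OpA.exists_word r Λ hg
  exact Nat.sInf_mem (s := {k | ∃ l : List (V × ℤ), (∀ y ∈ l, y.1 ∈ Λ) ∧
    ∃ q ∈ Subgroup.closure (r '' (Λ \ {t₀})), g = ev r l * q ∧ l.length = k})
    ⟨_, l, h1, 1, one_mem _, by rw [mul_one, h2], rfl⟩

theorem ln_mul (hg : g ∈ Subgroup.closure (r '' Λ)) (h : ∀ y ∈ l, y.1 ∈ Λ) :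
    ln r Λ t₀ (ev r l * g) ≤ l.length + ln r Λ t₀ g := by
  obtain ⟨l', h1, q, h2, h3, h4⟩ := ln_spec t₀ hg
  rw [← h4, ← List.length_append, h3, ← mul_assoc, ← OpA.ev_append]
  exact ln_le (fun y hy => (List.mem_append.1 hy).elim (h y) (h1 y)) h2

end Ln

open Ln in
theorem lnn : S_LN := by
  intro V G _ r Λ t₀ g hg
  obtain ⟨l, h1, q, h2, h3, h4⟩ := ln_spec t₀ hg
  refine ⟨fun l hl => ln_mul hg hl, ⟨fun h => ?_, fun h => ?_⟩, fun k h => ?_⟩
  · obtain rfl := List.length_eq_zero_iff.1 (h4.trans h)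
    rw [h3]
    exact mul_mem (one_mem _) h2
  · have := ln_le (r := r) (l := []) (by simp) h
    rwa [show ev r [] = 1 from rfl, one_mul, List.length_nil, Nat.le_zero] at this
  · obtain _ | ⟨y, l⟩ := l
    · exact absurd (h4.trans h) (by simp)
    have h5 : ∀ z ∈ l, z.1 ∈ Λ := fun z hz => h1 z (List.mem_cons_of_mem _ hz)
    have h6 : ev r l * q ∈ Subgroup.closure (r '' Λ) :=
      mul_mem (word_mem h5) (Subgroup.closure_mono (image_mono sdiff_subset) h2)
    have h7 : g = ev r [y] * (ev r l * q) := by rw [h3, ← mul_assoc, ← OpA.ev_append]; rfl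
    refine ⟨y.1, h1 y List.mem_cons_self, y.2, _, h6, by rw [h3, OpA.ev_cons, mul_assoc], ?_⟩
    have h8 := ln_mul (t₀ := t₀) (l := [y]) h6 (by simpa using h1 y List.mem_cons_self)
    have h9 := ln_le h5 h2
    rw [← h7, h, List.length_singleton] at h8
    rw [h, List.length_cons] at h4
    omega

end Pool.Agent.MP_6eaae3_al.EV

end PartLn

section PartTt

/-! The step along a run in two crossing colours. -/

namespace Pool.Agent.MP_6eaae3_al.EV

open FreeGroup (of mk invRev IsReduced)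
open Set Pool.Agent.MP_6eaae3_al.LT Pool.Agent.MP_6eaae3_al.LT.Path

namespace Tt

variable {V G : Type} [Group G] {r : V → G} {Λ : Set V} {t₀ : V}

theorem mm {a : V} (ha : a ∈ Λ) (p : ℤ) {w : G} (hw : w ∈ Subgroup.closure (r '' Λ)) :
    r a ^ p * w ∈ Subgroup.closure (r '' Λ) :=
  mul_mem (In.pw ha p) hw

theorem l1 (H : S_LN) (t₀ : V) {a : V} (ha : a ∈ Λ) (p : ℤ) {w : G}
    (hw : w ∈ Subgroup.closure (r '' Λ)) : ln r Λ t₀ (r a ^ p * w) ≤ 1 + ln r Λ t₀ w := by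
  simpa [ev] using (H V G r Λ t₀ w hw).1 [(a, p)] (by simpa using ha)

/-- A crossing without winding gives everything. -/
theorem g2 (A : Ax r Λ t₀) {g : G} {h : V} (hh : h ∈ Λ) {y} (c : A.Cx g h y 0) : A.SS g h y :=
  ⟨Or.inl ⟨0, c⟩, fun p hp ρ ok ne => A.hp _ h hh y ρ ok ne (Or.inl ⟨0 + p, fun e => by
    rw [zero_add] at e
    rw [e, zpow_zero, one_mul] at hp
    omega, A.cx0 _ _ _ p 0 c⟩)⟩

theorem ev_two (r : V → G) {d h : V} {E : List (V × ℤ)} (hE : ∀ y ∈ E, y.1 = d ∨ y.1 = h) :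
    ev r E ∈ Subgroup.closure {r d, r h} := by
  have := In.ev_mem (r := r) (X := {d, h}) (l := E) hE
  rwa [image_pair] at this

/-- An additive run of length two. -/
theorem two (H : S_LN) {d h : V} (hd : d ∈ Λ) (hh : h ∈ Λ) {v : G}
    (hv : v ∈ Subgroup.closure (r '' Λ)) {j : ℤ} {y : V × ℤ} (hy : y.1 = d ∨ y.1 = h)
    (e : ln r Λ t₀ (ev r [(d, j), y] * v) = 2 + ln r Λ t₀ v) :
    j ≠ 0 ∧ ev r [(d, j), y] = r d ^ j * r h ^ y.2 ∧
      ln r Λ t₀ (r h ^ y.2 * v) = ln r Λ t₀ v + 1 := by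
  obtain ⟨c, q⟩ := y
  have e0 : ev r [(d, j), (c, q)] = r d ^ j * r c ^ q := by simp [ev]
  rw [e0] at e ⊢
  dsimp only at hy ⊢
  rcases hy with rfl | rfl
  · have := l1 H t₀ hd (j + q) hv
    rw [zpow_add] at this
    omega
  · have a := l1 H t₀ hh q hv
    have b := l1 H t₀ hd j (mm hh q hv)
    rw [← mul_assoc] at b
    refine ⟨fun z => ?_, rfl, by omega⟩
    rw [z, zpow_zero, one_mul] at e
    omega

end Tt

open Tt in
theorem tt (H : S_LN) : S_TT := by
  intro V G _ r Λ t₀ A d hd h hh v hv E h' x cr hE col add nds hh' xd xh ss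
  have cr' := A.sy _ _ cr
  have ne := A.ne _ _ cr
  have okd : ∀ a, (Sum.inl d : V ⊕ Bool) = Sum.inl a → a ∈ Λ ∧ A.cr h a := fun a e => by
    cases e; exact ⟨hd, cr⟩
  have okh : ∀ a, (Sum.inl h : V ⊕ Bool) = Sum.inl a → a ∈ Λ ∧ A.cr d a := fun a e => by
    cases e; exact ⟨hh, cr'⟩
  have uc : ev r E ∈ Subgroup.closure {r d, r h} := ev_two r col
  have uc' : ev r E ∈ Subgroup.closure {r h, r d} := by rwa [pair_comm]
  have hc : ∀ p : ℤ, r h ^ p * ev r E ∈ Subgroup.closure {r d, r h} := fun p =>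
    mul_mem (zpow_mem (Subgroup.subset_closure (by simp)) p) uc
  have hc' : ∀ p : ℤ, r h ^ p * ev r E ∈ Subgroup.closure {r h, r d} := fun p => by
    rw [pair_comm]; exact hc p
  have nd : ∀ (a : ℤ) (w : G), ev r E = r h ^ a * w →
      E.length + ln r Λ t₀ v ≤ ln r Λ t₀ (w * v) := fun a w e => by
    by_contra lt
    refine nds ⟨-a, ?_⟩
    rw [add]
    rw [e, ← mul_assoc, ← mul_assoc, ← zpow_add, neg_add_cancel, zpow_zero, one_mul]
    omega
  obtain ⟨⟨c, j⟩, E', rfl⟩ := List.exists_cons_of_ne_nil hE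
  have colΛ : ∀ y ∈ E', y.1 ∈ Λ := fun y hy => by
    rcases col y (by simp [hy]) with e | e <;> rw [e] <;> assumption
  obtain rfl : d = c := by
    rcases col (c, j) (by simp) with e | e
    · exact e.symm
    · cases e
      have a := nd j _ (In.ev_cons _ _)
      have b := (H V G r Λ t₀ v hv).1 E' colΛ
      rw [List.length_cons] at a
      omega
  rcases E' with _ | ⟨y, E'⟩
  · have e0 : ev r [(d, j)] = r d ^ j := by simp [ev]
    rw [e0] at add ⊢
    have j0 : j ≠ 0 := fun z => by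
      rw [z, zpow_zero, one_mul] at add
      simp at add
    rcases hh' with e | e <;> subst h'
    · exact Or.inl (g2 A hh (A.pi _ h hh d hd cr
        (ss.2 j (by simpa [add_comm] using add) _ okh xh.symm)))
    · by_cases c0 : A.Cx v h x 0
      · exact Or.inr ⟨rfl, rfl, g2 A hh (A.cx1 _ _ _ d j ne.symm xd c0)⟩
      · refine Or.inl (g2 A hh (A.sh _ h hh d hd j cr j0 (A.hp _ h hh x _ okd xd.symm ?_)))
        exact ss.1.imp_left fun ⟨k, ck⟩ => ⟨k, fun z => c0 (z ▸ ck), ck⟩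
  left
  have y1 := col y (by simp)
  rcases hh' with e | e <;> subst h'
  · refine ⟨?_, fun p hp ρ ok nρ => ?_⟩
    · refine (A.loc v h hh d hd x _ uc' cr xh xd ss.1).2.2.2.resolve_right fun ⟨a, c, e⟩ => ?_
      have a1 := nd a _ e
      have a2 := l1 H t₀ hd c hv
      simp only [List.length_cons] at a1
      omega
    · rw [← mul_assoc]
      refine ((A.loc v h hh d hd x _ (hc' p) cr xh xd ss.1).1 ρ ok nρ).resolve_right
        fun ⟨a, b, c, e⟩ => ?_
      have p0 : p ≠ 0 := fun z => by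
        rw [z, zpow_zero, one_mul] at hp
        omega
      rw [add, ← mul_assoc, e] at hp
      have a1 := l1 H t₀ hd c hv
      have a2 := l1 H t₀ hh b (mm hd c hv)
      have a3 := l1 H t₀ hd a (mm hh b (mm hd c hv))
      simp only [List.length_cons, mul_assoc] at hp
      obtain rfl : E' = [] := List.eq_nil_of_length_eq_zero (by omega)
      obtain ⟨j0, e1, -⟩ := two H hd hh hv y1 add
      refine A.df6 h hh d hd cr p j y.2 a b c p0 j0 (fun z => ?_) (fun z => ?_)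
        (by rw [← e, e1, mul_assoc])
      · rw [z, zpow_zero, one_mul] at hp
        simp only [List.length_nil] at hp
        omega
      · have := l1 H t₀ hd (a + c) hv
        rw [z, zpow_zero, one_mul] at hp
        rw [zpow_add, mul_assoc] at this
        simp only [List.length_nil] at hp
        omega
  rcases E' with _ | ⟨y', E'⟩
  · obtain ⟨j0, e1, e2⟩ := two H hd hh hv y1 add
    rw [e1, mul_assoc]
    exact g2 A hh (A.sh _ h hh d hd j cr j0 (ss.2 _ e2 _ okd xd.symm))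
  refine ⟨?_, fun p hp ρ ok nρ => ?_⟩
  · refine (A.loc v d hd h hh x _ uc cr' xd xh ss.1).2.2.1.resolve_right fun ⟨a, b, c, e⟩ => ?_
    have a1 := nd a _ (e.trans (mul_assoc _ _ _))
    have a2 := l1 H t₀ hh c hv
    have a3 := l1 H t₀ hd b (mm hh c hv)
    simp only [List.length_cons, mul_assoc] at a1
    omega
  · rw [← mul_assoc]
    refine ((A.loc v d hd h hh x _ (hc p) cr' xd xh ss.1).2.1 ρ ok nρ).elim id
      fun ⟨a, b, c, f, e⟩ => ?_
    rw [add, ← mul_assoc, e] at hp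
    have a1 := l1 H t₀ hh f hv
    have a2 := l1 H t₀ hd c (mm hh f hv)
    have a3 := l1 H t₀ hh b (mm hd c (mm hh f hv))
    have a4 := l1 H t₀ hd a (mm hh b (mm hd c (mm hh f hv)))
    simp only [List.length_cons, mul_assoc] at hp
    have c0 : c ≠ 0 := fun z => by
      rw [z, zpow_zero, one_mul] at a2 a3 a4 hp
      have := l1 H t₀ hh b (mm hh f hv)
      have := l1 H t₀ hd a (mm hh b (mm hh f hv))
      omega
    have b0 : b ≠ 0 := fun z => by
      rw [z, zpow_zero, one_mul] at a3 a4 hp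
      omega
    rw [e]
    simp only [mul_assoc]
    exact A.ps1 _ _ _ d a ne.symm nρ (A.hp _ h hh (Sum.inl d) ρ ok nρ (Or.inl ⟨0 + b, by simpa using b0,
      A.cx0 _ _ _ b 0 (A.sh _ h hh d hd c cr c0 (ss.2 f (by omega) _ okd xd.symm))⟩))

end Pool.Agent.MP_6eaae3_al.EV

end PartTt

section PartUu

/-! The induction on the number of syllables. -/

namespace Pool.Agent.MP_6eaae3_al.EV

open FreeGroup (of mk invRev IsReduced)
open Set Pool.Agent.MP_6eaae3_al.LT Pool.Agent.MP_6eaae3_al.LT.Path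

namespace Uu

variable {V G : Type} [Group G] {r : V → G} {Λ : Set V} {t₀ : V}

theorem ev_nil : ev r [] = 1 := rfl

theorem ev_cons (y : V × ℤ) (l) : ev r (y :: l) = r y.1 ^ y.2 * ev r l := by simp [ev]

theorem ev_append (l l') : ev r (l ++ l') = ev r l * ev r l' := by simp [ev]

theorem ev_one (a : V) (p : ℤ) : ev r [(a, p)] = r a ^ p := by simp [ev]

theorem gen_mem {X : Set V} {a : V} (h : a ∈ X) (p : ℤ) : r a ^ p ∈ Subgroup.closure (r '' X) :=
  zpow_mem (Subgroup.subset_closure (mem_image_of_mem r h)) p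

theorem ev_mem {X : Set V} {l : List (V × ℤ)} (h : ∀ y ∈ l, y.1 ∈ X) :
    ev r l ∈ Subgroup.closure (r '' X) := by
  induction l with
  | nil => exact one_mem _
  | cons y l ih =>
    rw [ev_cons]
    exact mul_mem (gen_mem (h y (by simp)) _) (ih fun z hz => h z (by simp [hz]))

theorem ln_le (h1 : S_LN) {g} (hg : g ∈ Subgroup.closure (r '' Λ)) {l : List (V × ℤ)}
    (hl : ∀ y ∈ l, y.1 ∈ Λ) : ln r Λ t₀ (ev r l * g) ≤ l.length + ln r Λ t₀ g :=
  (h1 V G r Λ t₀ g hg).1 l hl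

theorem ln_pow (h1 : S_LN) {g} (hg : g ∈ Subgroup.closure (r '' Λ)) {a} (ha : a ∈ Λ) (p : ℤ) :
    ln r Λ t₀ (r a ^ p * g) ≤ ln r Λ t₀ g + 1 := by
  have := ln_le (t₀ := t₀) h1 hg (l := [(a, p)]) (by simpa using ha)
  rw [ev_one, List.length_singleton] at this
  omega

/-- A letter with an additive power is not a descent. -/
theorem not_ds (h1 : S_LN) {g} (hg : g ∈ Subgroup.closure (r '' Λ)) {a} (ha : a ∈ Λ) {j : ℤ}
    (e : ln r Λ t₀ (r a ^ j * g) = ln r Λ t₀ g + 1) : ¬ Ds r Λ t₀ g a := fun ⟨p, hp⟩ => by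
  have := ln_pow (t₀ := t₀) h1 (mul_mem (gen_mem ha p) hg) ha (j - p)
  rw [← mul_assoc, ← zpow_add, sub_add_cancel] at this
  omega

theorem ds_of {g : G} {a : V} {j : ℤ} (e : ln r Λ t₀ g < ln r Λ t₀ (r a ^ j * g)) :
    Ds r Λ t₀ (r a ^ j * g) a :=
  ⟨-j, by rwa [← mul_assoc, ← zpow_add, neg_add_cancel, zpow_zero, one_mul]⟩

/-- The provenance of the label `x`. -/
def Prov (A : Ax r Λ t₀) (v : G) (h : V) (x : V ⊕ Bool) : Prop :=
  x = Sum.inr false ∨ ∃ (a : V) (U : List (V × ℤ)) (q : ℤ) (w : G), x = Sum.inl a ∧ a ∈ Λ ∧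
    A.cr h a ∧ (∀ y ∈ U, y.1 ∈ Λ ∧ y.1 ≠ h ∧ y.1 ≠ a) ∧ w ∈ Subgroup.closure (r '' Λ) ∧
      v = ev r U * (r a ^ q * w) ∧ ln r Λ t₀ v = U.length + 1 + ln r Λ t₀ w

variable {A : Ax r Λ t₀}

theorem Prov.ne {v h x} (p : Prov A v h x) : x ≠ Sum.inl h := by
  rcases p with rfl | ⟨a, U, q, w, rfl, -, c, -⟩
  · exact Sum.inr_ne_inl
  · exact fun e => A.ne _ _ c (Sum.inl.inj e).symm

theorem Prov.ne_true {v h x} (p : Prov A v h x) : x ≠ Sum.inr true := by
  rcases p with rfl | ⟨a, U, q, w, rfl, -⟩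
  · simp
  · exact Sum.inl_ne_inr

theorem Prov.cons {v h x d} {j : ℤ} (p : Prov A v h x) (hd : d ∈ Λ) (n1 : d ≠ h)
    (n2 : x ≠ Sum.inl d) (e : ln r Λ t₀ (r d ^ j * v) = ln r Λ t₀ v + 1) :
    Prov A (r d ^ j * v) h x := by
  rcases p with rfl | ⟨a, U, q, w, rfl, ha, c, hU, hw, e1, e2⟩
  · exact Or.inl rfl
  · refine Or.inr ⟨a, (d, j) :: U, q, w, rfl, ha, c, ?_, hw, ?_, ?_⟩
    · intro y hy
      rcases List.mem_cons.1 hy with rfl | hy
      · exact ⟨hd, n1, fun u => n2 (congrArg Sum.inl u.symm)⟩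
      · exact hU y hy
    · rw [ev_cons, e1, mul_assoc]
    · rw [e, e2, List.length_cons]; omega

theorem Prov.first {v h d} {j : ℤ} (hv : v ∈ Subgroup.closure (r '' Λ)) (hd : d ∈ Λ) (c : A.cr h d)
    (e : ln r Λ t₀ (r d ^ j * v) = ln r Λ t₀ v + 1) : Prov A (r d ^ j * v) h (Sum.inl d) :=
  Or.inr ⟨d, [], j, v, rfl, hd, c, by simp, hv, by rw [ev_nil, one_mul], by
    rw [e, List.length_nil]; omega⟩

/-- A syllable that commutes with `h` changes nothing. -/
theorem comm (h1 : S_LN) {v h d} {j : ℤ} (hv : v ∈ Subgroup.closure (r '' Λ)) (hh : h ∈ Λ)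
    (hd : d ∈ Λ) (n1 : d ≠ h) (c : ¬ A.cr d h) (e : ln r Λ t₀ (r d ^ j * v) = ln r Λ t₀ v + 1) :
    (¬ Ds r Λ t₀ (r d ^ j * v) h → ¬ Ds r Λ t₀ v h) ∧
    (∀ p : ℤ, ln r Λ t₀ (r h ^ p * (r d ^ j * v)) = ln r Λ t₀ (r d ^ j * v) + 1 →
      ln r Λ t₀ (r h ^ p * v) = ln r Λ t₀ v + 1) ∧
    (∀ x, A.SS v h x → A.SS (r d ^ j * v) h x) ∧ ∀ x, Prov A v h x → Prov A (r d ^ j * v) h x := by
  have sw : ∀ p : ℤ, r h ^ p * (r d ^ j * v) = r d ^ j * (r h ^ p * v) := fun p => by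
    rw [← mul_assoc, ← mul_assoc, ((A.cm d hd h hh c).zpow_zpow j p).eq]
  have le : ∀ p : ℤ, ln r Λ t₀ (r h ^ p * (r d ^ j * v)) ≤ ln r Λ t₀ (r h ^ p * v) + 1 := fun p => by
    rw [sw]; exact ln_pow h1 (mul_mem (gen_mem hh p) hv) hd j
  have ad : ∀ p : ℤ, ln r Λ t₀ (r h ^ p * (r d ^ j * v)) = ln r Λ t₀ (r d ^ j * v) + 1 →
      ln r Λ t₀ (r h ^ p * v) = ln r Λ t₀ v + 1 := fun p u => by
    have := le p
    have := ln_pow (t₀ := t₀) h1 hv hh p
    omega
  refine ⟨fun u ⟨p, hp⟩ => u ⟨p, ?_⟩, ad, fun x s => ⟨?_, fun p u ρ k1 k2 => ?_⟩, fun x p => ?_⟩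
  · have := le p
    omega
  · exact s.1.imp (fun ⟨k, u⟩ => ⟨k, A.cx2 _ _ hh _ _ hd _ _ n1 c u⟩) (A.hh2 _ _ hh _ _ hd _ n1 c)
  · rw [sw]
    exact A.ps1 _ _ _ _ _ n1 (fun f => c (A.sy _ _ (k1 d f).2)) (s.2 p (ad p u) ρ k1 k2)
  · refine p.cons hd n1 ?_ e
    rcases p with rfl | ⟨a, U, q, w, rfl, -, u, -⟩
    · exact Sum.inr_ne_inl
    · exact fun f => c (A.sy _ _ (Sum.inl.inj f ▸ u))

/-- The longest additive run in two letters. -/
theorem run (h1 : S_LN) {v : G} {d h : V} (hd : d ∈ Λ) (hh : h ∈ Λ) (E₀ : List (V × ℤ)) (w₀ : G)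
    (a0 : ∀ y ∈ E₀, y.1 = d ∨ y.1 = h) (b0 : w₀ ∈ Subgroup.closure (r '' Λ))
    (c0 : v = ev r E₀ * w₀) (d0 : ln r Λ t₀ v = E₀.length + ln r Λ t₀ w₀) (e0 : E₀ ≠ []) :
    ∃ (E : List (V × ℤ)) (w : G), (∀ y ∈ E, y.1 = d ∨ y.1 = h) ∧ w ∈ Subgroup.closure (r '' Λ) ∧
      v = ev r E * w ∧ ln r Λ t₀ v = E.length + ln r Λ t₀ w ∧ E₀.length ≤ E.length ∧
      ¬ Ds r Λ t₀ w d ∧ ¬ Ds r Λ t₀ w h ∧
      ∃ c, (c = d ∨ c = h) ∧ ∃ p : ℤ, ln r Λ t₀ (r c ^ p * w) = ln r Λ t₀ w + 1 := by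
  induction hn : ln r Λ t₀ w₀ using Nat.strong_induction_on generalizing E₀ w₀ with
  | _ n ih =>
  have mem : ∀ c, (c = d ∨ c = h) → c ∈ Λ := fun c u => by rcases u with rfl | rfl <;> assumption
  by_cases u : ∃ c, (c = d ∨ c = h) ∧ Ds r Λ t₀ w₀ c
  · obtain ⟨c, hc, p, hp⟩ := u
    have hw := mul_mem (gen_mem (r := r) (mem c hc) p) b0
    have l1 := ln_pow (t₀ := t₀) h1 hw (mem c hc) (-p)
    rw [← mul_assoc, ← zpow_add, neg_add_cancel, zpow_zero, one_mul] at l1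
    obtain ⟨E, w, k1, k2, k3, k4, k5, k6⟩ := ih _ (hn ▸ hp) (E₀ ++ [(c, -p)]) (r c ^ p * w₀)
      (fun y hy => (List.mem_append.1 hy).elim (a0 y) fun z => by
        rw [List.mem_singleton.1 z]; exact hc) hw
      (by rw [c0, ev_append, ev_one]; group)
      (by rw [List.length_append, List.length_singleton]; omega) (by simp) rfl
    refine ⟨E, w, k1, k2, k3, k4, ?_, k6⟩
    rw [List.length_append, List.length_singleton] at k5
    omega
  · refine ⟨E₀, w₀, a0, b0, c0, d0, le_rfl, fun f => u ⟨d, Or.inl rfl, f⟩,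
      fun f => u ⟨h, Or.inr rfl, f⟩, ?_⟩
    obtain ⟨E', ⟨c, p⟩, rfl⟩ := (List.eq_nil_or_concat' E₀).resolve_left e0
    have hc := a0 (c, p) (by simp)
    refine ⟨c, hc, p, ?_⟩
    have l1 := ln_pow (t₀ := t₀) h1 b0 (mem c hc) p
    have l2 := ln_le (t₀ := t₀) h1 (mul_mem (gen_mem (r := r) (mem c hc) p) b0) (l := E')
      fun y hy => mem _ (a0 y (by simp [hy]))
    rw [← mul_assoc, ← ev_one, ← ev_append, ← c0] at l2
    rw [List.length_append, List.length_singleton] at d0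
    rw [ev_one] at l2
    omega

def PU (A : Ax r Λ t₀) (v : G) : Prop := ∀ h ∈ Λ, ¬ Ds r Λ t₀ v h →
  (∃ p : ℤ, ln r Λ t₀ (r h ^ p * v) = ln r Λ t₀ v + 1) → ∃ x, A.SS v h x ∧ Prov A v h x

def PF (A : Ax r Λ t₀) (v : G) : Prop := ∀ h h', ¬ Ds r Λ t₀ v h' → Prov A v h (Sum.inl h') →
  ∃ y, A.SS v h' y ∧ Prov A v h' y ∧ y ≠ Sum.inl h

theorem qq {v d h} (u : PU A v) (f : PF A v) (hd : d ∈ Λ) (hh : h ∈ Λ) (n1 : ¬ Ds r Λ t₀ v d)
    (n2 : ¬ Ds r Λ t₀ v h)
    (a : ∃ c, (c = d ∨ c = h) ∧ ∃ p : ℤ, ln r Λ t₀ (r c ^ p * v) = ln r Λ t₀ v + 1) :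
    ∃ h' x, (h' = d ∨ h' = h) ∧ x ≠ Sum.inl d ∧ x ≠ Sum.inl h ∧ A.SS v h' x ∧ Prov A v h' x := by
  obtain ⟨c, rfl | rfl, a⟩ := a
  · obtain ⟨x, s, p⟩ := u c hd n1 a
    by_cases e : x = Sum.inl h
    · obtain ⟨y, s', p', k⟩ := f c h n2 (e ▸ p)
      exact ⟨h, y, Or.inr rfl, k, p'.ne, s', p'⟩
    · exact ⟨c, x, Or.inl rfl, p.ne, e, s, p⟩
  · obtain ⟨x, s, p⟩ := u c hh n2 a
    by_cases e : x = Sum.inl d
    · obtain ⟨y, s', p', k⟩ := f c d n1 (e ▸ p)
      exact ⟨d, y, Or.inl rfl, p'.ne, k, s', p'⟩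
    · exact ⟨c, x, Or.inr rfl, e, p.ne, s, p⟩

theorem base (A : Ax r Λ t₀) {v} (hv : v ∈ Subgroup.closure (r '' (Λ \ {t₀}))) :
    A.Cx v t₀ (Sum.inr false) 0 := by
  induction hv using Subgroup.closure_induction_left with
  | one => exact A.base
  | mul_left x hx y hy ih =>
    obtain ⟨a, ha, rfl⟩ := hx
    simpa using A.cx1 y t₀ _ a 1 ha.2 Sum.inr_ne_inl ih
  | inv_mul_cancel x hx y hy ih =>
    obtain ⟨a, ha, rfl⟩ := hx
    simpa using A.cx1 y t₀ _ a (-1) ha.2 Sum.inr_ne_inl ih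

theorem stepU (h1 : S_LN) (h2 : S_TT) {v} (hv : v ∈ Subgroup.closure (r '' Λ))
    (ih : ∀ w ∈ Subgroup.closure (r '' Λ), ln r Λ t₀ w < ln r Λ t₀ v → PU A w ∧ PF A w) :
    PU A v := by
  intro h hh nd ⟨p, hp⟩
  rcases e : ln r Λ t₀ v with _ | k
  · have h0 := (h1 V G r Λ t₀ v hv).2.1.1 e
    obtain rfl : h = t₀ := by
      by_contra ne
      have := (h1 V G r Λ t₀ _ (mul_mem (gen_mem hh p) hv)).2.1.2
        (mul_mem (gen_mem (X := Λ \ {t₀}) ⟨hh, ne⟩ p) h0)
      omega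
    refine ⟨Sum.inr false, ⟨Or.inl ⟨0, base A h0⟩, fun q hq ρ k1 k2 => ?_⟩, Or.inl rfl⟩
    refine A.hp _ _ hh _ _ k1 k2 (Or.inl ⟨0 + q, ?_, A.cx0 _ _ _ q 0 (base A h0)⟩)
    rintro z
    rw [zero_add] at z
    rw [z, zpow_zero, one_mul] at hq
    omega
  obtain ⟨d, hd, j, w, hw, rfl, e'⟩ := (h1 V G r Λ t₀ v hv).2.2 k e
  have ad : ln r Λ t₀ (r d ^ j * w) = ln r Λ t₀ w + 1 := by omega
  have n1 : d ≠ h := fun f => nd (f ▸ ds_of (by omega))
  by_cases c : A.cr d h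
  · obtain ⟨E, w', k1, k2, k3, k4, k5, k6, k7, k8⟩ := run (t₀ := t₀) (v := r d ^ j * w) h1 hd hh
      [(d, j)] w (by simp) hw
      (by rw [ev_one]) (by rw [List.length_singleton]; omega) (by simp)
    rw [List.length_singleton] at k5
    obtain ⟨u, f⟩ := ih w' k2 (by omega)
    obtain ⟨h', x, m1, m2, m3, s, pr⟩ := qq u f hd hh k6 k7 k8
    have := h2 V G r Λ t₀ A d hd h hh w' k2 E h' x (A.sy _ _ c)
      (by rintro rfl; simp at k5) k1 (k3 ▸ k4) (k3 ▸ nd) m1 m2 m3 s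
    rw [← k3] at this
    rcases this with s' | ⟨l1, rfl, s'⟩
    · exact ⟨_, s', Prov.first hw hd (A.sy _ _ c) ad⟩
    · obtain ⟨⟨b, q⟩, rfl⟩ := List.length_eq_one_iff.1 l1
      rw [ev_one] at k3
      rw [List.length_singleton] at k4
      rcases k1 (b, q) (by simp) with f' | f'
      · obtain rfl : b = d := f'
        refine ⟨x, s', ?_⟩
        rw [k3]
        exact pr.cons hd n1 m2 (by rw [← k3]; omega)
      · obtain rfl : b = h' := f'
        refine (nd ?_).elim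
        rw [k3]
        exact ds_of (by rw [← k3]; omega)
  · obtain ⟨c1, c2, c3, c4⟩ := comm (A := A) h1 hw hh hd n1 c ad
    obtain ⟨x, s, pr⟩ := (ih w hw (by omega)).1 h hh (c1 nd) ⟨p, c2 p hp⟩
    exact ⟨x, c3 x s, c4 x pr⟩

theorem stepF (h1 : S_LN) (h2 : S_TT) {v}
    (ih : ∀ w ∈ Subgroup.closure (r '' Λ), ln r Λ t₀ w < ln r Λ t₀ v → PU A w ∧ PF A w) :
    PF A v := by
  intro h h' nd pv
  rcases pv with z | ⟨a, U, q, w, z, hh, cr, hU, hw, e1, e2⟩
  · exact (Sum.inl_ne_inr z).elim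
  obtain rfl : h' = a := Sum.inl.inj z
  rcases U with _ | ⟨⟨d, j⟩, U⟩
  · rw [ev_nil, one_mul] at e1
    rw [List.length_nil] at e2
    refine (nd ?_).elim
    rw [e1]
    exact ds_of (by rw [← e1]; omega)
  obtain ⟨hd, n0, n1⟩ := hU (d, j) (by simp)
  have hU' : ∀ y ∈ U, y.1 ∈ Λ ∧ y.1 ≠ h ∧ y.1 ≠ h' := fun y hy => hU y (by simp [hy])
  have hw1 := mul_mem (gen_mem (r := r) hh q) hw
  have hv0 := mul_mem (ev_mem (r := r) fun y hy => (hU' y hy).1) hw1
  have l1 := ln_pow (t₀ := t₀) h1 hw hh q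
  have l2 := ln_le (t₀ := t₀) h1 hw1 fun y hy => (hU' y hy).1
  have l3 := ln_pow (t₀ := t₀) h1 hv0 hd j
  rw [ev_cons, mul_assoc] at e1
  rw [List.length_cons] at e2
  have pv0 : Prov A (ev r U * (r h' ^ q * w)) h (Sum.inl h') :=
    Or.inr ⟨h', U, q, w, rfl, hh, cr, hU', hw, rfl, by rw [e1] at e2; simp only at e2 l3; omega⟩
  have ad : ln r Λ t₀ (r d ^ j * (ev r U * (r h' ^ q * w))) =
      ln r Λ t₀ (ev r U * (r h' ^ q * w)) + 1 := by rw [e1] at e2; simp only at e2 l3; omega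
  generalize ev r U * (r h' ^ q * w) = v0 at *
  simp only at e1 hd n0 n1
  subst e1
  have nh : (Sum.inl d : V ⊕ Bool) ≠ Sum.inl h := fun f => n0 (Sum.inl.inj f)
  by_cases c : A.cr d h'
  swap
  · obtain ⟨c1, -, c3, c4⟩ := comm (A := A) h1 hv0 hh hd n1 c ad
    obtain ⟨y, s, pr, k⟩ := (ih v0 hv0 (by omega)).2 h h' (c1 nd) pv0
    exact ⟨y, c3 y s, c4 y pr, k⟩
  have fst := Prov.first hv0 hd (A.sy _ _ c) ad
  by_cases ds : Ds r Λ t₀ v0 h'
  · obtain ⟨p, hp⟩ := ds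
    have hw2 := mul_mem (gen_mem (r := r) hh p) hv0
    have l4 := ln_pow (t₀ := t₀) h1 hw2 hh (-p)
    rw [← mul_assoc, ← zpow_add, neg_add_cancel, zpow_zero, one_mul] at l4
    obtain ⟨E, w', k1, k2, k3, k4, k5, k6, k7, k8⟩ := run (t₀ := t₀) (v := r d ^ j * v0) h1 hd hh
      [(d, j), (h', -p)] (r h' ^ p * v0) (by simp) hw2 (by rw [ev_cons, ev_one]; group)
      (by simp only [List.length_cons, List.length_nil]; omega) (by simp)
    simp only [List.length_cons, List.length_nil] at k5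
    obtain ⟨u, f⟩ := ih w' k2 (by omega)
    obtain ⟨h'', x, m1, m2, m3, s, -⟩ := qq u f hd hh k6 k7 k8
    have := h2 V G r Λ t₀ A d hd h' hh w' k2 E h'' x (A.sy _ _ c)
      (by rintro rfl; simp at k5) k1 (k3 ▸ k4) (k3 ▸ nd) m1 m2 m3 s
    rw [← k3] at this
    rcases this with s' | ⟨l5, -⟩
    · exact ⟨_, s', fst, nh⟩
    · omega
  have f0 := (ih v0 hv0 (by omega)).2
  have tt := fun h'' x => h2 V G r Λ t₀ A d hd h' hh v0 hv0 [(d, j)] h'' x (A.sy _ _ c) (by simp)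
    (by simp) (by rw [ev_one, List.length_singleton]; omega) (by rwa [ev_one])
  rw [ev_one] at tt
  obtain ⟨y, s, pr, k⟩ := f0 h h' ds pv0
  by_cases e : y = Sum.inl d
  · obtain ⟨x, s', pr', k'⟩ := f0 h' d (not_ds h1 hv0 hd ad) (e ▸ pr)
    rcases tt d x (Or.inl rfl) pr'.ne k' s' with s'' | ⟨-, f, -⟩
    · exact ⟨_, s'', fst, nh⟩
    · exact (n1 f).elim
  · rcases tt h' y (Or.inr rfl) e pr.ne s with s'' | ⟨-, -, s''⟩
    · exact ⟨_, s'', fst, nh⟩
    · exact ⟨y, s'', pr.cons hd n1 e ad, k⟩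

theorem both (h1 : S_LN) (h2 : S_TT) {v} (hv : v ∈ Subgroup.closure (r '' Λ)) : PU A v ∧ PF A v := by
  induction hn : ln r Λ t₀ v using Nat.strong_induction_on generalizing v with
  | _ n ih =>
  have := fun w (hw : w ∈ Subgroup.closure (r '' Λ)) (l : ln r Λ t₀ w < ln r Λ t₀ v) =>
    ih _ (hn ▸ l) hw rfl
  exact ⟨stepU h1 h2 hv this, stepF h1 h2 this⟩

theorem along (A : Ax r Λ t₀) {s₀ : V} {g u : G} (hu : u ∈ Subgroup.closure (r '' (Λ \ {s₀})))
    (h : A.Ps g s₀ (Sum.inr true)) : A.Ps (u * g) s₀ (Sum.inr true) := by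
  induction hu using Subgroup.closure_induction_left with
  | one => rwa [one_mul]
  | mul_left x hx y hy ih =>
    obtain ⟨a, ha, rfl⟩ := hx
    simpa [mul_assoc] using A.ps1 _ s₀ _ a 1 ha.2 Sum.inr_ne_inl ih
  | inv_mul_cancel x hx y hy ih =>
    obtain ⟨a, ha, rfl⟩ := hx
    simpa [mul_assoc] using A.ps1 _ s₀ _ a (-1) ha.2 Sum.inr_ne_inl ih

end Uu

theorem uu (h1 : S_LN) (h2 : S_TT) : S_UU := by
  intro V G _ r Λ t₀ A v hv h hh nd a
  obtain ⟨x, s, p⟩ := (Uu.both (A := A) h1 h2 hv).1 h hh nd a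
  exact ⟨x, p.ne_true, s⟩

theorem gl (h1 : S_LN) (h2 : S_UU) : S_GL := by
  intro V G _ r Λ t₀ A s₀ hs g hg ng
  induction hn : ln r Λ t₀ g using Nat.strong_induction_on generalizing g with
  | _ n ih =>
  rcases n with _ | k
  · exact (ng ⟨1, one_mem _, g, (h1 V G r Λ t₀ g hg).2.1.1 hn, (one_mul g).symm⟩).elim
  obtain ⟨a, ha, p, w, hw, rfl, e⟩ := (h1 V G r Λ t₀ g hg).2.2 k hn
  by_cases c : a = s₀
  · subst c
    have ad : ln r Λ t₀ (r a ^ p * w) = ln r Λ t₀ w + 1 := by omega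
    obtain ⟨x, n, s⟩ := h2 V G r Λ t₀ A w hw a ha (Uu.not_ds h1 hw ha ad) ⟨p, ad⟩
    exact s.2 p ad _ (fun _ f => (Sum.inr_ne_inl f).elim) n.symm
  · have hm := Uu.gen_mem (r := r) (X := Λ \ {s₀}) ⟨ha, c⟩ p
    refine Uu.along A hm (ih k (by omega) w hw ?_ e)
    rintro ⟨u, hu, q, hq, rfl⟩
    exact ng ⟨_, mul_mem hm hu, q, hq, (mul_assoc _ _ _).symm⟩

end Pool.Agent.MP_6eaae3_al.EV

end PartUu
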