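import Pool.Agent.MP_6eaae3_al.EV.Pa
import Pool.Agent.MP_6eaae3_al.EV.Pb
import Pool.Agent.MP_6eaae3_al.EV.Pc
import Pool.Agent.MP_6eaae3_al.EV.Pe

/-! Cliques all of whose labels are even. -/

namespace Pool.Agent.MP_6eaae3_al.EV

theorem dc_even : S_DC :=
  have F := f2 f3
  have W := wp ptt
  have H := hp ptt W
  have I := li F ptt
  dc lv ts cs (ax (m1 F) (m0 F) (m2 H) (sh F (m0 F) H)
    (ll (lr I W ta ch) (ls I ta ch uq de) (al (c1 hf h3) (c2 hf h3) (pd df z1 z2 z3 z4 mn (cj mn)))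
      (m1 F) (m0 F)) ta ch hf d6) (gl lnn (uu lnn (tt lnn)))

end Pool.Agent.MP_6eaae3_al.EV
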