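import Pool.Agent.MP_6eaae3_al.EV.Spec

/-! Basic facts on curves, blocks and paths along a curve. -/

namespace Pool.Agent.MP_6eaae3_al.EV

open FreeGroup (of mk invRev IsReduced)
open Set Pool.Agent.MP_6eaae3_al.LT Pool.Agent.MP_6eaae3_al.LT.Path

variable {M V : Type}

theorem pt_true (y : M × Bool) : pt y true = rx y := rfl

theorem pt_ne_rx {y o : M × Bool} : rx o ≠ pt y false := fun e => by
  have e1 : o = y := by rw [← opp_opp o, show opp o = opp y from congrArg Prod.fst e, opp_opp]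
  have e2 : o.2 = !y.2 := congrArg Prod.snd e
  rw [e1] at e2
  simp at e2

/-- A letter whose cell is opposite to `y` is one of the two side letters. -/
theorem exists_pt {y : M × Bool} {a : Lt M} (h : a.1 = opp y) : ∃ e, a = pt y e := by
  obtain ⟨a, b⟩ := a
  cases h
  refine ⟨b == y.2, ?_⟩
  obtain ⟨μ, _ | _⟩ := y <;> cases b <;> rfl

theorem invRev_inv {L : Type} (l : List (L × Bool)) : invRev (invRev l) = l := FreeGroup.invRev_invRev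

theorem sing_inf {α : Type} {a : α} {l : List α} (h : a ∈ l) : [a] <:+: l := by
  obtain ⟨s, t, rfl⟩ := List.append_of_mem h
  exact ⟨s, t, by simp⟩

theorem Hs.inf {S : Set (FG M)} {k l} (h : Hs S l) (i : k <:+: l) : Hs S k :=
  let ⟨w, a, b⟩ := h; ⟨w, a, i.trans b⟩

theorem Hs.rev {S : Set (FG M)} {l} (h : Hs S l) : Hs S (invRev l) :=
  let ⟨w, a, b⟩ := h
  ⟨w⁻¹, by rw [inv_inv]; exact a.symm, by rw [Has, wd_inv]; exact inf_inv b⟩

theorem Hs.red {S : Set (FG M)} {l} (h : Hs S l) : IsReduced l :=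
  let ⟨_, _, b⟩ := h; red_inf (wd_red _) b

theorem invRev_ends {L : Type} (a b : L) (l : List (L × Bool)) :
    invRev ((a, false) :: l ++ [(b, true)]) = (b, false) :: invRev l ++ [(a, true)] := by
  simp [invRev]

namespace Sy

variable {m : V → V → ℕ} {n : ℕ} (Y : Sy m n M)

theorem ψ_mul (g h : Art m) (w) : Y.ψ (g * h) w = Y.ψ g (Y.ψ h w) := by rw [map_mul]; rfl

theorem ψ_one (w) : Y.ψ 1 w = w := by rw [map_one]; rfl

theorem ψ_inv (g : Art m) (w) : Y.ψ g⁻¹ (Y.ψ g w) = w := by rw [← ψ_mul, inv_mul_cancel, ψ_one]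

theorem inj (g : Art m) : Function.Injective (Y.ψ g) := Function.LeftInverse.injective (Y.ψ_inv g)

theorem im_mul (g h : Art m) (S) : Y.im (g * h) S = Y.im g (Y.im h S) := by
  simp only [im, image_image, ψ_mul]

theorem im_one (S) : Y.im 1 S = S := by simp only [im, ψ_one, image_id']

variable {Y}

theorem On.mono {X X' : Set V} {x} (h : Y.On X x) (e : X ⊆ X') : Y.On X' x :=
  let ⟨p, a, b⟩ := h; ⟨p, e a, b⟩

theorem on_iff {p x} (h : x ∈ Y.cl p) {X : Set V} : Y.On X x ↔ p.1 ∈ X ∧ p.2 < n :=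
  ⟨fun ⟨q, a, b, c⟩ => Y.uq q p x c h ▸ ⟨a, b⟩, fun a => ⟨p, a.1, a.2, h⟩⟩

/-- Two curves through one square cross there. -/
theorem cross {p q x} (h : x ∈ Y.cl p) (h' : opp x ∈ Y.cl q) :
    (Y.ad p q ∧ x = (Y.cr p q, false)) ∨ (Y.ad q p ∧ x = (Y.cr q p, true)) := by
  obtain ⟨μ, _ | _⟩ := x
  · obtain ⟨o, a, rfl⟩ := Y.bo μ q h'
    obtain rfl := Y.uq _ _ _ h (Y.crf _ _ a)
    exact Or.inl ⟨a, rfl⟩
  · obtain ⟨o, a, rfl⟩ := Y.bo μ p h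
    obtain rfl := Y.uq _ _ _ h' (Y.crf _ _ a)
    exact Or.inr ⟨a, rfl⟩

theorem cross_ne {p q x} (h : x ∈ Y.cl p) (h' : opp x ∈ Y.cl q) : p.1 ≠ q.1 :=
  (cross h h').elim (fun a => (Y.adn _ _ a.1).1) fun a => (Y.adn _ _ a.1).1.symm

theorem not_on_opp {p x} (h : x ∈ Y.cl p) : ¬ Y.On {p.1} (opp x) :=
  fun ⟨_, a, _, c⟩ => cross_ne h c a.symm

theorem not_on_mr (X p k) : ¬ Y.On X (opp (Y.mr p k, false)) := fun ⟨q, _, _, c⟩ => Y.mrt p k q c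

theorem ell_mem {p o} (h : o ∈ Y.cl p) : Y.ell o ∈ Fre {z : Lt M | z.1 ∈ Y.cl p} := by
  obtain ⟨l, l', e⟩ := List.append_of_mem h
  have a : ∀ x ∈ Y.cl p, ∀ b, of (x, b) ∈ Fre {z : Lt M | z.1 ∈ Y.cl p} := fun x hx b => of_mem_Fre hx
  have b : ∀ x ∈ Y.cl p, (ii x)⁻¹ * oo x ∈ Fre {z : Lt M | z.1 ∈ Y.cl p} :=
    fun x hx => mul_mem (inv_mem (a x hx _)) (a x hx _)
  rw [Y.el p l o l' e]
  exact mul_mem (mul_mem (mul_mem (a o h _) (pp_mem fun x hx => b x (by simp [e, hx])))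
    (pp_mem fun x hx => b x (by simp [e, hx]))) (inv_mem (a o h _))

theorem ell_C {X : Set V} {o} (h : Y.On X o) : Y.ell o ∈ Fre (Y.C X) :=
  let ⟨p, a, b, c⟩ := h; Fre.mono (fun z hz => show Y.On X z.1 from ⟨p, a, b, hz⟩) (ell_mem c)

theorem fix_own {p x} (h : x ∈ Y.cl p) (b) : Y.ψ (PresentedGroup.of p.1) (of (x, b)) = of (x, b) :=
  Y.fx _ _ fun q o a _ c e => cross_ne c (p := q) (q := p) ((show opp o = x from congrArg Prod.fst e) ▸ h) a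

theorem fix_ell {p o} (h : o ∈ Y.cl p) : Y.ψ (PresentedGroup.of p.1) (Y.ell o) = Y.ell o :=
  Fre.fix _ (fun z hz => fix_own hz z.2) (ell_mem h)

theorem mv_inv {p o} (a : p.2 < n) (h : o ∈ Y.cl p) :
    Y.ψ (PresentedGroup.of p.1)⁻¹ (of (rx o)) = (Y.ell o)⁻¹ * of (rx o) :=
  Y.inj (PresentedGroup.of p.1) (by
    rw [← ψ_mul, mul_inv_cancel, ψ_one, map_mul, map_inv, fix_ell h, Y.mv p o a h, inv_mul_cancel_left])

/-- The action of a generator and of its inverse on a letter. -/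
theorem gen_cases (a : V) (z : Lt M) :
    (Y.ψ (PresentedGroup.of a) (of z) = of z ∧ Y.ψ (PresentedGroup.of a)⁻¹ (of z) = of z) ∨
      ∃ o, Y.On {a} o ∧ z = rx o ∧ Y.ψ (PresentedGroup.of a) (of z) = Y.ell o * of z ∧
        Y.ψ (PresentedGroup.of a)⁻¹ (of z) = (Y.ell o)⁻¹ * of z := by
  by_cases h : ∃ (p : V × ℕ) (o : M × Bool), p.1 = a ∧ p.2 < n ∧ o ∈ Y.cl p ∧ rx o = z
  · obtain ⟨p, o, rfl, b, c, rfl⟩ := h
    exact Or.inr ⟨o, ⟨p, rfl, b, c⟩, rfl, Y.mv p o b c, mv_inv b c⟩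
  · have := Y.fx a z fun p o u v w e => h ⟨p, o, u, v, w, e⟩
    exact Or.inl ⟨this, by rw [← this, ψ_inv, this]⟩

theorem par_fix {X : Set V} {g z} (hg : g ∈ Par m X) (h : ∀ o, Y.On X o → rx o ≠ z) :
    Y.ψ g (of z) = of z :=
  par_ind (P := fun g => Y.ψ g (of z) = of z) (Y.ψ_one _) (fun g _ a ha ih => by
    rcases gen_cases (Y := Y) a z with e | ⟨o, u, v, -⟩
    · simp only [ψ_mul, e, ih, and_self]
    · exact (h o (u.mono (by simpa using ha)) v.symm).elim) hg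

theorem par_map {X : Set V} {D : Set (Lt M)} (hD : Y.C X ⊆ D) {g w} (hg : g ∈ Par m X)
    (hw : w ∈ Fre D) : Y.ψ g w ∈ Fre D :=
  par_ind (P := fun g => ∀ w ∈ Fre D, Y.ψ g w ∈ Fre D) (fun w h => by rwa [ψ_one]) (fun g _ a ha ih => by
    have : ∀ z ∈ D, Y.ψ (PresentedGroup.of a) (of z) ∈ Fre D ∧
        Y.ψ (PresentedGroup.of a)⁻¹ (of z) ∈ Fre D := fun z hz => by
      rcases gen_cases (Y := Y) a z with e | ⟨o, u, -, e⟩
      · simp only [e, of_mem_Fre hz, and_self]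
      · have := Fre.mono hD (ell_C (u.mono (by simpa using ha)))
        exact ⟨e.1 ▸ mul_mem this (of_mem_Fre hz), e.2 ▸ mul_mem (inv_mem this) (of_mem_Fre hz)⟩
    exact ⟨fun w h => by rw [ψ_mul]; exact ih _ (Fre.map_mem _ (fun z hz => (this z hz).1) h),
      fun w h => by rw [ψ_mul]; exact ih _ (Fre.map_mem _ (fun z hz => (this z hz).2) h)⟩) hg w hw

theorem lam_mem {X : Set V} {g} (hg : g ∈ Par m X) (z) : Y.lam g z ∈ Fre (Y.C X) :=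
  par_ind (P := fun g => Y.lam g z ∈ Fre (Y.C X)) (by simp [lam]) (fun g hg a ha ih => by
    rcases gen_cases (Y := Y) a z with e | ⟨o, u, -, e⟩
    · simpa only [lam, ψ_mul, e, and_self] using ih
    · have := par_map Subset.rfl hg (ell_C (Y := Y) (u.mono (by simpa using ha)))
      rw [lam, lam, ψ_mul, ψ_mul, e.1, e.2, map_mul, map_mul, map_inv, mul_assoc, mul_assoc]
      exact ⟨mul_mem this ih, mul_mem (inv_mem this) ih⟩) hg

theorem lam_one {X : Set V} {g z} (hg : g ∈ Par m X) (h : ∀ o, Y.On X o → rx o ≠ z) :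
    Y.lam g z = 1 := by rw [lam, par_fix hg h, mul_inv_cancel]

theorem lam_mul (g h : Art m) (z) : Y.lam (g * h) z = Y.ψ g (Y.lam h z) * Y.lam g z := by
  rw [lam, lam, lam, ψ_mul, map_mul, map_inv]; group

theorem lam_lx {X : Set V} {g} (hg : g ∈ Par m X) (y) : Y.lam g (pt y false) = 1 :=
  lam_one hg fun _ _ => pt_ne_rx

/-- The letters of a cell whose opposite cell is not coloured in `X` are fixed. -/
theorem fix_att {X : Set V} {g y} (hg : g ∈ Par m X) (h : ¬ Y.On X (opp y)) (b) :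
    Y.ψ g (of (y, b)) = of (y, b) :=
  par_fix hg fun o u e => h (by rwa [← show opp o = y from congrArg Prod.fst e, opp_opp])

theorem lam_pow {p o} (a : p.2 < n) (h : o ∈ Y.cl p) (k : ℤ) :
    Y.lam (PresentedGroup.of p.1 ^ k) (rx o) = Y.ell o ^ k := by
  rw [lam, mul_inv_eq_iff_eq_mul]
  induction k using Int.induction_on with
  | zero => rw [zpow_zero, zpow_zero, one_mul, ψ_one]
  | succ i ih =>
    rw [add_comm, zpow_one_add, ψ_mul, ih, map_mul, map_zpow, fix_ell h, Y.mv p o a h,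
      add_comm, zpow_add_one, mul_assoc]
  | pred i ih =>
    have f : Y.ψ (PresentedGroup.of p.1)⁻¹ (Y.ell o) = Y.ell o := by
      rw [← fix_ell h, ψ_inv, fix_ell h]
    rw [zpow_sub_one (Y.ell o), sub_eq_neg_add, zpow_add, zpow_neg_one, ψ_mul, ih, map_mul,
      map_zpow, f, mv_inv a h, mul_assoc]

theorem nodup (q) : (Y.cl q).Nodup := (Y.nd q).of_map

theorem fst_inj {q x y} (a : x ∈ Y.cl q) (b : y ∈ Y.cl q) (e : x.1 = y.1) : x = y :=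
  List.inj_on_of_nodup_map (Y.nd q) a b e

/-- Curves of commuting colours do not meet. -/
theorem cross_lab {p q x} (h : x ∈ Y.cl p) (h' : opp x ∈ Y.cl q) :
    m p.1 q.1 ≠ 2 ∨ m q.1 p.1 ≠ 2 :=
  (cross h h').imp (fun a => (Y.adn _ _ a.1).2) fun a => (Y.adn _ _ a.1).2

theorem sg_eq {q l y l'} (e : Y.cl q = l ++ y :: l') : Y.sg q y = pp l * (ii y)⁻¹ := by
  classical
  have nd := Y.nodup q
  rw [e] at nd
  have : ∀ x ∈ l, x ≠ y := fun x hx => (List.nodup_append.1 nd).2.2 x hx y (by simp)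
  rw [sg, e, List.takeWhile_append_of_pos (by simpa using this)]
  simp

theorem Rn_mul (q y y' y'') (a b : ℤ) : Y.Rn q y a y' * Y.Rn q y' b y'' = Y.Rn q y (a + b) y'' := by
  simp only [Rn, zpow_add]; group

theorem Rn_inv (q y y') (a : ℤ) : (Y.Rn q y a y')⁻¹ = Y.Rn q y' (-a) y := by
  simp only [Rn]; group

theorem Rn_self (q y) : Y.Rn q y 0 y = 1 := by simp [Rn]

theorem Rn_pow (q y) (a k : ℤ) : Y.Rn q y a y ^ k = Y.Rn q y (a * k) y := by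
  have := conj_zpow (i := k) (a := (Y.sg q y)⁻¹) (b := pp (Y.cl q) ^ a)
  rwa [inv_inv, ← zpow_mul] at this

theorem ell_Rn {q y} (h : y ∈ Y.cl q) : Y.ell y = Y.Rn q y 1 y := by
  obtain ⟨l, l', e⟩ := List.append_of_mem h
  rw [Y.el q l y l' e, Rn, sg_eq e, e, zpow_one, pp_append, pp_cons]; group

theorem ell_pow {q y} (h : y ∈ Y.cl q) (k : ℤ) : Y.ell y ^ k = Y.Rn q y k y := by
  rw [ell_Rn h, Rn_pow, one_mul]

theorem Rn_split {q y} (h : y ∈ Y.cl q) (k : ℤ) (y') : Y.Rn q y k y' = Y.ell y ^ k * Y.Rn q y 0 y' := by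
  rw [ell_pow h, Rn_mul, add_zero]

theorem Rn_adj {q y y'} (h : [y, y'] <:+: Y.cl q) : Y.Rn q y 0 y' = oo y * (ii y')⁻¹ := by
  obtain ⟨l, l', e⟩ := h
  rw [Rn, sg_eq (l := l) (l' := y' :: l') (by simp [← e]),
    sg_eq (l := l ++ [y]) (l' := l') (by simp [← e]), pp_append, pp_cons, pp_nil]
  group

theorem Nx.of_inf {q y y'} (h : [y, y'] <:+: Y.cl q) : Y.Nx y y' :=
  ⟨q, h.trans (List.prefix_append _ _).isInfix⟩

theorem Nx.cases {x y} (h : Y.Nx x y) : ∃ q, x ∈ Y.cl q ∧ y ∈ Y.cl q ∧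
    ([x, y] <:+: Y.cl q ∨ ∃ l l', Y.cl q = l ++ [x] ∧ Y.cl q = y :: l') := by
  obtain ⟨q, s, t, e⟩ := h
  rcases hq : Y.cl q with _ | ⟨a, l⟩
  · simp [hq] at e
  rw [hq, List.take_succ_cons, List.take_zero] at e
  rcases List.eq_nil_or_concat t with rfl | ⟨t, b, rfl⟩
  · have := List.append_inj' (s₁ := s ++ [x]) (t₁ := [y]) (s₂ := a :: l) (t₂ := [a])
      (by simpa using e) rfl
    obtain rfl : y = a := by simpa using this.2
    exact ⟨q, by rw [hq, ← this.1]; simp, by simp [hq], Or.inr ⟨s, l, by rw [hq, this.1], hq⟩⟩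
  · have := List.append_inj' (s₁ := s ++ [x, y] ++ t) (t₁ := [b]) (s₂ := a :: l) (t₂ := [a])
      (by simpa using e) rfl
    exact ⟨q, by rw [hq, ← this.1]; simp, by rw [hq, ← this.1]; simp,
      Or.inl ⟨s, t, by rw [hq, this.1]⟩⟩

theorem Nx.rn {x y q} (h : Y.Nx x y) (hx : x ∈ Y.cl q ∨ y ∈ Y.cl q) :
    x ∈ Y.cl q ∧ y ∈ Y.cl q ∧ ∃ k, oo x * (ii y)⁻¹ = Y.Rn q x k y := by
  obtain ⟨q', a, b, c⟩ := h.cases
  obtain rfl : q' = q := hx.elim (Y.uq _ _ _ a) (Y.uq _ _ _ b)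
  refine ⟨a, b, c.elim (fun c => ⟨0, (Rn_adj c).symm⟩) fun ⟨l, l', e, e'⟩ => ⟨1, ?_⟩⟩
  rw [Rn, sg_eq e, sg_eq (l := []) e', e, zpow_one, pp_append, pp_cons, pp_nil]; group

theorem Rn_mem {q y y'} (h : y ∈ Y.cl q) (h' : y' ∈ Y.cl q) (k : ℤ) :
    Y.Rn q y k y' ∈ Fre {z : Lt M | z.1 ∈ Y.cl q} := by
  have a : ∀ x ∈ Y.cl q, ∀ b, of (x, b) ∈ Fre {z : Lt M | z.1 ∈ Y.cl q} := fun x hx b => of_mem_Fre hx
  have b : ∀ l : List (M × Bool), (∀ x ∈ l, x ∈ Y.cl q) → pp l ∈ Fre {z : Lt M | z.1 ∈ Y.cl q} :=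
    fun l hl => pp_mem fun x hx => mul_mem (inv_mem (a x (hl x hx) _)) (a x (hl x hx) _)
  have c : ∀ x ∈ Y.cl q, Y.sg q x ∈ Fre {z : Lt M | z.1 ∈ Y.cl q} := fun x hx =>
    mul_mem (b _ fun _ u => (List.takeWhile_sublist _).subset u) (inv_mem (a x hx _))
  exact mul_mem (mul_mem (inv_mem (c y h)) (zpow_mem (b _ fun _ u => u) k)) (c y' h')

theorem Rn_C {X : Set V} {q y y'} (a : q.1 ∈ X) (b : q.2 < n) (h : y ∈ Y.cl q) (h' : y' ∈ Y.cl q)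
    (k : ℤ) : Y.Rn q y k y' ∈ Fre (Y.C X) :=
  Fre.mono (fun z hz => show Y.On X z.1 from ⟨q, a, b, hz⟩) (Rn_mem h h' k)

theorem Sg.mem {q B z y} (h : Y.Sg q B z) (a : y ∈ B) : y ∈ Y.cl q := h.1.subset a

theorem Sg.last {q B z} (h : Y.Sg q B z) : z ∈ B := by
  rcases h.2 with rfl | ⟨_, rfl⟩ <;> simp

theorem Sg.ne {q z₀ z z'} (h : Y.Sg q [z₀, z] z') : z₀ ≠ z := by
  simpa using (Y.nodup q).sublist h.1.sublist

/-- The short path between two cells of a block. -/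
theorem Sg.rn {q B z y y'} (h : Y.Sg q B z) (a : y ∈ B) (b : y' ∈ B) : Y.Rn q y 0 y' = 1 ∧ y = y' ∨
    (B = [y, y'] ∧ y' = z ∧ Y.Rn q y 0 y' = oo y * (ii y')⁻¹) ∨
      (B = [y', y] ∧ y = z ∧ Y.Rn q y 0 y' = ii y * (oo y')⁻¹) := by
  rcases h.2 with rfl | ⟨z₀, rfl⟩
  · rw [List.mem_singleton.1 a, List.mem_singleton.1 b]
    exact Or.inl ⟨Rn_self _ _, rfl⟩
  rcases List.mem_pair.1 a with rfl | rfl <;> rcases List.mem_pair.1 b with rfl | rfl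
  · exact Or.inl ⟨Rn_self _ _, rfl⟩
  · exact Or.inr (Or.inl ⟨rfl, rfl, Rn_adj h.1⟩)
  · refine Or.inr (Or.inr ⟨rfl, rfl, ?_⟩)
    rw [← neg_zero, ← Rn_inv, Rn_adj h.1, mul_inv_rev, inv_inv]
  · exact Or.inl ⟨Rn_self _ _, rfl⟩

theorem Pg.symm {S q y e k y' e'} (h : Y.Pg S q y e k y' e') : Y.Pg S q y' e' (-k) y e := by
  have := Hs.rev h
  rwa [invRev_ends, ← wd_inv, Rn_inv] at this

theorem Bk.uq {q r r' y} (h : Y.Bk q r y) (h' : Y.Bk q r' y) : r = r' := by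
  rcases r with x | k <;> rcases r' with x' | k'
  · obtain ⟨p, a, -, b⟩ := h.2
    obtain ⟨p', a', -, b'⟩ := h'.2
    rw [← show p.1 = x from a, ← show p'.1 = x' from a', Y.uq _ _ _ b b']
  · exact (not_on_mr _ _ _ ((show y = _ from h'.2) ▸ h.2)).elim
  · exact (not_on_mr _ _ _ ((show y = _ from h.2) ▸ h'.2)).elim
  · have e : Y.mr q k = Y.mr q k' := congrArg Prod.fst ((show y = _ from h.2).symm.trans h'.2)
    cases k <;> cases k'
    exacts [rfl, (Y.mrn _ e.symm).elim, (Y.mrn _ e).elim, rfl]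

/-- The cells of a block whose label is not in `X` are free for `X`. -/
theorem Bk.att {q r y} {X : Set V} (h : Y.Bk q r y) (hr : ∀ a ∈ X, r ≠ Sum.inl a) :
    ¬ Y.On X (opp y) := by
  rcases r with x | k
  · obtain ⟨p, a, -, b⟩ := h.2
    exact fun u => hr _ ((on_iff b).1 u).1 (by rw [show p.1 = x from a])
  · rw [show y = _ from h.2]; exact not_on_mr _ _ _

theorem bl_mr (q k) : Y.Bl q (Sum.inr k) [(Y.mr q k, false)] :=
  ⟨⟨_, sing_inf (Y.mrf q k), Or.inl rfl⟩, fun y => by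
    simp only [List.mem_singleton, Bk, Sum.elim_inr]
    exact ⟨fun e => ⟨e ▸ Y.mrf q k, e⟩, fun e => e.2⟩⟩

variable {X : Set V} {N k : ℕ} {c : ℕ → V × ℕ}

theorem opp_up (c : ℕ → V × ℕ) (k : ℕ) : opp (Y.up c k) = Y.dn c (k + 1) := rfl

theorem opp_dn (c : ℕ → V × ℕ) (k : ℕ) : opp (Y.dn c (k + 1)) = Y.up c k := rfl

theorem Cn.upm (h : Y.Cn X N c) (h1 : 1 ≤ k) (h2 : k < N) : Y.up c k ∈ Y.cl (c k) :=
  Y.crf _ _ (h.adj k h1 h2)

theorem Cn.dnm (h : Y.Cn X N c) (h1 : 1 < k) (h2 : k ≤ N) : Y.dn c k ∈ Y.cl (c k) := by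
  obtain ⟨k, rfl⟩ : ∃ k', k = k' + 1 := ⟨k - 1, by omega⟩
  exact Y.crt _ _ (h.adj k (by omega) (by omega))

theorem Cn.on (h : Y.Cn X N c) (h1 : 1 ≤ k) (h2 : k ≤ N) {x} (a : x ∈ Y.cl (c k)) : Y.On X x :=
  ⟨c k, h.mem k, h.lt k h1 h2, a⟩

theorem Cn.upo (h : Y.Cn X N c) (e : k < N) : Y.On X (opp (Y.up c k)) ∨ k = 0 := by
  by_cases a : k = 0
  exacts [Or.inr a, Or.inl (h.on (k := k + 1) (by omega) e (h.dnm (k := k + 1) (by omega) e))]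

theorem Cn.dno (h : Y.Cn X N c) (e : 1 < k) (h2 : k ≤ N) : Y.On X (opp (Y.dn c k)) := by
  obtain ⟨k, rfl⟩ : ∃ k', k = k' + 1 := ⟨k - 1, by omega⟩
  exact h.on (k := k) (by omega) (by omega) (h.upm (by omega) (by omega))

/-- The cells of a curve of the chain that cross other curves of the chain. -/
theorem Cn.dec (h : Y.Cn X N c) (h1 : 1 ≤ k) (h2 : k ≤ N) : ∃ B, B <:+: Y.cl (c k) ∧
    (∀ x, x ∈ B ↔ x ∈ Y.cl (c k) ∧ Y.On X (opp x)) ∧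
    ((1 < k ∧ k < N ∧ B = [Y.dn c k, Y.up c k]) ∨ (k = 1 ∧ B = [Y.up c k]) ∨
      (k = N ∧ B = [Y.dn c k])) := by
  have h0 := h.two
  obtain ⟨B, e, hB⟩ : ∃ B, B <:+: Y.cl (c k) ∧
      ((1 < k ∧ k < N ∧ B = [Y.dn c k, Y.up c k]) ∨ (k = 1 ∧ B = [Y.up c k]) ∨
        (k = N ∧ B = [Y.dn c k])) := by
    by_cases a : k = 1
    · exact ⟨_, sing_inf (h.upm h1 (by omega)), Or.inr (Or.inl ⟨a, rfl⟩)⟩
    by_cases b : k = N
    · exact ⟨_, sing_inf (h.dnm (by omega) h2), Or.inr (Or.inr ⟨b, rfl⟩)⟩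
    obtain ⟨k, rfl⟩ : ∃ k', k = k' + 1 := ⟨k - 1, by omega⟩
    obtain ⟨l, l', e⟩ := Y.adj _ _ _ (h.adj k (by omega) (by omega))
      (h.adj (k + 1) (by omega) (by omega)) (h.alt k)
    exact ⟨_, ⟨l, l', by simpa [up, dn] using e.symm⟩, Or.inl ⟨by omega, by omega, rfl⟩⟩
  refine ⟨B, e, fun x => ⟨fun a => ⟨e.subset a, ?_⟩, fun a => ?_⟩, hB⟩
  · rcases hB with ⟨b1, b2, rfl⟩ | ⟨b1, rfl⟩ | ⟨b1, rfl⟩
    · rcases List.mem_pair.1 a with rfl | rfl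
      exacts [h.dno b1 h2, (h.upo b2).resolve_right (by omega)]
    · rw [List.mem_singleton.1 a]; exact (h.upo (by omega)).resolve_right (by omega)
    · rw [List.mem_singleton.1 a]; exact h.dno (by omega) h2
  · rcases h.cell k h1 h2 x a.1 a.2 with ⟨b, rfl⟩ | ⟨b, rfl⟩ <;>
      rcases hB with ⟨b1, b2, rfl⟩ | ⟨b1, rfl⟩ | ⟨b1, rfl⟩ <;> first | omega | simp

/-- The same as a block. -/
theorem Cn.bl {γ γ' : V} (h : Y.Cn X N c) (hX : X = {γ, γ'} ∨ X = {γ', γ}) (h1 : 1 ≤ k) (h2 : k ≤ N)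
    (e : (c k).1 = γ) : ∃ B, Y.Bl (c k) (Sum.inl γ') B ∧
    ((1 < k ∧ k < N ∧ B = [Y.dn c k, Y.up c k]) ∨ (k = 1 ∧ B = [Y.up c k]) ∨
      (k = N ∧ B = [Y.dn c k])) := by
  obtain ⟨B, a, b, d⟩ := h.dec h1 h2
  have hX' : ∀ v, v ∈ X ↔ v = γ ∨ v = γ' := fun v => by rcases hX with rfl | rfl <;> simp [or_comm]
  refine ⟨B, ⟨?_, fun y => (b y).trans (and_congr_right fun u => ⟨fun ⟨p, v, w, x⟩ =>
    ⟨p, ((hX' _).1 v).resolve_left fun f => cross_ne u x (e.trans f.symm), w, x⟩,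
    fun v => On.mono v fun _ w => (hX' _).2 (Or.inr w)⟩)⟩, d⟩
  rcases d with ⟨-, -, rfl⟩ | ⟨-, rfl⟩ | ⟨-, rfl⟩
  exacts [⟨_, a, Or.inr ⟨_, rfl⟩⟩, ⟨_, a, Or.inl rfl⟩, ⟨_, a, Or.inl rfl⟩]

/-- Blocks exist. -/
theorem exists_bl {kk : ℕ} {Λ : Set V} (ev : Ev m Λ) (ch : Y.Chs kk Λ) {h : V} (hh : h ∈ Λ) {r}
    (ok : Ok m Λ h r) {i} (hi : i < n) : ∃ B, Y.Bl (h, i) r B := by
  rcases r with x | k
  · obtain ⟨a, b, d⟩ := ok x rfl
    obtain ⟨c, p, j, cn, -, j1, j2, e, -⟩ := ch x a h hh b.symm (ev.1 h x ▸ d) i hi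
    obtain ⟨B, u, -⟩ := cn.bl (Or.inr rfl) j1 j2 (by rw [e])
    exact ⟨B, e ▸ u⟩
  · exact ⟨_, bl_mr _ _⟩

end Sy

theorem Ev.odd {m : V → V → ℕ} {Λ : Set V} (ev : Ev m Λ) {s t} (hs : s ∈ Λ) (ht : t ∈ Λ) (ne : s ≠ t)
    (h : m s t ≠ 2) : 3 ≤ m s t - 1 ∧ (m s t - 1) % 2 = 1 := by
  have := ev.2 s hs t ht ne
  omega

end Pool.Agent.MP_6eaae3_al.EV
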