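import Pool.Agent.MP_6eaae3_al.EV.Basic

section PartF2

/-! Images of subwords with outer end letters. -/

namespace Pool.Agent.MP_6eaae3_al.EV

open FreeGroup (of mk invRev IsReduced)
open Set Pool.Agent.MP_6eaae3_al.LT Pool.Agent.MP_6eaae3_al.LT.Path

namespace F2

variable {L : Type}

theorem glue {p r : List (L × Bool)} {g : L × Bool} (h : IsReduced (p ++ [g]))
    (h' : IsReduced (g :: r)) : IsReduced (p ++ g :: r) := List.isChain_split.2 ⟨h, h'⟩

theorem red_inv {l : List (L × Bool)} (h : IsReduced l) : IsReduced (invRev l) := by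
  rw [← wd_mk h, ← wd_inv]; exact wd_red _

theorem pre_eq (φ : FreeGroup L →* FreeGroup L) (g : L × Bool) :
    Fg.pre φ g = (Fg.post φ (g.1, !g.2))⁻¹ := by
  obtain ⟨z, _ | _⟩ := g <;> simp [Fg.pre, Fg.post]

theorem step {C : Set L} {φ : FreeGroup L →* FreeGroup L} (hi : Function.Injective φ)
    (h1 : ∀ z ∈ C, φ (of z) ∈ Fre C) (h2 : ∀ z ∉ C, φ (of z) * (of z)⁻¹ ∈ Fre C)
    {l : List (L × Bool)} {g : L × Bool} (hr : IsReduced (l ++ [g])) (hg : g.1 ∉ C) :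
    ∃ u p, φ (mk (l ++ [g])) = u * Fg.post φ g ∧ wd u = p ++ [g] := by
  let _ : DecidableEq L := fun _ _ => Classical.propDecidable _
  obtain ⟨u, e, hu⟩ := Fg.step hi h2 (Fg.inv hi h1 h2 l (red_inf hr ⟨[], [g], by simp⟩)) hr hg
  obtain ⟨p, hp⟩ := List.getLast?_eq_some_iff.1 hu
  exact ⟨u, p, e, hp⟩

theorem fix {φ : FreeGroup L →* FreeGroup L} {l : List (L × Bool)}
    (h : ∀ x ∈ l, φ (of x.1) = of x.1) : φ (mk l) = mk l := by
  induction l with
  | nil => rw [← FreeGroup.one_eq_mk, map_one]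
  | cons x l ih =>
    rw [← List.singleton_append, ← FreeGroup.mul_mk, map_mul,
      ih fun y hy => h y (List.mem_cons_of_mem _ hy), Fg.img]
    have := h x List.mem_cons_self
    simp [Fg.pre, Fg.post, this]

theorem mid {φ : FreeGroup L →* FreeGroup L} {a b : L × Bool} {l : List (L × Bool)}
    (h : ∀ x ∈ a :: l ++ [b], φ (of x.1) = of x.1) (hr : IsReduced (a :: l ++ [b])) :
    wd (Fg.post φ a * φ (mk l) * Fg.pre φ b) = l := by
  have e1 : Fg.post φ a = 1 := by simp [Fg.post, h a (by simp)]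
  have e2 : Fg.pre φ b = 1 := by simp [Fg.pre, h b (by simp)]
  rw [e1, e2, one_mul, mul_one, fix fun x hx => h x (by simp [hx]),
    wd_mk (red_inf hr ⟨[a], [b], by simp⟩)]

/-- An inner word between two outer letters that do not cancel. -/
theorem red_ends {C : Set L} {a b : L} {c : FreeGroup L} (ha : a ∉ C) (hb : b ∉ C) (hc : c ∈ Fre C)
    (h : c = 1 → a ≠ b) : IsReduced ((a, false) :: wd c ++ [(b, true)]) := by
  have hm := wd_mem.1 hc
  have hr := wd_red c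
  rcases e : wd c with _ | ⟨x, r⟩
  · have : c = 1 := by rw [← mk_wd c, e]; rfl
    exact FreeGroup.isReduced_cons_cons.2 ⟨fun k => absurd k (h this), List.isChain_singleton _⟩
  · rw [e] at hm hr
    refine FreeGroup.isReduced_cons_cons.2 ⟨fun k => absurd (hm x List.mem_cons_self) ?_, ?_⟩
    · rw [← k]; exact ha
    · obtain ⟨p, y, e'⟩ : ∃ p y, x :: r = p ++ [y] :=
        ⟨_, _, (List.dropLast_append_getLast (List.cons_ne_nil x r)).symm⟩
      change IsReduced ((x :: r) ++ [(b, true)])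
      rw [e'] at hm hr ⊢
      rw [List.append_assoc, List.singleton_append]
      refine glue hr (FreeGroup.isReduced_cons_cons.2 ⟨fun k => absurd (hm y (by simp)) ?_,
        List.isChain_singleton _⟩)
      rw [k]; exact hb

end F2

theorem f3 : S_F3 := by
  intro L C φ hi h1 h2 w g g' l hg hg' ⟨s, t, e⟩ hm
  have hr : IsReduced (s ++ (g :: l ++ [g']) ++ t) := e ▸ wd_red w
  have r2 : IsReduced (g' :: t) := red_inf hr ⟨s ++ g :: l, [], by simp⟩
  have e2 : invRev (g' :: t) = invRev t ++ [(g'.1, !g'.2)] := by simp [invRev]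
  obtain ⟨u, p, eu, hu⟩ := F2.step hi h1 h2 (l := s) (red_inf hr ⟨[], l ++ g' :: t, by simp⟩) hg
  obtain ⟨v, q, ev, hv⟩ := F2.step hi h1 h2 (g := (g'.1, !g'.2)) (e2 ▸ F2.red_inv r2) hg'
  have hv' : wd v⁻¹ = g' :: invRev q := by rw [wd_inv, hv]; simp [invRev]
  generalize hc : Fg.post φ g * φ (mk l) * Fg.pre φ g' = c at hm ⊢
  have ew : φ w = u * c * v⁻¹ := by
    have : w = mk (s ++ [g]) * mk l * (mk (invRev t ++ [(g'.1, !g'.2)]))⁻¹ := by
      rw [← e2, FreeGroup.inv_mk, FreeGroup.invRev_invRev, FreeGroup.mul_mk, FreeGroup.mul_mk,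
        ← mk_wd w, ← e]
      simp
    rw [this, map_mul, map_mul, map_inv, eu, ev, ← hc, F2.pre_eq]
    group
  have red : IsReduced (p ++ g :: (wd c ++ g' :: invRev q)) :=
    F2.glue (hu ▸ wd_red u) (F2.glue (p := g :: wd c) hm (hv' ▸ wd_red v⁻¹))
  refine ⟨p, invRev q, ?_⟩
  rw [ew, ← mk_wd u, ← mk_wd v⁻¹, hu, hv']
  conv_rhs => rw [← mk_wd c]
  rw [FreeGroup.mul_mk, FreeGroup.mul_mk, wd_mk (by simpa using red)]
  simp

theorem f2 (h : S_F3) : S_F2 := by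
  intro V M m n Y X g S hg
  have key : ∀ (a b : Lt M × Bool) (l : List (Lt M × Bool)), a.1 ∉ Y.C X → b.1 ∉ Y.C X →
      Hs S (a :: l ++ [b]) →
      IsReduced (a :: wd (Fg.post (Y.ψ g) a * Y.ψ g (mk l) * Fg.pre (Y.ψ g) b) ++ [b]) →
      Hs (Y.im g S) (a :: wd (Fg.post (Y.ψ g) a * Y.ψ g (mk l) * Fg.pre (Y.ψ g) b) ++ [b]) :=
    fun a b l ha hb ⟨w, hw, k⟩ hr => ⟨Y.ψ g w, hw.imp (fun e => ⟨w, e, rfl⟩)
      fun e => ⟨w⁻¹, e, map_inv _ _⟩, h _ (Y.C X) (Y.ψ g) (Y.inj g)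
        (fun _ hz => Sy.par_map Subset.rfl hg (of_mem_Fre hz)) (fun z _ => Sy.lam_mem hg z)
        w a b l ha hb k hr⟩
  refine ⟨fun a b w ha hb hw hs => ?_, fun a b l ha hb hf hs => ?_,
    fun a b l ha hb hs hr => key (a, false) (b, true) l ha hb hs hr⟩
  · have := key (a, false) (b, true) (wd w) ha hb hs
    rw [mk_wd] at this
    refine this (F2.red_ends ha hb (mul_mem (mul_mem (inv_mem (Sy.lam_mem hg a))
      (Sy.par_map Subset.rfl hg hw)) (Sy.lam_mem hg b)) fun e k => ?_)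
    subst k
    have e1 : (Y.lam g a)⁻¹ * Y.ψ g w * Y.lam g a = 1 := e
    have e2 : Y.ψ g w = Y.ψ g 1 := by
      rw [map_one]
      calc Y.ψ g w = Y.lam g a * ((Y.lam g a)⁻¹ * Y.ψ g w * Y.lam g a) * (Y.lam g a)⁻¹ := by group
        _ = 1 := by rw [e1]; group
    have := hs.red
    rw [Y.inj g e2, wd_one] at this
    exact absurd ((FreeGroup.isReduced_cons_cons.1 this).1 rfl) (by simp)
  · have e : wd (Fg.post (Y.ψ g) a * Y.ψ g (mk l) * Fg.pre (Y.ψ g) b) = l :=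
      F2.mid (φ := Y.ψ g) hf hs.red
    have := key a b l ha hb hs
    rw [e] at this
    exact this hs.red

end Pool.Agent.MP_6eaae3_al.EV

end PartF2

section PartPt

/-! Edge paths are closed under reduction, products, inverses and the action. -/

namespace Pool.Agent.MP_6eaae3_al.EV

open FreeGroup (of mk invRev IsReduced)
open Set Pool.Agent.MP_6eaae3_al.LT Pool.Agent.MP_6eaae3_al.LT.Path

namespace Pt

theorem split_uq {α : Type} {x : α} : ∀ {s s' t t' : List α}, (s ++ x :: t).Nodup →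
    s ++ x :: t = s' ++ x :: t' → s = s' ∧ t = t'
  | [], [], _, _, _, e => ⟨rfl, by simpa using e⟩
  | [], a :: s', t, t', h, e => by
    obtain ⟨rfl, rfl⟩ : x = a ∧ t = s' ++ x :: t' := by simpa using e
    simp at h
  | a :: s, [], t, t', h, e => by
    obtain ⟨rfl, -⟩ : a = x ∧ s ++ x :: t = t' := by simpa using e
    simp at h
  | a :: s, b :: s', t, t', h, e => by
    obtain ⟨rfl, f⟩ : a = b ∧ s ++ x :: t = s' ++ x :: t' := by simpa using e
    obtain ⟨rfl, rfl⟩ := split_uq (List.nodup_cons.1 h).2 f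
    exact ⟨rfl, rfl⟩

variable {M V : Type} {m : V → V → ℕ} {n : ℕ} {Y : Sy m n M}

theorem nx_right {x y y'} (h : Y.Nx x y) (h' : Y.Nx x y') : y = y' := by
  obtain ⟨q, a, -, c⟩ := h.cases
  obtain ⟨q', a', -, c'⟩ := h'.cases
  obtain rfl := Y.uq _ _ _ a a'
  have nd := Sy.nodup (Y := Y) q
  rcases c with ⟨s, t, e⟩ | ⟨l, r, e, f⟩ <;> rcases c' with ⟨s', t', e'⟩ | ⟨l', r', e', f'⟩
  · have := (split_uq (s := s) (s' := s') (x := x) (t := y :: t) (t' := y' :: t')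
      (by simpa [← e] using nd) (by simpa using e.trans e'.symm)).2
    exact (List.cons.inj this).1
  · have := (split_uq (s := s) (s' := l') (x := x) (t := y :: t) (t' := [])
      (by simpa [← e] using nd) (by simpa using e.trans e')).2
    cases this
  · have := (split_uq (s := s') (s' := l) (x := x) (t := y' :: t') (t' := [])
      (by simpa [← e'] using nd) (by simpa using e'.trans e)).2
    cases this
  · exact (List.cons.inj (f.symm.trans f')).1

theorem nx_left {x x' y} (h : Y.Nx x y) (h' : Y.Nx x' y) : x = x' := by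
  obtain ⟨q, -, a, c⟩ := h.cases
  obtain ⟨q', -, a', c'⟩ := h'.cases
  obtain rfl := Y.uq _ _ _ a a'
  have nd := Sy.nodup (Y := Y) q
  rcases c with ⟨s, t, e⟩ | ⟨l, r, e, f⟩ <;> rcases c' with ⟨s', t', e'⟩ | ⟨l', r', e', f'⟩
  · have := (split_uq (s := s ++ [x]) (s' := s' ++ [x']) (x := y) (t := t) (t' := t')
      (by simpa [← e] using nd) (by simpa using e.trans e'.symm)).1
    simpa using (List.append_inj' this rfl).2
  · have := (split_uq (s := s ++ [x]) (s' := []) (x := y) (t := t) (t' := r')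
      (by simpa [← e] using nd) (by simpa using e.trans f')).1
    simp at this
  · have := (split_uq (s := s' ++ [x']) (s' := []) (x := y) (t := t') (t' := r)
      (by simpa [← e'] using nd) (by simpa using e'.trans f)).1
    simp at this
  · simpa using (List.append_inj' (e.symm.trans e') rfl).2

theorem ed_symm {a b} (h : Y.Ed a b) : Y.Ed b a := by
  rcases h with h | ⟨u, v, w⟩ | ⟨u, v, w⟩
  exacts [Or.inl h.symm, Or.inr (Or.inr ⟨v, u, w⟩), Or.inr (Or.inl ⟨v, u, w⟩)]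

theorem ed_trans {a b c} (h : Y.Ed a b) (h' : Y.Ed b c) : Y.Ed a c := by
  rcases h with rfl | ⟨u, v, w⟩ | ⟨u, v, w⟩
  · exact h'
  · rcases h' with rfl | ⟨u', -, -⟩ | ⟨-, v', w'⟩
    · exact Or.inr (Or.inl ⟨u, v, w⟩)
    · rw [v] at u'; cases u'
    · exact Or.inl (Prod.ext (nx_left w w') (u.trans v'.symm))
  · rcases h' with rfl | ⟨-, v', w'⟩ | ⟨u', -, -⟩
    · exact Or.inr (Or.inr ⟨u, v, w⟩)
    · exact Or.inl (Prod.ext (nx_right w w') (u.trans v'.symm))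
    · rw [v] at u'; cases u'

theorem inv2 {μ ν} {a b : Lt M × Bool} {l} (h : Y.Pth μ (a :: b :: l) ν) :
    a.2 = true ∧ b.2 = false ∧ Y.Ed a.1 b.1 ∧ μ = a.1.1.1 ∧ Y.Pth b.1.1.1 l ν := by
  cases h with
  | cons e h => exact ⟨rfl, rfl, e, rfl, h⟩

theorem one {μ ν} {a : Lt M × Bool} (h : Y.Pth μ [a] ν) : False := by cases h

theorem mk2 {μ ν} {a b : Lt M × Bool} {l} (h1 : a.2 = true) (h2 : b.2 = false) (e : Y.Ed a.1 b.1)
    (f : μ = a.1.1.1) (h : Y.Pth b.1.1.1 l ν) : Y.Pth μ (a :: b :: l) ν := by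
  obtain ⟨a, _⟩ := a
  obtain ⟨b, _⟩ := b
  cases h1
  cases h2
  cases f
  exact Sy.Pth.cons e h

theorem del {ν} : ∀ (l l' : List (Lt M × Bool)) (x y : Lt M × Bool) (μ : M), x.1 = y.1 →
    Y.Pth μ (l ++ x :: y :: l') ν → Y.Pth μ (l ++ l') ν
  | [], _, _, _, _, e, h => by
    have h1 := inv2 h
    rw [h1.2.2.2.1, e]
    exact h1.2.2.2.2
  | [_], [], _, _, _, _, h => (one (inv2 h).2.2.2.2).elim
  | [_], _ :: _, _, _, _, e, h => by
    have h1 := inv2 h
    have h2 := inv2 h1.2.2.2.2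
    exact mk2 h1.1 h2.2.1 (ed_trans h1.2.2.1 (e ▸ h2.2.2.1)) h1.2.2.2.1 h2.2.2.2.2
  | _ :: _ :: l, l', x, y, _, e, h => by
    have h1 := inv2 h
    exact mk2 h1.1 h1.2.1 h1.2.2.1 h1.2.2.2.1 (del l l' x y _ e h1.2.2.2.2)

theorem red {μ ν} {l l' : List (Lt M × Bool)} (r : FreeGroup.Red l l') (h : Y.Pth μ l ν) :
    Y.Pth μ l' ν := by
  induction r with
  | refl => exact h
  | tail _ s ih =>
    cases s with
    | not => exact del _ _ _ _ _ (by rfl) ih

theorem nf {μ l ν} (h : Y.Pth μ l ν) : Y.Pth μ (wd (mk l)) ν := red (red_wd l) h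

theorem app {μ l ν l' ρ} (h : Y.Pth μ l ν) (h' : Y.Pth ν l' ρ) : Y.Pth μ (l ++ l') ρ := by
  induction h with
  | nil => exact h'
  | cons e _ ih => exact Sy.Pth.cons e (ih h')

theorem mul {μ ν ρ u w} (h : Y.Pth μ (wd u) ν) (h' : Y.Pth ν (wd w) ρ) :
    Y.Pth μ (wd (u * w)) ρ := by
  have := nf (app h h')
  rwa [← FreeGroup.mul_mk, mk_wd, mk_wd] at this

theorem rev {μ l ν} (h : Y.Pth μ l ν) : Y.Pth ν (invRev l) μ := by
  induction h with
  | nil μ => exact Sy.Pth.nil μ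
  | @cons a b l ν e _ ih =>
    have : invRev ((a, true) :: (b, false) :: l) = invRev l ++ [(b, true), (a, false)] := by
      simp [invRev]
    rw [this]
    exact app ih (Sy.Pth.cons (ed_symm e) (Sy.Pth.nil _))

theorem inv {μ ν w} (h : Y.Pth μ (wd w) ν) : Y.Pth ν (wd w⁻¹) μ := by
  rw [wd_inv]; exact rev h

theorem unit (μ) : Y.Pth μ (wd 1) μ := Sy.Pth.nil μ

theorem edge {a b} (e : Y.Ed a b) : Y.Pth a.1.1 (wd (of a * (of b)⁻¹)) b.1.1 :=
  nf (Sy.Pth.cons e (Sy.Pth.nil _))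

theorem step {x y} (e : Y.Nx x y) : Y.Pth x.1 (wd (oo x * (ii y)⁻¹)) y.1 :=
  edge (a := (x, true)) (b := (y, false)) (Or.inr (Or.inl ⟨rfl, rfl, e⟩))

theorem zp {μ w} (h : Y.Pth μ (wd w) μ) (k : ℤ) : Y.Pth μ (wd (w ^ k)) μ := by
  induction k using Int.induction_on with
  | zero => rw [zpow_zero]; exact unit μ
  | succ i ih => rw [zpow_add_one]; exact mul ih h
  | pred i ih => rw [zpow_sub_one]; exact mul ih (inv h)

theorem along {q} : ∀ (t s : List (M × Bool)) (x : M × Bool), Y.cl q = s ++ x :: t →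
    ∀ y ∈ x :: t, Y.Pth x.1 (wd (Y.Rn q x 0 y)) y.1
  | [], _, x, _, y, hy => by
    rw [List.mem_singleton.1 hy, Sy.Rn_self]; exact unit _
  | z :: t, s, x, e, y, hy => by
    rcases List.mem_cons.1 hy with rfl | hy
    · rw [Sy.Rn_self]; exact unit _
    have i : [x, z] <:+: Y.cl q := ⟨s, t, by simp [e]⟩
    have := mul (step (Sy.Nx.of_inf i)) (along (q := q) t (s ++ [x]) z (by simp [e]) y hy)
    rwa [← Sy.Rn_adj i, Sy.Rn_mul, add_zero] at this

theorem rn0 {q y y'} (h : y ∈ Y.cl q) (h' : y' ∈ Y.cl q) : Y.Pth y.1 (wd (Y.Rn q y 0 y')) y'.1 := by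
  obtain ⟨x, t, e⟩ := List.exists_cons_of_ne_nil (List.ne_nil_of_mem h)
  have := mul (inv (along t [] x e y (e ▸ h))) (along t [] x e y' (e ▸ h'))
  rwa [Sy.Rn_inv, Sy.Rn_mul, neg_zero, add_zero] at this

theorem rn {q y y'} (h : y ∈ Y.cl q) (h' : y' ∈ Y.cl q) (k : ℤ) :
    Y.Pth y.1 (wd (Y.Rn q y k y')) y'.1 := by
  obtain ⟨x, t, e⟩ := List.exists_cons_of_ne_nil (List.ne_nil_of_mem h)
  obtain ⟨l, z, f⟩ := (List.eq_nil_or_concat (Y.cl q)).resolve_left (List.ne_nil_of_mem h)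
  rw [List.concat_eq_append] at f
  have nx : Y.Nx z x := ⟨q, l, [], by
    rw [show (Y.cl q).take 1 = [x] by rw [e]; rfl, f]; simp⟩
  have w : oo z * (ii x)⁻¹ = Y.Rn q z 1 x := by
    rw [Sy.Rn, Sy.sg_eq f, Sy.sg_eq (l := []) e, f, zpow_one, pp_append, pp_cons, pp_nil]; group
  have a := mul (mul (rn0 h (show z ∈ Y.cl q by simp [f])) (step nx))
    (rn0 (show x ∈ Y.cl q by simp [e]) h)
  rw [w, Sy.Rn_mul, Sy.Rn_mul, zero_add, add_zero] at a
  have b := mul (zp a k) (rn0 h h')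
  rwa [Sy.Rn_pow, Sy.Rn_mul, one_mul, add_zero] at b

theorem act {g} (hg : ∀ z : Lt M, Y.Pth z.1.1 (wd (Y.lam g z)) z.1.1) {μ l ν} (h : Y.Pth μ l ν) :
    Y.Pth μ (wd (Y.ψ g (mk l))) ν := by
  induction h with
  | nil μ =>
    rw [show (mk [] : FG M) = 1 from rfl, map_one]
    exact unit μ
  | @cons a b l ν e _ ih =>
    have : Y.ψ g (mk ((a, true) :: (b, false) :: l)) =
        Y.lam g a * (of a * (of b)⁻¹) * (Y.lam g b)⁻¹ * Y.ψ g (mk l) := by
      rw [show mk ((a, true) :: (b, false) :: l) = of a * (of b)⁻¹ * mk l from rfl, map_mul, map_mul,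
        map_inv, Sy.lam, Sy.lam]
      group
    rw [this]
    exact mul (mul (mul (hg a) (edge e)) (inv (hg b))) ih

theorem loop (g : Art m) : ∀ z : Lt M, Y.Pth z.1.1 (wd (Y.lam g z)) z.1.1 :=
  par_ind (P := fun g => ∀ z : Lt M, Y.Pth z.1.1 (wd (Y.lam g z)) z.1.1)
    (fun z => by rw [Sy.lam, Sy.ψ_one, mul_inv_cancel]; exact unit _) (fun g _ a _ ih => by
      have key : ∀ h z, Y.Pth z.1.1 (wd (Y.lam h z)) z.1.1 →
          Y.Pth z.1.1 (wd (Y.lam (g * h) z)) z.1.1 := fun h z u => by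
        have := act ih u
        rw [mk_wd] at this
        rw [Sy.lam_mul]
        exact mul this (ih z)
      have two : ∀ z : Lt M, Y.Pth z.1.1 (wd (Y.lam (PresentedGroup.of a) z)) z.1.1 ∧
          Y.Pth z.1.1 (wd (Y.lam (PresentedGroup.of a)⁻¹ z)) z.1.1 := fun z => by
        rcases Sy.gen_cases (Y := Y) a z with e | ⟨o, ⟨p, -, -, c⟩, rfl, e⟩
        · rw [Sy.lam, Sy.lam, e.1, e.2, mul_inv_cancel]
          exact ⟨unit _, unit _⟩
        · rw [Sy.lam, Sy.lam, e.1, e.2, mul_inv_cancel_right, mul_inv_cancel_right, Sy.ell_Rn c]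
          exact ⟨rn c c 1, inv (rn c c 1)⟩
      exact ⟨fun z => key _ z (two z).1, fun z => key _ z (two z).2⟩) (Par.univ g)

end Pt

theorem ptt : S_PT := fun _ _ _ _ _ =>
  ⟨fun _ _ _ => Pt.nx_right, fun _ _ _ => Pt.nx_left, fun _ _ _ => Pt.nf,
    fun _ _ _ _ _ => Pt.mul, fun _ _ _ => Pt.rev, fun _ _ h _ h' k => Pt.rn h h' k, Pt.loop,
    fun g _ _ w h => by
      have := Pt.act (Pt.loop g) h
      rwa [mk_wd] at this⟩

end Pool.Agent.MP_6eaae3_al.EV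

end PartPt

section PartWp

/-! Paths that do not pass through a block. -/

namespace Pool.Agent.MP_6eaae3_al.EV

open FreeGroup (of mk invRev IsReduced)
open Set Pool.Agent.MP_6eaae3_al.LT Pool.Agent.MP_6eaae3_al.LT.Path

namespace Wp

variable {M V : Type} {m : V → V → ℕ} {n : ℕ} {Y : Sy m n M}

theorem pre {μ ν : M} {l} (h : Y.Pth μ l ν) : ∀ (l₁ : List (Lt M × Bool)) (c : Lt M) (l₂),
    l = l₁ ++ (c, true) :: l₂ → Y.Pth μ l₁ c.1.1 := by
  induction h with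
  | nil μ => intro l₁ c l₂ e; simp at e
  | cons hE _ ih =>
    intro l₁ c l₂ e
    rcases l₁ with _ | ⟨x, _ | ⟨y, l₁⟩⟩
    · obtain rfl := congrArg Prod.fst (List.cons.inj e).1
      exact .nil _
    · simp at e
    · simp only [List.cons_append, List.cons.injEq] at e
      obtain ⟨rfl, rfl, e⟩ := e
      exact .cons hE (ih l₁ c l₂ e)

theorem last {μ ν : M} {l} (h : Y.Pth μ l ν) : (l = [] ∧ μ = ν) ∨ ∃ l₀ d e,
    l = l₀ ++ [(d, true), (e, false)] ∧ Y.Ed d e ∧ e.1.1 = ν ∧ Y.Pth μ l₀ d.1.1 := by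
  induction h with
  | nil μ => exact Or.inl ⟨rfl, rfl⟩
  | @cons a b l ν hE _ ih =>
    rcases ih with ⟨rfl, e⟩ | ⟨l₀, d, e, rfl, h1, h2, h3⟩
    · exact Or.inr ⟨[], a, b, rfl, hE, e, .nil _⟩
    · exact Or.inr ⟨(a, true) :: (b, false) :: l₀, d, e, rfl, h1, h2, .cons hE h3⟩

theorem not_red {L : Type} {l : List (L × Bool)} (h : IsReduced l) {a : L} {b : Bool}
    (i : [(a, b), (a, !b)] <:+: l) : False := by
  have := (FreeGroup.isReduced_cons_cons.1 (red_inf h i)).1 rfl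
  simp at this

theorem step {X : Set V} {μ : M} {w : M × Bool} {l₁ l₂ : List (Lt M × Bool)}
    (hw : ¬ Y.On X (opp w)) (hp : Y.Pth μ l₁ w.1)
    (hr : IsReduced (l₁ ++ ((w, true), true) :: l₂)) (hC : ∀ a ∈ l₁, a.1 ∈ Y.C X) :
    (l₁ = [] ∧ μ = w.1) ∨ ∃ l₀ d, l₁ = l₀ ++ [(d, true), ((w, false), false)] ∧
      Y.Ed d (w, false) ∧ Y.Pth μ l₀ d.1.1 := by
  refine (last hp).imp_right fun ⟨l₀, d, ⟨e, b⟩, h1, h2, h3, h4⟩ => ?_
  have h5 : Y.On X e := hC ((e, b), false) (by simp [h1])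
  obtain rfl : e = w := cell_eq h3 fun h => hw (h ▸ h5)
  cases b
  · exact ⟨l₀, d, h1, h2, h4⟩
  · exact (not_red hr (a := (e, true)) (b := false) ⟨l₀ ++ [(d, true)], l₂, by simp [h1]⟩).elim

theorem occ (hN : ∀ x x' y, Y.Nx x y → Y.Nx x' y → x = x') {X : Set V} {q B z} {μ ν : M}
    {l₁ l₂ : List (Lt M × Bool)} (hs : Y.Sg q B z) (hB : ∀ y ∈ B, ¬ Y.On X (opp y))
    (hp : Y.Pth μ (l₁ ++ ((z, true), true) :: l₂) ν)
    (hr : IsReduced (l₁ ++ ((z, true), true) :: l₂)) (hC : ∀ a ∈ l₁, a.1 ∈ Y.C X)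
    (hn : ¬ pw B <:+: l₁ ++ ((z, true), true) :: l₂) :
    (l₁ = [] ∧ μ = z.1) ∨
      ∃ z₀, B = [z₀, z] ∧ μ = z₀.1 ∧ l₁ = [((z₀, true), true), ((z, false), false)] := by
  refine (step (hB z hs.last) (pre hp l₁ (z, true) l₂ rfl) hr hC).imp_right
    fun ⟨l₀, d, h1, h2, h3⟩ => ?_
  subst h1
  rcases hs.2 with rfl | ⟨z₀, rfl⟩
  · exact (hn ⟨l₀ ++ [(d, true)], l₂, by simp [pw]⟩).elim
  rcases h2 with rfl | ⟨a, -, b⟩ | ⟨-, a, -⟩
  · exact (not_red hr (a := (z, false)) (b := true)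
      ⟨l₀, ((z, true), true) :: l₂, by simp⟩).elim
  · obtain ⟨d, c⟩ := d
    obtain rfl : c = true := a
    obtain rfl : d = z₀ := hN _ _ _ b (Sy.Nx.of_inf hs.1)
    rcases step (l₂ := ((z, false), false) :: ((z, true), true) :: l₂) (hB d (by simp)) h3
      (by simpa using hr) (fun a ha => hC a (by simp [ha])) with ⟨rfl, e⟩ | ⟨l', d', rfl, -⟩
    · exact ⟨d, rfl, e, rfl⟩
    · exact (hn ⟨l' ++ [(d', true)], l₂, by simp [pw]⟩).elim
  · simp at a

theorem split (hN : ∀ x x' y, Y.Nx x y → Y.Nx x' y → x = x') {X : Set V} {q B z} {μ ν : M}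
    {l : List (Lt M × Bool)} (hs : Y.Sg q B z) (hB : ∀ y ∈ B, ¬ Y.On X (opp y))
    (hp : Y.Pth μ l ν) (hr : IsReduced l) (hC : ∀ a ∈ l, a.1 ∈ Y.C X) (hn : ¬ pw B <:+: l) :
    ∃ l₁ r, l = l₁ ++ r ∧ Bg B z μ l₁ ∧ ((z, true), true) ∉ r ∧ ((z, true), false) ∉ l₁ ∧
      (l₁ = [] ∨ ∃ s, l₁ = s ++ [((z, true), true)]) := by
  by_cases h : ((z, true), true) ∈ l
  · obtain ⟨s, t, rfl⟩ := List.append_of_mem h
    have h1 : ((z, true), true) ∉ t := fun ht => by
      obtain ⟨s', t', rfl⟩ := List.append_of_mem ht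
      rw [← List.cons_append, ← List.append_assoc] at hp hr hC hn
      rcases occ hN hs hB hp hr (fun a ha => hC a (List.mem_append_left _ ha)) hn with
        ⟨e, -⟩ | ⟨z₀, rfl, -, e⟩
      · simp at e
      · have : ((z, true), true) ∈ [((z₀, true), true), ((z, false), false)] := by
          rw [← e]; simp
        simp only [List.mem_cons, Prod.mk.injEq, and_true, List.not_mem_nil, or_false] at this
        rcases this with e | e
        · exact hs.ne e.symm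
        · simp at e
    refine ⟨s ++ [((z, true), true)], t, by simp, ?_, h1, ?_, Or.inr ⟨s, rfl⟩⟩ <;>
      rcases occ hN hs hB hp hr (fun a ha => hC a (List.mem_append_left _ ha)) hn with
        ⟨rfl, e⟩ | ⟨z₀, e', e, rfl⟩
    · exact Or.inr (Or.inl ⟨e, rfl⟩)
    · exact Or.inr (Or.inr ⟨z₀, e', e, rfl⟩)
    · simp
    · simp
  · exact ⟨[], l, rfl, Or.inl rfl, h, by simp, Or.inl rfl⟩

theorem of_invRev {L : Type} {l : List (L × Bool)} {a : L} {b : Bool} (h : (a, b) ∈ invRev l) :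
    (a, !b) ∈ l := by
  simp only [invRev, List.mem_reverse, List.mem_map, Prod.mk.injEq] at h
  obtain ⟨⟨x, y⟩, h, rfl, rfl⟩ := h
  simpa using h

theorem bg_nil {q B z y l} (hs : Y.Sg q B z) (hy : y ∈ Y.cl q) (hn : y ∉ B) (h : Bg B z y.1 l) :
    l = [] := by
  rcases h with h | ⟨e, -⟩ | ⟨z₀, rfl, e, -⟩
  · exact h
  · exact (hn (Sy.fst_inj hy (hs.mem hs.last) e ▸ hs.last)).elim
  · exact (hn (Sy.fst_inj hy (hs.mem (y := z₀) (by simp)) e ▸ by simp)).elim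

end Wp

open Wp

theorem wp (h : S_PT) : S_WP := by
  intro V M m n Y X q B z μ ν l hs hB hp hr hC h1 h2
  obtain ⟨-, hN, -, -, hI, -⟩ := h V M m n Y
  obtain ⟨l₁, r, e, a1, a2, -, a4⟩ := split hN hs hB hp hr hC h1
  obtain ⟨l₂, r', e', b1, b2, b3, -⟩ := split (l := invRev l) hN hs hB (hI _ _ _ hp)
    (by rw [← wd_mk hr, ← wd_inv]; exact wd_red _) (fun a ha => hC (a.1, !a.2) (of_invRev ha))
    (fun i => h2 (by simpa only [invRev_inv] using inf_inv i))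
  have e2 : l = invRev r' ++ invRev l₂ := by
    rw [← FreeGroup.invRev_append, ← e', invRev_inv]
  have key : ∃ c, invRev r' = l₁ ++ c ∧ r = c ++ invRev l₂ := by
    rcases List.append_eq_append_iff.1 (e.symm.trans e2) with c | ⟨c, c1, c2⟩
    · exact c
    rcases List.eq_nil_or_concat c with rfl | ⟨c, x, rfl⟩
    · exact ⟨[], by simpa using c1.symm, by simpa using c2.symm⟩
    rcases a4 with rfl | ⟨s, rfl⟩
    · simp at c1
    · rw [List.concat_eq_append, ← List.append_assoc] at c1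
      obtain rfl : ((z, true), true) = x := by simpa using (List.append_inj' c1 rfl).2
      exact (b3 (of_invRev (b := true) (by rw [c2]; simp))).elim
  obtain ⟨c, c1, c2⟩ := key
  refine ⟨l₁, c, l₂, by rw [e, c2, List.append_assoc], ?_, a1, b1⟩
  rintro ⟨_, _ | _⟩ ha rfl
  · exact b2 (of_invRev (b := false) (by rw [c1]; exact List.mem_append_right _ ha))
  · exact a2 (by rw [c2]; exact List.mem_append_left _ ha)

theorem hp (h : S_PT) (h' : S_WP) : S_HP := by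
  intro V M m n Y S q B B₀ z z₀ y y' e e' k hq hs hs₀ a1 a2 n1 n2 hk hg
  by_contra hc
  have m1 := hs₀.mem a1
  have m2 := hs₀.mem a2
  have hl : Hs S (wd (Y.Rn q y k y')) := Hs.inf hg ⟨[_], [_], rfl⟩
  obtain ⟨l₁, l', l₂, e1, e2, b1, b2⟩ := h' V M m n Y {q.1} q B z y.1 y'.1 _ hs
    (fun x hx => Sy.not_on_opp (hs.mem hx)) ((h V M m n Y).2.2.2.2.2.1 q y m1 y' m2 k)
    (wd_red _) (wd_mem.1 (Sy.Rn_C (mem_singleton _) hq m1 m2 k)) (fun i => hc (hl.inf i))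
    (fun i => hc (by simpa only [invRev_inv] using (hl.inf i).rev))
  rw [bg_nil hs m1 n1 b1, bg_nil hs m2 n2 b2, FreeGroup.invRev_empty, List.nil_append,
    List.append_nil] at e1
  have c1 : xs (z, true) (Y.Rn q y k y') ∈ (⊥ : Subgroup (Multiplicative ℤ)) :=
    Fre.map_mem (S := {(z, true)}ᶜ) _ (fun x hx => xs_ne hx) (wd_mem.2 (e1 ▸ e2))
  have z1 : ∀ x b, x ∉ B → xs (z, true) (of (x, b)) = 1 := fun x b hx =>
    xs_ne fun e => hx ((show x = z from congrArg Prod.fst e) ▸ hs.last)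
  have c2 : xs (z, true) (Y.Rn q y 0 y') = 1 := by
    rcases hs₀.rn a1 a2 with ⟨e, -⟩ | ⟨-, -, e⟩ | ⟨-, -, e⟩ <;> rw [e]
    · exact map_one _
    · rw [map_mul, map_inv, oo, ii, z1 _ _ n1, z1 _ _ n2, inv_one, one_mul]
    · rw [map_mul, map_inv, oo, ii, z1 _ _ n1, z1 _ _ n2, inv_one, one_mul]
  rw [Subgroup.mem_bot, ← add_zero k, ← Sy.Rn_mul q y y y', map_mul, c2, mul_one, Sy.Rn, map_mul,
    map_mul, map_inv, map_zpow, inv_mul_cancel_comm] at c1
  have c3 := congrArg Multiplicative.toAdd c1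
  have c4 := (xs_pp z (Y.cl q)).2 (hs.mem hs.last)
  rw [toAdd_zpow, toAdd_one, smul_eq_mul, mul_eq_zero] at c3
  omega

end Pool.Agent.MP_6eaae3_al.EV

end PartWp

section PartM1

/-! The elementary moves that keep a passage. -/

namespace Pool.Agent.MP_6eaae3_al.EV

open FreeGroup (of mk invRev IsReduced)
open Set Pool.Agent.MP_6eaae3_al.LT Pool.Agent.MP_6eaae3_al.LT.Path

namespace M1

variable {M V : Type} {m : V → V → ℕ} {n : ℕ} {Y : Sy m n M}

theorem pow_mem (a : V) (j : ℤ) : (PresentedGroup.of a ^ j : Art m) ∈ Par m {a} :=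
  zpow_mem (Subgroup.subset_closure (mem_image_of_mem _ (mem_singleton a))) j

theorem fix_pt {X : Set V} {g : Art m} (hg : g ∈ Par m X) {q y} (hq : q.1 ∉ X) (hy : y ∈ Y.cl q)
    (e : Bool) : Y.ψ g (of (pt y e)) = of (pt y e) :=
  Sy.par_fix hg fun o u v => by
    have e1 : o = y := by rw [← opp_opp o, show opp o = opp y from congrArg Prod.fst v, opp_opp]
    exact hq ((Sy.on_iff hy).1 (e1 ▸ u)).1

/-- A passage through cells that are free for `X` is kept. -/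
theorem pg_fix (h : S_F2) {X : Set V} {g : Art m} (hg : g ∈ Par m X) {S q y y' e e' k}
    (D : Set (M × Bool)) (hD : ∀ x ∈ D, ¬ Y.On X (opp x)) (hq : q.1 ∉ X) (a : y ∈ Y.cl q)
    (a' : y' ∈ Y.cl q) (b : y ∈ D) (b' : y' ∈ D) (hw : Y.Rn q y k y' ∈ Fre {z : Lt M | z.1 ∈ D})
    (hp : Y.Pg S q y e k y' e') : Y.Pg (Y.im g S) q y e k y' e' :=
  (h V M m n Y X g S hg).2.1 (pt y e, false) (pt y' e', true) _ (hD y b) (hD y' b') (fun x hx => by
    rcases List.mem_append.1 hx with hx | hx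
    · rcases List.mem_cons.1 hx with rfl | hx
      · exact fix_pt hg hq a e
      · exact Sy.fix_att hg (hD _ (wd_mem.1 hw x hx)) x.1.2
    · rw [List.mem_singleton.1 hx]
      exact fix_pt hg hq a' e') hp

theorem ps_fix (h : S_F2) {X : Set V} {g : Art m} (hg : g ∈ Par m X) {S q B z} (hB : Y.Sg q B z)
    (hD : ∀ x ∈ B, ¬ Y.On X (opp x)) (hq : q.1 ∉ X) (hp : Hs S (pw B)) : Hs (Y.im g S) (pw B) := by
  have h1 : ∀ x ∈ B, ¬ Y.On X x := fun x hx u => hq ((Sy.on_iff (hB.mem hx)).1 u).1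
  have h2 : ∀ x ∈ pw B, Y.ψ g (of x.1) = of x.1 := fun x hx => by
    obtain ⟨y, y1, y2⟩ := List.mem_flatMap.1 hx
    rcases List.mem_pair.1 y2 with rfl | rfl <;> exact Sy.fix_att hg (hD y y1) _
  rcases hB.2 with rfl | ⟨z₀, rfl⟩
  · exact (h V M m n Y X g S hg).2.1 ((z, false), false) ((z, true), true) []
      (h1 z (by simp)) (h1 z (by simp)) h2 hp
  · exact (h V M m n Y X g S hg).2.1 ((z₀, false), false) ((z, true), true)
      [((z₀, true), true), ((z, false), false)] (h1 z₀ (by simp)) (h1 z (by simp)) h2 hp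

theorem rn_mem {q B z y y'} (h : Y.Sg q B z) (a : y ∈ B) (b : y' ∈ B) :
    Y.Rn q y 0 y' ∈ Fre {z : Lt M | z.1 ∈ {x | x ∈ B}} := by
  rcases h.rn a b with ⟨e, -⟩ | ⟨-, -, e⟩ | ⟨-, -, e⟩ <;> rw [e]
  · exact one_mem _
  · exact mul_mem (of_mem_Fre a) (inv_mem (of_mem_Fre b))
  · exact mul_mem (of_mem_Fre a) (inv_mem (of_mem_Fre b))

theorem lam_pt {q : V × ℕ} {y} (a : q.2 < n) (h : y ∈ Y.cl q) (e : Bool) (j : ℤ) :
    Y.lam (PresentedGroup.of q.1 ^ j) (pt y e) = Y.Rn q y (if e then j else 0) y := by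
  cases e
  · rw [Sy.lam_lx (pow_mem q.1 j), if_neg Bool.false_ne_true, Sy.Rn_self]
  · rw [pt_true, Sy.lam_pow a h, Sy.ell_pow h, if_pos rfl]

end M1

open M1

theorem m1 (h : S_F2) : S_M1 := by
  intro V M m n Y kk S c a r j hac
  have hg := pow_mem (m := m) a j
  have att : r ≠ Sum.inl a → ∀ {q B}, Y.Bl q r B → ∀ x ∈ B, ¬ Y.On {a} (opp x) :=
    fun hr q B hB x hx => ((hB.2 x).1 hx).att fun _ e => e ▸ hr
  refine ⟨?_, ?_, fun m1 m2 => ?_⟩
  · rintro hr ⟨q, B, rfl, q2, hB, hp⟩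
    obtain ⟨z, hz⟩ := hB.1
    exact ⟨q, B, rfl, q2, hB, ps_fix h hg hz (att hr hB) hac.symm hp⟩
  · rintro hr ⟨q, B, y, y', rfl, q2, hB, b, b', hp⟩
    obtain ⟨z, hz⟩ := hB.1
    exact ⟨q, B, y, y', rfl, q2, hB, b, b', pg_fix h hg {x | x ∈ B} (att hr hB) hac.symm (hz.mem b)
      (hz.mem b') b b' (rn_mem hz b b') hp⟩
  · have key : ∀ {q B y y' e e' k}, q.1 = c → Y.Bl q r B → y ∈ B → y' ∈ B →
        Y.Pg S q y e k y' e' → Y.Pg (Y.im (PresentedGroup.of a ^ j) S) q y e k y' e' := by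
      rintro q B y y' e e' k rfl ⟨⟨z, hz⟩, -⟩ b b' hp
      refine pg_fix h hg {x | x ∈ Y.cl q} ?_ hac.symm (hz.mem b) (hz.mem b') (hz.mem b) (hz.mem b')
        (Sy.Rn_mem (hz.mem b) (hz.mem b') k) hp
      rintro x hx ⟨p, rfl, -, p2⟩
      exact (Sy.cross_lab hx p2).elim (fun e => e m2) fun e => e m1
    exact ⟨fun k ⟨q, B, y, y', q1, q2, hB, b, b', hp⟩ =>
      ⟨q, B, y, y', q1, q2, hB, b, b', key q1 hB b b' hp⟩,
      fun ⟨q, B, y, y', e, k, q1, q2, hB, b, b', k0, k1, hp⟩ =>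
        ⟨q, B, y, y', e, k, q1, q2, hB, b, b', k0, k1, key q1 hB b b' hp⟩⟩

theorem m0 (h : S_F2) : S_M0 := by
  intro V M m n Y S q y y' e e' k j q2 a a' hp
  have hg := pow_mem (m := m) q.1 j
  have h1 := (h V M m n Y {q.1} _ S hg).1 (pt y e) (pt y' e') _ (Sy.not_on_opp a) (Sy.not_on_opp a')
    (Sy.Rn_C (mem_singleton _) q2 a a' k) hp
  rw [lam_pt q2 a, lam_pt q2 a', Fre.fix (Y.ψ _) (fun z hz => Sy.fix_att hg (Sy.not_on_opp hz) z.2)
    (Sy.Rn_mem a a' k), Sy.Rn_inv, Sy.Rn_mul, Sy.Rn_mul, neg_add_eq_sub] at h1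
  exact h1

end Pool.Agent.MP_6eaae3_al.EV

end PartM1

section PartM2

/-! Passages with winding pass all other blocks; a passed crossing is a crossing passage. -/

namespace Pool.Agent.MP_6eaae3_al.EV

open FreeGroup (of mk invRev IsReduced)
open Set Pool.Agent.MP_6eaae3_al.LT Pool.Agent.MP_6eaae3_al.LT.Path

namespace M2

theorem inf_pw {M : Type} {B : List (M × Bool)} {y : M × Bool} (h : y ∈ B) :
    [((y, false), false), ((y, true), true)] <:+: pw B := by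
  obtain ⟨s, t, rfl⟩ := List.append_of_mem h
  exact ⟨pw s, pw t, by simp [pw]⟩

end M2

theorem m2 (h : S_HP) : S_M2 := by
  intro V M m n Y kk Λ S a ev ch ha
  refine ⟨fun r ρ ok ne hs => ?_, fun d ok ⟨q, B, q1, q2, ⟨⟨y, sg⟩, bl⟩, hs⟩ => ?_⟩
  · obtain ⟨q, B₀, y, y', e, e', k, rfl, q2, ⟨⟨z₀, sg₀⟩, bl₀⟩, a1, a2, a3, a4⟩ :
        ∃ (q : V × ℕ) (B₀ : List (M × Bool)) (y y' : M × Bool) (e e' : Bool) (k : ℤ), q.1 = a ∧
          q.2 < n ∧ Y.Bl q r B₀ ∧ y ∈ B₀ ∧ y' ∈ B₀ ∧ k ≠ 0 ∧ Y.Pg S q y e k y' e' := by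
      rcases hs with ⟨k, hk, q, B, y, y', a1, a2, a3, a4, a5, a6⟩ |
        ⟨q, B, y, y', e, k, a1, a2, a3, a4, a5, a6, -, a7⟩
      exacts [⟨q, B, y, y', _, _, k, a1, a2, a3, a4, a5, hk, a6⟩,
        ⟨q, B, y, y', _, _, k, a1, a2, a3, a4, a5, a6, a7⟩]
    obtain ⟨B, ⟨z, sg⟩, bl⟩ := Sy.exists_bl ev ch ha ok q2
    exact ⟨q, B, rfl, q2, ⟨⟨z, sg⟩, bl⟩, h V M m n Y S q B B₀ z z₀ y y' e e' k q2 sg sg₀ a1 a2
      (fun u => ne (((bl y).1 u).uq ((bl₀ y).1 a1)))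
      (fun u => ne (((bl y').1 u).uq ((bl₀ y').1 a2))) a3 a4⟩
  · obtain ⟨a1, p, p1, p2, p3⟩ := (bl y).1 sg.last
    obtain rfl : p.1 = a := p1
    obtain ⟨B', bl'⟩ := Sy.exists_bl ev ch ha ok p2
    have a2 : opp y ∈ B' := (bl'.2 _).2 ⟨p3, q, q1, q2, by rwa [opp_opp]⟩
    have a3 := hs.inf (M2.inf_pw sg.last)
    refine ⟨p, B', opp y, opp y, rfl, p2, bl', a2, a2, ?_⟩
    obtain ⟨μ, _ | _⟩ := y
    · rw [Sy.Pg, Sy.Rn_self, wd_one]
      exact a3
    · rw [← neg_zero]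
      refine Sy.Pg.symm ?_
      rw [Sy.Pg, Sy.Rn_self, wd_one]
      exact a3

end Pool.Agent.MP_6eaae3_al.EV

end PartM2

section PartSh

/-! A passage through a block of crossings becomes a crossing passage after a twist. -/

namespace Pool.Agent.MP_6eaae3_al.EV

open FreeGroup (of mk invRev IsReduced)
open Set Pool.Agent.MP_6eaae3_al.LT Pool.Agent.MP_6eaae3_al.LT.Path

variable {M V : Type}

namespace Sh

theorem sub_ext {α : Type} : ∀ {d l l' : List α}, d.Nodup → l.Sublist d → l'.Sublist d →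
    (∀ y, y ∈ l ↔ y ∈ l') → l = l'
  | [], _, _, _, a, b, _ => (List.sublist_nil.1 a).trans (List.sublist_nil.1 b).symm
  | x :: d, _, _, h, a0, b0, e => by
    obtain ⟨h1, h2⟩ := List.nodup_cons.1 h
    rcases List.sublist_cons_iff.1 a0 with a | ⟨t, rfl, a⟩ <;>
      rcases List.sublist_cons_iff.1 b0 with b | ⟨t', rfl, b⟩
    · exact sub_ext h2 a b e
    · exact (h1 (a.subset ((e x).2 (by simp)))).elim
    · exact (h1 (b.subset ((e x).1 (by simp)))).elim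
    · refine congrArg _ (sub_ext h2 a b fun y => ⟨fun u => ?_, fun u => ?_⟩)
      · exact (List.mem_cons.1 ((e y).1 (List.mem_cons_of_mem _ u))).resolve_left
          fun f => h1 (f ▸ a.subset u)
      · exact (List.mem_cons.1 ((e y).2 (List.mem_cons_of_mem _ u))).resolve_left
          fun f => h1 (f ▸ b.subset u)

theorem pw_cons (z : M × Bool) (l : List (M × Bool)) :
    pw (z :: l) = ((z, false), false) :: ((z, true), true) :: pw l := rfl

theorem mk_pw : ∀ l : List (M × Bool), mk (pw l) = pp l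
  | [] => rfl
  | z :: l => by
    rw [pp_cons, ← mk_pw l]
    rfl

theorem ch_pw (y : M × Bool) : ∀ (l : List (M × Bool)) (x : M × Bool),
    List.IsChain (fun a b : Lt M × Bool => a.1.2 ≠ b.1.2)
      (((x, true), true) :: pw l ++ [((y, false), false)])
  | [], _ => List.isChain_pair.2 (by simp)
  | z :: l, _ => by
    rw [pw_cons, List.cons_append, List.cons_append, List.cons_append, List.isChain_cons_cons,
      List.isChain_cons_cons]
    exact ⟨by simp, by simp, ch_pw y l z⟩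

/-- Words that leave the cell `o` forwards and come back to it. -/
def Lp (o : M × Bool) (w : FG M) : Prop :=
  ∃ t, w = mk (((o, true), true) :: t ++ [((o, false), false)]) ∧
    List.IsChain (fun a b : Lt M × Bool => a.1.2 ≠ b.1.2)
      (((o, true), true) :: t ++ [((o, false), false)])

theorem Lp.mul {o : M × Bool} {u w : FG M} (hu : Lp o u) (hw : Lp o w) : Lp o (u * w) := by
  obtain ⟨t, rfl, h1⟩ := hu
  obtain ⟨t', rfl, h2⟩ := hw
  have e : ((o, true), true) :: (t ++ ((o, false), false) :: ((o, true), true) :: t') ++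
      [((o, false), false)] = (((o, true), true) :: t ++ [((o, false), false)]) ++
        (((o, true), true) :: t' ++ [((o, false), false)]) := by simp
  refine ⟨t ++ ((o, false), false) :: ((o, true), true) :: t', by rw [e, FreeGroup.mul_mk], ?_⟩
  rw [e]
  refine h1.append h2 fun a ha b hb => ?_
  rw [List.getLast?_concat] at ha
  cases ha
  cases hb
  simp

theorem Lp.wd {o : M × Bool} {w : FG M} (h : Lp o w) :
    ∃ t, wd w = ((o, true), true) :: t ++ [((o, false), false)] :=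
  let ⟨t, e, c⟩ := h
  ⟨t, e ▸ wd_mk (c.imp fun _ _ h e => (h (congrArg Prod.snd e)).elim)⟩

variable {m : V → V → ℕ} {n : ℕ} {Y : Sy m n M}

theorem lp_ell {p o} (h : o ∈ Y.cl p) : Lp o (Y.ell o) := by
  obtain ⟨l, l', e⟩ := List.append_of_mem h
  refine ⟨pw (l' ++ l), ?_, ch_pw _ _ _⟩
  rw [Y.el p l o l' e, mul_assoc (oo o), ← pp_append, ← mk_pw]
  rfl

theorem lp_pow {p o} (h : o ∈ Y.cl p) : ∀ k : ℕ, Lp o (Y.ell o ^ (k + 1))
  | 0 => by simpa using lp_ell h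
  | k + 1 => by rw [pow_succ]; exact (lp_pow h k).mul (lp_ell h)

theorem wd_ell {p o} (h : o ∈ Y.cl p) {j : ℤ} (hj : j ≠ 0) :
    ∃ t, wd (Y.ell o ^ j) = ((o, decide (0 < j)), true) :: t := by
  rcases j with (_ | k) | k
  · exact (hj rfl).elim
  · obtain ⟨t, e⟩ := (lp_pow h k).wd
    refine ⟨t ++ [((o, false), false)], ?_⟩
    rw [Int.ofNat_eq_natCast, zpow_natCast, e, decide_eq_true (by omega)]
    rfl
  · obtain ⟨t, e⟩ := (lp_pow h k).wd
    refine ⟨invRev (((o, true), true) :: t), ?_⟩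
    rw [zpow_negSucc, wd_inv, e, decide_eq_false (by omega), FreeGroup.invRev_append]
    rfl

theorem one_iff {S : Set (FG M)} (q) (y : M × Bool) :
    Hs S (pw [y]) ↔ Y.Pg S q (opp y) y.2 0 (opp y) (!y.2) := by
  rw [Sy.Pg, Sy.Rn_self, Path.wd_one]
  obtain ⟨μ, _ | _⟩ := y <;> rfl

theorem both {S : Set (FG M)} {q y y' e} (h : Y.Pg S q y e 0 y' (!e)) :
    Y.Pg S q y false 0 y' true ∨ Y.Pg S q y' false 0 y true := by
  cases e
  exacts [Or.inl h, Or.inr (by simpa using h.symm)]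

/-- The block has one cell. -/
theorem endc (h2 : S_M0) (h3 : S_HP) {S : Set (FG M)} {q x y} {j : ℤ} (a : q.2 < n)
    (b : opp y ∈ Y.cl q) (c : x ∈ Y.cl q) (d : opp y ≠ x) (hj : j ≠ 0) (h : Hs S (pw [y])) (q') :
    Y.Pg (Y.im (PresentedGroup.of q.1 ^ j) S) q' (opp x) false 0 (opp x) true := by
  have h4 := h2 V M m n Y S q _ _ _ _ 0 j a b b ((one_iff q y).1 h)
  have h5 := h3 V M m n Y _ q [x] [opp y] x (opp y) _ _ _ _ _ a ⟨sing_inf c, Or.inl rfl⟩
    ⟨sing_inf b, Or.inl rfl⟩ (by simp) (by simp) (by simpa using d) (by simpa using d)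
    (by cases y.2 <;> simpa using hj) h4
  exact (both ((one_iff q' x).1 h5)).elim id id

/-- The block has two cells. -/
theorem mid (h1 : S_F2) {S : Set (FG M)} {q : V × ℕ} {μ ν : M} {d : V} {j : ℤ}
    (hB : [(μ, true), (ν, false)] <:+: Y.cl q) (a : Y.On {d} (μ, false)) (b : Y.On {d} (ν, true))
    (hq : q.1 ≠ d) (hj : j ≠ 0) (h : Hs S (pw [(μ, true), (ν, false)])) :
    ∃ e, Y.Pg (Y.im (PresentedGroup.of d ^ j) S) q (μ, true) e 0 (ν, false) (!e) := by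
  have hg : (PresentedGroup.of d ^ j : Art m) ∈ Par m {d} :=
    zpow_mem (Subgroup.subset_closure (mem_image_of_mem _ (mem_singleton d))) j
  have c1 : ∀ e, ((μ, true), e) ∉ Y.C {d} := fun e u =>
    hq ((Sy.on_iff (hB.subset (by simp))).1 u).1
  have c2 : ∀ e, ((ν, false), e) ∉ Y.C {d} := fun e u =>
    hq ((Sy.on_iff (hB.subset (by simp))).1 u).1
  have w1 := wd_mem.1 (inv_mem (zpow_mem (Sy.ell_C a) j))
  have w2 := wd_mem.1 (zpow_mem (Sy.ell_C b) j)
  obtain ⟨p, rfl, a1, a2⟩ := a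
  obtain ⟨p', b0, b1, b2⟩ := b
  have l1 : Y.lam (PresentedGroup.of p.1 ^ j) ((μ, true), false) = Y.ell (μ, false) ^ j :=
    Sy.lam_pow a1 a2 j
  have l2 : Y.lam (PresentedGroup.of p.1 ^ j) ((ν, false), true) = Y.ell (ν, true) ^ j := by
    rw [← show p'.1 = p.1 from b0]
    exact Sy.lam_pow b1 b2 j
  have e0 : mk [(((μ, true), true), true), (((ν, false), false), false)] =
      oo (μ, true) * (ii (ν, false))⁻¹ := rfl
  have f : Y.ψ (PresentedGroup.of p.1 ^ j)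
      (mk [(((μ, true), true), true), (((ν, false), false), false)]) =
      mk [(((μ, true), true), true), (((ν, false), false), false)] := by
    rw [e0, map_mul, map_inv, oo, ii,
      Sy.par_fix (z := ((μ, true), true)) hg fun _ _ => pt_ne_rx (y := (μ, false)),
      Sy.par_fix (z := ((ν, false), false)) hg fun _ _ => pt_ne_rx (y := (ν, true))]
  obtain ⟨t1, e1⟩ := wd_ell a2 hj
  obtain ⟨t2, e2⟩ := wd_ell b2 hj
  have e3 : wd (Y.ell (μ, false) ^ j)⁻¹ = invRev t1 ++ [(((μ, false), decide (0 < j)), false)] := by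
    rw [wd_inv, e1, ← List.singleton_append, FreeGroup.invRev_append]
    rfl
  have r0 : FreeGroup.IsReduced [(((μ, true), true), true), (((ν, false), false), false)] := by
    simp [FreeGroup.IsReduced]
  have r1 : FreeGroup.IsReduced ([(((μ, true), false), false)] ++ (wd (Y.ell (μ, false) ^ j)⁻¹ ++
      ([(((μ, true), true), true), (((ν, false), false), false)] ++
        (wd (Y.ell (ν, true) ^ j) ++ [(((ν, false), true), true)])))) := by
    refine List.IsChain.append (by simp) (List.IsChain.append (wd_red _) (List.IsChain.append r0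
      (List.IsChain.append (wd_red _) (by simp) fun x hx y hy e => ?_) fun x hx y hy e => ?_)
      fun x hx y hy e => ?_) fun x hx y hy e => ?_
    · cases hy
      exact (c2 _ (e ▸ w2 x (List.mem_of_mem_getLast? hx))).elim
    · rw [e2] at hy
      cases hx
      cases hy
      simp at e
    · cases hy
      exact (c1 _ (e ▸ w1 x (List.mem_of_mem_getLast? hx))).elim
    · cases hx
      rw [List.head?_append_of_ne_nil _ (by simp [e3])] at hy
      exact (c1 _ (e ▸ w1 y (List.mem_of_mem_head? hy))).elim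
  have e4 : wd ((Y.ell (μ, false) ^ j)⁻¹ *
      mk [(((μ, true), true), true), (((ν, false), false), false)] * Y.ell (ν, true) ^ j) =
      wd (Y.ell (μ, false) ^ j)⁻¹ ++ [(((μ, true), true), true), (((ν, false), false), false)] ++
        wd (Y.ell (ν, true) ^ j) := by
    conv_lhs => rw [← mk_wd (Y.ell (μ, false) ^ j)⁻¹, ← mk_wd (Y.ell (ν, true) ^ j),
      FreeGroup.mul_mk, FreeGroup.mul_mk]
    exact wd_mk (red_inf r1 ⟨_, _, by simp only [List.append_assoc]; rfl⟩)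
  have h4 := (h1 V M m n Y _ _ S hg).2.2 _ _
    [(((μ, true), true), true), (((ν, false), false), false)] (c1 false) (c2 true) h
  rw [l1, l2, f, e4] at h4
  refine ⟨decide (0 < j), (h4 (by simpa using r1)).inf
    ⟨(((μ, true), false), false) :: invRev t1, t2 ++ [(((ν, false), true), true)], ?_⟩⟩
  rw [Sy.Rn_adj hB, ← e0, wd_mk r0, e2, e3]
  cases decide (0 < j) <;> simp [pt, opp]

end Sh

theorem sh (h1 : S_F2) (h2 : S_M0) (h3 : S_HP) : S_SH := by
  rintro V M m n Y kk Λ S h d j ev ch hh ok hj ⟨⟨_, i⟩, B, rfl, hi, hB, hs⟩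
  obtain ⟨a, b, c0⟩ := ok d rfl
  have c1 : m d _ ≠ 2 := ev.1 _ d ▸ c0
  obtain ⟨c, p, k, cn, -, k1, k2, e, -⟩ := ch d a _ hh b.symm c1 i hi
  have hN := (ev.odd a hh b.symm c1).1
  have e1 := congrArg Prod.fst e
  obtain ⟨B', u, v⟩ := cn.bl (Or.inr rfl) k1 k2 e1
  rw [← e] at hB
  obtain rfl : B = B' := by
    obtain ⟨z, hz⟩ := hB.1
    obtain ⟨z', hz'⟩ := u.1
    exact Sh.sub_ext (Sy.nodup _) hz.1.sublist hz'.1.sublist fun y => (hB.2 y).trans (u.2 y).symm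
  rcases v with ⟨v1, v2, rfl⟩ | ⟨rfl, rfl⟩ | ⟨v1, rfl⟩
  · obtain ⟨z, hz⟩ := hB.1
    have m1 : Y.dn c k ∈ [Y.dn c k, Y.up c k] := by simp
    have m2 : Y.up c k ∈ [Y.dn c k, Y.up c k] := by simp
    obtain ⟨s, h4⟩ := Sh.mid (d := d) h1 hz.1 ((hB.2 _).1 m1).2 ((hB.2 _).1 m2).2 (e1 ▸ b) hj hs
    rcases Sh.both h4 with h5 | h5
    exacts [⟨_, _, _, _, e1, cn.lt k k1 k2, hB, m1, m2, h5⟩,
      ⟨_, _, _, _, e1, cn.lt k k1 k2, hB, m2, m1, h5⟩]
  · have m1 := cn.dnm (k := 2) (by omega) (by omega)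
    have h4 := (Sy.on_iff m1).1 ((hB.2 _).1 (List.mem_singleton_self _)).2
    have e3 := (cn.alt 1).symm.trans e1
    obtain ⟨B3, u3, v3⟩ := cn.bl (k := 3) (Or.inr rfl) (by omega) hN e3
    have m3 : Y.dn c 3 ∈ B3 := by
      rcases v3 with ⟨-, -, rfl⟩ | ⟨v, -⟩ | ⟨-, rfl⟩ <;> first | omega | simp
    rw [← show (c 2).1 = d from h4.1]
    rw [← show (c 2).1 = d from h4.1] at u3
    exact ⟨_, _, _, _, e3, cn.lt 3 (by omega) hN, u3, m3, m3, Sh.endc h2 h3 h4.2 m1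
      (cn.upm (k := 2) (by omega) (by omega)) (by simp [opp, Sy.up]) hj hs _⟩
  · obtain ⟨k, rfl⟩ : ∃ k', k = k' + 2 := ⟨k - 2, by omega⟩
    have m1 := cn.upm (k := k + 1) (by omega) (by omega)
    have h4 := (Sy.on_iff m1).1 ((hB.2 _).1 (List.mem_singleton_self _)).2
    have e3 := (cn.alt k).trans e1
    obtain ⟨B3, u3, v3⟩ := cn.bl (k := k) (Or.inr rfl) (by omega) (by omega) e3
    have m3 : Y.up c k ∈ B3 := by
      rcases v3 with ⟨-, -, rfl⟩ | ⟨-, rfl⟩ | ⟨v, -⟩ <;> first | omega | simp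
    rw [← show (c (k + 1)).1 = d from h4.1]
    rw [← show (c (k + 1)).1 = d from h4.1] at u3
    exact ⟨_, _, _, _, e3, cn.lt k (by omega) (by omega), u3, m3, m3, Sh.endc h2 h3 h4.2 m1
      (cn.dnm (k := k + 1) (by omega) (by omega)) (by simp [opp, Sy.dn]) hj hs _⟩

end Pool.Agent.MP_6eaae3_al.EV

end PartSh

section PartLi

/-! The image of a seed under the dihedral parabolic subgroup. -/

namespace Pool.Agent.MP_6eaae3_al.EV

open FreeGroup (of mk invRev IsReduced)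
open Set Pool.Agent.MP_6eaae3_al.LT Pool.Agent.MP_6eaae3_al.LT.Path

namespace Li

variable {M V : Type} {m : V → V → ℕ} {n : ℕ} {Y : Sy m n M} {q : V × ℕ} {y y' : M × Bool}

/-- The loops of two cells of one curve under a power of one generator are conjugate. -/
theorem gen (hq : q.2 < n) (h : y ∈ Y.cl q) (h' : y' ∈ Y.cl q) (a : V) (j : ℤ) :
    Y.lam (PresentedGroup.of a ^ j) (rx y') =
      (Y.Rn q y 0 y')⁻¹ * Y.lam (PresentedGroup.of a ^ j) (rx y) * Y.Rn q y 0 y' := by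
  by_cases e : q.1 = a
  · subst e
    rw [Sy.lam_pow hq h, Sy.lam_pow hq h', Sy.ell_pow h, Sy.ell_pow h', Sy.Rn_inv, Sy.Rn_mul,
      Sy.Rn_mul, neg_zero, zero_add, add_zero]
  · have hg : (PresentedGroup.of a ^ j : Art m) ∈ Par m {a} :=
      zpow_mem (Subgroup.subset_closure (mem_image_of_mem _ (mem_singleton a))) j
    have f : ∀ z ∈ Y.cl q, Y.lam (PresentedGroup.of a ^ j) (rx z) = 1 := fun z hz =>
      Sy.lam_one hg fun o u v => e ((Sy.on_iff hz).1 (rx_inj v ▸ u)).1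
    rw [f y h, f y' h', mul_one, inv_mul_cancel]

/-- The short path inside a free block is fixed. -/
theorem fix {X : Set V} {B z g} (hB : Y.Sg q B z) (h : y ∈ B) (h' : y' ∈ B)
    (a : ¬ Y.On X (opp y)) (a' : ¬ Y.On X (opp y')) (hg : g ∈ Par m X) :
    Y.ψ g (Y.Rn q y 0 y') = Y.Rn q y 0 y' := by
  rcases hB.rn h h' with ⟨e, -⟩ | ⟨-, -, e⟩ | ⟨-, -, e⟩
  · rw [e, map_one]
  · rw [e, map_mul, map_inv, oo, ii, Sy.fix_att hg a, Sy.fix_att hg a']
  · rw [e, map_mul, map_inv, oo, ii, Sy.fix_att hg a, Sy.fix_att hg a']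

theorem conj {X : Set V} {g} (hq : q.2 < n) (h : y ∈ Y.cl q) (h' : y' ∈ Y.cl q)
    (f : ∀ g ∈ Par m X, Y.ψ g (Y.Rn q y 0 y') = Y.Rn q y 0 y') (hg : g ∈ Par m X) :
    Y.lam g (rx y') = (Y.Rn q y 0 y')⁻¹ * Y.lam g (rx y) * Y.Rn q y 0 y' :=
  par_ind (P := fun g => Y.lam g (rx y') = (Y.Rn q y 0 y')⁻¹ * Y.lam g (rx y) * Y.Rn q y 0 y')
    (by simp [Sy.lam]) (fun g hg a _ ih => by
      have e1 := gen hq h h' a 1
      have e2 := gen hq h h' a (-1)
      rw [zpow_one] at e1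
      rw [zpow_neg_one] at e2
      constructor
      · rw [Sy.lam_mul, Sy.lam_mul, e1, ih, map_mul, map_mul, map_inv, f g hg]; group
      · rw [Sy.lam_mul, Sy.lam_mul, e2, ih, map_mul, map_mul, map_inv, f g hg]; group) hg

end Li

theorem li (h1 : S_F2) (h2 : S_PT) : S_LI := by
  intro V M m n Y S s t N p c i x B y y' e e' k D
  have b := (D.bl.2 y).1 D.y1
  have b' := (D.bl.2 y').1 D.y2
  have hx : ∀ a ∈ ({s, t} : Set V), x ≠ Sum.inl a := by
    rintro a (rfl | rfl)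
    exacts [D.xs, D.xt]
  have a := b.att hx
  have a' := b'.att hx
  have hq := D.cn.lt i D.i1 D.iN
  obtain ⟨z, hz⟩ := D.bl.1
  obtain ⟨-, -, -, p4, p5, p6, p7, p8⟩ := h2 V M m n Y
  refine ⟨a, a', fun g hg => ?_⟩
  have hw := Sy.Rn_C (D.cn.mem i) hq b.1 b'.1 k
  have H := (h1 V M m n Y {s, t} g S hg).1 (pt y e) (pt y' e') _ a a' hw D.pg
  have f : ∀ g ∈ Par m {s, t}, Y.ψ g (Y.Rn (c i) y 0 y') = Y.Rn (c i) y 0 y' := fun g hg =>
    Li.fix hz D.y1 D.y2 a a' hg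
  refine ⟨wd ((Y.lam g (pt y e))⁻¹ * Y.ψ g (Y.Rn (c i) y k y') * Y.lam g (pt y' e')),
    H.inf ⟨[_], [_], rfl⟩, wd_red _, ?_, wd_mem.1 (mul_mem (mul_mem
    (inv_mem (Sy.lam_mem hg _)) (Sy.par_map Subset.rfl hg hw)) (Sy.lam_mem hg _)), ?_⟩
  · refine p4 _ _ _ _ _ (p4 _ _ _ _ _ ?_ (p8 g _ _ _ (p6 _ _ b.1 _ b'.1 k))) (p7 g (pt y' e'))
    rw [wd_inv]
    exact p5 _ _ _ (p7 g (pt y e))
  · rw [mk_wd, Sy.Rn_split b.1 k, map_mul, map_zpow, f g hg]
    cases e <;> cases e' <;>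
      simp only [Sy.lam_lx hg, pt_true, Li.conj hq b.1 b'.1 f hg, if_true, Bool.false_eq_true,
        if_false] <;> group

end Pool.Agent.MP_6eaae3_al.EV

end PartLi

section PartTa

/-! The homomorphism of a chain and the uniqueness of the recursion. -/

namespace Pool.Agent.MP_6eaae3_al.EV

open FreeGroup (of mk invRev IsReduced)
open Set Pool.Agent.MP_6eaae3_al.LT Pool.Agent.MP_6eaae3_al.LT.Path

namespace Ta

variable {G H : Type} [Group G] [Group H] {s t : G} {N : ℕ} {p : ℤ}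

def st (Q : Pv s t N p H) (g : G) : Lk.Stt H := ⟨Q.f g, Q.v g, Q.W g⟩

theorem trs (Q : Pv s t N p H) {g : G} (hg : g ∈ Subgroup.closure {s, t}) (q : ℤ) :
    Lk.Trs N p q (st Q g) (st Q (g * yy s t q)) := by
  refine ⟨(Q.f0 g).1, (Q.f0 g).2, fun k u v c => ?_, fun k u v c => ?_⟩
  · have a := Q.own g hg k u v
    rw [yy_congr s t (j := q) (by omega)] at a
    refine ⟨a.1, a.2, fun o => ?_⟩
    rw [show yy s t q = t from if_neg (by omega)]
    exact (Q.arc g hg k u v o).1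
  · have a := Q.oth g hg k u v
    rw [yy_congr s t (j := q) (by omega)] at a
    refine ⟨a.1, a.2, fun o => ?_⟩
    rw [show yy s t q = s from if_pos (by omega)]
    exact (Q.arc g hg k u v o).2

theorem eqs (Q Q' : Pv s t N p H) (h : Lk.Eqs N p (st Q 1) (st Q' 1)) {g : G}
    (hg : g ∈ Subgroup.closure {s, t}) : Lk.Eqs N p (st Q g) (st Q' g) := by
  have key : ∀ g ∈ Subgroup.closure {s, t}, ∀ a ∈ ({s, t} : Set G),
      Lk.Eqs N p (st Q g) (st Q' g) ↔ Lk.Eqs N p (st Q (g * a)) (st Q' (g * a)) := by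
    rintro g hg a (rfl | rfl)
    · exact (trs Q hg 0).iff (trs Q' hg 0)
    · exact (trs Q hg 1).iff (trs Q' hg 1)
  induction hg using Subgroup.closure_induction_right with
  | one => exact h
  | mul_right x hx y hy ih => exact (key x hx y hy).1 ih
  | mul_inv_cancel x hx y hy ih =>
    refine (key _ (mul_mem hx (inv_mem (Subgroup.subset_closure hy))) y hy).2 ?_
    rwa [inv_mul_cancel_right]

/-- The image of the universal recursion. -/
def img (P : Pu s t N p) (ξ : FreeGroup ℕ →* H) (u : ℕ → H) : Pv s t N p H where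
  f g k := ξ (P.f g k)
  v g k := ξ (P.v g k) * u k
  W g k := (u k)⁻¹ * ξ (P.W g k) * u k
  f0 g := by rw [(P.f0 g).1, (P.f0 g).2, map_one]; exact ⟨rfl, rfl⟩
  own g hg k a b := by rw [(P.own g hg k a b).1, (P.own g hg k a b).2]; exact ⟨rfl, rfl⟩
  oth g hg k a b := by
    rw [(P.oth g hg k a b).1, (P.oth g hg k a b).2, map_mul, map_mul, map_mul, map_inv]
    exact ⟨rfl, mul_assoc _ _ _⟩
  arc g hg k a b c := by
    rw [(P.arc g hg k a b c).1, (P.arc g hg k a b c).2, map_mul, map_mul, map_mul, map_inv]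
    exact ⟨by group, rfl⟩

end Ta

theorem uq : S_UQ := by
  intro G _ s t N p P H _ Q ξ u h g hg k a b
  refine Ta.eqs Q (Ta.img P ξ u) (fun k a b => ?_) hg k a b
  obtain ⟨e1, e2, e3⟩ := P.f1 k a b
  obtain ⟨h1, h2, h3⟩ := h k a b
  simp only [Ta.st, Ta.img, e1, e2, e3, h1, h2, h3, map_one, one_mul, mul_one, inv_mul_cancel,
    implies_true, and_self]

theorem ta : S_TA := by
  intro V M m n Y X N c z H _ F u ι hc hz uN i1
  have un : ∀ {k k' x}, 1 ≤ k → 1 ≤ k' → x ∈ Y.cl (c k) → x ∈ Y.cl (c k') → k = k' :=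
    fun a b d e => hc.inj _ _ a b (Y.uq _ _ _ d e)
  have nz : ∀ k k', 1 ≤ k → k ≤ N → 1 ≤ k' → k' < N → z k ≠ Y.up c k' := fun k k' a b d e f =>
    (hz k a b).2 (f ▸ (hc.upo e).resolve_right (by omega))
  have ex : ∀ a : Lt M, ∃ x : H, (∀ k, 1 ≤ k → k ≤ N → a = (z k, true) → x = F k) ∧
      (∀ k, 1 ≤ k → k < N → a = (Y.up c k, true) → x = u k) ∧
      (∀ k, 1 < k → k ≤ N → a = (Y.dn c k, false) → x = ι k) ∧
      ((∀ k, 1 ≤ k → k ≤ N → a ≠ (z k, true) ∧ (k < N → a ≠ (Y.up c k, true)) ∧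
        (1 < k → a ≠ (Y.dn c k, false))) → x = 1) := fun a => by
    by_cases h1 : ∃ k, 1 ≤ k ∧ k ≤ N ∧ a = (z k, true)
    · obtain ⟨k, p, q, rfl⟩ := h1
      refine ⟨F k, fun j b d e => ?_, fun j b d e => (nz k j p q b d (congrArg Prod.fst e)).elim,
        fun j b d e => Bool.noConfusion (congrArg Prod.snd e),
        fun e => ((e k p q).1 rfl).elim⟩
      rw [un p b (hz k p q).1 ((show z k = z j from congrArg Prod.fst e) ▸ (hz j b d).1)]
    by_cases h2 : ∃ k, 1 ≤ k ∧ k < N ∧ a = (Y.up c k, true)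
    · obtain ⟨k, p, q, rfl⟩ := h2
      refine ⟨u k, fun j b d e => (h1 ⟨j, b, d, e⟩).elim, fun j b d e => ?_,
        fun j b d e => Bool.noConfusion (congrArg Prod.snd e),
        fun e => ((e k p q.le).2.1 q rfl).elim⟩
      rw [un p b (hc.upm p q)
        ((show Y.up c k = Y.up c j from congrArg Prod.fst e) ▸ hc.upm b d)]
    by_cases h3 : ∃ k, 1 < k ∧ k ≤ N ∧ a = (Y.dn c k, false)
    · obtain ⟨k, p, q, rfl⟩ := h3
      refine ⟨ι k, fun j b d e => (h1 ⟨j, b, d, e⟩).elim, fun j b d e => (h2 ⟨j, b, d, e⟩).elim,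
        fun j b d e => ?_, fun e => ((e k p.le q).2.2 p rfl).elim⟩
      rw [un p.le b.le (hc.dnm p q)
        ((show Y.dn c k = Y.dn c j from congrArg Prod.fst e) ▸ hc.dnm b d)]
    exact ⟨1, fun j b d e => (h1 ⟨j, b, d, e⟩).elim, fun j b d e => (h2 ⟨j, b, d, e⟩).elim,
      fun j b d e => (h3 ⟨j, b, d, e⟩).elim, fun _ => rfl⟩
  choose φ h1 h2 h3 h4 using ex
  exact ⟨FreeGroup.lift φ, fun k a b => FreeGroup.lift_apply_of.trans (h1 _ k a b rfl),
    fun k a b => FreeGroup.lift_apply_of.trans (h2 _ k a b rfl),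
    fun k a b => FreeGroup.lift_apply_of.trans (h3 _ k a b rfl), uN, i1,
    fun a e => FreeGroup.lift_apply_of.trans (h4 a e)⟩

end Pool.Agent.MP_6eaae3_al.EV

end PartTa

section PartCh

/-! The loops, half loops and arcs of a chain of curves, read in any group. -/

namespace Pool.Agent.MP_6eaae3_al.EV

open FreeGroup (of mk invRev IsReduced)
open Set Pool.Agent.MP_6eaae3_al.LT Pool.Agent.MP_6eaae3_al.LT.Path
open Classical

namespace Ch

variable {V M H : Type} [Group H] {m : V → V → ℕ} {n : ℕ} {Y : Sy m n M} {X : Set V} {N k : ℕ}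
  {c : ℕ → V × ℕ} {z : ℕ → M × Bool} {Φ θ : FG M →* H} {F u ι : ℕ → H}

theorem dec (h : Y.Cn X N c) (hz : Y.At X N c z) (h1 : 1 ≤ k) (h2 : k ≤ N) :
    ∃ l B l', Y.cl (c k) = l ++ B ++ l' ∧
    (l' ++ l).Nodup ∧ z k ∈ l' ++ l ∧ (∀ x ∈ Y.cl (c k), x ∈ l' ++ l ↔ ¬ Y.On X (opp x)) ∧
    ((1 < k ∧ k < N ∧ B = [Y.dn c k, Y.up c k]) ∨ (k = 1 ∧ B = [Y.up c k]) ∨
      (k = N ∧ B = [Y.dn c k])) := by
  obtain ⟨B, ⟨l, l', e⟩, hBi, hB⟩ := h.dec h1 h2
  replace e := e.symm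
  have nd : (B ++ (l' ++ l)).Nodup := by
    have := Y.nodup (c k)
    rw [e, List.append_assoc] at this
    rw [← List.append_assoc]
    exact List.nodup_append_comm.1 this
  have hm : ∀ x ∈ Y.cl (c k), x ∈ l' ++ l ↔ ¬ Y.On X (opp x) := fun x hx => by
    refine ⟨fun a b => (List.nodup_append.1 nd).2.2 x ((hBi x).2 ⟨hx, b⟩) x a rfl, fun a => ?_⟩
    have b : x ∉ B := fun b => a ((hBi x).1 b).2
    rw [e] at hx
    simp only [List.mem_append] at hx ⊢
    tauto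
  exact ⟨l, B, l', e, nd.of_append_right, (hm _ (hz k h1 h2).1).2 (hz k h1 h2).2, hm, hB⟩

/-- What is used of the homomorphism on the cells of the curve `k`. -/
structure Nice (Y : Sy m n M) (X : Set V) (c : ℕ → V × ℕ) (z : ℕ → M × Bool) (F : ℕ → H)
    (Φ : FG M →* H) (k : ℕ) : Prop where
  i : ∀ y, ¬ Y.On X (opp y) → Φ (ii y) = 1
  o : ∀ y ∈ Y.cl (c k), ¬ Y.On X (opp y) → Φ (oo y) = if y = z k then F k else 1
  u : Φ (ii (Y.up c k)) = 1
  d : 1 < k → Φ (oo (Y.dn c k)) = 1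

theorem Nice.pp (h : Nice Y X c z F Φ k) {L : List (M × Bool)} (nd : L.Nodup)
    (hL : ∀ y ∈ L, y ∈ Y.cl (c k) ∧ ¬ Y.On X (opp y)) :
    Φ (pp L) = if z k ∈ L then F k else 1 := by
  induction L with
  | nil => simp
  | cons y L ih =>
    have a := hL y (by simp)
    rw [List.nodup_cons] at nd
    rw [pp_cons, map_mul, map_mul, map_inv, h.i y a.2, h.o y a.1 a.2,
      ih nd.2 fun x hx => hL x (by simp [hx])]
    by_cases e : y = z k
    · simp [e, e ▸ nd.1]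
    · simp [e, Ne.symm e]

noncomputable def UU (Y : Sy m n M) (N : ℕ) (c : ℕ → V × ℕ) (Φ : FG M →* H) (k : ℕ) : H :=
  if k < N then Φ (oo (Y.up c k)) else 1

noncomputable def II (Y : Sy m n M) (c : ℕ → V × ℕ) (Φ : FG M →* H) (k : ℕ) : H :=
  if 1 < k then Φ (ii (Y.dn c k)) else 1

noncomputable def FF (Y : Sy m n M) (N : ℕ) (c : ℕ → V × ℕ) (F : ℕ → H) (Φ : FG M →* H)
    (k : ℕ) : H :=
  if 1 ≤ k ∧ k ≤ N then UU Y N c Φ k * F k * (II Y c Φ k)⁻¹ else 1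

theorem loop (h : Y.Cn X N c) (hz : Y.At X N c z) (h1 : 1 ≤ k) (h2 : k ≤ N)
    (hΦ : Nice Y X c z F Φ k) : (k < N → Φ (Y.ell (Y.up c k)) = FF Y N c F Φ k) ∧
      (1 < k → Φ (Y.ell (Y.dn c k)) = FF Y N c F Φ k) := by
  obtain ⟨l, B, l', e, nd, hz, hm, hB⟩ := dec h hz h1 h2
  have hs : ∀ y ∈ l' ++ l, y ∈ Y.cl (c k) := fun y hy => by
    rw [e]; simp only [List.mem_append] at hy ⊢; tauto
  have key := hΦ.pp nd fun y hy => ⟨hs y hy, (hm y (hs y hy)).1 hy⟩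
  rw [if_pos hz, pp_append, map_mul] at key
  have h0 := h.two
  rw [FF, if_pos ⟨h1, h2⟩, UU, II, ← key]
  rcases hB with ⟨b1, b2, rfl⟩ | ⟨b1, rfl⟩ | ⟨b1, rfl⟩
  · refine ⟨fun _ => ?_, fun _ => ?_⟩
    · rw [Y.el _ (l ++ [Y.dn c k]) _ l' (by simpa using e)]
      simp [b1, b2, hΦ.u, hΦ.d b1, mul_assoc]
    · rw [Y.el _ l _ (Y.up c k :: l') (by simpa using e)]
      simp [b1, b2, hΦ.u, hΦ.d b1, mul_assoc]
  · refine ⟨fun a => ?_, fun _ => by omega⟩
    rw [Y.el _ l _ l' (by simpa using e), if_pos a, if_neg (by omega)]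
    simp [hΦ.u, mul_assoc]
  · refine ⟨fun _ => by omega, fun a => ?_⟩
    rw [Y.el _ l _ l' (by simpa using e), if_pos a, if_neg (by omega)]
    simp [hΦ.d a, mul_assoc]

theorem arc (h : Y.Cn X N c) (hz : Y.At X N c z) (h1 : 1 ≤ k) (h2 : k ≤ N) {y : M × Bool}
    (hy : y ∈ Y.cl (c k)) (hn : ¬ Y.On X (opp y)) :
    ∃ A : H, (A = 1 ∨ A = F k) ∧ ∀ Φ : FG M →* H, Nice Y X c z F Φ k →
      A * Φ (Y.ell y) * A⁻¹ = (UU Y N c Φ k)⁻¹ * FF Y N c F Φ k * UU Y N c Φ k := by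
  obtain ⟨l, B, l', e, nd, hz, hm, hB⟩ := dec h hz h1 h2
  have hs : ∀ y ∈ l' ++ l, y ∈ Y.cl (c k) := fun y hy => by
    rw [e]; simp only [List.mem_append] at hy ⊢; tauto
  obtain ⟨u, v, e1, e2⟩ : ∃ u v, l' ++ l = u ++ y :: v ∧
      Y.ell y = oo y * pp v * pp B * pp u * (ii y)⁻¹ := by
    rcases List.mem_append.1 ((hm y hy).2 hn) with a | a
    · obtain ⟨u, v, rfl⟩ := List.append_of_mem a
      exact ⟨u, v ++ l, by simp, by
        rw [Y.el _ (l ++ B ++ u) y v (by simpa using e)]; simp [mul_assoc]⟩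
    · obtain ⟨u, v, rfl⟩ := List.append_of_mem a
      exact ⟨l' ++ u, v, by simp, by
        rw [Y.el _ u y (v ++ B ++ l') (by simpa using e)]; simp [mul_assoc]⟩
  have hs' : ∀ x ∈ l' ++ l, x ∈ Y.cl (c k) ∧ ¬ Y.On X (opp x) := fun x hx =>
    ⟨hs x hx, (hm x (hs x hx)).1 hx⟩
  refine ⟨if z k ∈ u then F k else 1, ?_, fun Φ hΦ => ?_⟩
  · by_cases a : z k ∈ u
    exacts [Or.inr (if_pos a), Or.inl (if_neg a)]
  · have key := hΦ.pp nd hs'
    have hb : Φ (pp B) = (II Y c Φ k)⁻¹ * UU Y N c Φ k := by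
      have h0 := h.two
      rcases hB with ⟨b1, b2, rfl⟩ | ⟨b1, rfl⟩ | ⟨b1, rfl⟩
      · simp [UU, II, b1, b2, hΦ.u, hΦ.d b1]
      · rw [UU, II, if_pos (show k < N by omega), if_neg (show ¬ 1 < k by omega)]
        simp [hΦ.u]
      · rw [UU, II, if_neg (show ¬ k < N by omega), if_pos (show 1 < k by omega)]
        simp [hΦ.d (show 1 < k by omega)]
    rw [if_pos hz, e1] at key
    rw [e1] at nd hs'
    rw [← hΦ.pp nd.of_append_left fun x hx => hs' x (by simp [hx]), FF, if_pos ⟨h1, h2⟩, ← key, e2]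
    simp [hb, hΦ.i y hn, mul_assoc]

/-- Letters of cells that are on no curve of the chain are killed. -/
theorem off (h : Y.Cn X N c) (hz : Y.At X N c z) (hθ : Y.Ta N c z θ F u ι) {a : Lt M}
    (ha : ¬ Y.On X a.1) : θ (of a) = 1 :=
  hθ.rest a fun k h1 h2 => ⟨fun e => ha (e ▸ h.on h1 h2 (hz k h1 h2).1),
    fun h3 e => ha (e ▸ h.on h1 h2 (h.upm h1 h3)), fun h3 e => ha (e ▸ h.on h1 h2 (h.dnm h3 h2))⟩

/-- The action followed by `θ`. -/
noncomputable def ph (Y : Sy m n M) (θ : FG M →* H) (g : Art m) : FG M →* H := θ.comp (Y.ψ g)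

theorem ph_apply (g : Art m) (w : FG M) : ph Y θ g w = θ (Y.ψ g w) := rfl

theorem ph_mul (g a : Art m) (w : FG M) : ph Y θ (g * a) w = ph Y θ g (Y.ψ a w) := by
  rw [ph_apply, Y.ψ_mul, ph_apply]

theorem nice (h : Y.Cn X N c) (hz : Y.At X N c z) (hθ : Y.Ta N c z θ F u ι) (h1 : 1 ≤ k)
    (h2 : k ≤ N) {g : Art m} (hg : g ∈ Par m X) : Nice Y X c z F (ph Y θ g) k := by
  have a : ∀ y b, ¬ Y.On X (opp y) → ph Y θ g (of (y, b)) = θ (of (y, b)) := fun y b hy => by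
    rw [ph_apply, Sy.fix_att hg hy]
  have b : ∀ μ b, ph Y θ g (of ((μ, b), b)) = θ (of ((μ, b), b)) := fun μ b => by
    rw [ph_apply, Sy.par_fix hg fun o _ e => by
      obtain ⟨ν, _ | _⟩ := o <;> cases b <;> simp [rx, opp] at e]
  refine ⟨fun y hy => (a y _ hy).trans (hθ.rest _ fun k' u v => ⟨by simp, by simp, fun w e => ?_⟩),
    fun y hy hn => ?_, (b _ _).trans (hθ.rest _ fun k' u v => ⟨by simp, by simp, by simp [Sy.dn]⟩),
    fun e => (b _ _).trans (hθ.rest _ fun k' u v => ⟨fun w => ?_, by simp [Sy.up], by simp⟩)⟩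
  · obtain rfl : y = Y.dn c k' := congrArg Prod.fst e
    exact hy (h.dno w v)
  · rw [oo, a y _ hn]
    split_ifs with e
    · rw [e]; exact hθ.zz k h1 h2
    · refine hθ.rest _ fun k' u v => ⟨fun w => ?_, fun w w' => ?_, by simp⟩
      · obtain rfl : y = z k' := congrArg Prod.fst w
        exact e (by rw [h.inj k k' h1 u (Y.uq _ _ _ hy (hz k' u v).1)])
      · obtain rfl : y = Y.up c k' := congrArg Prod.fst w'
        exact hn ((h.upo w).resolve_right (by omega))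
  · exact (hz k' u v).2 ((show Y.dn c k = z k' from congrArg Prod.fst w) ▸ h.dno e h2)

theorem own (h : Y.Cn X N c) (h1 : 1 ≤ k) (h2 : k ≤ N) (g : Art m) :
    UU Y N c (ph Y θ (g * PresentedGroup.of (c k).1)) k = UU Y N c (ph Y θ g) k ∧
      II Y c (ph Y θ (g * PresentedGroup.of (c k).1)) k = II Y c (ph Y θ g) k := by
  unfold UU II
  refine ⟨?_, ?_⟩ <;> split_ifs with e
  · rw [ph_mul, oo, Sy.fix_own (h.upm h1 e)]
  · rfl
  · rw [ph_mul, ii, Sy.fix_own (h.dnm e h2)]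
  · rfl

theorem oth (h : Y.Cn X N c) (hz : Y.At X N c z) (hθ : Y.Ta N c z θ F u ι) (h1 : 1 ≤ k)
    (h2 : k ≤ N) {g : Art m} (hg : g ∈ Par m X) :
    UU Y N c (ph Y θ (g * PresentedGroup.of (c (k + 1)).1)) k =
        FF Y N c F (ph Y θ g) (k + 1) * UU Y N c (ph Y θ g) k ∧
      II Y c (ph Y θ (g * PresentedGroup.of (c (k + 1)).1)) k =
        FF Y N c F (ph Y θ g) (k - 1) * II Y c (ph Y θ g) k := by
  unfold UU II
  refine ⟨?_, ?_⟩ <;> split_ifs with e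
  · rw [← (loop h hz (by omega) e (nice h hz hθ (by omega) e hg)).2 (by omega), ph_mul, ← map_mul]
    exact congrArg _ (Y.mv _ _ (h.lt _ (by omega) e) (h.dnm (k := k + 1) (by omega) e))
  · rw [FF, if_neg (by omega), one_mul]
  · obtain ⟨k, rfl⟩ : ∃ k', k = k' + 1 := ⟨k - 1, by omega⟩
    have e1 : 1 ≤ k := by omega
    rw [Nat.add_sub_cancel, ← (loop h hz e1 (by omega) (nice h hz hθ e1 (by omega) hg)).1 h2,
      ph_mul, ← map_mul, ← h.alt k]
    exact congrArg _ (Y.mv _ _ (h.lt _ e1 (by omega)) (h.upm e1 h2))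
  · rw [FF, if_neg (by omega), one_mul]

end Ch

open EV.Ch in
theorem ch : S_CH := by
  intro V M m n Y s t N p c z H _ θ F u ι i y₀ ne hc col hz hθ i1 iN y1 y2
  have colt : ∀ k : ℕ, (k + p) % 2 = 1 → (c k).1 = t := fun k e => by
    rw [col, yy, if_neg (by omega)]
  have hy : ∀ k : ℕ, ∃ (y : M × Bool) (A : H), (k = i → y = y₀) ∧ (1 ≤ k → k ≤ N →
      (y ∈ Y.cl (c k) ∧ ¬ Y.On {s, t} (opp y)) ∧ (A = 1 ∨ A = F k) ∧
        ∀ Φ : FG M →* H, Nice Y {s, t} c z F Φ k →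
          A * Φ (Y.ell y) * A⁻¹ = (UU Y N c Φ k)⁻¹ * FF Y N c F Φ k * UU Y N c Φ k) := fun k => by
    by_cases e' : k = i
    · subst e'
      obtain ⟨A, hA⟩ := arc (F := F) hc hz i1 iN y1 y2
      exact ⟨y₀, A, fun _ => rfl, fun _ _ => ⟨⟨y1, y2⟩, hA⟩⟩
    by_cases e : 1 ≤ k ∧ k ≤ N
    · obtain ⟨A, hA⟩ := arc (F := F) hc hz e.1 e.2 (hz k e.1 e.2).1 (hz k e.1 e.2).2
      exact ⟨z k, A, fun q => (e' q).elim, fun _ _ => ⟨hz k e.1 e.2, hA⟩⟩
    · exact ⟨y₀, 1, fun _ => rfl, fun u v => (e ⟨u, v⟩).elim⟩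
  choose y A hi hy using hy
  obtain rfl := hi i rfl
  have y0 : ∀ k, 1 ≤ k → k ≤ N → θ (of (rx (y k))) = 1 := fun k u v =>
    off hc hz hθ (hy k u v).1.2
  refine ⟨⟨fun g => FF Y N c F (ph Y θ g), fun g => UU Y N c (ph Y θ g),
    fun g k => A k * ph Y θ g (of (rx (y k))) * (A k)⁻¹,
    fun g => ⟨if_neg (by omega), if_neg (by omega)⟩, fun g _ k u v => ?_, fun g hg k u v => ?_,
    fun g hg k u v w => ?_⟩, A i, (hy i i1 iN).2.1, fun k a b => ?_, fun e he => ⟨?_, ?_⟩⟩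
  · rw [LT.Ch.yy_of, ← col]
    obtain ⟨a1, a2⟩ := own (θ := θ) hc u v g
    exact ⟨by simp only [FF, a1, a2], a1⟩
  · rw [LT.Ch.yy_of, show (k : ℤ) + p + 1 = (k + 1 : ℕ) + p by push_cast; ring, ← col]
    obtain ⟨a1, a2⟩ := oth hc hz hθ u v (par_pair s t ▸ hg)
    refine ⟨?_, a1⟩
    rw [FF, if_pos ⟨u, v⟩, a1, a2, FF.eq_1 Y N c F _ k, if_pos ⟨u, v⟩]
    simp [mul_assoc]
  · obtain ⟨⟨b1, -⟩, -, b4⟩ := hy k u v
    have a1 := Y.mv _ _ (hc.lt k u v) b1
    rw [colt k w] at a1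
    refine ⟨?_, ?_⟩
    · rw [← b4 _ (nice hc hz hθ u v (par_pair s t ▸ hg)), ph_mul, a1]
      simp [mul_assoc]
    · rw [ph_mul, Y.fx s _ fun q o d1 _ d3 d4 => ne (by
        rw [← d1, Y.uq q (c k) (y k) (rx_inj d4 ▸ d3) b1, colt k w])]
  · have a1 : UU Y N c (ph Y θ 1) k = u k := by
      unfold UU
      split_ifs with e
      · rw [ph_apply, Y.ψ_one, hθ.u1 k a e]
      · rw [show k = N by omega, hθ.uN]
    have a2 : II Y c (ph Y θ 1) k = ι k := by
      unfold II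
      split_ifs with e
      · rw [ph_apply, Y.ψ_one, hθ.d1 k e b]
      · rw [show k = 1 by omega, hθ.i1]
    refine ⟨by simp only [FF, if_pos (And.intro a b), a1, a2], a1, ?_⟩
    simp only [ph_apply, Y.ψ_one, y0 k a b, mul_one, mul_inv_cancel]
  · simp only [Sy.lam, map_mul, map_inv, y0 i i1 iN, ph_apply]
    group
  · simp only [← (hy i i1 iN).2.2 _ (nice hc hz hθ i1 iN he), ph_apply]
    group

end Pool.Agent.MP_6eaae3_al.EV

end PartCh
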