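import Pool.Agent.MP_6eaae3_al.LT.All

/-! Definitions and statements for cliques all of whose labels are even. -/

namespace Pool.Agent.MP_6eaae3_al.EV

open FreeGroup (of mk invRev IsReduced)
open Set Pool.Agent.MP_6eaae3_al.LT

variable {M V L G H : Type}

/-- The curves of the plumbing and the action of the Artin group on paths. -/
structure Sy (m : V → V → ℕ) (n : ℕ) (M : Type) where
  ad : V × ℕ → V × ℕ → Prop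
  cl : V × ℕ → List (M × Bool)
  ell : M × Bool → FG M
  ψ : Art m →* Monoid.End (FG M)
  cr : V × ℕ → V × ℕ → M
  mr : V × ℕ → Bool → M
  adn : ∀ p q, ad p q → p.1 ≠ q.1 ∧ m p.1 q.1 ≠ 2
  nd : ∀ p, ((cl p).map Prod.fst).Nodup
  uq : ∀ p q x, x ∈ cl p → x ∈ cl q → p = q
  el : ∀ p l o l', cl p = l ++ o :: l' → ell o = oo o * pp l' * pp l * (ii o)⁻¹
  mv : ∀ p o, p.2 < n → o ∈ cl p → ψ (PresentedGroup.of p.1) (of (rx o)) = ell o * of (rx o)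
  fx : ∀ a z, (∀ p o, p.1 = a → p.2 < n → o ∈ cl p → rx o ≠ z) → ψ (PresentedGroup.of a) (of z) = of z
  crf : ∀ p q, ad p q → (cr p q, false) ∈ cl p
  crt : ∀ p q, ad p q → (cr p q, true) ∈ cl q
  bo : ∀ μ q, (μ, true) ∈ cl q → ∃ p, ad p q ∧ μ = cr p q
  adj : ∀ o p q, ad o p → ad p q → o.1 = q.1 →
    ∃ l l', cl p = l ++ (cr o p, true) :: (cr p q, false) :: l'
  mrf : ∀ p k, (mr p k, false) ∈ cl p
  mrt : ∀ p k q, (mr p k, true) ∉ cl q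
  mrn : ∀ p, mr p true ≠ mr p false

/-- The letter on the side `e` of the curve through the cell `y`; `pt y true = rx y`. -/
def pt (y : M × Bool) (e : Bool) : Lt M := (opp y, if e then y.2 else !y.2)

/-- `l` is a subword of a reduced path of `S` read in one of the two directions. -/
def Hs (S : Set (FG M)) (l : List (Lt M × Bool)) : Prop := ∃ w, (w ∈ S ∨ w⁻¹ ∈ S) ∧ Has w l

/-- The word that passes through the cells of `B`. -/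
def pw (B : List (M × Bool)) : List (Lt M × Bool) :=
  B.flatMap fun y => [((y, false), false), ((y, true), true)]

namespace Sy

variable {m : V → V → ℕ} {n : ℕ} (Y : Sy m n M)

def On (X : Set V) (x : M × Bool) : Prop := ∃ p : V × ℕ, p.1 ∈ X ∧ p.2 < n ∧ x ∈ Y.cl p

def C (X : Set V) : Set (Lt M) := {z | Y.On X z.1}

def im (g : Art m) (S : Set (FG M)) : Set (FG M) := Y.ψ g '' S

def lam (g : Art m) (z : Lt M) : FG M := Y.ψ g (of z) * (of z)⁻¹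

open Classical in
noncomputable def sg (q : V × ℕ) (y : M × Bool) : FG M :=
  pp ((Y.cl q).takeWhile fun x => decide (x ≠ y)) * (ii y)⁻¹

/-- The path along the curve `q` from the cell `y` to the cell `y'` with winding `k`. -/
noncomputable def Rn (q : V × ℕ) (y : M × Bool) (k : ℤ) (y' : M × Bool) : FG M :=
  (Y.sg q y)⁻¹ * pp (Y.cl q) ^ k * Y.sg q y'

/-- A passage along `q`: entry at `y` on the side `e`, exit at `y'` on the side `e'`. -/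
def Pg (S : Set (FG M)) (q : V × ℕ) (y : M × Bool) (e : Bool) (k : ℤ) (y' : M × Bool) (e' : Bool) :
    Prop := Hs S ((pt y e, false) :: wd (Y.Rn q y k y') ++ [(pt y' e', true)])

/-- The cell `y` of `q` is a crossing with the colour `r` or the mark `r`. -/
def Bk (q : V × ℕ) (r : V ⊕ Bool) (y : M × Bool) : Prop :=
  y ∈ Y.cl q ∧ Sum.elim (fun x => Y.On {x} (opp y)) (fun k => y = (Y.mr q k, false)) r

/-- One cell or two consecutive cells of `q`, the last one being `z`. -/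
def Sg (q : V × ℕ) (B : List (M × Bool)) (z : M × Bool) : Prop :=
  B <:+: Y.cl q ∧ (B = [z] ∨ ∃ z₀, B = [z₀, z])

def Bl (q : V × ℕ) (r : V ⊕ Bool) (B : List (M × Bool)) : Prop :=
  (∃ z, Y.Sg q B z) ∧ ∀ y, y ∈ B ↔ Y.Bk q r y

def Cx (S : Set (FG M)) (h : V) (r : V ⊕ Bool) (k : ℤ) : Prop :=
  ∃ (q : V × ℕ) (B : List (M × Bool)) (y y' : M × Bool), q.1 = h ∧ q.2 < n ∧ Y.Bl q r B ∧ y ∈ B ∧
    y' ∈ B ∧ Y.Pg S q y false k y' true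

def Hh (kk : ℕ) (S : Set (FG M)) (h : V) (r : V ⊕ Bool) : Prop :=
  ∃ (q : V × ℕ) (B : List (M × Bool)) (y y' : M × Bool) (e : Bool) (k : ℤ), q.1 = h ∧ q.2 < n ∧
    Y.Bl q r B ∧ y ∈ B ∧ y' ∈ B ∧ k ≠ 0 ∧ (e = true ∨ q.2 < kk) ∧ Y.Pg S q y e k y' e

def Sd (kk : ℕ) (S : Set (FG M)) (h : V) (r : V ⊕ Bool) : Prop :=
  (∃ k, Y.Cx S h r k) ∨ Y.Hh kk S h r

def Ps (S : Set (FG M)) (h : V) (r : V ⊕ Bool) : Prop :=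
  ∃ (q : V × ℕ) (B : List (M × Bool)), q.1 = h ∧ q.2 < n ∧ Y.Bl q r B ∧ Hs S (pw B)

/-- `y` is the cell after `x` in the cyclic order of a curve. -/
def Nx (x y : M × Bool) : Prop := ∃ q, [x, y] <:+: Y.cl q ++ (Y.cl q).take 1

/-- The two letters are equal or the two halves of one edge. -/
def Ed (a b : Lt M) : Prop :=
  a = b ∨ (a.2 = true ∧ b.2 = false ∧ Y.Nx a.1 b.1) ∨ (a.2 = false ∧ b.2 = true ∧ Y.Nx b.1 a.1)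

/-- Edge paths from square to square. -/
inductive Pth : M → List (Lt M × Bool) → M → Prop
  | nil (μ : M) : Pth μ [] μ
  | cons {a b : Lt M} {l ν} : Y.Ed a b → Pth b.1.1 l ν → Pth a.1.1 ((a, true) :: (b, false) :: l) ν

def up (c : ℕ → V × ℕ) (k : ℕ) : M × Bool := (Y.cr (c k) (c (k + 1)), false)

def dn (c : ℕ → V × ℕ) (k : ℕ) : M × Bool := (Y.cr (c (k - 1)) (c k), true)

/-- A chain of curves. -/
structure Cn (X : Set V) (N : ℕ) (c : ℕ → V × ℕ) : Prop where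
  two : 2 ≤ N
  mem : ∀ k, (c k).1 ∈ X
  lt : ∀ k, 1 ≤ k → k ≤ N → (c k).2 < n
  inj : ∀ k k', 1 ≤ k → 1 ≤ k' → c k = c k' → k = k'
  adj : ∀ k, 1 ≤ k → k < N → Y.ad (c k) (c (k + 1))
  alt : ∀ k, (c k).1 = (c (k + 2)).1
  cell : ∀ k, 1 ≤ k → k ≤ N → ∀ x ∈ Y.cl (c k), Y.On X (opp x) →
    (k < N ∧ x = Y.up c k) ∨ (1 < k ∧ x = Y.dn c k)

/-- One free cell on each curve of a chain. -/
def At (X : Set V) (N : ℕ) (c : ℕ → V × ℕ) (z : ℕ → M × Bool) : Prop :=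
  ∀ k, 1 ≤ k → k ≤ N → z k ∈ Y.cl (c k) ∧ ¬ Y.On X (opp (z k))

/-- Every curve lies in a chain; the curves of index less than `kk` have even positions and the
second curve of each chain is one of them. -/
def Chs (kk : ℕ) (Λ : Set V) : Prop :=
  ∀ s ∈ Λ, ∀ t ∈ Λ, s ≠ t → m s t ≠ 2 → ∀ i < n, ∃ (c : ℕ → V × ℕ) (p : ℤ) (j : ℕ),
    Y.Cn {s, t} (m s t - 1) c ∧ (∀ k : ℕ, (c k).1 = yy s t (k + p)) ∧ 1 ≤ j ∧ j ≤ m s t - 1 ∧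
      c j = (t, i) ∧ (∀ k, 1 ≤ k → k ≤ m s t - 1 → (c k).2 < kk → k % 2 = 0) ∧ (c 2).2 < kk

/-- A homomorphism that remembers the exits of the free cells and the moving letters at crossings. -/
structure Ta [Group H] (N : ℕ) (c : ℕ → V × ℕ) (z : ℕ → M × Bool) (θ : FG M →* H)
    (F u ι : ℕ → H) : Prop where
  zz : ∀ k, 1 ≤ k → k ≤ N → θ (oo (z k)) = F k
  u1 : ∀ k, 1 ≤ k → k < N → θ (oo (Y.up c k)) = u k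
  d1 : ∀ k, 1 < k → k ≤ N → θ (ii (Y.dn c k)) = ι k
  uN : u N = 1
  i1 : ι 1 = 1
  rest : ∀ a : Lt M, (∀ k, 1 ≤ k → k ≤ N → a ≠ (z k, true) ∧ (k < N → a ≠ (Y.up c k, true)) ∧
    (1 < k → a ≠ (Y.dn c k, false))) → θ (of a) = 1

/-- The arcs across the first marks of the `t`-curves. -/
def S0 (t : V) : Set (FG M) :=
  {w | ∃ i < n, w = (oo (Y.mr (t, i) false, true))⁻¹ * ii (Y.mr (t, i) false, true)}

end Sy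

/-- Symmetric labels, finite and even inside `Λ`. -/
def Ev (m : V → V → ℕ) (Λ : Set V) : Prop :=
  (∀ s t, m s t = m t s) ∧ ∀ s ∈ Λ, ∀ t ∈ Λ, s ≠ t → m s t ≠ 0 ∧ m s t % 2 = 0

def Ok (m : V → V → ℕ) (Λ : Set V) (h : V) (r : V ⊕ Bool) : Prop :=
  ∀ x, r = Sum.inl x → x ∈ Λ ∧ h ≠ x ∧ m h x ≠ 2

/-! Words and paths. -/

def S_F3 : Prop := ∀ (L : Type) (C : Set L) (φ : FreeGroup L →* FreeGroup L), Function.Injective φ →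
  (∀ z ∈ C, φ (of z) ∈ Fre C) → (∀ z ∉ C, φ (of z) * (of z)⁻¹ ∈ Fre C) →
  ∀ (w : FreeGroup L) (g g' : L × Bool) (l : List (L × Bool)), g.1 ∉ C → g'.1 ∉ C →
    Has w (g :: l ++ [g']) → IsReduced (g :: wd (Fg.post φ g * φ (mk l) * Fg.pre φ g') ++ [g']) →
      Has (φ w) (g :: wd (Fg.post φ g * φ (mk l) * Fg.pre φ g') ++ [g'])

def S_F2 : Prop := ∀ (V M : Type) (m : V → V → ℕ) (n : ℕ) (Y : Sy m n M) (X : Set V) (g : Art m)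
  (S : Set (FG M)), g ∈ Par m X →
    (∀ (a b : Lt M) (w : FG M), a ∉ Y.C X → b ∉ Y.C X → w ∈ Fre (Y.C X) →
      Hs S ((a, false) :: wd w ++ [(b, true)]) →
        Hs (Y.im g S) ((a, false) :: wd ((Y.lam g a)⁻¹ * Y.ψ g w * Y.lam g b) ++ [(b, true)])) ∧
    (∀ (a b : Lt M × Bool) (l : List (Lt M × Bool)), a.1 ∉ Y.C X → b.1 ∉ Y.C X →
      (∀ x ∈ a :: l ++ [b], Y.ψ g (of x.1) = of x.1) → Hs S (a :: l ++ [b]) →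
        Hs (Y.im g S) (a :: l ++ [b])) ∧
    ∀ (a b : Lt M) (l : List (Lt M × Bool)), a ∉ Y.C X → b ∉ Y.C X →
      Hs S ((a, false) :: l ++ [(b, true)]) →
      IsReduced ((a, false) :: wd ((Y.lam g a)⁻¹ * Y.ψ g (mk l) * Y.lam g b) ++ [(b, true)]) →
        Hs (Y.im g S) ((a, false) :: wd ((Y.lam g a)⁻¹ * Y.ψ g (mk l) * Y.lam g b) ++ [(b, true)])

def S_PT : Prop := ∀ (V M : Type) (m : V → V → ℕ) (n : ℕ) (Y : Sy m n M),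
  (∀ x y y', Y.Nx x y → Y.Nx x y' → y = y') ∧ (∀ x x' y, Y.Nx x y → Y.Nx x' y → x = x') ∧
  (∀ μ l ν, Y.Pth μ l ν → Y.Pth μ (wd (mk l)) ν) ∧
  (∀ μ ν ρ u w, Y.Pth μ (wd u) ν → Y.Pth ν (wd w) ρ → Y.Pth μ (wd (u * w)) ρ) ∧
  (∀ μ l ν, Y.Pth μ l ν → Y.Pth ν (invRev l) μ) ∧
  (∀ q, ∀ y ∈ Y.cl q, ∀ y' ∈ Y.cl q, ∀ k, Y.Pth y.1 (wd (Y.Rn q y k y')) y'.1) ∧
  (∀ g z, Y.Pth z.1.1 (wd (Y.lam g z)) z.1.1) ∧
  ∀ g μ ν w, Y.Pth μ (wd w) ν → Y.Pth μ (wd (Y.ψ g w)) ν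

/-- The beginning of a path that leaves the block `B` through its last cell `z`. -/
def Bg (B : List (M × Bool)) (z : M × Bool) (μ : M) (l : List (Lt M × Bool)) : Prop :=
  l = [] ∨ (μ = z.1 ∧ l = [((z, true), true)]) ∨
    ∃ z₀, B = [z₀, z] ∧ μ = z₀.1 ∧ l = [((z₀, true), true), ((z, false), false), ((z, true), true)]

def S_WP : Prop := ∀ (V M : Type) (m : V → V → ℕ) (n : ℕ) (Y : Sy m n M) (X : Set V) (q : V × ℕ)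
  (B : List (M × Bool)) (z : M × Bool) (μ ν : M) (l : List (Lt M × Bool)), Y.Sg q B z →
    (∀ y ∈ B, ¬ Y.On X (opp y)) → Y.Pth μ l ν → IsReduced l → (∀ a ∈ l, a.1 ∈ Y.C X) →
      ¬ pw B <:+: l → ¬ invRev (pw B) <:+: l →
        ∃ l₁ l' l₂, l = l₁ ++ l' ++ invRev l₂ ∧ (∀ a ∈ l', a.1 ≠ (z, true)) ∧ Bg B z μ l₁ ∧ Bg B z ν l₂

def S_HP : Prop := ∀ (V M : Type) (m : V → V → ℕ) (n : ℕ) (Y : Sy m n M) (S : Set (FG M)) (q : V × ℕ)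
  (B B₀ : List (M × Bool)) (z z₀ y y' : M × Bool) (e e' : Bool) (k : ℤ), q.2 < n → Y.Sg q B z →
    Y.Sg q B₀ z₀ → y ∈ B₀ → y' ∈ B₀ → y ∉ B → y' ∉ B → k ≠ 0 → Y.Pg S q y e k y' e' → Hs S (pw B)

/-! The elementary moves. -/

def S_M1 : Prop := ∀ (V M : Type) (m : V → V → ℕ) (n : ℕ) (Y : Sy m n M) (kk : ℕ) (S : Set (FG M))
  (h a : V) (r : V ⊕ Bool) (j : ℤ), a ≠ h →
    (r ≠ Sum.inl a → Y.Ps S h r → Y.Ps (Y.im (PresentedGroup.of a ^ j) S) h r) ∧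
    (r ≠ Sum.inl a → Y.Cx S h r 0 → Y.Cx (Y.im (PresentedGroup.of a ^ j) S) h r 0) ∧
    (m a h = 2 → m h a = 2 →
      (∀ k, Y.Cx S h r k → Y.Cx (Y.im (PresentedGroup.of a ^ j) S) h r k) ∧
        (Y.Hh kk S h r → Y.Hh kk (Y.im (PresentedGroup.of a ^ j) S) h r))

def S_M0 : Prop := ∀ (V M : Type) (m : V → V → ℕ) (n : ℕ) (Y : Sy m n M) (S : Set (FG M))
  (q : V × ℕ) (y y' : M × Bool) (e e' : Bool) (k j : ℤ), q.2 < n → y ∈ Y.cl q → y' ∈ Y.cl q →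
    Y.Pg S q y e k y' e' → Y.Pg (Y.im (PresentedGroup.of q.1 ^ j) S) q y e
      (k - (if e then j else 0) + if e' then j else 0) y' e'

def S_M2 : Prop := ∀ (V M : Type) (m : V → V → ℕ) (n : ℕ) (Y : Sy m n M) (kk : ℕ) (Λ : Set V)
  (S : Set (FG M)) (h : V), Ev m Λ → Y.Chs kk Λ → h ∈ Λ →
    (∀ r ρ, Ok m Λ h ρ → ρ ≠ r → ((∃ k ≠ 0, Y.Cx S h r k) ∨ Y.Hh kk S h r) → Y.Ps S h ρ) ∧
    ∀ d, Ok m Λ h (Sum.inl d) → Y.Ps S d (Sum.inl h) → Y.Cx S h (Sum.inl d) 0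

def S_SH : Prop := ∀ (V M : Type) (m : V → V → ℕ) (n : ℕ) (Y : Sy m n M) (kk : ℕ) (Λ : Set V)
  (S : Set (FG M)) (h d : V) (j : ℤ), Ev m Λ → Y.Chs kk Λ → h ∈ Λ → Ok m Λ h (Sum.inl d) → j ≠ 0 →
    Y.Ps S h (Sum.inl d) → Y.Cx (Y.im (PresentedGroup.of d ^ j) S) h (Sum.inl d) 0

/-! The loops of a chain. -/

/-- The recursion of `LT.Pu` with values in any group and no initial condition. -/
structure Pv [Group G] (s t : G) (N : ℕ) (p : ℤ) (H : Type) [Group H] where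
  f : G → ℕ → H
  v : G → ℕ → H
  W : G → ℕ → H
  f0 : ∀ g, f g 0 = 1 ∧ f g (N + 1) = 1
  own : ∀ g ∈ Subgroup.closure {s, t}, ∀ k : ℕ, 1 ≤ k → k ≤ N →
    f (g * yy s t (k + p)) k = f g k ∧ v (g * yy s t (k + p)) k = v g k
  oth : ∀ g ∈ Subgroup.closure {s, t}, ∀ k : ℕ, 1 ≤ k → k ≤ N →
    f (g * yy s t (k + p + 1)) k = f g (k + 1) * f g k * (f g (k - 1))⁻¹ ∧
      v (g * yy s t (k + p + 1)) k = f g (k + 1) * v g k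
  arc : ∀ g ∈ Subgroup.closure {s, t}, ∀ k : ℕ, 1 ≤ k → k ≤ N → (k + p) % 2 = 1 →
    W (g * t) k = (v g k)⁻¹ * f g k * v g k * W g k ∧ W (g * s) k = W g k

def S_TA : Prop := ∀ (V M : Type) (m : V → V → ℕ) (n : ℕ) (Y : Sy m n M) (X : Set V) (N : ℕ)
  (c : ℕ → V × ℕ) (z : ℕ → M × Bool) (H : Type) [Group H] (F u ι : ℕ → H), Y.Cn X N c →
    Y.At X N c z → u N = 1 → ι 1 = 1 → ∃ θ : FG M →* H, Y.Ta N c z θ F u ι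

def S_CH : Prop := ∀ (V M : Type) (m : V → V → ℕ) (n : ℕ) (Y : Sy m n M) (s t : V) (N : ℕ) (p : ℤ)
  (c : ℕ → V × ℕ) (z : ℕ → M × Bool) (H : Type) [Group H] (θ : FG M →* H) (F u ι : ℕ → H) (i : ℕ)
  (y : M × Bool), s ≠ t → Y.Cn {s, t} N c → (∀ k : ℕ, (c k).1 = yy s t (k + p)) →
    Y.At {s, t} N c z → Y.Ta N c z θ F u ι → 1 ≤ i → i ≤ N → y ∈ Y.cl (c i) →
      ¬ Y.On {s, t} (opp y) →
      ∃ (Q : Pv (PresentedGroup.of s : Art m) (PresentedGroup.of t) N p H) (A : H),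
        (A = 1 ∨ A = F i) ∧
        (∀ k, 1 ≤ k → k ≤ N → Q.f 1 k = u k * F k * (ι k)⁻¹ ∧ Q.v 1 k = u k ∧ Q.W 1 k = 1) ∧
        ∀ e ∈ Par m {s, t}, θ (Y.lam e (rx y)) = A⁻¹ * Q.W e i * A ∧
          θ (Y.ψ e (Y.ell y)) = A⁻¹ * ((Q.v e i)⁻¹ * Q.f e i * Q.v e i) * A

def S_UQ : Prop := ∀ (G : Type) [Group G] (s t : G) (N : ℕ) (p : ℤ) (P : Pu s t N p) (H : Type)
  [Group H] (Q : Pv s t N p H) (ξ : FreeGroup ℕ →* H) (u : ℕ → H),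
    (∀ k, 1 ≤ k → k ≤ N → Q.f 1 k = ξ (of k) ∧ Q.v 1 k = u k ∧ Q.W 1 k = 1) →
      ∀ g ∈ Subgroup.closure {s, t}, ∀ k : ℕ, 1 ≤ k → k ≤ N → Q.f g k = ξ (P.f g k) ∧
        Q.v g k = ξ (P.v g k) * u k ∧ ((k + p) % 2 = 1 → Q.W g k = (u k)⁻¹ * ξ (P.W g k) * u k)

abbrev FH := FreeGroup (ℕ × Bool)

def ff (k : ℕ) : FH := of (k, false)

def et (N k : ℕ) : FH := if 1 ≤ k ∧ k ≤ N then of (k, true) else 1

/-- The curves of parity `π` are kept, the others are replaced by the sides they join. -/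
def xi (N π : ℕ) : FreeGroup ℕ →* FH :=
  FreeGroup.lift fun k => if k % 2 = π then ff k else et N (k + 1) * (et N (k - 1))⁻¹

def En [Group H] (o η : H) (K : Subgroup H) (w : H) : Prop :=
  ∃ (a b : ℤ) (κ δ δ' : H), κ ∈ K ∧ (δ = 1 ∨ δ = η) ∧ (δ' = 1 ∨ δ' = η) ∧
    w = o ^ a * δ * κ * δ'⁻¹ * o ^ b

def Bd [Group H] (o : H) (K : Subgroup H) (w : H) : Prop := ∃ a : ℤ, Bad o K (o ^ (-a) * w * o ^ a)

def S_DE : Prop := ∀ (V M : Type) (m : V → V → ℕ) (n : ℕ) (Y : Sy m n M) (kk : ℕ) (S : Set (FG M))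
  (γ γ' : V) (N π i : ℕ) (c : ℕ → V × ℕ) (z : ℕ → M × Bool) (θ : FG M →* FH) (y y' : M × Bool)
  (l : List (Lt M × Bool)), Y.Cn {γ, γ'} N c → (∀ k, (c k).1 = if k % 2 = π then γ else γ') →
    γ ≠ γ' → Y.At {γ, γ'} N c z →
    Y.Ta N c z θ (fun k => if k % 2 = π then ff k else 1)
      (fun k => if k % 2 = π then 1 else et N (k + 1)) (fun k => if k % 2 = π then 1 else et N (k - 1)) →
    1 ≤ i → i ≤ N → y ∈ Y.cl (c i) → y' ∈ Y.cl (c i) → ¬ Y.On {γ, γ'} (opp y) →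
    ¬ Y.On {γ, γ'} (opp y') → Y.Pth y.1 l y'.1 →
    (∀ a ∈ l, a.1 ∈ Y.C {γ, γ'}) → Hs S l → ¬ Y.Sd kk S γ (Sum.inl γ') →
      (i % 2 ≠ π → θ (mk l) ∈ Fre {x | x.2 = false ∧ x.1 % 2 = π ∧ ¬ (c x.1).2 < kk}) ∧
      (i % 2 = π → En (ff i) (et N i) (Fre {x | x.2 = false ∧ x.1 % 2 = π ∧ ¬ (c x.1).2 < kk})
        (θ (mk l)))

/-- The image of a passage with sides `e`, `e'` and winding `k` on the curve `i`. -/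
def Cw [Group G] {s t : G} {N : ℕ} {p : ℤ} (P : Pu s t N p) (g : G) (i : ℕ) (e : Bool) (k : ℤ)
    (e' : Bool) : FreeGroup ℕ :=
  (if e then (P.W g i)⁻¹ else 1) * ((P.v g i)⁻¹ * P.f g i * P.v g i) ^ k * if e' then P.W g i else 1

def Tp (i : ℕ) : Set ℕ := {k | k % 2 = i % 2}

def D0 : Set (ℕ × Bool) := {x | x.2 = false ∧ x.1 % 2 = 0 ∧ x.1 ≠ 2}

/-- What is left of the word `w` when no good passage on the curves of the colour of `i` exists. -/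
def Hown (N i : ℕ) (w : FreeGroup ℕ) : Prop :=
  (i % 2 = 1 → w ∈ Fre (Tp i)) ∧ (i % 2 = 0 → En (ff i) (et N i) (Fre D0) (xi N 0 w))

/-- The same for the other colour. -/
def Hoth (N i : ℕ) (w : FreeGroup ℕ) : Prop :=
  (i % 2 = 0 → w ∈ Fre (Tp i)ᶜ) ∧ (i % 2 = 1 → (et N (i + 1))⁻¹ * xi N 0 w * et N (i + 1) ∈ Fre D0)

/-- The data of a seed on the curve `i` of a chain. -/
structure Sdd {m : V → V → ℕ} {n : ℕ} (Y : Sy m n M) (S : Set (FG M)) (s t : V) (N : ℕ) (p : ℤ)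
    (c : ℕ → V × ℕ) (i : ℕ) (x : V ⊕ Bool) (B : List (M × Bool)) (y y' : M × Bool) (e e' : Bool)
    (k : ℤ) : Prop where
  ne : s ≠ t
  cn : Y.Cn {s, t} N c
  col : ∀ k : ℕ, (c k).1 = yy s t (k + p)
  i1 : 1 ≤ i
  iN : i ≤ N
  par : (i + p) % 2 = 1
  xs : x ≠ Sum.inl s
  xt : x ≠ Sum.inl t
  bl : Y.Bl (c i) x B
  y1 : y ∈ B
  y2 : y' ∈ B
  pg : Y.Pg S (c i) y e k y' e'

/-- The image of the seed. -/
def S_LI : Prop := ∀ (V M : Type) (m : V → V → ℕ) (n : ℕ) (Y : Sy m n M) (S : Set (FG M)) (s t : V)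
  (N : ℕ) (p : ℤ) (c : ℕ → V × ℕ) (i : ℕ) (x : V ⊕ Bool) (B : List (M × Bool)) (y y' : M × Bool)
  (e e' : Bool) (k : ℤ), Sdd Y S s t N p c i x B y y' e e' k → ¬ Y.On {s, t} (opp y) ∧
    ¬ Y.On {s, t} (opp y') ∧ ∀ g ∈ Par m {s, t}, ∃ l, Hs (Y.im g S) l ∧ IsReduced l ∧
      Y.Pth y.1 l y'.1 ∧ (∀ a ∈ l, a.1 ∈ Y.C {s, t}) ∧
      mk l = (if e then (Y.lam g (rx y))⁻¹ else 1) * Y.ψ g (Y.ell y) ^ k *
        (if e' then Y.lam g (rx y) else 1) * Y.Rn (c i) y 0 y'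

def S_LR : Prop := ∀ (V M : Type) (m : V → V → ℕ) (n : ℕ) (Y : Sy m n M) (S : Set (FG M)) (s t : V)
  (N : ℕ) (p : ℤ) (c : ℕ → V × ℕ) (i : ℕ) (x : V ⊕ Bool) (B : List (M × Bool)) (y y' : M × Bool)
  (e e' : Bool) (k : ℤ) (γ : V) (r : V ⊕ Bool), Sdd Y S s t N p c i x B y y' e e' k →
    r ≠ Sum.inl s → r ≠ Sum.inl t → (∀ j < n, ∃ B', Y.Bl (γ, j) r B') →
      ∃ P : Pu (PresentedGroup.of s : Art m) (PresentedGroup.of t) N p, ∀ g ∈ Par m {s, t},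
        ¬ Y.Ps (Y.im g S) γ r → (γ = s → Cw P g i e k e' ∈ Fre (Tp i)) ∧
          (γ = t → Bd (of i) (Fre (Tp i)ᶜ) (Cw P g i e k e'))

def S_LS : Prop := ∀ (V M : Type) (m : V → V → ℕ) (n : ℕ) (Y : Sy m n M) (S : Set (FG M)) (s t : V)
  (N : ℕ) (p : ℤ) (c : ℕ → V × ℕ) (i : ℕ) (x : V ⊕ Bool) (B : List (M × Bool)) (y y' : M × Bool)
  (e e' : Bool) (k : ℤ) (kk : ℕ), Sdd Y S s t N p c i x B y y' e e' k → N % 2 = 1 → (c 2).2 < kk →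
    ∃ P : Pu (PresentedGroup.of s : Art m) (PresentedGroup.of t) N p, ∀ g ∈ Par m {s, t},
      (¬ Y.Sd kk (Y.im g S) t (Sum.inl s) → Hown N i (Cw P g i e k e')) ∧
        (¬ Y.Sd kk (Y.im g S) s (Sum.inl t) → Hoth N i (Cw P g i e k e'))

/-! Counts. -/

/-- A row of the Hecke representation. -/
def Hk [Group G] (w x : G) (μ : ℝ) (f0 f1 : G → ℝ) : Prop :=
  (∀ g ∈ Subgroup.closure {w, x}, f0 (g * w) = f0 g ∧ f1 (g * w) = f1 g + μ * f0 g) ∧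
  (∀ g ∈ Subgroup.closure {w, x}, f1 (g * x) = f1 g ∧ f0 (g * x) = f0 g - μ * f1 g) ∧
    f0 1 = 1 ∧ f1 1 = 0

def S_H3 : Prop := ∀ (G : Type) [Group G] (w x Δ : G) (N : ℕ) (U : ℕ → ℝ) (f0 f1 : G → ℝ), Cheb N U →
  N % 2 = 1 → (∀ i, aa w x i (N + 1) = Δ) → Hk w x (U 2) f0 f1 → ∀ g ∈ Subgroup.closure {w, x},
    1 ≤ |f0 g| ∧ (|f0 g| = 1 → ∃ a k b : ℤ, g = x ^ a * Δ ^ k * w ^ b)

/-- The weighted exponent sum. -/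
noncomputable def ws {L : Type} (w : L → ℝ) (x : FreeGroup L) : ℝ :=
  Multiplicative.toAdd (FreeGroup.lift (fun a => Multiplicative.ofAdd (w a)) x)

/-- Weighted sums over the curves of the other colour (`ω`) and of the colour of `i` (`τ`). -/
def S_HF : Prop := ∀ (G : Type) [Group G] (s t : G) (N : ℕ) (p : ℤ) (P : Pu s t N p) (U : ℕ → ℝ)
  (i : ℕ), Cheb N U → 2 ≤ N → 1 ≤ i → i ≤ N → (i + p) % 2 = 1 →
    ∃ (ω τ : ℕ → ℝ) (f0 f1 f0' f1' : G → ℝ), Hk s t (U 2) f0 f1 ∧ Hk t s (U 2) f0' f1' ∧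
      (∀ k ∈ Tp i, ω k = 0) ∧ (∀ k ∉ Tp i, τ k = 0) ∧ τ i ≠ 0 ∧ τ 0 = 0 ∧ ω 0 = 0 ∧
      (∀ k, N < k → τ k = 0 ∧ ω k = 0) ∧
      (∀ k, 1 ≤ k → k ≤ N → U 2 * ω k = τ (k - 1) - τ (k + 1) ∧ U 2 * τ k = ω (k + 1) - ω (k - 1)) ∧
      ∀ g ∈ Subgroup.closure {s, t}, ws ω (P.f g i) = τ i * f1 g ∧
        U 2 * ws ω (P.W g i) = τ i * (1 - f0 g) ∧ ws τ (P.f g i) = τ i * f0' g ∧
          U 2 * ws τ (P.W g i) = τ i * f1' g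

def S_C1 : Prop := ∀ (G : Type) [Group G] (s t Δ : G) (N : ℕ) (p : ℤ) (P : Pu s t N p) (i : ℕ) (g : G),
  3 ≤ N → N % 2 = 1 → (∀ i, aa s t i (N + 1) = Δ) → 1 ≤ i → i ≤ N → (i + p) % 2 = 1 →
    g ∈ Subgroup.closure {s, t} →
    (P.W g i ∈ Fre (Tp i) → ∃ a k b : ℤ, g = t ^ a * Δ ^ k * s ^ b) ∧
    (Bd (of i) (Fre (Tp i)ᶜ) (P.W g i) → ∃ a k h b : ℤ, Tri h ∧ g = s ^ a * Δ ^ k * t ^ h * s ^ b) ∧
    ∀ e k, k ≠ 0 → (Cw P g i e k e ∈ Fre (Tp i) → ∃ a k : ℤ, g = t ^ a * Δ ^ k) ∧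
      (Bd (of i) (Fre (Tp i)ᶜ) (Cw P g i e k e) → ∃ a k b : ℤ, g = s ^ a * Δ ^ k * t ^ b)

def S_C2 : Prop := ∀ (G : Type) [Group G] (s t Δ : G) (N : ℕ) (p : ℤ) (P : Pu s t N p) (i : ℕ) (g : G),
  3 ≤ N → N % 2 = 1 → (∀ i, aa s t i (N + 1) = Δ) → 1 ≤ i → i ≤ N → (i + p) % 2 = 1 →
    g ∈ Subgroup.closure {s, t} →
    (Hown N i (P.W g i) → ∃ a k b : ℤ, g = t ^ a * Δ ^ k * s ^ b) ∧
    (Hoth N i (P.W g i) → ∃ a k : ℤ, g = s ^ a * Δ ^ k) ∧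
    ∀ e k, k ≠ 0 → (Hown N i (Cw P g i e k e) → ∃ a k : ℤ, g = t ^ a * Δ ^ k) ∧
      ¬ Hoth N i (Cw P g i e k e)

def S_D6 : Prop := ∀ (G : Type) [Group G] (d h : G) (μ : ℝ) (f0 f1 f0' f1' : G → ℝ)
  (deg : G →* Multiplicative ℤ), 2 ≤ μ * μ → Hk h d μ f0 f1 → Hk d h μ f0' f1' →
    deg d = Multiplicative.ofAdd 1 → deg h = Multiplicative.ofAdd 1 → ∀ p j q a b c : ℤ,
      p ≠ 0 → j ≠ 0 → a ≠ 0 → b ≠ 0 → h ^ p * d ^ j * h ^ q ≠ d ^ a * h ^ b * d ^ c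

/-! Powers of the Garside element. -/

def wA : ℕ → FreeGroup ℕ
  | 0 => 1
  | k + 1 => if k = 0 then 1 else of k * wA k

def wE (r : ℕ) : FreeGroup ℕ := pr (fun j => (of (2 * j + 2))⁻¹) r

def wO (r : ℕ) : FreeGroup ℕ := pr (fun j => (of (2 * j + 1))⁻¹) r

def wY (N : ℕ) : FreeGroup ℕ := wE (N / 2) * wA (N + 1)

def uR (N : ℕ) (k : ℤ) (i : ℕ) : FreeGroup ℕ :=
  if k % 2 = 0 then wA (i + 1) * wY N ^ (k / 2) * (wA (i + 1))⁻¹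
  else (wE ((N + 1 - i) / 2))⁻¹ * wY N ^ (k / 2 + 1) * (wA (i + 1))⁻¹

def uL (N : ℕ) (k : ℤ) (i : ℕ) : FreeGroup ℕ :=
  if i % 2 = 1 then
    (if k % 2 = 0 then (wO ((i + 1) / 2))⁻¹ else 1) * wO ((N + 1) / 2) ^ (k / 2) * wO ((i + 1) / 2)
  else (if k % 2 = 0 then (wE (i / 2))⁻¹ else wA (N + 1 - i + 1)) * wY N ^ (k / 2) * wE (i / 2)

/-- The position of the image of the curve `i`. -/
def ix (N : ℕ) (k : ℤ) (i : ℕ) : ℕ := if k % 2 = 0 then i else N + 1 - i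

def sn (k : ℤ) (i : ℕ) : ℤ := if k % 2 = 1 ∧ i % 2 = 0 then -1 else 1

def S_DF : Prop := ∀ (G : Type) [Group G] (s t Δ : G) (N : ℕ) (p : ℤ) (P : Pu s t N p) (i : ℕ) (k : ℤ),
  3 ≤ N → N % 2 = 1 → (∀ i, aa s t i (N + 1) = Δ) → 1 ≤ i → i ≤ N → (i + p) % 2 = 1 →
    P.W (Δ ^ k) i = (uL N k i)⁻¹ * uR N k i ∧
      (P.v (Δ ^ k) i)⁻¹ * P.f (Δ ^ k) i * P.v (Δ ^ k) i =
        (uL N k i)⁻¹ * of (ix N k i) ^ sn k i * uL N k i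

def S_Z1 : Prop := ∀ (N i : ℕ) (k : ℤ), 3 ≤ N → N % 2 = 1 → 1 ≤ i → i ≤ N →
  ((uL N k i)⁻¹ * uR N k i ∈ Fre (Tp i) → k = 0) ∧ (uR N k i ∈ Fre (Tp i) → k = 0) ∧
    (i % 2 = 0 → uL N k i ∈ Fre (Tp i) → k = 0)

def S_Z2 : Prop := ∀ (N i : ℕ) (k h : ℤ), 3 ≤ N → N % 2 = 1 → 1 ≤ i → i ≤ N → Tri h →
  Bd (of i) (Fre (Tp i)ᶜ) ((uL N k i)⁻¹ * of (ix N k i) ^ (sn k i * h) * uR N k i) →
    k = 0 ∨ (N = 3 ∧ k = 1 ∧ h = -1) ∨ (N = 3 ∧ k = -1 ∧ h = 1)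

def S_Z3 : Prop := ∀ (N i : ℕ) (k : ℤ), 3 ≤ N → N % 2 = 1 → 1 ≤ i → i ≤ N →
  (i % 2 = 1 → (et N (i + 1))⁻¹ * xi N 0 ((uL N k i)⁻¹ * uR N k i) * et N (i + 1) ∈ Fre D0 → k = 0) ∧
    (i % 2 = 0 → En (ff i) (et N i) (Fre D0) (xi N 0 ((uL N k i)⁻¹ * uR N k i)) → k = 0)

def S_Z4 : Prop := ∀ (N i : ℕ) (k : ℤ) (w : FreeGroup ℕ), 3 ≤ N → N % 2 = 1 → 1 ≤ i → i ≤ N →
  i % 2 = 0 → (w = uL N k i ∨ w = uR N k i) →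
    ((ix N k i ≠ 2 ∧ ∃ κ ∈ Fre D0, ∃ b : ℤ, xi N 0 w = κ * ff i ^ b ∨
      xi N 0 w = κ * (et N i)⁻¹ * ff i ^ b) ∨ (ix N k i = i ∧ ∃ b : ℤ, xi N 0 w = ff i ^ b)) → k = 0

/-- Free factors are malnormal. -/
def S_MN : Prop := ∀ (L : Type) (D : Set L) (u a : FreeGroup L), a ∈ Fre D → a ≠ 1 →
  u⁻¹ * a * u ∈ Fre D → u ∈ Fre D

def S_CJ : Prop := ∀ (L : Type) (D : Set L) (o η F : L) (k : ℤ) (w : FreeGroup L), η ∉ D → η ≠ o →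
  η ≠ F → k ≠ 0 → En (of o) (of η) (Fre D) (w⁻¹ * of F ^ k * w) →
    (F ∈ D ∧ ∃ κ ∈ Fre D, ∃ b : ℤ, w = κ * of o ^ b ∨ w = κ * (of η)⁻¹ * of o ^ b) ∨
      (F = o ∧ ∃ b : ℤ, w = of o ^ b)

def S_PD : Prop := ∀ (G : Type) [Group G] (s t Δ : G) (N : ℕ) (p : ℤ) (P : Pu s t N p) (i : ℕ) (k : ℤ),
  3 ≤ N → N % 2 = 1 → (∀ i, aa s t i (N + 1) = Δ) → 1 ≤ i → i ≤ N → (i + p) % 2 = 1 →
    (P.W (Δ ^ k) i ∈ Fre (Tp i) ∨ Hown N i (P.W (Δ ^ k) i) ∨ Hoth N i (P.W (Δ ^ k) i) → k = 0) ∧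
    (∀ h, Tri h → Bd (of i) (Fre (Tp i)ᶜ) (P.W (Δ ^ k * t ^ h) i) →
      ∃ a b c : ℤ, Δ ^ k * t ^ h = s ^ a * t ^ b * s ^ c) ∧
    ∀ e j, j ≠ 0 → (e = true ∨ i % 2 = 0) → Cw P (Δ ^ k) i e j e ∈ Fre (Tp i) ∨
      Bd (of i) (Fre (Tp i)ᶜ) (Cw P (Δ ^ k) i e j e) ∨ Hown N i (Cw P (Δ ^ k) i e j e) → k = 0

/-- The dihedral step in the abstract. `Q g` says that the wanted configuration is absent at `g`. -/
def S_AL : Prop := ∀ (G : Type) [Group G] (s t Δ : G) (N : ℕ) (p : ℤ) (P : Pu s t N p) (i : ℕ)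
  (e e' : Bool) (k : ℤ) (Q : G → Prop) (g : G), 3 ≤ N → N % 2 = 1 → (∀ i, aa s t i (N + 1) = Δ) →
    1 ≤ i → i ≤ N → (i + p) % 2 = 1 →
    ((e = false ∧ e' = true) ∨ (e = e' ∧ k ≠ 0 ∧ (e = true ∨ i % 2 = 0))) →
    g ∈ Subgroup.closure {s, t} → Q g →
    ((∀ g j, Q g → Q (t ^ (j : ℤ) * g)) →
      ((∀ g ∈ Subgroup.closure {s, t}, Q g → Cw P g i e k e' ∈ Fre (Tp i)) ∨
        ∀ g ∈ Subgroup.closure {s, t}, Q g → Hown N i (Cw P g i e k e')) →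
      ∃ a b c : ℤ, g = t ^ a * s ^ b * t ^ c) ∧
    ((∀ g j, Q g → Q (s ^ (j : ℤ) * g)) →
      ((∀ g ∈ Subgroup.closure {s, t}, Q g → Bd (of i) (Fre (Tp i)ᶜ) (Cw P g i e k e')) →
        ∃ a b c d : ℤ, g = s ^ a * t ^ b * s ^ c * t ^ d) ∧
      ((∀ g ∈ Subgroup.closure {s, t}, Q g → Hoth N i (Cw P g i e k e')) →
        ∃ a c : ℤ, g = s ^ a * t ^ c))

def S_LL : Prop := ∀ (V M : Type) (m : V → V → ℕ) (n : ℕ) (Y : Sy m n M) (kk : ℕ) (Λ : Set V)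
  (S : Set (FG M)) (s t : V) (x : V ⊕ Bool) (g : Art m), Ev m Λ → Y.Chs kk Λ → t ∈ Λ →
    Ok m Λ t (Sum.inl s) → x ≠ Sum.inl s → x ≠ Sum.inl t → Y.Sd kk S t x → g ∈ Par m {s, t} →
    (∀ r, Ok m Λ s r → r ≠ Sum.inl t → Y.Ps (Y.im g S) s r ∨ ∃ a b c : ℤ,
      g = PresentedGroup.of t ^ a * PresentedGroup.of s ^ b * PresentedGroup.of t ^ c) ∧
    (∀ r, Ok m Λ t r → r ≠ Sum.inl s → Y.Ps (Y.im g S) t r ∨ ∃ a b c d : ℤ, g = PresentedGroup.of s ^ a *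
      PresentedGroup.of t ^ b * PresentedGroup.of s ^ c * PresentedGroup.of t ^ d) ∧
    (Y.Sd kk (Y.im g S) t (Sum.inl s) ∨ ∃ a b c : ℤ,
      g = PresentedGroup.of t ^ a * PresentedGroup.of s ^ b * PresentedGroup.of t ^ c) ∧
    (Y.Sd kk (Y.im g S) s (Sum.inl t) ∨ ∃ a c : ℤ, g = PresentedGroup.of s ^ a * PresentedGroup.of t ^ c)

/-! The induction on the number of syllables. -/

structure Ax [Group G] (r : V → G) (Λ : Set V) (t₀ : V) where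
  cr : V → V → Prop
  Cx : G → V → V ⊕ Bool → ℤ → Prop
  Hh : G → V → V ⊕ Bool → Prop
  Ps : G → V → V ⊕ Bool → Prop
  sy : ∀ a b, cr a b → cr b a
  ne : ∀ a b, cr a b → a ≠ b
  cm : ∀ a ∈ Λ, ∀ b ∈ Λ, ¬ cr a b → Commute (r a) (r b)
  base : Cx 1 t₀ (Sum.inr false) 0
  ps1 : ∀ g h ρ a (j : ℤ), a ≠ h → ρ ≠ Sum.inl a → Ps g h ρ → Ps (r a ^ j * g) h ρ
  cx1 : ∀ g h ρ a (j : ℤ), a ≠ h → ρ ≠ Sum.inl a → Cx g h ρ 0 → Cx (r a ^ j * g) h ρ 0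
  cx2 : ∀ g, ∀ h ∈ Λ, ∀ ρ, ∀ a ∈ Λ, ∀ (j k : ℤ), a ≠ h → ¬ cr a h → Cx g h ρ k → Cx (r a ^ j * g) h ρ k
  hh2 : ∀ g, ∀ h ∈ Λ, ∀ ρ, ∀ a ∈ Λ, ∀ j : ℤ, a ≠ h → ¬ cr a h → Hh g h ρ → Hh (r a ^ j * g) h ρ
  cx0 : ∀ g h ρ (j k : ℤ), Cx g h ρ k → Cx (r h ^ j * g) h ρ (k + j)
  hp : ∀ g, ∀ h ∈ Λ, ∀ x ρ, (∀ a, ρ = Sum.inl a → a ∈ Λ ∧ cr h a) → ρ ≠ x →
    ((∃ k ≠ 0, Cx g h x k) ∨ Hh g h x) → Ps g h ρ
  sh : ∀ g, ∀ h ∈ Λ, ∀ d ∈ Λ, ∀ j : ℤ, cr h d → j ≠ 0 → Ps g h (Sum.inl d) → Cx (r d ^ j * g) h (Sum.inl d) 0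
  pi : ∀ g, ∀ h ∈ Λ, ∀ d ∈ Λ, cr h d → Ps g d (Sum.inl h) → Cx g h (Sum.inl d) 0
  loc : ∀ g, ∀ s ∈ Λ, ∀ t ∈ Λ, ∀ x, ∀ e ∈ Subgroup.closure {r s, r t}, cr s t → x ≠ Sum.inl s → x ≠ Sum.inl t →
    ((∃ k, Cx g t x k) ∨ Hh g t x) →
    (∀ ρ, (∀ a, ρ = Sum.inl a → a ∈ Λ ∧ cr s a) → ρ ≠ Sum.inl t →
      Ps (e * g) s ρ ∨ ∃ a b c : ℤ, e = r t ^ a * r s ^ b * r t ^ c) ∧
    (∀ ρ, (∀ a, ρ = Sum.inl a → a ∈ Λ ∧ cr t a) → ρ ≠ Sum.inl s →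
      Ps (e * g) t ρ ∨ ∃ a b c d : ℤ, e = r s ^ a * r t ^ b * r s ^ c * r t ^ d) ∧
    (((∃ k, Cx (e * g) t (Sum.inl s) k) ∨ Hh (e * g) t (Sum.inl s)) ∨
      ∃ a b c : ℤ, e = r t ^ a * r s ^ b * r t ^ c) ∧
    (((∃ k, Cx (e * g) s (Sum.inl t) k) ∨ Hh (e * g) s (Sum.inl t)) ∨ ∃ a c : ℤ, e = r s ^ a * r t ^ c)
  df6 : ∀ h ∈ Λ, ∀ d ∈ Λ, cr h d → ∀ p j q a b c : ℤ, p ≠ 0 → j ≠ 0 → a ≠ 0 → b ≠ 0 →
    r h ^ p * r d ^ j * r h ^ q ≠ r d ^ a * r h ^ b * r d ^ c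

/-- The least number of syllables in the coset of `g`. -/
noncomputable def ln [Group G] (r : V → G) (Λ : Set V) (t₀ : V) (g : G) : ℕ :=
  sInf {k | ∃ l : List (V × ℤ), (∀ y ∈ l, y.1 ∈ Λ) ∧
    ∃ q ∈ Subgroup.closure (r '' (Λ \ {t₀})), g = ev r l * q ∧ l.length = k}

def Ds [Group G] (r : V → G) (Λ : Set V) (t₀ : V) (g : G) (a : V) : Prop :=
  ∃ p : ℤ, ln r Λ t₀ (r a ^ p * g) < ln r Λ t₀ g

def Ax.SS [Group G] {r : V → G} {Λ : Set V} {t₀ : V} (A : Ax r Λ t₀) (v : G) (h : V) (x : V ⊕ Bool) :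
    Prop :=
  ((∃ k, A.Cx v h x k) ∨ A.Hh v h x) ∧ ∀ p : ℤ, ln r Λ t₀ (r h ^ p * v) = ln r Λ t₀ v + 1 →
    ∀ ρ, (∀ a, ρ = Sum.inl a → a ∈ Λ ∧ A.cr h a) → ρ ≠ x → A.Ps (r h ^ p * v) h ρ

def S_LN : Prop := ∀ (V G : Type) [Group G] (r : V → G) (Λ : Set V) (t₀ : V),
  ∀ g ∈ Subgroup.closure (r '' Λ),
    (∀ l : List (V × ℤ), (∀ y ∈ l, y.1 ∈ Λ) → ln r Λ t₀ (ev r l * g) ≤ l.length + ln r Λ t₀ g) ∧
    (ln r Λ t₀ g = 0 ↔ g ∈ Subgroup.closure (r '' (Λ \ {t₀}))) ∧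
    ∀ k, ln r Λ t₀ g = k + 1 → ∃ a ∈ Λ, ∃ p : ℤ, ∃ g' ∈ Subgroup.closure (r '' Λ),
      g = r a ^ p * g' ∧ ln r Λ t₀ g' = k

def S_TT : Prop := ∀ (V G : Type) [Group G] (r : V → G) (Λ : Set V) (t₀ : V) (A : Ax r Λ t₀),
  ∀ d ∈ Λ, ∀ h ∈ Λ, ∀ v ∈ Subgroup.closure (r '' Λ), ∀ (E : List (V × ℤ)) (h' : V) (x : V ⊕ Bool),
    A.cr h d → E ≠ [] → (∀ y ∈ E, y.1 = d ∨ y.1 = h) →
    ln r Λ t₀ (ev r E * v) = E.length + ln r Λ t₀ v → ¬ Ds r Λ t₀ (ev r E * v) h →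
    (h' = d ∨ h' = h) → x ≠ Sum.inl d → x ≠ Sum.inl h → A.SS v h' x →
      A.SS (ev r E * v) h (Sum.inl d) ∨ (E.length = 1 ∧ h' = h ∧ A.SS (ev r E * v) h x)

def S_UU : Prop := ∀ (V G : Type) [Group G] (r : V → G) (Λ : Set V) (t₀ : V) (A : Ax r Λ t₀),
  ∀ v ∈ Subgroup.closure (r '' Λ), ∀ h ∈ Λ, ¬ Ds r Λ t₀ v h →
    (∃ p : ℤ, ln r Λ t₀ (r h ^ p * v) = ln r Λ t₀ v + 1) → ∃ x, x ≠ Sum.inr true ∧ A.SS v h x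

def S_GL : Prop := ∀ (V G : Type) [Group G] (r : V → G) (Λ : Set V) (t₀ : V) (A : Ax r Λ t₀),
  ∀ s₀ ∈ Λ, ∀ g ∈ Subgroup.closure (r '' Λ), (¬ ∃ p ∈ Subgroup.closure (r '' (Λ \ {s₀})),
    ∃ q ∈ Subgroup.closure (r '' (Λ \ {t₀})), g = p * q) → A.Ps g s₀ (Sum.inr true)

/-! The plumbing. -/

def S_LV : Prop := ∀ N n : ℕ, 3 ≤ N → N % 2 = 1 → N ∣ n → 3 ∣ n → ∃ π : Equiv.Perm ℕ,
  (∀ i, π i < n ↔ i < n) ∧ (∀ i < n / 3, π i % N % 2 = 1) ∧ ∀ r, r * N + N ≤ n → π.symm (r * N + 1) < n / 3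

def S_TS : Prop := ∀ (V : Type) [Finite V] (m : V → V → ℕ) (n lo : ℕ) (lv : V → V → Equiv.Perm ℕ),
  (∀ s t, m s t = m t s) → (∀ s t, s ≠ t → m s t ≠ 0 → m s t - 1 ∣ n) →
  (∀ s t i, lv s t i < n ↔ i < n) → ∃ (R : Rep m lo (lo + 1)) (Y : Sy m n (Nm V)),
    Y.ad = Cl.Aj m n lv ∧ (∀ p k X, p.1 ∈ X → R.Mark X (Y.mr p k)) ∧
      (∀ p q, Y.mr p true ≠ Y.mr q false) ∧ ∀ g ν μ, R.ψ g (lb ν) ∈ Fre {(μ, 0)}ᶜ →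
        Y.ψ g ((oo (ν, true))⁻¹ * ii (ν, true)) ∈ Fre {((μ, false), true)}ᶜ

def S_CS : Prop := ∀ (V M : Type) (m : V → V → ℕ) (n : ℕ) (Y : Sy m n M) (Λ : Set V)
  (lv : V → V → Equiv.Perm ℕ), Ev m Λ → Y.ad = Cl.Aj m n lv → (∀ s t i, lv s t i < n ↔ i < n) →
    (∀ s ∈ Λ, ∀ t ∈ Λ, s ≠ t → m s t ≠ 2 → m s t - 1 ∣ n ∧
      (∀ i < n / 3, lv s t i % (m s t - 1) % 2 = 1) ∧
        ∀ r, r * (m s t - 1) + (m s t - 1) ≤ n → (lv s t).symm (r * (m s t - 1) + 1) < n / 3) →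
      Y.Chs (n / 3) Λ

def S_AX : Prop := ∀ (V M : Type) (m : V → V → ℕ) (n : ℕ) (Y : Sy m n M) (kk : ℕ) (Λ : Set V) (t₀ : V),
  Ev m Λ → Y.Chs kk Λ → 0 < n → ∃ A : Ax (PresentedGroup.of : V → Art m) Λ t₀,
    ∀ g h ρ, A.Ps g h ρ → Y.Ps (Y.im g (Y.S0 t₀)) h ρ

def S_DC : Prop := ∀ (V : Type) [Finite V] (m : V → V → ℕ) (Λ : Set V),
  (∀ s t, s ≠ t → m s t ≠ 1) → Ev m Λ → ∀ s ∈ Λ, ∀ t ∈ Λ, Dc m Λ {s} {t}

end Pool.Agent.MP_6eaae3_al.EV
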